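import Mathlib

/-!
# Random Steinhaus power series: definitions

`r(B)` and `r(BMOA)` for power series with random phases.
-/

set_option autoImplicit false

open MeasureTheory ProbabilityTheory Set Filter Topology
open scoped ENNReal

namespace Pool.Agent.P8H68.RB

/-- `α 0, α 1, …` are independent random variables, each uniformly distributed on `[0, 2π]` -/
structure IsSteinhaus {Ω : Type} [MeasurableSpace Ω] (P : Measure Ω) (α : ℕ → Ω → ℝ) : Prop where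
  meas : ∀ k, Measurable (α k)
  indep : iIndepFun α P
  law : ∀ k, P.map (α k) = ProbabilityTheory.cond volume (Icc (0 : ℝ) (2 * Real.pi))

/-- the power series with coefficients `c` -/
noncomputable def series (c : ℕ → ℂ) (z : ℂ) : ℂ := ∑' k : ℕ, c k * z ^ k

/-- the random power series `f(z, α) = ∑ a_k e^{iα_k} z^k` -/
noncomputable def randomSeries (a : ℕ → ℂ) (α : ℕ → ℝ) : ℂ → ℂ :=
  series fun k => a k * Complex.exp ((α k : ℂ) * Complex.I)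

/-- the Bloch space -/
def InBloch (g : ℂ → ℂ) : Prop :=
  DifferentiableOn ℂ g (Metric.ball 0 1) ∧
    ∃ C : ℝ, ∀ z ∈ Metric.ball (0 : ℂ) 1, (1 - ‖z‖ ^ 2) * ‖deriv g z‖ ≤ C

/-- `b`, a function of the angle, is the boundary function of `g`: it is `2π`-periodic, square
integrable over a period, and `g(re^{iθ}) → b(θ)` in `L²` as `r → 1⁻` -/
structure IsBoundaryFunction (g : ℂ → ℂ) (b : ℝ → ℂ) : Prop where
  periodic : Function.Periodic b (2 * Real.pi)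
  memLp : MemLp b 2 (volume.restrict (Ioc 0 (2 * Real.pi)))
  lim : Tendsto (fun r : ℝ => ∫ θ in (0:ℝ)..(2 * Real.pi),
    ‖g (r * Complex.exp (θ * Complex.I)) - b θ‖ ^ 2) (𝓝[<] 1) (𝓝 0)

/-- the mean of `b` over the arc `{e^{iθ} : x < θ < y}` -/
noncomputable def arcMean (b : ℝ → ℂ) (x y : ℝ) : ℂ := (((y - x)⁻¹ : ℝ) : ℂ) * ∫ θ in x..y, b θ

/-- `b` (a `2π`-periodic function of the angle) has mean oscillation at most `C` over all arcs -/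
def OscLE (b : ℝ → ℂ) (C : ℝ) : Prop :=
  ∀ x y : ℝ, x < y → y - x ≤ 2 * Real.pi → (y - x)⁻¹ * ∫ θ in x..y, ‖b θ - arcMean b x y‖ ≤ C

/-- `BMOA`: functions of the Hardy space `H²` whose boundary function has bounded mean
oscillation -/
def InBMOA (g : ℂ → ℂ) : Prop :=
  DifferentiableOn ℂ g (Metric.ball 0 1) ∧
  (∃ C : ℝ, ∀ r : ℝ, 0 < r → r < 1 →
    ∫ θ in (0:ℝ)..(2 * Real.pi), ‖g (r * Complex.exp (θ * Complex.I))‖ ^ 2 ≤ C) ∧
  ∃ b : ℝ → ℂ, IsBoundaryFunction g b ∧ ∃ C : ℝ, OscLE b C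

/-- `e^{ikt}` -/
noncomputable def ex (k : ℕ) (t : ℝ) : ℂ := Complex.exp (((k : ℝ) * t : ℝ) * Complex.I)

/-- `(∑_{k ∈ s} b_k² |e^{ikt} - 1|²)^{1/2}` -/
noncomputable def dd (s : Finset ℕ) (b : ℕ → ℝ) (t : ℝ) : ℝ :=
  √(∑ k ∈ s, b k ^ 2 * ‖ex k t - 1‖ ^ 2)

/-- the proportion of the `t ∈ [0, 2π]` with `(∑_{k ∈ s} b_k² |e^{ikt} - 1|²)^{1/2} ≤ ε` -/
noncomputable def mu (s : Finset ℕ) (b : ℕ → ℝ) (ε : ℝ) : ℝ :=
  (volume {t : ℝ | t ∈ Icc 0 (2 * Real.pi) ∧ dd s b t ≤ ε}).toReal / (2 * Real.pi)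

/-- the entropy integral `∫_0^∞ (log (1 / μ(ε)))^{1/2} dε` of the coefficients `b_k`, `k ∈ s` -/
noncomputable def J (s : Finset ℕ) (b : ℕ → ℝ) : ℝ≥0∞ :=
  ∫⁻ ε in Ioi (0 : ℝ), ENNReal.ofReal √(Real.log (1 / mu s b ε))

/-- the entropy integrals of the dyadic blocks of `a` are bounded -/
def BlochCondition (a : ℕ → ℂ) : Prop :=
  ∃ C : ℝ, ∀ n : ℕ, J (Finset.Ico (2 ^ n) (2 ^ (n + 1))) (fun k => ‖a k‖) ≤ ENNReal.ofReal C

/-- the entropy integrals of the sequences `(u_{⌊k/2^n⌋} a_k)`, `2^n ≤ k < (M+1) 2^n`, are bounded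
uniformly in `n`, `M` and `u_1, …, u_M` real with `u_1² + … + u_M² ≤ 1` -/
def BMOACondition (a : ℕ → ℂ) : Prop :=
  ∃ C : ℝ, ∀ (n M : ℕ) (u : ℕ → ℝ), ∑ m ∈ Finset.Icc 1 M, u m ^ 2 ≤ 1 →
    J (Finset.Ico (2 ^ n) ((M + 1) * 2 ^ n)) (fun k => u (k / 2 ^ n) * ‖a k‖) ≤ ENNReal.ofReal C

end Pool.Agent.P8H68.RB
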