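import Pool.Agent.P8H68.RB.Base

/-!
# Basic lemmas on `ex`, `dd`, `mu`
-/

set_option autoImplicit false

open MeasureTheory ProbabilityTheory Set Filter Topology
open scoped ENNReal

namespace Pool.Agent.P8H68.RB

lemma norm_ex (k : ℕ) (t : ℝ) : ‖ex k t‖ = 1 := by
  rw [ex, Complex.norm_exp_ofReal_mul_I]

lemma ex_zero (k : ℕ) : ex k 0 = 1 := by simp [ex]

lemma ex_zero_left (t : ℝ) : ex 0 t = 1 := by simp [ex]

lemma ex_add (k : ℕ) (s t : ℝ) : ex k (s + t) = ex k s * ex k t := by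
  rw [ex, ex, ex, ← Complex.exp_add]
  congr 1
  push_cast
  ring

lemma ex_add_left (k l : ℕ) (t : ℝ) : ex (k + l) t = ex k t * ex l t := by
  rw [ex, ex, ex, ← Complex.exp_add]
  congr 1
  push_cast
  ring

lemma ex_neg (k : ℕ) (t : ℝ) : ex k (-t) * ex k t = 1 := by
  rw [← ex_add, neg_add_cancel, ex_zero]

lemma ex_eq_pow (k : ℕ) (t : ℝ) : ex k t = Complex.exp (t * Complex.I) ^ k := by
  rw [ex, ← Complex.exp_nat_mul]
  congr 1
  push_cast
  ring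

lemma ex_two_pi (k : ℕ) : ex k (2 * Real.pi) = 1 := by
  rw [ex_eq_pow]
  have : Complex.exp (((2 * Real.pi : ℝ) : ℂ) * Complex.I) = 1 := by
    rw [Complex.exp_eq_one_iff]
    exact ⟨1, by push_cast; ring⟩
  rw [this, one_pow]

lemma ex_periodic (k : ℕ) : Function.Periodic (ex k) (2 * Real.pi) := by
  intro t
  rw [ex_add, ex_two_pi, mul_one]

lemma continuous_ex (k : ℕ) : Continuous (ex k) := by
  unfold ex
  fun_prop

lemma ex_ne_zero (k : ℕ) (t : ℝ) : ex k t ≠ 0 := by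
  intro h
  have := norm_ex k t
  rw [h, norm_zero] at this
  norm_num at this

/-- `|e^{iks} - e^{ikt}| = |e^{ik(s-t)} - 1|` -/
lemma norm_ex_sub (k : ℕ) (s t : ℝ) : ‖ex k s - ex k t‖ = ‖ex k (s - t) - 1‖ := by
  have h : ex k s - ex k t = (ex k (s - t) - 1) * ex k t := by
    rw [sub_mul, ← ex_add, sub_add_cancel, one_mul]
  rw [h, norm_mul, norm_ex, mul_one]

lemma norm_ex_sub_one_le (k : ℕ) (t : ℝ) : ‖ex k t - 1‖ ≤ k * |t| := by
  rw [ex]
  have := Real.norm_exp_I_mul_ofReal_sub_one_le (x := (k : ℝ) * t)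
  rw [mul_comm Complex.I] at this
  refine this.trans (le_of_eq ?_)
  rw [Real.norm_eq_abs, abs_mul, Nat.abs_cast]

lemma norm_ex_sub_one_le_two (k : ℕ) (t : ℝ) : ‖ex k t - 1‖ ≤ 2 := by
  have := norm_sub_le (ex k t) 1
  rw [norm_ex, norm_one] at this
  linarith

lemma norm_ex_neg_sub_one (k : ℕ) (t : ℝ) : ‖ex k (-t) - 1‖ = ‖ex k t - 1‖ := by
  have h := norm_ex_sub k 0 t
  rw [ex_zero, zero_sub, norm_sub_rev] at h
  exact h.symm

/-- Minkowski's inequality -/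
lemma sqrt_sum_add_le (s : Finset ℕ) (f g : ℕ → ℝ) :
    √(∑ k ∈ s, (f k + g k) ^ 2) ≤ √(∑ k ∈ s, f k ^ 2) + √(∑ k ∈ s, g k ^ 2) := by
  rw [Real.sqrt_le_left (by positivity)]
  have h1 : 0 ≤ ∑ k ∈ s, f k ^ 2 := Finset.sum_nonneg fun k _ => sq_nonneg _
  have h2 : 0 ≤ ∑ k ∈ s, g k ^ 2 := Finset.sum_nonneg fun k _ => sq_nonneg _
  have h3 : ∑ k ∈ s, f k * g k ≤ √(∑ k ∈ s, f k ^ 2) * √(∑ k ∈ s, g k ^ 2) :=
    Real.sum_mul_le_sqrt_mul_sqrt s f g
  have h4 : ∑ k ∈ s, (f k + g k) ^ 2 =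
      ∑ k ∈ s, f k ^ 2 + 2 * ∑ k ∈ s, f k * g k + ∑ k ∈ s, g k ^ 2 := by
    rw [Finset.mul_sum, ← Finset.sum_add_distrib, ← Finset.sum_add_distrib]
    exact Finset.sum_congr rfl fun k _ => by ring
  rw [h4, add_sq, Real.sq_sqrt h1, Real.sq_sqrt h2]
  linarith

lemma sqrt_sum_mono {s : Finset ℕ} {f g : ℕ → ℝ} (h : ∀ k ∈ s, |f k| ≤ |g k|) :
    √(∑ k ∈ s, f k ^ 2) ≤ √(∑ k ∈ s, g k ^ 2) :=
  Real.sqrt_le_sqrt (Finset.sum_le_sum fun k hk => sq_le_sq.2 (h k hk))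

section
variable (s : Finset ℕ) (b : ℕ → ℝ)

lemma dd_nonneg (t : ℝ) : 0 ≤ dd s b t := Real.sqrt_nonneg _

lemma dd_eq (t : ℝ) : dd s b t = √(∑ k ∈ s, (b k * ‖ex k t - 1‖) ^ 2) := by
  simp only [dd, mul_pow]

lemma dd_sq (t : ℝ) : dd s b t ^ 2 = ∑ k ∈ s, b k ^ 2 * ‖ex k t - 1‖ ^ 2 :=
  Real.sq_sqrt (Finset.sum_nonneg fun k _ => by positivity)

lemma dd_zero : dd s b 0 = 0 := by simp [dd, ex_zero]

lemma dd_neg (t : ℝ) : dd s b (-t) = dd s b t := by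
  simp only [dd, norm_ex_neg_sub_one]

lemma dd_sub_comm (x y : ℝ) : dd s b (x - y) = dd s b (y - x) := by
  rw [← dd_neg, neg_sub]

lemma dd_add_le (x y : ℝ) : dd s b (x + y) ≤ dd s b x + dd s b y := by
  rw [dd_eq, dd_eq, dd_eq]
  refine le_trans ?_ (sqrt_sum_add_le s (fun k => b k * ‖ex k x - 1‖) (fun k => b k * ‖ex k y - 1‖))
  refine sqrt_sum_mono fun k _ => ?_
  rw [← mul_add, abs_mul, abs_mul]
  refine mul_le_mul_of_nonneg_left ?_ (abs_nonneg _)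
  rw [abs_of_nonneg (norm_nonneg _), abs_of_nonneg (by positivity)]
  have h : ex k (x + y) - 1 = (ex k x - 1) * ex k y + (ex k y - 1) := by
    rw [ex_add]; ring
  rw [h]
  refine (norm_add_le _ _).trans ?_
  rw [norm_mul, norm_ex, mul_one]

lemma dd_sub_le (x y z : ℝ) : dd s b (x - z) ≤ dd s b (x - y) + dd s b (y - z) := by
  have := dd_add_le s b (x - y) (y - z)
  rwa [sub_add_sub_cancel] at this

lemma dd_periodic : Function.Periodic (dd s b) (2 * Real.pi) := by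
  intro t
  simp only [dd, ex_periodic _ t]

lemma continuous_dd : Continuous (dd s b) := by
  unfold dd
  refine Real.continuous_sqrt.comp (continuous_finsetSum _ fun k _ => ?_)
  exact continuous_const.mul (((continuous_ex k).sub continuous_const).norm.pow 2)

lemma dd_le_two (t : ℝ) : dd s b t ≤ 2 * √(∑ k ∈ s, b k ^ 2) := by
  have h : (2 : ℝ) * √(∑ k ∈ s, b k ^ 2) = √(∑ k ∈ s, (2 * b k) ^ 2) := by
    simp only [mul_pow]
    rw [← Finset.mul_sum, Real.sqrt_mul (by norm_num), Real.sqrt_sq (by norm_num)]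
  rw [h, dd_eq]
  refine sqrt_sum_mono fun k _ => ?_
  rw [abs_mul, abs_mul, abs_of_nonneg (norm_nonneg _), mul_comm, abs_of_nonneg (by norm_num : (0:ℝ) ≤ 2)]
  exact mul_le_mul_of_nonneg_right (norm_ex_sub_one_le_two k t) (abs_nonneg _)

/-- comparison of the distances of two coefficient vectors -/
lemma dd_le_add (b' : ℕ → ℝ) (t : ℝ) :
    dd s b t ≤ dd s b' t + 2 * √(∑ k ∈ s, (b k - b' k) ^ 2) := by
  have h2 : dd s (fun k => b k - b' k) t ≤ 2 * √(∑ k ∈ s, (b k - b' k) ^ 2) :=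
    dd_le_two s (fun k => b k - b' k) t
  refine le_trans ?_ (add_le_add_right h2 _)
  rw [dd_eq, dd_eq, dd_eq]
  refine le_trans (le_of_eq ?_) (sqrt_sum_add_le s (fun k => b' k * ‖ex k t - 1‖)
    (fun k => (b k - b' k) * ‖ex k t - 1‖))
  congr 1
  exact Finset.sum_congr rfl fun k _ => by ring

/-- the set whose measure is `2π mu` -/
def ball' (ε : ℝ) : Set ℝ := {t : ℝ | t ∈ Icc 0 (2 * Real.pi) ∧ dd s b t ≤ ε}

lemma ball'_meas (ε : ℝ) : MeasurableSet (ball' s b ε) :=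
  measurableSet_Icc.inter (measurableSet_le (continuous_dd s b).measurable measurable_const)

lemma mu_eq (ε : ℝ) : mu s b ε = (volume (ball' s b ε)).toReal / (2 * Real.pi) := rfl

lemma ball'_subset (ε : ℝ) : ball' s b ε ⊆ Icc 0 (2 * Real.pi) := fun _ h => h.1

lemma volume_ball'_lt_top (ε : ℝ) : volume (ball' s b ε) < ⊤ := by
  refine lt_of_le_of_lt (measure_mono (ball'_subset s b ε)) ?_
  rw [Real.volume_Icc]
  exact ENNReal.ofReal_lt_top

lemma volume_ball' (ε : ℝ) : volume (ball' s b ε) = ENNReal.ofReal (2 * Real.pi * mu s b ε) := by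
  rw [mu_eq, mul_div_cancel₀ _ (by positivity : (2 * Real.pi : ℝ) ≠ 0),
    ENNReal.ofReal_toReal (volume_ball'_lt_top s b ε).ne]

lemma mu_nonneg (ε : ℝ) : 0 ≤ mu s b ε := by
  rw [mu_eq]; positivity

lemma mu_le_one (ε : ℝ) : mu s b ε ≤ 1 := by
  rw [mu_eq, div_le_one (by positivity)]
  have h := measure_mono (μ := volume) (ball'_subset s b ε)
  rw [Real.volume_Icc, sub_zero] at h
  exact ENNReal.toReal_le_of_le_ofReal (by positivity) h

lemma mu_mono {ε ε' : ℝ} (h : ε ≤ ε') : mu s b ε ≤ mu s b ε' := by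
  rw [mu_eq, mu_eq]
  refine div_le_div_of_nonneg_right ?_ (by positivity)
  exact ENNReal.toReal_mono (volume_ball'_lt_top s b ε').ne
    (measure_mono fun t ht => ⟨ht.1, ht.2.trans h⟩)

lemma mu_pos {ε : ℝ} (hε : 0 < ε) : 0 < mu s b ε := by
  have hpi := Real.pi_pos
  rw [mu_eq]
  refine div_pos (ENNReal.toReal_pos ?_ (volume_ball'_lt_top s b ε).ne) (by positivity)
  have h1 : ∀ᶠ t in 𝓝 (0 : ℝ), dd s b t < ε := by
    have := (continuous_dd s b).tendsto 0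
    rw [dd_zero] at this
    exact this.eventually (gt_mem_nhds hε)
  obtain ⟨δ, hδ, h2⟩ := Metric.eventually_nhds_iff.1 h1
  have h3 : Ioo 0 (min δ (2 * Real.pi)) ⊆ ball' s b ε := by
    intro t ht
    have h4 := lt_min_iff.1 ht.2
    refine ⟨⟨ht.1.le, h4.2.le⟩, (h2 ?_).le⟩
    rw [Real.dist_eq, sub_zero, abs_of_pos ht.1]
    exact h4.1
  refine (lt_of_lt_of_le ?_ (measure_mono h3)).ne'
  rw [Real.volume_Ioo, sub_zero]
  exact ENNReal.ofReal_pos.2 (lt_min hδ (by positivity))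

lemma mu_eq_one {ε : ℝ} (hε : 2 * √(∑ k ∈ s, b k ^ 2) ≤ ε) : mu s b ε = 1 := by
  have h : ball' s b ε = Icc 0 (2 * Real.pi) :=
    Set.Subset.antisymm (ball'_subset s b ε) fun t ht => ⟨ht, (dd_le_two s b t).trans hε⟩
  rw [mu_eq, h, Real.volume_Icc, sub_zero, ENNReal.toReal_ofReal (by positivity)]
  exact div_self (by positivity)

/-- the integrand of `J` -/
noncomputable def hh (ε : ℝ) : ℝ := √(Real.log (1 / mu s b ε))

lemma hh_nonneg (ε : ℝ) : 0 ≤ hh s b ε := Real.sqrt_nonneg _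

lemma hh_anti {ε ε' : ℝ} (hε : 0 < ε) (h : ε ≤ ε') : hh s b ε' ≤ hh s b ε := by
  have h1 := mu_pos s b hε
  have h2 := mu_pos s b (hε.trans_le h)
  refine Real.sqrt_le_sqrt (Real.log_le_log (by positivity) ?_)
  exact one_div_le_one_div_of_le h1 (mu_mono s b h)

lemma hh_eq_zero {ε : ℝ} (hε : 2 * √(∑ k ∈ s, b k ^ 2) ≤ ε) : hh s b ε = 0 := by
  rw [hh, mu_eq_one s b hε]; simp

lemma J_eq : J s b = ∫⁻ ε in Ioi (0 : ℝ), ENNReal.ofReal (hh s b ε) := rfl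

end

end Pool.Agent.P8H68.RB
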