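import Pool.Agent.P8H68.RB.Basic

/-!
# Orthogonality, Parseval's identity and Bernstein's inequality for exponential sums
-/

set_option autoImplicit false

open MeasureTheory Set Filter Topology
open scoped ComplexConjugate

namespace Pool.Agent.P8H68.RB.Bern

lemma ex_mul_conj (k l : ℕ) (t : ℝ) :
    ex k t * conj (ex l t) = Complex.exp ((((k : ℂ) - l) * Complex.I) * t) := by
  unfold ex
  rw [← Complex.exp_conj, ← Complex.exp_add]
  congr 1
  simp only [map_mul, Complex.conj_ofReal, Complex.conj_I]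
  push_cast
  ring

lemma orth (k l : ℕ) : ∫ t in (0:ℝ)..(2 * Real.pi), ex k t * conj (ex l t) =
    if k = l then (2 * Real.pi : ℂ) else 0 := by
  simp only [ex_mul_conj]
  split_ifs with h
  · subst h
    simp
  · have hc : ((k : ℂ) - l) * Complex.I ≠ 0 := by
      refine mul_ne_zero (sub_ne_zero.2 ?_) Complex.I_ne_zero
      exact_mod_cast h
    rw [integral_exp_mul_complex hc]
    have h1 : Complex.exp (((k : ℂ) - l) * Complex.I * ((2 * Real.pi : ℝ) : ℂ)) = 1 := by
      rw [Complex.exp_eq_one_iff]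
      refine ⟨(k : ℤ) - l, ?_⟩
      push_cast
      ring
    rw [h1]
    simp

lemma continuous_sum (s : Finset ℕ) (a : ℕ → ℂ) : Continuous fun t => ∑ k ∈ s, a k * ex k t :=
  continuous_finsetSum _ fun k _ => continuous_const.mul (continuous_ex k)

/-- orthogonality of two exponential sums -/
lemma orth_sum {ι κ : Type} (s : Finset ι) (s' : Finset κ) (a : ι → ℂ) (b : κ → ℂ) (f : ι → ℕ)
    (g : κ → ℕ) :
    ∫ t in (0:ℝ)..(2 * Real.pi), (∑ i ∈ s, a i * ex (f i) t) * conj (∑ j ∈ s', b j * ex (g j) t) =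
      2 * Real.pi * ∑ i ∈ s, ∑ j ∈ s', if f i = g j then a i * conj (b j) else 0 := by
  have h1 : ∀ t : ℝ, (∑ i ∈ s, a i * ex (f i) t) * conj (∑ j ∈ s', b j * ex (g j) t) =
      ∑ i ∈ s, ∑ j ∈ s', (a i * conj (b j)) * (ex (f i) t * conj (ex (g j) t)) := by
    intro t
    rw [map_sum, Finset.sum_mul_sum]
    refine Finset.sum_congr rfl fun i _ => Finset.sum_congr rfl fun j _ => ?_
    rw [map_mul]
    ring
  simp only [h1]
  have hc : ∀ (i : ι) (j : κ), Continuous fun t =>
      (a i * conj (b j)) * (ex (f i) t * conj (ex (g j) t)) := by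
    intro i j
    exact continuous_const.mul ((continuous_ex _).mul
      (Complex.continuous_conj.comp (continuous_ex _)))
  rw [intervalIntegral.integral_finsetSum fun i _ =>
    (continuous_finsetSum _ fun j _ => hc i j).intervalIntegrable _ _]
  rw [Finset.mul_sum]
  refine Finset.sum_congr rfl fun i _ => ?_
  rw [intervalIntegral.integral_finsetSum fun j _ => (hc i j).intervalIntegrable _ _,
    Finset.mul_sum]
  refine Finset.sum_congr rfl fun j _ => ?_
  rw [intervalIntegral.integral_const_mul, orth]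
  split_ifs
  · ring
  · simp

lemma norm_sq_eq (z : ℂ) : ((‖z‖ ^ 2 : ℝ) : ℂ) = z * conj z := by
  rw [Complex.mul_conj, Complex.normSq_eq_norm_sq]

/-- Parseval -/
lemma parseval (s : Finset ℕ) (a : ℕ → ℂ) :
    ∫ t in (0:ℝ)..(2 * Real.pi), ‖∑ k ∈ s, a k * ex k t‖ ^ 2 =
      2 * Real.pi * ∑ k ∈ s, ‖a k‖ ^ 2 := by
  have h1 : ((∫ t in (0:ℝ)..(2 * Real.pi), ‖∑ k ∈ s, a k * ex k t‖ ^ 2 : ℝ) : ℂ) =
      ((2 * Real.pi * ∑ k ∈ s, ‖a k‖ ^ 2 : ℝ) : ℂ) := by
    rw [← intervalIntegral.integral_ofReal]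
    simp only [norm_sq_eq]
    have h2 := orth_sum s s a a (fun k => k) (fun k => k)
    rw [h2]
    push_cast
    congr 1
    refine Finset.sum_congr rfl fun k hk => ?_
    rw [Finset.sum_ite_eq, if_pos hk]
    rw [← norm_sq_eq]
    push_cast
    rfl
  exact_mod_cast h1

lemma count (K k : ℕ) (hk : k < K) :
    ∑ i ∈ Finset.range K, ∑ j ∈ Finset.range K, (if k + i = K + j then (1 : ℂ) else 0) = k := by
  rw [Finset.sum_comm]
  have h1 : ∀ j ∈ Finset.range K, ∑ i ∈ Finset.range K, (if k + i = K + j then (1 : ℂ) else 0) =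
      if j < k then 1 else 0 := by
    intro j hj
    rw [Finset.mem_range] at hj
    split_ifs with h
    · rw [Finset.sum_eq_single (K + j - k)]
      · rw [if_pos (by omega)]
      · intro i _ hi
        rw [if_neg (by omega)]
      · intro h2
        rw [Finset.mem_range] at h2
        omega
    · refine Finset.sum_eq_zero fun i hi => ?_
      rw [Finset.mem_range] at hi
      rw [if_neg (by omega)]
  rw [Finset.sum_congr rfl h1, ← Finset.sum_filter]
  have h2 : (Finset.range K).filter (fun j => j < k) = Finset.range k := by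
    ext j
    simp only [Finset.mem_filter, Finset.mem_range]
    omega
  rw [h2]
  simp

/-- Bernstein's inequality -/
theorem bernstein (K : ℕ) (a : ℕ → ℂ) (B : ℝ)
    (h : ∀ t : ℝ, ‖∑ k ∈ Finset.range K, a k * ex k t‖ ≤ B) (θ : ℝ) :
    ‖∑ k ∈ Finset.range K, (k : ℂ) * a k * ex k θ‖ ≤ K * B := by
  have hpi : (0 : ℝ) < 2 * Real.pi := by positivity
  have hpc : (2 * Real.pi : ℂ) ≠ 0 := by exact_mod_cast hpi.ne'
  set F : ℝ → ℂ := fun t => ∑ j ∈ Finset.range K, ex j t with hF
  have hFc : Continuous F := continuous_finsetSum _ fun k _ => continuous_ex k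
  -- the identity
  have h1 : ∫ t in (0:ℝ)..(2 * Real.pi), (∑ k ∈ Finset.range K, a k * ex k (θ + t)) *
      (F t * conj (ex K t * F t)) =
      2 * Real.pi * ∑ k ∈ Finset.range K, (k : ℂ) * a k * ex k θ := by
    have e1 : ∀ t : ℝ, (∑ k ∈ Finset.range K, a k * ex k (θ + t)) * (F t * conj (ex K t * F t)) =
        (∑ p ∈ Finset.range K ×ˢ Finset.range K, (a p.1 * ex p.1 θ) * ex (p.1 + p.2) t) *
          conj (∑ j ∈ Finset.range K, 1 * ex (K + j) t) := by
      intro t
      have e2 : ex K t * F t = ∑ j ∈ Finset.range K, 1 * ex (K + j) t := by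
        rw [hF, Finset.mul_sum]
        exact Finset.sum_congr rfl fun j _ => by rw [ex_add_left, one_mul]
      have e3 : (∑ k ∈ Finset.range K, a k * ex k (θ + t)) * F t =
          ∑ p ∈ Finset.range K ×ˢ Finset.range K, (a p.1 * ex p.1 θ) * ex (p.1 + p.2) t := by
        rw [hF, Finset.sum_mul_sum, Finset.sum_product]
        refine Finset.sum_congr rfl fun i _ => Finset.sum_congr rfl fun j _ => ?_
        rw [ex_add, ex_add_left]
        ring
      rw [← mul_assoc, e3, e2]
    simp only [e1]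
    rw [orth_sum (Finset.range K ×ˢ Finset.range K) (Finset.range K)
      (fun p => a p.1 * ex p.1 θ) (fun _ => 1) (fun p => p.1 + p.2) (fun j => K + j)]
    congr 1
    rw [Finset.sum_product]
    refine Finset.sum_congr rfl fun k hk => ?_
    rw [Finset.mem_range] at hk
    rw [← count K k hk]
    rw [Finset.sum_mul, Finset.sum_mul]
    refine Finset.sum_congr rfl fun i _ => ?_
    rw [Finset.sum_mul, Finset.sum_mul]
    refine Finset.sum_congr rfl fun j _ => ?_
    simp only [map_one, mul_one]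
    split_ifs <;> simp
  have h2 : ∫ t in (0:ℝ)..(2 * Real.pi), ‖F t‖ ^ 2 = 2 * Real.pi * K := by
    have := parseval (Finset.range K) (fun _ => 1)
    simpa [hF] using this
  have h3 : ‖∫ t in (0:ℝ)..(2 * Real.pi), (∑ k ∈ Finset.range K, a k * ex k (θ + t)) *
      (F t * conj (ex K t * F t))‖ ≤ ∫ t in (0:ℝ)..(2 * Real.pi), B * ‖F t‖ ^ 2 := by
    refine intervalIntegral.norm_integral_le_of_norm_le hpi.le ?_ ?_
    · refine ae_of_all _ fun t _ => ?_
      rw [norm_mul, norm_mul, Complex.norm_conj, norm_mul, norm_ex, one_mul, ← sq]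
      exact mul_le_mul_of_nonneg_right (h _) (sq_nonneg _)
    · exact (continuous_const.mul (hFc.norm.pow 2)).intervalIntegrable _ _
  rw [h1, intervalIntegral.integral_const_mul, h2, norm_mul] at h3
  have h4 : ‖(2 * Real.pi : ℂ)‖ = 2 * Real.pi := by
    have : (2 * Real.pi : ℂ) = ((2 * Real.pi : ℝ) : ℂ) := by push_cast; rfl
    rw [this, Complex.norm_real, Real.norm_eq_abs, abs_of_pos hpi]
  rw [h4] at h3
  have h5 : B * (2 * Real.pi * K) = (2 * Real.pi) * (K * B) := by ring
  rw [h5] at h3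
  exact le_of_mul_le_mul_left h3 hpi

/-- the maximum modulus principle for polynomials -/
theorem max_mod (K : ℕ) (a : ℕ → ℂ) (B : ℝ)
    (h : ∀ t : ℝ, ‖∑ k ∈ Finset.range K, a k * ex k t‖ ≤ B) (z : ℂ) (hz : ‖z‖ ≤ 1) :
    ‖∑ k ∈ Finset.range K, a k * z ^ k‖ ≤ B := by
  have h1 := Complex.norm_le_of_forall_mem_frontier_norm_le (U := Metric.ball (0 : ℂ) 1)
    (f := fun z => ∑ k ∈ Finset.range K, a k * z ^ k) (C := B) Metric.isBounded_ball
    (Differentiable.diffContOnCl (by fun_prop)) ?_ (z := z) ?_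
  · exact h1
  · intro w hw
    rw [frontier_ball _ one_ne_zero, mem_sphere_zero_iff_norm] at hw
    have h2 := h (Complex.arg w)
    have h3 : Complex.exp (Complex.arg w * Complex.I) = w := by
      have := Complex.norm_mul_exp_arg_mul_I w
      rw [hw] at this
      simpa using this
    simp only [ex_eq_pow, h3] at h2
    exact h2
  · rw [closure_ball _ one_ne_zero, mem_closedBall_zero_iff]
    exact hz

end Pool.Agent.P8H68.RB.Bern
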