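import Pool.Agent.W823.CT.Stm
import Pool.Agent.P8H68.RB.Base

/-!
# Random Steinhaus power series: statements of the packages (project RB, MP_e603cf_an)
-/

set_option autoImplicit false

open MeasureTheory ProbabilityTheory Set Filter Topology
open scoped ENNReal
open Pool.Agent.W823.CT

namespace Pool.Agent.P8H68.RB

/-- uniform distribution on the unit circle -/
noncomputable def circ : Measure ℂ :=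
  (ProbabilityTheory.cond volume (Icc (0 : ℝ) (2 * Real.pi))).map
    (fun t : ℝ => Complex.exp ((t : ℂ) * Complex.I))

/-- independent random variables with uniform distribution on the unit circle -/
structure Stein {Ω : Type} [MeasurableSpace Ω] (P : Measure Ω) (ξ : ℕ → Ω → ℂ) : Prop where
  meas : ∀ k, Measurable (ξ k)
  indep : iIndepFun ξ P
  law : ∀ k, P.map (ξ k) = circ
  norm_one : ∀ k ω, ‖ξ k ω‖ = 1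

/-- `T` has a labelled tree of scales `Δ w^k` and cost `S` for the distance `d` -/
def GTree {T : Type} (d : T → T → ℝ) (Δ w S : ℝ) : Prop :=
  ∃ lab : ℕ → T → ℕ, (∀ k x, 1 ≤ lab k x) ∧
    (∀ k x y, (∀ j < k, lab j x = lab j y) → d x y ≤ Δ * w ^ k) ∧
    ∀ m x, ∑ k ∈ Finset.range m,
      Δ * w ^ k * √(∑ j ∈ Finset.range (k + 1), (Real.log (lab j x) + 1)) ≤ S

/-! ### entropy integrals -/

/-- monotonicity and homogeneity of `J` -/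
def S_JB : Prop :=
  (∀ (s s' : Finset ℕ) (b b' : ℕ → ℝ), s ⊆ s' → (∀ k ∈ s, |b k| ≤ |b' k|) → J s b ≤ J s' b') ∧
  (∀ (s : Finset ℕ) (b : ℕ → ℝ) (l : ℝ), 0 < l → J s (fun k => l * b k) = ENNReal.ofReal l * J s b) ∧
  (∀ (s s' : Finset ℕ) (b : ℕ → ℝ), s ⊆ s' → (∀ k ∈ s', k ∉ s → b k = 0) → J s b = J s' b)

/-- `J` is finite -/
def S_JF : Prop := ∀ (s : Finset ℕ) (b : ℕ → ℝ), J s b < ⊤

/-- lower sums for `J` -/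
def S_JL : Prop := ∀ (s : Finset ℕ) (b : ℕ → ℝ) (w Δ S : ℝ) (m : ℕ), 0 < w → w < 1 → 0 < Δ → 0 ≤ S →
  J s b ≤ ENNReal.ofReal S →
  ∑ k ∈ Finset.range m, Δ * w ^ k * √(Real.log (1 / mu s b (Δ * w ^ (k + 1)))) ≤ S / (w * (1 - w))

/-- nets -/
def S_NET : Prop := ∀ (s : Finset ℕ) (b : ℕ → ℝ) (ε : ℝ) (Y : Type) [Fintype Y] (θ : Y → ℝ), 0 < ε →
  ∃ N : Finset Y, (∀ y, ∃ z ∈ N, dd s b (θ y - θ z) ≤ 2 * ε) ∧ (N.card : ℝ) * mu s b ε ≤ 1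

/-- random multipliers -/
def S_JM : Prop := ∃ C : ℝ, 0 < C ∧ ∀ (Ω : Type) [MeasurableSpace Ω] (P : Measure Ω)
  [IsProbabilityMeasure P] (m : ℕ → Ω → ℝ) (σ : ℝ), (∀ k, Measurable (m k)) → 0 ≤ σ →
  (∀ k, ∫⁻ ω, ENNReal.ofReal (m k ω ^ 2) ∂P ≤ ENNReal.ofReal (σ ^ 2)) → ∀ (K : ℕ) (b : ℕ → ℝ),
  ∫⁻ ω, J (Finset.range K) (fun k => b k * m k ω) ∂P ≤
    ENNReal.ofReal (C * σ) *
      (J (Finset.range K) b + ENNReal.ofReal √(∑ k ∈ Finset.range K, b k ^ 2))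

/-! ### chaining -/

/-- greedy construction of a tree with geometric scales -/
def S_GG : Prop := ∀ r c : ℝ, 2 ≤ r → 0 < c → ∃ C : ℝ, 0 < C ∧
    ∀ (V : Type) [Fintype V] [DecidableEq V] [Nonempty V] (d : V → V → ℝ) (F : Finset V → ℝ) (Δ : ℝ),
    0 < Δ → (∀ x, d x x = 0) → (∀ x y, x ≠ y → 0 < d x y) → (∀ x y, d x y = d y x) →
    (∀ x y z, d x z ≤ d x y + d y z) → (∀ x y, d x y ≤ Δ) → (∀ A, 0 ≤ F A) →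
    (∀ A B : Finset V, A.Nonempty → A ⊆ B → F A ≤ F B) →
    (∀ (N : ℕ) (x : Fin N → V) (D : Fin N → Finset V) (δ b : ℝ), 2 ≤ N → 0 < δ →
      (∀ i j, i ≠ j → δ ≤ d (x i) (x j)) → (∀ i, (D i).Nonempty) →
      (∀ i, ∀ s ∈ D i, d s (x i) ≤ δ / r) → (∀ i, b ≤ F (D i)) →
      c * δ * √(Real.log N) + b ≤ F (Finset.univ.biUnion D)) →
    GTree d (2 * Δ) r⁻¹ (C * (F Finset.univ + Δ))

/-- upper bound for the supremum of a sub-Gaussian process by the cost of a tree -/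
def S_UB : Prop := ∃ C : ℝ, 0 < C ∧ ∀ (Ω : Type) [MeasurableSpace Ω] (P : Measure Ω)
  [IsProbabilityMeasure P] (T : Type) [Fintype T] (δ : T → T → ℝ) (Δ w S : ℝ) (Z : T → Ω → ℝ),
  0 < Δ → 0 < w → w ≤ 1 / 2 → (∀ x y, 0 ≤ δ x y) → GTree δ Δ w S →
  (∀ x y, HasSubgaussianMGF (fun ω => Z x ω - Z y ω) (Real.toNNReal (δ x y ^ 2)) P) →
  (∀ x, HasSubgaussianMGF (Z x) (Real.toNNReal (Δ ^ 2)) P) →
  ∫⁻ ω, (⨆ x, ENNReal.ofReal (Z x ω ^ 2)) ∂P ≤ ENNReal.ofReal (C * S ^ 2)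

/-- the tree of a product -/
def S_PT : Prop := ∀ w : ℝ, 0 < w → w ≤ 1 / 2 → ∃ C : ℝ, 0 < C ∧ ∀ (K : ℕ) (T Y : Type) [Fintype T]
  [Nonempty T] [Fintype Y] [Nonempty Y] (x : T → ℕ → ℝ) (θ : Y → ℝ) (Δ S : ℝ), 0 < Δ → 0 ≤ S →
  (∀ v, √(∑ k ∈ Finset.range K, x v k ^ 2) ≤ Δ) →
  GTree (fun v v' => √(∑ k ∈ Finset.range K, (x v k - x v' k) ^ 2)) Δ w S →
  (∀ v, J (Finset.range K) (x v) ≤ ENNReal.ofReal S) →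
  GTree (fun p q : T × Y =>
    √(∑ k ∈ Finset.range K, ‖(x p.1 k : ℂ) * ex k (θ p.2) - (x q.1 k : ℂ) * ex k (θ q.2)‖ ^ 2))
    (14 * Δ) w (C * S)

/-- sub-Gaussian linear combinations -/
def S_SG : Prop := ∀ (Ω : Type) [MeasurableSpace Ω] (P : Measure Ω) [IsProbabilityMeasure P]
  (ξ : ℕ → Ω → ℂ), Stein P ξ → ∀ (s : Finset ℕ) (w : ℕ → ℂ),
  HasSubgaussianMGF (fun ω => (∑ k ∈ s, w k * ξ k ω).re) (Real.toNNReal (∑ k ∈ s, ‖w k‖ ^ 2)) P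

/-- second moment of the supremum -/
def S_SC : Prop := ∃ C : ℝ, 0 < C ∧ ∀ (Ω : Type) [MeasurableSpace Ω] (P : Measure Ω)
  [IsProbabilityMeasure P] (ξ : ℕ → Ω → ℂ), Stein P ξ → ∀ (K : ℕ) (τ : Type) (V : Finset τ)
  (x : τ → ℕ → ℝ) (Θ : Finset ℝ) (c : ℕ → ℂ) (S : ℝ), 0 ≤ S → (∀ k, ‖c k‖ ≤ 1) →
  (∀ v ∈ V, J (Finset.range K) (x v) ≤ ENNReal.ofReal S) →
  (∀ v ∈ V, √(∑ k ∈ Finset.range K, x v k ^ 2) ≤ S) →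
  EM V (fun v (i : Fin K) => x v i) ≤ S →
  ∫⁻ ω, (⨆ v ∈ V, ⨆ θ ∈ Θ, ENNReal.ofReal
    (‖∑ k ∈ Finset.range K, (x v k : ℂ) * c k * ξ k ω * ex k θ‖ ^ 2)) ∂P ≤ ENNReal.ofReal (C * S ^ 2)

/-- expected supremum of the step weights -/
def S_D : Prop := ∃ C : ℝ, 0 < C ∧ ∀ (K : ℕ) (a : ℕ → ℝ) (τ : Type) (V : Finset τ) (n : τ → ℕ)
  (u : τ → ℕ → ℝ), (∀ v ∈ V, u v 0 = 0) → (∀ v ∈ V, ∀ M, ∑ m ∈ Finset.range M, u v m ^ 2 ≤ 1) →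
  EM V (fun v (i : Fin K) => u v ((i : ℕ) / 2 ^ n v) * a (i : ℕ)) ≤
    C * √(∑ k ∈ Finset.range K, a k ^ 2)

/-! ### invariance -/

/-- rotation invariance of Steinhaus sequences -/
def S_ROT : Prop := ∀ (Ω : Type) [MeasurableSpace Ω] (P : Measure Ω) [IsProbabilityMeasure P]
  (ξ : ℕ → Ω → ℂ), Stein P ξ → ∀ ζ : ℕ → ℂ, (∀ k, ‖ζ k‖ = 1) →
  Stein P (fun k ω => ζ k * ξ k ω) ∧
  P.map (fun ω (k : ℕ) => ζ k * ξ k ω) = P.map (fun ω (k : ℕ) => ξ k ω)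

/-- rotations by the angles `φ` -/
noncomputable def rot {K : ℕ} (φ : Fin K → ℝ) (g : Fin K × Bool → ℝ) : Fin K × Bool → ℝ :=
  fun p => if p.2 = true then Real.cos (φ p.1) * g (p.1, true) - Real.sin (φ p.1) * g (p.1, false)
    else Real.sin (φ p.1) * g (p.1, true) + Real.cos (φ p.1) * g (p.1, false)

/-- rotation invariance of Gaussian vectors -/
def S_GROT : Prop := ∀ (K : ℕ) (φ : Fin K → ℝ),
  MeasurePreserving (rot φ) (gam (Fin K × Bool)) (gam (Fin K × Bool))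

/-- the vector of the real part of `∑ b_k γ_k e^{ikt}` -/
noncomputable def gv (K : ℕ) (b : ℕ → ℝ) (t : ℝ) : Fin K × Bool → ℝ :=
  fun p => if p.2 = true then b (p.1 : ℕ) * Real.cos (((p.1 : ℕ) : ℝ) * t)
    else -(b (p.1 : ℕ) * Real.sin (((p.1 : ℕ) : ℝ) * t))

/-! ### lower bounds -/

/-- lower bound for stationary Gaussian processes -/
def S_E1 : Prop := ∃ C : ℝ, 0 < C ∧ ∀ (K : ℕ) (b : ℕ → ℝ) (B : ℝ),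
  (∀ D : Finset ℝ, EM D (gv K b) ≤ B) → J (Finset.range K) b ≤ ENNReal.ofReal (C * B)

/-- contraction principle -/
def S_CT : Prop := ∀ (Ω : Type) [MeasurableSpace Ω] (P : Measure Ω) [IsProbabilityMeasure P]
  (ξ : ℕ → Ω → ℂ), Stein P ξ → ∀ (K : ℕ) (w l : ℕ → ℂ) (D : Finset ℝ), (∀ k, ‖l k‖ ≤ 1) →
  ∫⁻ ω, (⨆ t ∈ D, ENNReal.ofReal ‖∑ k ∈ Finset.range K, l k * w k * ξ k ω * ex k t‖) ∂P ≤
    ∫⁻ ω, (⨆ t ∈ D, ENNReal.ofReal ‖∑ k ∈ Finset.range K, w k * ξ k ω * ex k t‖) ∂P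

/-- the Gaussian supremum is controlled by the Steinhaus supremum: for all large truncation levels -/
def S_GS : Prop := ∃ C : ℝ, 0 < C ∧ ∀ (Ω : Type) [MeasurableSpace Ω] (P : Measure Ω)
  [IsProbabilityMeasure P] (ξ : ℕ → Ω → ℂ), Stein P ξ → ∀ (K : ℕ) (b : ℕ → ℝ) (D : Finset ℝ) (h : ℝ),
  1 ≤ h →
  ENNReal.ofReal (EM D (gv K b)) ≤
    ENNReal.ofReal h *
      ∫⁻ ω, (⨆ t ∈ D, ENNReal.ofReal ‖∑ k ∈ Finset.range K, (b k : ℂ) * ξ k ω * ex k t‖) ∂P +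
    ENNReal.ofReal (C / h) *
      (J (Finset.range K) b + ENNReal.ofReal √(∑ k ∈ Finset.range K, b k ^ 2))

/-- lower bound for Steinhaus sums, in probability -/
def S_E : Prop := ∃ C p : ℝ, 0 < C ∧ 0 < p ∧ ∀ (Ω : Type) [MeasurableSpace Ω] (P : Measure Ω)
  [IsProbabilityMeasure P] (ξ : ℕ → Ω → ℂ), Stein P ξ → ∀ (K : ℕ) (b : ℕ → ℝ) (M : ℝ), 0 ≤ M →
  (∀ D : Finset ℝ, P {ω | ∃ t ∈ D, M < ‖∑ k ∈ Finset.range K, (b k : ℂ) * ξ k ω * ex k t‖} ≤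
    ENNReal.ofReal p) →
  J (Finset.range K) b ≤ ENNReal.ofReal (C * (M + √(∑ k ∈ Finset.range K, b k ^ 2)))

/-- necessity for a sequence of weights -/
def S_NEC : Prop := ∀ (Ω : Type) [MeasurableSpace Ω] (P : Measure Ω) [IsProbabilityMeasure P]
  (ξ : ℕ → Ω → ℂ), Stein P ξ → ∀ (a : ℕ → ℂ) (v : ℕ → ℕ → ℝ) (C₀ : ℝ),
  Summable (fun k => ‖a k‖ ^ 2) → (∀ j k, 0 ≤ v j k ∧ v j k ≤ C₀) →
  (∀ j, Summable fun k => v j k * ‖a k‖) →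
  (∀ᵐ ω ∂P, ∃ B : ℝ, ∀ (j : ℕ) (θ : ℝ), ‖∑' k, (v j k : ℂ) * a k * ξ k ω * ex k θ‖ ≤ B) →
  ∃ C : ℝ, ∀ j K : ℕ, J (Finset.range K) (fun k => v j k * ‖a k‖) ≤ ENNReal.ofReal C

/-- sufficiency for a family of step weights -/
def S_SUF : Prop := ∀ (Ω : Type) [MeasurableSpace Ω] (P : Measure Ω) [IsProbabilityMeasure P]
  (ξ : ℕ → Ω → ℂ), Stein P ξ → ∀ (a : ℕ → ℂ) (U : Set (ℕ × ℕ × (ℕ → ℝ))) (C₀ : ℝ),
  Summable (fun k => ‖a k‖ ^ 2) →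
  (∀ p ∈ U, p.2.2 0 = 0 ∧ ∑ m ∈ Finset.range p.2.1, p.2.2 m ^ 2 ≤ 1) →
  (∀ p ∈ U, J (Finset.range (p.2.1 * 2 ^ p.1)) (fun k => p.2.2 (k / 2 ^ p.1) * ‖a k‖) ≤
    ENNReal.ofReal C₀) →
  ∀ᵐ ω ∂P, ∃ B : ℝ, ∀ p ∈ U, ∀ θ : ℝ,
    ‖∑ k ∈ Finset.range (p.2.1 * 2 ^ p.1), (p.2.2 (k / 2 ^ p.1) : ℂ) * a k * ξ k ω * ex k θ‖ ≤ B

/-! ### deterministic part -/

/-- boundary functions of `H²` power series -/
def S_BD : Prop := ∀ c : ℕ → ℂ, Summable (fun k => ‖c k‖ ^ 2) →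
  DifferentiableOn ℂ (series c) (Metric.ball 0 1) ∧
  (∃ C : ℝ, ∀ r : ℝ, 0 < r → r < 1 →
    ∫ θ in (0:ℝ)..(2 * Real.pi), ‖series c (r * Complex.exp (θ * Complex.I))‖ ^ 2 ≤ C) ∧
  (∃ b : ℝ → ℂ, IsBoundaryFunction (series c) b) ∧
  ∀ b : ℝ → ℂ, IsBoundaryFunction (series c) b → ∀ K : ℕ,
    ∫ θ in (0:ℝ)..(2 * Real.pi), ‖b θ - ∑ k ∈ Finset.range K, c k * ex k θ‖ ^ 2 ≤
      2 * Real.pi * ∑' k, ‖c (k + K)‖ ^ 2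

/-- upper bound for the mean oscillation -/
def S_A : Prop := ∀ (c : ℕ → ℂ) (B : ℝ), Summable (fun k => ‖c k‖ ^ 2) →
  (∀ (n M : ℕ) (u : ℕ → ℝ), u 0 = 0 → ∑ m ∈ Finset.range M, u m ^ 2 ≤ 1 → ∀ θ : ℝ,
    ‖∑ k ∈ Finset.range (M * 2 ^ n), (u (k / 2 ^ n) : ℂ) * c k * ex k θ‖ ≤ B) →
  InBMOA (series c)

/-- lower bound for the mean oscillation -/
def S_B : Prop := ∃ C : ℝ, 0 < C ∧ ∀ (n M : ℕ) (u : ℕ → ℝ), (∀ m, 0 ≤ u m) → u 0 = 0 →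
  (∀ m, M ≤ m → u m = 0) → ∑ m ∈ Finset.range M, u m ^ 2 ≤ 1 →
  ∃ v : ℕ → ℝ, (∀ k, 0 ≤ v k ∧ v k ≤ C) ∧ (∀ k, u (k / 2 ^ n) ≤ v k) ∧
    Summable (fun k => v k ^ 2) ∧
    ∀ (c : ℕ → ℂ) (b : ℝ → ℂ) (m : ℝ), Summable (fun k => ‖c k‖ ^ 2) →
      IsBoundaryFunction (series c) b → OscLE b m →
      ∀ θ : ℝ, ‖∑' k, (v k : ℂ) * c k * ex k θ‖ ≤ C * (m + √(∑' k, ‖c k‖ ^ 2))

/-- upper bound for the Bloch norm -/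
def S_BLU : Prop := ∀ (c : ℕ → ℂ) (B : ℝ), Summable (fun k => ‖c k‖ ^ 2) →
  (∀ (n : ℕ) (θ : ℝ), ‖∑ k ∈ Finset.Ico (2 ^ n) (2 ^ (n + 1)), c k * ex k θ‖ ≤ B) →
  InBloch (series c)

/-- lower bound for the Bloch norm -/
def S_BLL : Prop := ∃ C : ℝ, 0 < C ∧ ∀ n : ℕ, ∃ v : ℕ → ℝ, (∀ k, 0 ≤ v k ∧ v k ≤ C) ∧
  (∀ k ∈ Finset.Ico (2 ^ n) (2 ^ (n + 1)), 1 ≤ v k) ∧ Summable (fun k => v k ^ 2) ∧
  ∀ (c : ℕ → ℂ) (m : ℝ), Summable (fun k => ‖c k‖ ^ 2) →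
    (∀ z ∈ Metric.ball (0 : ℂ) 1, (1 - ‖z‖ ^ 2) * ‖deriv (series c) z‖ ≤ m) →
    ∀ θ : ℝ, ‖∑' k, (v k : ℂ) * c k * ex k θ‖ ≤ C * m

/-! ### the result -/

/-- the result -/
def S_FINAL : Prop := ∀ (Ω : Type) [MeasurableSpace Ω] (P : Measure Ω) [IsProbabilityMeasure P]
  (α : ℕ → Ω → ℝ), IsSteinhaus P α → ∀ a : ℕ → ℂ, Summable (fun k => ‖a k‖ ^ 2) →
  ((∀ᵐ ω ∂P, InBloch (randomSeries a fun k => α k ω)) ↔ BlochCondition a) ∧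
  ((∀ᵐ ω ∂P, InBMOA (randomSeries a fun k => α k ω)) ↔ BMOACondition a)

end Pool.Agent.P8H68.RB
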