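import Pool.Agent.P8H68.RB.PSC
import Pool.Agent.P8H68.RB.Stm
import Pool.Agent.P8H68.RB.Basic

/-!
# Random Steinhaus power series: assembly
-/

set_option autoImplicit false

open MeasureTheory ProbabilityTheory Set Filter Topology
open scoped ENNReal NNReal
open Pool.Agent.W823.CT

namespace Pool.Agent.P8H68.RB

namespace FINaux

lemma exp_meas : Measurable fun t : ℝ => Complex.exp ((t : ℂ) * Complex.I) := by
  apply Continuous.measurable
  fun_prop

lemma stein_of {Ω : Type} [MeasurableSpace Ω] {P : Measure Ω} {α : ℕ → Ω → ℝ} (h : IsSteinhaus P α) :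
    Stein P (fun k ω => Complex.exp ((α k ω : ℂ) * Complex.I)) where
  meas k := exp_meas.comp (h.meas k)
  indep := h.indep.comp (fun _ t => Complex.exp ((t : ℂ) * Complex.I)) fun _ => exp_meas
  law k := by
    have : (fun ω => Complex.exp ((α k ω : ℂ) * Complex.I)) =
        (fun t : ℝ => Complex.exp ((t : ℂ) * Complex.I)) ∘ α k := rfl
    rw [this, ← Measure.map_map exp_meas (h.meas k), h.law k]
    rfl
  norm_one k ω := Complex.norm_exp_ofReal_mul_I _

/-- summability of products of square summable sequences -/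
lemma summable_mul {v : ℕ → ℝ} {a : ℕ → ℂ} (hv0 : ∀ k, 0 ≤ v k) (hv : Summable fun k => v k ^ 2)
    (ha : Summable fun k => ‖a k‖ ^ 2) : Summable fun k => v k * ‖a k‖ := by
  refine Summable.of_nonneg_of_le (fun k => mul_nonneg (hv0 k) (norm_nonneg _)) (fun k => ?_) (hv.add ha)
  nlinarith [sq_nonneg (v k - ‖a k‖), sq_nonneg (v k), sq_nonneg ‖a k‖]

end FINaux

open FINaux SCaux

theorem final_bloch_suf (hSUF : S_SUF) (hBLU : S_BLU) (hJB : S_JB) {Ω : Type} [MeasurableSpace Ω]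
    {P : Measure Ω} [IsProbabilityMeasure P] {ξ : ℕ → Ω → ℂ} (hξ : Stein P ξ) {a : ℕ → ℂ}
    (ha : Summable fun k => ‖a k‖ ^ 2) (h : BlochCondition a) :
    ∀ᵐ ω ∂P, InBloch (series fun k => a k * ξ k ω) := by
  obtain ⟨C, hC⟩ := h
  let u1 : ℕ → ℝ := fun m => if m = 1 then 1 else 0
  have hdiv : ∀ n k : ℕ, k ∈ Finset.Ico (2 ^ n) (2 ^ (n + 1)) → k / 2 ^ n = 1 := by
    intro n k hk
    rw [Finset.mem_Ico, pow_succ] at hk
    rw [Nat.div_eq_iff (by positivity)]
    omega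
  have hdiv0 : ∀ n k : ℕ, k ∈ Finset.range (2 * 2 ^ n) → k ∉ Finset.Ico (2 ^ n) (2 ^ (n + 1)) →
      k / 2 ^ n = 0 := by
    intro n k hk hk'
    rw [Finset.mem_range] at hk
    rw [Finset.mem_Ico, pow_succ] at hk'
    exact Nat.div_eq_of_lt (by omega)
  have hsub : ∀ n : ℕ, Finset.Ico (2 ^ n) (2 ^ (n + 1)) ⊆ Finset.range (2 * 2 ^ n) := by
    intro n k hk
    rw [Finset.mem_Ico, pow_succ] at hk
    rw [Finset.mem_range]
    omega
  have key := hSUF Ω P ξ hξ a {p | ∃ n, p = (n, 2, u1)} C ha ?_ ?_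
  · filter_upwards [key] with ω hω
    obtain ⟨B, hB⟩ := hω
    refine hBLU (fun k => a k * ξ k ω) B ?_ ?_
    · simpa only [norm_mul, hξ.norm_one, mul_one] using ha
    · intro n θ
      have h1 := hB (n, 2, u1) ⟨n, rfl⟩ θ
      refine le_trans (le_of_eq ?_) h1
      congr 1
      show ∑ k ∈ Finset.Ico (2 ^ n) (2 ^ (n + 1)), a k * ξ k ω * ex k θ =
        ∑ k ∈ Finset.range (2 * 2 ^ n), (u1 (k / 2 ^ n) : ℂ) * a k * ξ k ω * ex k θ
      rw [← Finset.sum_subset (hsub n)]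
      · refine Finset.sum_congr rfl fun k hk => ?_
        rw [hdiv n k hk]
        simp [u1]
      · intro k hk hk'
        rw [hdiv0 n k hk hk']
        simp [u1]
  · rintro p ⟨n, rfl⟩
    refine ⟨by simp [u1], ?_⟩
    show ∑ m ∈ Finset.range 2, u1 m ^ 2 ≤ 1
    simp [Finset.sum_range_succ, u1]
  · rintro p ⟨n, rfl⟩
    show J (Finset.range (2 * 2 ^ n)) (fun k => u1 (k / 2 ^ n) * ‖a k‖) ≤ ENNReal.ofReal C
    rw [← hJB.2.2 _ _ _ (hsub n)]
    · refine le_trans (le_of_eq ?_) (hC n)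
      refine J_congr fun k hk => ?_
      rw [hdiv n k hk]
      simp [u1]
    · intro k hk hk'
      rw [hdiv0 n k hk hk']
      simp [u1]

theorem final_bmoa_suf (hSUF : S_SUF) (hA : S_A) (hJB : S_JB) {Ω : Type} [MeasurableSpace Ω]
    {P : Measure Ω} [IsProbabilityMeasure P] {ξ : ℕ → Ω → ℂ} (hξ : Stein P ξ) {a : ℕ → ℂ}
    (ha : Summable fun k => ‖a k‖ ^ 2) (h : BMOACondition a) :
    ∀ᵐ ω ∂P, InBMOA (series fun k => a k * ξ k ω) := by
  obtain ⟨C, hC⟩ := h
  have key := hSUF Ω P ξ hξ a {p | p.2.2 0 = 0 ∧ ∑ m ∈ Finset.range p.2.1, p.2.2 m ^ 2 ≤ 1} C ha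
    (fun p hp => hp) ?_
  · filter_upwards [key] with ω hω
    obtain ⟨B, hB⟩ := hω
    refine hA (fun k => a k * ξ k ω) B ?_ ?_
    · simpa only [norm_mul, hξ.norm_one, mul_one] using ha
    · intro n M u hu0 hu θ
      have h1 := hB (n, M, u) ⟨hu0, hu⟩ θ
      simpa only [mul_assoc] using h1
  · rintro ⟨n, M, u⟩ ⟨hu0, hu⟩
    simp only at hu0 hu ⊢
    let u' : ℕ → ℝ := fun m => if m < M then u m else 0
    have h1 : ∑ m ∈ Finset.Icc 1 M, u' m ^ 2 ≤ 1 := by
      refine le_trans ?_ hu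
      have h2 : ∑ m ∈ Finset.Icc 1 M, u' m ^ 2 = ∑ m ∈ Finset.Ico 1 M, u' m ^ 2 := by
        symm
        refine Finset.sum_subset (fun m hm => ?_) fun m hm hm' => ?_
        · rw [Finset.mem_Ico] at hm
          rw [Finset.mem_Icc]; omega
        · rw [Finset.mem_Icc] at hm
          rw [Finset.mem_Ico] at hm'
          have : ¬ m < M := by omega
          simp [u', this]
      rw [h2]
      have h3 : ∑ m ∈ Finset.Ico 1 M, u' m ^ 2 = ∑ m ∈ Finset.Ico 1 M, u m ^ 2 :=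
        Finset.sum_congr rfl fun m hm => by
          rw [Finset.mem_Ico] at hm
          simp [u', hm.2]
      rw [h3]
      refine Finset.sum_le_sum_of_subset_of_nonneg (fun m hm => ?_) fun m _ _ => sq_nonneg _
      rw [Finset.mem_Ico] at hm
      exact Finset.mem_range.2 hm.2
    refine le_trans ?_ (hC n M u' h1)
    have h2 : Finset.Ico (2 ^ n) (M * 2 ^ n) ⊆ Finset.range (M * 2 ^ n) := fun k hk => by
      rw [Finset.mem_Ico] at hk
      exact Finset.mem_range.2 hk.2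
    rw [← hJB.2.2 _ _ _ h2]
    · refine hJB.1 _ _ _ _ (fun k hk => ?_) fun k hk => ?_
      · rw [Finset.mem_Ico] at hk ⊢
        refine ⟨hk.1, hk.2.trans_le ?_⟩
        exact Nat.mul_le_mul_right _ (Nat.le_succ M)
      · rw [Finset.mem_Ico] at hk
        have : k / 2 ^ n < M := Nat.div_lt_of_lt_mul (by rw [mul_comm]; exact hk.2)
        simp [u', this]
    · intro k hk hk'
      rw [Finset.mem_range] at hk
      rw [Finset.mem_Ico] at hk'
      have : k / 2 ^ n = 0 := Nat.div_eq_of_lt (by omega)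
      rw [this, hu0, zero_mul]

theorem final_bloch_nec (hNEC : S_NEC) (hBLL : S_BLL) (hJB : S_JB) {Ω : Type} [MeasurableSpace Ω]
    {P : Measure Ω} [IsProbabilityMeasure P] {ξ : ℕ → Ω → ℂ} (hξ : Stein P ξ) {a : ℕ → ℂ}
    (ha : Summable fun k => ‖a k‖ ^ 2) (h : ∀ᵐ ω ∂P, InBloch (series fun k => a k * ξ k ω)) :
    BlochCondition a := by
  obtain ⟨CL, hCL, hL⟩ := hBLL
  choose v hv1 hv2 hv3 hv4 using hL
  obtain ⟨C', hC'⟩ := hNEC Ω P ξ hξ a v CL ha hv1 (fun j => summable_mul (fun k => (hv1 j k).1) (hv3 j) ha) (by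
    filter_upwards [h] with ω hω
    obtain ⟨-, m, hm⟩ := hω
    refine ⟨CL * m, fun j θ => ?_⟩
    have h1 := hv4 j (fun k => a k * ξ k ω) m
      (by simpa only [norm_mul, hξ.norm_one, mul_one] using ha) hm θ
    simpa only [mul_assoc] using h1)
  refine ⟨C', fun n => ?_⟩
  refine le_trans ?_ (hC' n (2 ^ (n + 1)))
  refine hJB.1 _ _ _ _ (fun k hk => ?_) fun k hk => ?_
  · rw [Finset.mem_Ico] at hk
    exact Finset.mem_range.2 hk.2
  · have h1 := hv2 n k hk
    rw [abs_of_nonneg (norm_nonneg _), abs_of_nonneg (mul_nonneg (hv1 n k).1 (norm_nonneg _))]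
    nlinarith [norm_nonneg (a k)]

theorem final_bmoa_nec (hNEC : S_NEC) (hB : S_B) (hJB : S_JB) {Ω : Type} [MeasurableSpace Ω]
    {P : Measure Ω} [IsProbabilityMeasure P] {ξ : ℕ → Ω → ℂ} (hξ : Stein P ξ) {a : ℕ → ℂ}
    (ha : Summable fun k => ‖a k‖ ^ 2) (h : ∀ᵐ ω ∂P, InBMOA (series fun k => a k * ξ k ω)) :
    BMOACondition a := by
  obtain ⟨CL, hCL, hL⟩ := hB
  by_contra hcon
  unfold BMOACondition at hcon
  push Not at hcon
  choose n M u hu hlt using fun j : ℕ => hcon (j : ℝ)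
  let w : ℕ → ℕ → ℝ := fun j m => if m ∈ Finset.Icc 1 (M j) then |u j m| else 0
  have hw0 : ∀ j m, 0 ≤ w j m := by
    intro j m
    simp only [w]
    split_ifs
    · exact abs_nonneg _
    · exact le_rfl
  have hw00 : ∀ j, w j 0 = 0 := by intro j; simp [w]
  have hwM : ∀ j m, M j + 1 ≤ m → w j m = 0 := by
    intro j m hm
    have : ¬ (1 ≤ m ∧ m ≤ M j) := by omega
    simp [w, this]
  have hw2 : ∀ j, ∑ m ∈ Finset.range (M j + 1), w j m ^ 2 ≤ 1 := by
    intro j
    refine le_trans (le_of_eq ?_) (hu j)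
    have h1 : Finset.Icc 1 (M j) ⊆ Finset.range (M j + 1) := fun m hm => by
      rw [Finset.mem_Icc] at hm
      rw [Finset.mem_range]; omega
    rw [← Finset.sum_subset h1]
    · refine Finset.sum_congr rfl fun m hm => ?_
      simp only [w, if_pos hm, sq_abs]
    · intro m _ hm
      simp only [w, if_neg hm]
      norm_num
  choose v hv1 hv2 hv3 hv4 using fun j : ℕ => hL (n j) (M j + 1) (w j) (hw0 j) (hw00 j) (hwM j) (hw2 j)
  obtain ⟨C', hC'⟩ := hNEC Ω P ξ hξ a v CL ha hv1 (fun j => summable_mul (fun k => (hv1 j k).1) (hv3 j) ha) (by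
    filter_upwards [h] with ω hω
    obtain ⟨-, -, b, hb, m, hm⟩ := hω
    have hnorm : ∀ k, ‖a k * ξ k ω‖ = ‖a k‖ := fun k => by rw [norm_mul, hξ.norm_one, mul_one]
    refine ⟨CL * (m + √(∑' k, ‖a k‖ ^ 2)), fun j θ => ?_⟩
    have h1 := hv4 j (fun k => a k * ξ k ω) b m (by simpa only [hnorm] using ha) hb hm θ
    simp only [hnorm] at h1
    simpa only [mul_assoc] using h1)
  obtain ⟨j, hj⟩ := exists_nat_gt C'
  have h1 := hlt j
  have h2 : J (Finset.Ico (2 ^ n j) ((M j + 1) * 2 ^ n j)) (fun k => u j (k / 2 ^ n j) * ‖a k‖) ≤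
      J (Finset.range ((M j + 1) * 2 ^ n j)) (fun k => v j k * ‖a k‖) := by
    refine hJB.1 _ _ _ _ (fun k hk => ?_) fun k hk => ?_
    · rw [Finset.mem_Ico] at hk
      exact Finset.mem_range.2 hk.2
    · rw [Finset.mem_Ico] at hk
      have h3 : k / 2 ^ n j ∈ Finset.Icc 1 (M j) := by
        rw [Finset.mem_Icc]
        constructor
        · exact (Nat.le_div_iff_mul_le (by positivity)).2 (by simpa using hk.1)
        · have : k / 2 ^ n j < M j + 1 := Nat.div_lt_of_lt_mul (by rw [mul_comm]; exact hk.2)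
          omega
      have h4 := hv2 j k
      have h5 : w j (k / 2 ^ n j) = |u j (k / 2 ^ n j)| := by
        simp only [w, if_pos h3]
      rw [h5] at h4
      rw [abs_mul, abs_mul, abs_of_nonneg (hv1 j k).1]
      exact mul_le_mul_of_nonneg_right h4 (abs_nonneg _)
  have h3 := h1.trans_le (h2.trans (hC' j ((M j + 1) * 2 ^ n j)))
  have h4 := ENNReal.ofReal_le_ofReal hj.le
  exact absurd h3 (not_lt.2 h4)

theorem part_FINAL (hSUF : S_SUF) (hNEC : S_NEC) (hA : S_A) (hB : S_B) (hBLU : S_BLU)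
    (hBLL : S_BLL) (hJB : S_JB) : S_FINAL := by
  intro Ω _ P _ α hα a ha
  have hξ := stein_of hα
  exact ⟨⟨fun h => final_bloch_nec hNEC hBLL hJB hξ ha h,
      fun h => final_bloch_suf hSUF hBLU hJB hξ ha h⟩,
    ⟨fun h => final_bmoa_nec hNEC hB hJB hξ ha h, fun h => final_bmoa_suf hSUF hA hJB hξ ha h⟩⟩

end Pool.Agent.P8H68.RB
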