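import Pool.Agent.P8H68.RB.Basic

/-!
# Parseval's identity for trigonometric polynomials, Cauchy-Schwarz
-/

set_option autoImplicit false

open MeasureTheory ProbabilityTheory Set Filter Topology
open scoped ENNReal

namespace Pool.Agent.P8H68.RB

lemma integral_exp_int {l : ℤ} (hl : l ≠ 0) :
    ∫ θ in (0:ℝ)..(2 * Real.pi), Complex.exp (((l : ℝ) * θ : ℝ) * Complex.I) = 0 := by
  have hc : ((l : ℂ) * Complex.I) ≠ 0 := mul_ne_zero (by exact_mod_cast hl) Complex.I_ne_zero
  have h1 : (fun θ : ℝ => Complex.exp (((l : ℝ) * θ : ℝ) * Complex.I)) =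
      fun θ : ℝ => Complex.exp (((l : ℂ) * Complex.I) * θ) := by
    funext θ
    congr 1
    push_cast
    ring
  rw [h1, integral_exp_mul_complex hc]
  have h2 : Complex.exp ((l : ℂ) * Complex.I * ((2 * Real.pi : ℝ) : ℂ)) = 1 := by
    rw [Complex.exp_eq_one_iff]
    exact ⟨l, by push_cast; ring⟩
  rw [h2]
  simp

lemma ex_mul_conj (k l : ℕ) (θ : ℝ) :
    ex k θ * (starRingEnd ℂ) (ex l θ) =
      Complex.exp ((((k - l : ℤ) : ℝ) * θ : ℝ) * Complex.I) := by
  rw [ex, ex, ← Complex.exp_conj, ← Complex.exp_add]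
  congr 1
  rw [map_mul, Complex.conj_I, Complex.conj_ofReal]
  push_cast
  ring

lemma integral_ex_mul_conj (k l : ℕ) :
    ∫ θ in (0:ℝ)..(2 * Real.pi), ex k θ * (starRingEnd ℂ) (ex l θ) =
      if k = l then (2 * Real.pi : ℂ) else 0 := by
  simp only [ex_mul_conj]
  split_ifs with h
  · subst h
    simp
  · exact integral_exp_int (by omega)

/-- Parseval's identity -/
theorem parseval (s : Finset ℕ) (c : ℕ → ℂ) :
    ∫ θ in (0:ℝ)..(2 * Real.pi), ‖∑ k ∈ s, c k * ex k θ‖ ^ 2 = 2 * Real.pi * ∑ k ∈ s, ‖c k‖ ^ 2 := by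
  classical
  have h1 : ∀ θ : ℝ, ((‖∑ k ∈ s, c k * ex k θ‖ ^ 2 : ℝ) : ℂ) =
      ∑ k ∈ s, ∑ l ∈ s, c k * (starRingEnd ℂ) (c l) * (ex k θ * (starRingEnd ℂ) (ex l θ)) := by
    intro θ
    rw [Complex.ofReal_pow, ← Complex.mul_conj', map_sum, Finset.sum_mul_sum]
    refine Finset.sum_congr rfl fun k _ => Finset.sum_congr rfl fun l _ => ?_
    rw [map_mul]
    ring
  have h2 : ((∫ θ in (0:ℝ)..(2 * Real.pi), ‖∑ k ∈ s, c k * ex k θ‖ ^ 2 : ℝ) : ℂ) =
      ((2 * Real.pi * ∑ k ∈ s, ‖c k‖ ^ 2 : ℝ) : ℂ) := by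
    rw [← intervalIntegral.integral_ofReal]
    simp only [h1]
    have hc : ∀ k l : ℕ, Continuous fun θ : ℝ => c k * (starRingEnd ℂ) (c l) *
        (ex k θ * (starRingEnd ℂ) (ex l θ)) := fun k l =>
      continuous_const.mul ((continuous_ex k).mul (Complex.continuous_conj.comp (continuous_ex l)))
    rw [intervalIntegral.integral_finsetSum fun k _ =>
      (continuous_finsetSum s fun l _ => hc k l).intervalIntegrable _ _]
    have h3 : ∀ k ∈ s, ∫ θ in (0:ℝ)..(2 * Real.pi), ∑ l ∈ s, c k * (starRingEnd ℂ) (c l) *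
        (ex k θ * (starRingEnd ℂ) (ex l θ)) = c k * (starRingEnd ℂ) (c k) * (2 * Real.pi) := by
      intro k hk
      rw [intervalIntegral.integral_finsetSum fun l _ => (hc k l).intervalIntegrable _ _]
      simp only [intervalIntegral.integral_const_mul, integral_ex_mul_conj]
      rw [Finset.sum_eq_single_of_mem k hk]
      · rw [if_pos rfl]
      · intro l _ hl
        rw [if_neg (Ne.symm hl), mul_zero]
    rw [Finset.sum_congr rfl h3]
    push_cast
    rw [Finset.mul_sum]
    refine Finset.sum_congr rfl fun k _ => ?_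
    rw [Complex.mul_conj']
    ring
  exact_mod_cast h2

/-- Cauchy-Schwarz from the inequality between the means -/
lemma cs_trick {I A B : ℝ} (hA : 0 ≤ A) (hB : 0 ≤ B) (h : ∀ t : ℝ, 0 < t → 2 * I ≤ t * A + B / t) :
    I ≤ √A * √B := by
  rcases hA.eq_or_lt with hA0 | hA0
  · rw [← hA0]
    simp only [Real.sqrt_zero, zero_mul]
    by_contra hI
    push Not at hI
    have := h ((B + 1) / I) (by positivity)
    rw [← hA0, mul_zero, zero_add, div_div_eq_mul_div] at this
    have h2 : B * I / (B + 1) ≤ I := by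
      rw [div_le_iff₀ (by positivity)]
      nlinarith
    linarith
  · rcases hB.eq_or_lt with hB0 | hB0
    · rw [← hB0]
      simp only [Real.sqrt_zero, mul_zero]
      by_contra hI
      push Not at hI
      have := h (I / A) (by positivity)
      rw [← hB0, zero_div, add_zero, div_mul_cancel₀ _ hA0.ne'] at this
      linarith
    · have ha := Real.sqrt_pos.2 hA0
      have hb := Real.sqrt_pos.2 hB0
      have h1 := h (√B / √A) (by positivity)
      have h2 : √B / √A * A = √A * √B := by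
        have := Real.mul_self_sqrt hA
        field_simp
        nlinarith
      have h3 : B / (√B / √A) = √A * √B := by
        have := Real.mul_self_sqrt hB
        field_simp
        nlinarith
      rw [h2, h3] at h1
      linarith

/-- Cauchy-Schwarz on an interval -/
lemma cs_interval {f g : ℝ → ℂ} {x y : ℝ} (hxy : x ≤ y)
    (hf : IntervalIntegrable (fun t => ‖f t‖ ^ 2) volume x y)
    (hg : IntervalIntegrable (fun t => ‖g t‖ ^ 2) volume x y) :
    ‖∫ t in x..y, f t * g t‖ ≤ √(∫ t in x..y, ‖f t‖ ^ 2) * √(∫ t in x..y, ‖g t‖ ^ 2) := by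
  refine cs_trick (intervalIntegral.integral_nonneg hxy fun _ _ => by positivity)
    (intervalIntegral.integral_nonneg hxy fun _ _ => by positivity) fun t ht => ?_
  by_cases hfg : IntervalIntegrable (fun t => f t * g t) volume x y
  · have h1 : ‖∫ t in x..y, f t * g t‖ ≤ ∫ s in x..y, (t * ‖f s‖ ^ 2 + ‖g s‖ ^ 2 / t) / 2 := by
      refine (intervalIntegral.norm_integral_le_integral_norm hxy).trans ?_
      refine intervalIntegral.integral_mono_on hxy hfg.norm
        (((hf.const_mul t).add (hg.div_const t)).div_const 2) fun s _ => ?_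
      rw [norm_mul]
      have h2 : 0 ≤ (t * ‖f s‖ - ‖g s‖) ^ 2 / t := by positivity
      have h3 : (t * ‖f s‖ - ‖g s‖) ^ 2 / t = t * ‖f s‖ ^ 2 + ‖g s‖ ^ 2 / t - 2 * (‖f s‖ * ‖g s‖) := by
        field_simp
        ring
      linarith
    rw [intervalIntegral.integral_div, intervalIntegral.integral_add (hf.const_mul t) (hg.div_const t),
      intervalIntegral.integral_const_mul, intervalIntegral.integral_div] at h1
    linarith
  · rw [intervalIntegral.integral_undef hfg, norm_zero, mul_zero]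
    have h1 : 0 ≤ ∫ t in x..y, ‖f t‖ ^ 2 := intervalIntegral.integral_nonneg hxy fun _ _ => by positivity
    have h2 : 0 ≤ ∫ t in x..y, ‖g t‖ ^ 2 := intervalIntegral.integral_nonneg hxy fun _ _ => by positivity
    positivity

end Pool.Agent.P8H68.RB
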