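import Pool.Agent.P8H68.RB.PBLU
import Pool.Agent.P8H68.RB.Parseval

/-!
# Part A: upper bound for the mean oscillation
-/

set_option autoImplicit false

open MeasureTheory Set Filter Topology
open scoped ComplexConjugate

namespace Pool.Agent.P8H68.RB.Osc

/-- blocks of the power series -/
noncomputable def PB (c : ℕ → ℂ) (N m : ℕ) (θ : ℝ) : ℂ :=
  ∑ k ∈ Finset.Ico (m * N) ((m + 1) * N), c k * ex k θ

lemma continuous_PB (c : ℕ → ℂ) (N m : ℕ) : Continuous (PB c N m) :=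
  Bern.continuous_sum _ c

lemma sum_blocks (f : ℕ → ℂ) (u : ℕ → ℂ) (N M : ℕ) :
    ∑ k ∈ Finset.range (M * N), u (k / N) * f k =
      ∑ m ∈ Finset.range M, u m * ∑ k ∈ Finset.Ico (m * N) ((m + 1) * N), f k := by
  induction M with
  | zero => simp
  | succ M ih =>
    rw [Finset.sum_range_succ, ← ih, Finset.range_eq_Ico, Finset.range_eq_Ico,
      ← Finset.sum_Ico_consecutive _ (Nat.zero_le (M * N)) (Nat.mul_le_mul_right N (Nat.le_succ M))]
    congr 1
    rw [Finset.mul_sum]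
    refine Finset.sum_congr rfl fun k hk => ?_
    rw [Finset.mem_Ico] at hk
    rw [Nat.div_eq_of_lt_le hk.1 hk.2]

lemma dual (f : ℕ → ℝ) (M : ℕ) (B : ℝ)
    (h : ∀ u : ℕ → ℝ, u 0 = 0 → ∑ m ∈ Finset.range M, u m ^ 2 ≤ 1 →
      |∑ m ∈ Finset.range M, u m * f m| ≤ B) :
    ∑ m ∈ Finset.Ico 1 M, f m ^ 2 ≤ B ^ 2 := by
  set g : ℕ → ℝ := fun m => if m = 0 then 0 else f m with hg
  have e1 : ∑ m ∈ Finset.Ico 1 M, f m ^ 2 = ∑ m ∈ Finset.range M, g m ^ 2 := by
    have : ∑ m ∈ Finset.Ico 1 M, f m ^ 2 = ∑ m ∈ Finset.Ico 1 M, g m ^ 2 := by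
      refine Finset.sum_congr rfl fun m hm => ?_
      rw [Finset.mem_Ico] at hm
      rw [hg]
      simp only
      rw [if_neg (by omega)]
    rw [this]
    refine Finset.sum_subset ?_ ?_
    · intro m hm
      rw [Finset.mem_Ico] at hm
      exact Finset.mem_range.2 hm.2
    · intro m hm hm'
      rw [Finset.mem_range] at hm
      rw [Finset.mem_Ico] at hm'
      have : m = 0 := by omega
      subst this
      simp [hg]
  rw [e1]
  set Q := ∑ m ∈ Finset.range M, g m ^ 2 with hQ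
  have hQ0 : 0 ≤ Q := Finset.sum_nonneg fun _ _ => sq_nonneg _
  rcases hQ0.eq_or_lt with h0 | h0
  · rw [← h0]
    positivity
  · have hR := Real.sqrt_pos.2 h0
    have hR2 : √Q ^ 2 = Q := Real.sq_sqrt hQ0
    have := h (fun m => g m / √Q) (by simp [hg]) (by
      simp only [div_pow, hR2]
      rw [← Finset.sum_div, ← hQ, div_self h0.ne'])
    have e2 : ∑ m ∈ Finset.range M, g m / √Q * f m = √Q := by
      have e3 : ∀ m ∈ Finset.range M, g m / √Q * f m = g m ^ 2 / √Q := by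
        intro m _
        rw [hg]
        simp only
        split_ifs
        · simp
        · ring
      rw [Finset.sum_congr rfl e3, ← Finset.sum_div, ← hQ]
      nth_rewrite 1 [← hR2]
      field_simp
    rw [e2, abs_of_pos hR] at this
    rw [← hR2]
    exact pow_le_pow_left₀ hR.le this 2

lemma dual_c (p : ℕ → ℂ) (M : ℕ) (B : ℝ)
    (h : ∀ u : ℕ → ℝ, u 0 = 0 → ∑ m ∈ Finset.range M, u m ^ 2 ≤ 1 →
      ‖∑ m ∈ Finset.range M, (u m : ℂ) * p m‖ ≤ B) :
    ∑ m ∈ Finset.Ico 1 M, ‖p m‖ ^ 2 ≤ 2 * B ^ 2 := by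
  have h1 := dual (fun m => (p m).re) M B (fun u hu0 hu => by
    refine le_trans ?_ (h u hu0 hu)
    refine le_trans (le_of_eq ?_) (Complex.abs_re_le_norm _)
    rw [Complex.re_sum]
    congr 1
    refine Finset.sum_congr rfl fun m _ => ?_
    simp)
  have h2 := dual (fun m => (p m).im) M B (fun u hu0 hu => by
    refine le_trans ?_ (h u hu0 hu)
    refine le_trans (le_of_eq ?_) (Complex.abs_im_le_norm _)
    rw [Complex.im_sum]
    congr 1
    refine Finset.sum_congr rfl fun m _ => ?_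
    simp)
  calc ∑ m ∈ Finset.Ico 1 M, ‖p m‖ ^ 2 = ∑ m ∈ Finset.Ico 1 M, ((p m).re ^ 2 + (p m).im ^ 2) := by
        refine Finset.sum_congr rfl fun m _ => ?_
        rw [← Complex.normSq_eq_norm_sq, Complex.normSq_apply]
        ring
    _ ≤ 2 * B ^ 2 := by
        rw [Finset.sum_add_distrib]
        linarith

lemma geom_lower (N : ℕ) (φ : ℝ) (h : |(N : ℝ) * φ| ≤ Real.pi) :
    (N : ℝ) * (2 / Real.pi) ≤ ‖∑ j ∈ Finset.range N, ex j φ‖ := by
  have hpi := Real.pi_pos
  rcases eq_or_ne φ 0 with h0 | h0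
  · subst h0
    simp only [ex_zero, Finset.sum_const, Finset.card_range, nsmul_eq_mul, mul_one]
    rw [Complex.norm_natCast]
    have : 2 / Real.pi ≤ 1 := by
      rw [div_le_one hpi]
      exact Real.two_le_pi
    nlinarith [Nat.cast_nonneg (α := ℝ) N]
  · have e1 : (ex 1 φ - 1) * ∑ j ∈ Finset.range N, ex j φ = ex N φ - 1 := by
      have : ∀ j, ex j φ = (Complex.exp (φ * Complex.I)) ^ j := fun j => ex_eq_pow j φ
      simp only [this]
      rw [pow_one]
      exact mul_geom_sum _ _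
    have e2 : 2 / Real.pi * |(N : ℝ) * φ| ≤ ‖ex N φ - 1‖ := by
      have e3 : ex N φ = Complex.exp (Complex.I * (((N : ℝ) * φ : ℝ) : ℂ)) := by
        rw [ex, mul_comm]
      rw [e3, Complex.norm_exp_I_mul_ofReal_sub_one, Real.norm_eq_abs, abs_mul 2 _, abs_two]
      have h5 : |(N : ℝ) * φ / 2| ≤ Real.pi / 2 := by
        rw [abs_div, abs_two]
        linarith
      have h6 := Real.mul_abs_le_abs_sin h5
      rw [abs_div, abs_two] at h6
      linarith
    have e4 := norm_ex_sub_one_le 1 φ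
    rw [Nat.cast_one, one_mul] at e4
    have e5 : ‖ex N φ - 1‖ ≤ |φ| * ‖∑ j ∈ Finset.range N, ex j φ‖ := by
      rw [← e1, norm_mul]
      exact mul_le_mul_of_nonneg_right e4 (norm_nonneg _)
    have e6 : |φ| * ((N : ℝ) * (2 / Real.pi)) ≤ |φ| * ‖∑ j ∈ Finset.range N, ex j φ‖ := by
      refine le_trans (le_of_eq ?_) (e2.trans e5)
      rw [abs_mul, Nat.abs_cast]
      ring
    exact le_of_mul_le_mul_left e6 (abs_pos.2 h0)

lemma pyth {ι : Type} (S : Finset ι) (F : ι → ℝ → ℂ) (hc : ∀ i, Continuous (F i))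
    (ho : ∀ i ∈ S, ∀ j ∈ S, i ≠ j → ∫ t in (0:ℝ)..(2 * Real.pi), F i t * conj (F j t) = 0) :
    ∫ t in (0:ℝ)..(2 * Real.pi), ‖∑ i ∈ S, F i t‖ ^ 2 =
      ∑ i ∈ S, ∫ t in (0:ℝ)..(2 * Real.pi), ‖F i t‖ ^ 2 := by
  have h1 : ((∫ t in (0:ℝ)..(2 * Real.pi), ‖∑ i ∈ S, F i t‖ ^ 2 : ℝ) : ℂ) =
      ((∑ i ∈ S, ∫ t in (0:ℝ)..(2 * Real.pi), ‖F i t‖ ^ 2 : ℝ) : ℂ) := by
    rw [← intervalIntegral.integral_ofReal]
    simp only [Bern.norm_sq_eq, map_sum, Finset.sum_mul_sum]
    have hcc : ∀ i j, Continuous fun t => F i t * conj (F j t) := fun i j =>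
      (hc i).mul (Complex.continuous_conj.comp (hc j))
    rw [intervalIntegral.integral_finsetSum fun i _ =>
      (continuous_finsetSum _ fun j _ => hcc i j).intervalIntegrable _ _]
    push_cast
    refine Finset.sum_congr rfl fun i hi => ?_
    rw [intervalIntegral.integral_finsetSum fun j _ => (hcc i j).intervalIntegrable _ _]
    rw [Finset.sum_eq_single_of_mem i hi]
    · rw [← intervalIntegral.integral_ofReal]
      simp only [Bern.norm_sq_eq]
    · intro j hj hji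
      exact ho i hi j hj hji.symm
  exact_mod_cast h1

lemma block_orth (c d : ℕ → ℂ) (N m m' : ℕ) (h : m + 2 ≤ m' ∨ m' + 2 ≤ m) :
    ∫ t in (0:ℝ)..(2 * Real.pi), (PB c N m t * ∑ j ∈ Finset.range N, d j * ex j t) *
      conj (PB c N m' t * ∑ j ∈ Finset.range N, d j * ex j t) = 0 := by
  have e1 : ∀ m t, PB c N m t * ∑ j ∈ Finset.range N, d j * ex j t =
      ∑ p ∈ Finset.Ico (m * N) ((m + 1) * N) ×ˢ Finset.range N,
        (c p.1 * d p.2) * ex (p.1 + p.2) t := by
    intro m t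
    rw [PB, Finset.sum_mul_sum, Finset.sum_product]
    refine Finset.sum_congr rfl fun i _ => Finset.sum_congr rfl fun j _ => ?_
    rw [ex_add_left]
    ring
  simp only [e1]
  rw [Bern.orth_sum _ _ (fun p : ℕ × ℕ => c p.1 * d p.2) (fun p : ℕ × ℕ => c p.1 * d p.2)
    (fun p : ℕ × ℕ => p.1 + p.2) (fun p : ℕ × ℕ => p.1 + p.2)]
  rw [Finset.sum_eq_zero, mul_zero]
  intro p hp
  refine Finset.sum_eq_zero fun q hq => ?_
  rw [Finset.mem_product, Finset.mem_Ico, Finset.mem_range] at hp hq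
  rw [if_neg]
  intro heq
  rcases h with h | h
  · have h1 : (m + 2) * N ≤ m' * N := Nat.mul_le_mul_right N h
    have h2 : (m + 2) * N = (m + 1) * N + N := by ring
    omega
  · have h1 : (m' + 2) * N ≤ m * N := Nat.mul_le_mul_right N h
    have h2 : (m' + 2) * N = (m' + 1) * N + N := by ring
    omega

lemma high_bound (c d : ℕ → ℂ) (N M : ℕ) (A : ℝ)
    (hP : ∀ t, ∑ m ∈ Finset.Ico 1 M, ‖PB c N m t‖ ^ 2 ≤ A) :
    ∫ t in (0:ℝ)..(2 * Real.pi),
      ‖(∑ m ∈ Finset.Ico 1 M, PB c N m t) * ∑ j ∈ Finset.range N, d j * ex j t‖ ^ 2 ≤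
      2 * A * ∫ t in (0:ℝ)..(2 * Real.pi), ‖∑ j ∈ Finset.range N, d j * ex j t‖ ^ 2 := by
  have hpi : (0 : ℝ) ≤ 2 * Real.pi := by positivity
  set D : ℝ → ℂ := fun t => ∑ j ∈ Finset.range N, d j * ex j t with hD
  have hDc : Continuous D := Bern.continuous_sum _ d
  set F : ℕ → ℝ → ℂ := fun m t => PB c N m t * D t with hF
  have hFc : ∀ m, Continuous (F m) := fun m => (continuous_PB c N m).mul hDc
  set S1 := (Finset.Ico 1 M).filter (fun m => Even m) with hS1
  set S2 := (Finset.Ico 1 M).filter (fun m => ¬ Even m) with hS2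
  have p1 := pyth S1 F hFc (by
    intro i hi j hj hij
    rw [hS1, Finset.mem_filter] at hi hj
    obtain ⟨a, ha⟩ := hi.2
    obtain ⟨b, hb⟩ := hj.2
    exact block_orth c d N i j (by omega))
  have p2 := pyth S2 F hFc (by
    intro i hi j hj hij
    rw [hS2, Finset.mem_filter, Nat.not_even_iff_odd] at hi hj
    obtain ⟨a, ha⟩ := hi.2
    obtain ⟨b, hb⟩ := hj.2
    exact block_orth c d N i j (by omega))
  have hsplit : ∀ t, (∑ m ∈ Finset.Ico 1 M, PB c N m t) * D t =
      ∑ m ∈ S1, F m t + ∑ m ∈ S2, F m t := by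
    intro t
    rw [hS1, hS2, Finset.sum_filter_add_sum_filter_not, Finset.sum_mul]
  have hc1 : Continuous fun t => ‖∑ m ∈ S1, F m t‖ ^ 2 :=
    (continuous_finsetSum _ fun m _ => hFc m).norm.pow 2
  have hc2 : Continuous fun t => ‖∑ m ∈ S2, F m t‖ ^ 2 :=
    (continuous_finsetSum _ fun m _ => hFc m).norm.pow 2
  have hcF : ∀ m, Continuous fun t => ‖F m t‖ ^ 2 := fun m => (hFc m).norm.pow 2
  have hcP : Continuous fun t => ∑ m ∈ Finset.Ico 1 M, PB c N m t :=
    continuous_finsetSum _ fun m _ => continuous_PB c N m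
  calc ∫ t in (0:ℝ)..(2 * Real.pi), ‖(∑ m ∈ Finset.Ico 1 M, PB c N m t) * D t‖ ^ 2
      ≤ ∫ t in (0:ℝ)..(2 * Real.pi), (2 * ‖∑ m ∈ S1, F m t‖ ^ 2 + 2 * ‖∑ m ∈ S2, F m t‖ ^ 2) := by
        refine intervalIntegral.integral_mono_on hpi ?_ ?_ fun t _ => ?_
        · exact ((hcP.mul hDc).norm.pow 2).intervalIntegrable _ _
        · exact ((continuous_const.mul hc1).add (continuous_const.mul hc2)).intervalIntegrable _ _
        · rw [hsplit]
          have := norm_add_le (∑ m ∈ S1, F m t) (∑ m ∈ S2, F m t)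
          have h2 := pow_le_pow_left₀ (norm_nonneg _) this 2
          nlinarith [sq_nonneg (‖∑ m ∈ S1, F m t‖ - ‖∑ m ∈ S2, F m t‖)]
    _ = 2 * ∑ m ∈ Finset.Ico 1 M, ∫ t in (0:ℝ)..(2 * Real.pi), ‖F m t‖ ^ 2 := by
        rw [intervalIntegral.integral_add (f := fun t => 2 * ‖∑ m ∈ S1, F m t‖ ^ 2)
          (g := fun t => 2 * ‖∑ m ∈ S2, F m t‖ ^ 2)
          ((continuous_const.mul hc1).intervalIntegrable _ _)
          ((continuous_const.mul hc2).intervalIntegrable _ _),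
          intervalIntegral.integral_const_mul, intervalIntegral.integral_const_mul, p1, p2,
          hS1, hS2, ← mul_add, Finset.sum_filter_add_sum_filter_not]
    _ = 2 * ∫ t in (0:ℝ)..(2 * Real.pi), ∑ m ∈ Finset.Ico 1 M, ‖F m t‖ ^ 2 := by
        rw [intervalIntegral.integral_finsetSum fun m _ => (hcF m).intervalIntegrable _ _]
    _ ≤ 2 * ∫ t in (0:ℝ)..(2 * Real.pi), A * ‖D t‖ ^ 2 := by
        refine mul_le_mul_of_nonneg_left ?_ (by norm_num)
        refine intervalIntegral.integral_mono_on hpi ?_ ?_ fun t _ => ?_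
        · exact (continuous_finsetSum _ fun m _ => hcF m).intervalIntegrable _ _
        · exact (continuous_const.mul (hDc.norm.pow 2)).intervalIntegrable _ _
        · have : ∑ m ∈ Finset.Ico 1 M, ‖F m t‖ ^ 2 =
              (∑ m ∈ Finset.Ico 1 M, ‖PB c N m t‖ ^ 2) * ‖D t‖ ^ 2 := by
            rw [Finset.sum_mul]
            refine Finset.sum_congr rfl fun m _ => ?_
            rw [hF]
            simp only
            rw [norm_mul, mul_pow]
          rw [this]
          exact mul_le_mul_of_nonneg_right (hP t) (sq_nonneg _)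
    _ = _ := by
        rw [intervalIntegral.integral_const_mul]
        ring

lemma PB_periodic (c : ℕ → ℂ) (N m : ℕ) : Function.Periodic (PB c N m) (2 * Real.pi) := by
  intro t
  simp only [PB, ex_periodic _ t]

/-- the high part on a short arc -/
lemma high_arc (c : ℕ → ℂ) (N M : ℕ) (hN : 0 < N) (A : ℝ) (hA : 0 ≤ A)
    (hP : ∀ t, ∑ m ∈ Finset.Ico 1 M, ‖PB c N m t‖ ^ 2 ≤ A) (x y : ℝ) (hxy : x < y)
    (h1 : Real.pi ≤ N * (y - x)) (h2 : N * (y - x) ≤ 2 * Real.pi) :
    ∫ t in x..y, ‖∑ m ∈ Finset.Ico 1 M, PB c N m t‖ ^ 2 ≤ Real.pi ^ 2 * A * (y - x) := by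
  have hpi := Real.pi_pos
  have hN' : (0 : ℝ) < N := by exact_mod_cast hN
  set G : ℝ → ℂ := fun t => ∑ m ∈ Finset.Ico 1 M, PB c N m t with hG
  have hGc : Continuous G := continuous_finsetSum _ fun m _ => continuous_PB c N m
  have hGp : Function.Periodic G (2 * Real.pi) := by
    intro t
    simp only [hG, PB_periodic c N _ t]
  set θ₀ := (x + y) / 2 with hθ
  set D : ℝ → ℂ := fun t => ∑ j ∈ Finset.range N, ex j (-θ₀) * ex j t with hD
  have hDc : Continuous D := Bern.continuous_sum _ _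
  have hDp : Function.Periodic D (2 * Real.pi) := by
    intro t
    simp only [hD, ex_periodic _ t]
  have hDe : ∀ t, D t = ∑ j ∈ Finset.range N, ex j (t - θ₀) := by
    intro t
    refine Finset.sum_congr rfl fun j _ => ?_
    rw [sub_eq_add_neg, ex_add, mul_comm]
  have hDl : ∀ t ∈ Icc x y, (N : ℝ) * (2 / Real.pi) ≤ ‖D t‖ := by
    intro t ht
    rw [hDe]
    refine geom_lower N _ ?_
    rw [abs_mul, abs_of_pos hN']
    have h3 : |t - θ₀| ≤ (y - x) / 2 := by
      rw [abs_le, hθ]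
      constructor <;> linarith [ht.1, ht.2]
    nlinarith
  have hyx : y - x ≤ 2 * Real.pi := by
    have h1N : (1 : ℝ) ≤ N := by exact_mod_cast hN
    nlinarith
  have k1 := high_bound c (fun j => ex j (-θ₀)) N M A hP
  have k2 : ∫ t in (0:ℝ)..(2 * Real.pi), ‖∑ j ∈ Finset.range N, ex j (-θ₀) * ex j t‖ ^ 2 =
      2 * Real.pi * N := by
    rw [Bern.parseval]
    simp [norm_ex]
  rw [k2] at k1
  set H : ℝ → ℝ := fun t => ‖G t * D t‖ ^ 2 with hH
  have hHc : Continuous H := (hGc.mul hDc).norm.pow 2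
  have hHp : Function.Periodic H (2 * Real.pi) := by
    intro t
    simp only [hH, hGp t, hDp t]
  have k3 : ∫ t in x..y, H t ≤ ∫ t in (0:ℝ)..(2 * Real.pi), H t := by
    have e1 := hHp.intervalIntegral_add_eq x 0
    rw [zero_add] at e1
    rw [← e1]
    refine intervalIntegral.integral_mono_interval le_rfl hxy.le (by linarith) ?_
      (hHc.intervalIntegrable _ _)
    exact ae_of_all _ fun t => by simp only [hH]; positivity
  have k4 : ∫ t in x..y, ‖G t‖ ^ 2 ≤ ∫ t in x..y, ((N : ℝ) * (2 / Real.pi)) ^ (-2 : ℤ) * H t := by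
    refine intervalIntegral.integral_mono_on hxy.le ((hGc.norm.pow 2).intervalIntegrable _ _)
      ((continuous_const.mul hHc).intervalIntegrable _ _) fun t ht => ?_
    have e2 := hDl t ht
    have e3 : 0 < (N : ℝ) * (2 / Real.pi) := by positivity
    have e4 := pow_le_pow_left₀ e3.le e2 2
    rw [hH]
    simp only
    rw [norm_mul, mul_pow, zpow_neg, ← div_eq_inv_mul, le_div_iff₀ (by positivity)]
    have e5 : ((N : ℝ) * (2 / Real.pi)) ^ (2 : ℤ) = ((N : ℝ) * (2 / Real.pi)) ^ 2 := by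
      norm_cast
    rw [e5]
    exact mul_le_mul_of_nonneg_left e4 (sq_nonneg _)
  rw [intervalIntegral.integral_const_mul] at k4
  refine k4.trans ?_
  have e6 : (0 : ℝ) ≤ ((N : ℝ) * (2 / Real.pi)) ^ (-2 : ℤ) := by positivity
  calc ((N : ℝ) * (2 / Real.pi)) ^ (-2 : ℤ) * ∫ t in x..y, H t
      ≤ ((N : ℝ) * (2 / Real.pi)) ^ (-2 : ℤ) * (2 * A * (2 * Real.pi * N)) :=
        mul_le_mul_of_nonneg_left (k3.trans k1) e6
    _ = Real.pi ^ 2 * A * (Real.pi / N) := by
        rw [zpow_neg]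
        have e5 : ((N : ℝ) * (2 / Real.pi)) ^ (2 : ℤ) = ((N : ℝ) * (2 / Real.pi)) ^ 2 := by
          norm_cast
        rw [e5]
        field_simp
    _ ≤ _ := by
        refine mul_le_mul_of_nonneg_left ?_ (by positivity)
        rw [div_le_iff₀ hN']
        linarith

lemma block_lip (K : ℕ) (a : ℕ → ℂ) (B : ℝ)
    (h : ∀ t : ℝ, ‖∑ k ∈ Finset.range K, a k * ex k t‖ ≤ B) (s t : ℝ) :
    ‖∑ k ∈ Finset.range K, a k * ex k s - ∑ k ∈ Finset.range K, a k * ex k t‖ ≤
      K * B * |s - t| := by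
  have hd : ∀ u : ℝ, HasDerivAt (fun u : ℝ => ∑ k ∈ Finset.range K, a k * ex k u)
      (∑ k ∈ Finset.range K, a k * (ex k u * ((k : ℂ) * Complex.I))) u := by
    intro u
    refine HasDerivAt.fun_sum fun k _ => ?_
    refine HasDerivAt.const_mul _ ?_
    have h1 : HasDerivAt (fun u : ℝ => (((k : ℝ) * u : ℝ) : ℂ) * Complex.I)
        ((k : ℂ) * Complex.I) u := by
      have h2 : HasDerivAt (fun u : ℝ => (((k : ℝ) * u : ℝ) : ℂ)) (k : ℂ) u := by
        have := (HasDerivAt.const_mul (k : ℝ) (hasDerivAt_id u)).ofReal_comp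
        simpa using this
      exact h2.mul_const _
    exact h1.cexp
  refine Convex.norm_image_sub_le_of_norm_hasDerivWithin_le
    (f := fun u : ℝ => ∑ k ∈ Finset.range K, a k * ex k u) (s := univ)
    (fun u _ => (hd u).hasDerivWithinAt) ?_ convex_univ (mem_univ t) (mem_univ s)
  intro u _
  have e1 : ∑ k ∈ Finset.range K, a k * (ex k u * ((k : ℂ) * Complex.I)) =
      Complex.I * ∑ k ∈ Finset.range K, (k : ℂ) * a k * ex k u := by
    rw [Finset.mul_sum]
    refine Finset.sum_congr rfl fun k _ => ?_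
    ring
  rw [e1, norm_mul, Complex.norm_I, one_mul]
  exact Bern.bernstein K a B h u

/-- the low part -/
lemma low_lip (c : ℕ → ℂ) (B : ℝ)
    (h : ∀ (j : ℕ) (t : ℝ), ‖∑ k ∈ Finset.Ico (2 ^ j) (2 * 2 ^ j), c k * ex k t‖ ≤ B) (n : ℕ)
    (s t : ℝ) :
    ‖∑ k ∈ Finset.range (2 ^ n), c k * ex k s - ∑ k ∈ Finset.range (2 ^ n), c k * ex k t‖ ≤
      2 * 2 ^ n * B * |s - t| := by
  have hB : 0 ≤ B := (norm_nonneg _).trans (h 0 0)
  rw [Bern.dyadic, Bern.dyadic]
  have e1 : ∀ a b1 b2 d : ℂ, a = d → (a + b1) - (d + b2) = b1 - b2 := by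
    intro a b1 b2 d had
    rw [had]
    ring
  rw [e1 _ _ _ _ (by rw [ex_zero_left, ex_zero_left]), ← Finset.sum_sub_distrib]
  refine (norm_sum_le _ _).trans ?_
  have e2 : ∀ j ∈ Finset.range n,
      ‖∑ k ∈ Finset.Ico (2 ^ j) (2 * 2 ^ j), c k * ex k s -
        ∑ k ∈ Finset.Ico (2 ^ j) (2 * 2 ^ j), c k * ex k t‖ ≤ 2 * (2 : ℝ) ^ j * (B * |s - t|) := by
    intro j _
    have e3 : ∀ u : ℝ, ∑ k ∈ Finset.Ico (2 ^ j) (2 * 2 ^ j), c k * ex k u =
        ∑ k ∈ Finset.range (2 * 2 ^ j), (if 2 ^ j ≤ k then c k else 0) * ex k u := by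
      intro u
      have e4 : ∑ k ∈ Finset.Ico (2 ^ j) (2 * 2 ^ j), c k * ex k u =
          ∑ k ∈ Finset.Ico (2 ^ j) (2 * 2 ^ j), (if 2 ^ j ≤ k then c k else 0) * ex k u := by
        refine Finset.sum_congr rfl fun k hk => ?_
        rw [if_pos (Finset.mem_Ico.1 hk).1]
      rw [e4]
      refine Finset.sum_subset ?_ ?_
      · intro k hk
        exact Finset.mem_range.2 (Finset.mem_Ico.1 hk).2
      · intro k hk hk'
        rw [Finset.mem_range] at hk
        rw [Finset.mem_Ico] at hk'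
        rw [if_neg (by omega), zero_mul]
    rw [e3, e3]
    have := block_lip (2 * 2 ^ j) (fun k => if 2 ^ j ≤ k then c k else 0) B (by
      intro u
      rw [← e3]
      exact h j u) s t
    refine this.trans (le_of_eq ?_)
    push_cast
    ring
  refine (Finset.sum_le_sum e2).trans ?_
  rw [← Finset.sum_mul]
  have e5 : ∑ j ∈ Finset.range n, 2 * (2 : ℝ) ^ j ≤ 2 * 2 ^ n := by
    rw [← Finset.mul_sum]
    refine mul_le_mul_of_nonneg_left ?_ (by norm_num)
    rw [geom_sum_eq (by norm_num)]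
    norm_num
  calc (∑ j ∈ Finset.range n, 2 * (2 : ℝ) ^ j) * (B * |s - t|) ≤
      (2 * 2 ^ n) * (B * |s - t|) := mul_le_mul_of_nonneg_right e5 (by positivity)
    _ = _ := by ring

lemma exists_scale (l : ℝ) (h0 : 0 < l) (h1 : l ≤ 2 * Real.pi) :
    ∃ n : ℕ, Real.pi ≤ 2 ^ n * l ∧ 2 ^ n * l ≤ 2 * Real.pi := by
  classical
  have hex : ∃ n : ℕ, Real.pi ≤ 2 ^ n * l := by
    obtain ⟨n, hn⟩ := pow_unbounded_of_one_lt (Real.pi / l) (one_lt_two)
    exact ⟨n, by rw [div_lt_iff₀ h0] at hn; exact hn.le⟩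
  refine ⟨Nat.find hex, Nat.find_spec hex, ?_⟩
  rcases hn : Nat.find hex with _ | n
  · simpa using h1
  · have h2 : ¬ Real.pi ≤ 2 ^ n * l := Nat.find_min hex (by omega)
    push Not at h2
    rw [pow_succ]
    linarith

lemma bdry_int {g : ℂ → ℂ} {b : ℝ → ℂ} (hb : IsBoundaryFunction g b) (x y : ℝ) :
    IntervalIntegrable b volume x y ∧ IntervalIntegrable (fun t => ‖b t‖ ^ 2) volume x y := by
  have hpi : (0 : ℝ) ≤ 2 * Real.pi := by positivity
  have hpi' : (2 * Real.pi) ≠ 0 := by positivity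
  have h1 : IntervalIntegrable b volume 0 (2 * Real.pi) := by
    rw [intervalIntegrable_iff_integrableOn_Ioc_of_le hpi]
    exact hb.memLp.integrable (by norm_num)
  have h2 : IntervalIntegrable (fun t => ‖b t‖ ^ 2) volume 0 (2 * Real.pi) := by
    rw [intervalIntegrable_iff_integrableOn_Ioc_of_le hpi]
    exact (memLp_two_iff_integrable_sq_norm hb.memLp.1).1 hb.memLp
  refine ⟨hb.periodic.intervalIntegrable₀ hpi' h1 x y, ?_⟩
  refine Function.Periodic.intervalIntegrable₀ ?_ hpi' h2 x y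
  intro t
  simp only [hb.periodic t]

lemma bdry_sq {g : ℂ → ℂ} {b : ℝ → ℂ} (hb : IsBoundaryFunction g b) {f : ℝ → ℂ}
    (hf : Continuous f) (x y : ℝ) :
    IntervalIntegrable (fun t => ‖b t - f t‖ ^ 2) volume x y := by
  obtain ⟨h1, h2⟩ := bdry_int hb x y
  have h3 : IntervalIntegrable (fun t => 2 * ‖b t‖ ^ 2 + 2 * ‖f t‖ ^ 2) volume x y :=
    (h2.const_mul 2).add ((continuous_const.mul (hf.norm.pow 2)).intervalIntegrable _ _)
  refine h3.mono_fun ?_ ?_
  · exact ((h1.aestronglyMeasurable_restrict_uIoc).sub hf.aestronglyMeasurable).norm.pow 2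
  · refine ae_of_all _ fun t => ?_
    simp only
    rw [Real.norm_eq_abs, Real.norm_eq_abs, abs_of_nonneg (by positivity),
      abs_of_nonneg (by positivity)]
    have h4 := norm_sub_le (b t) (f t)
    have h5 := pow_le_pow_left₀ (norm_nonneg _) h4 2
    nlinarith [sq_nonneg (‖b t‖ - ‖f t‖)]

lemma split_sum (c : ℕ → ℂ) (n l : ℕ) (t : ℝ) :
    ∑ k ∈ Finset.range (2 ^ (n + l)), c k * ex k t =
      ∑ k ∈ Finset.range (2 ^ n), c k * ex k t +
        ∑ m ∈ Finset.Ico 1 (2 ^ l), PB c (2 ^ n) m t := by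
  have h1 := sum_blocks (fun k => c k * ex k t) (fun _ => 1) (2 ^ n) (2 ^ l)
  simp only [one_mul] at h1
  have h2 : 2 ^ (n + l) = 2 ^ l * 2 ^ n := by rw [pow_add, mul_comm]
  rw [h2, h1, Finset.range_eq_Ico, Finset.sum_eq_sum_Ico_succ_bot (Nat.two_pow_pos l)]
  congr 1
  rw [zero_mul, zero_add, one_mul, Finset.range_eq_Ico]

lemma l1_l2 {f : ℝ → ℂ} {x y : ℝ} (hxy : x ≤ y)
    (hf : IntervalIntegrable (fun t => ‖f t‖ ^ 2) volume x y) :
    ∫ t in x..y, ‖f t‖ ≤ √(∫ t in x..y, ‖f t‖ ^ 2) * √(y - x) := by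
  have h1 := cs_interval (f := fun t => ((‖f t‖ : ℝ) : ℂ)) (g := fun _ => 1) hxy
    (by simpa using hf) (by simp)
  simp only [mul_one, Complex.norm_real, norm_norm, norm_one, one_pow,
    intervalIntegral.integral_const, smul_eq_mul] at h1
  rw [intervalIntegral.integral_ofReal, Complex.norm_real, Real.norm_eq_abs, abs_of_nonneg
    (intervalIntegral.integral_nonneg hxy fun _ _ => norm_nonneg _)] at h1
  exact h1

end Pool.Agent.P8H68.RB.Osc

namespace Pool.Agent.P8H68.RB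

open Osc in
theorem part_A (hBD : S_BD) : S_A := by
  intro c B hc hH
  obtain ⟨hdiff, hH2, ⟨b, hb⟩, hbK⟩ := hBD c hc
  have hpi := Real.pi_pos
  have hB : 0 ≤ B := by
    have := hH 0 0 (fun _ => 0) rfl (by simp) 0
    simpa using this
  have hw : ∀ (n M : ℕ) (u : ℕ → ℝ), u 0 = 0 → ∑ m ∈ Finset.range M, u m ^ 2 ≤ 1 → ∀ θ : ℝ,
      ‖∑ m ∈ Finset.range M, (u m : ℂ) * PB c (2 ^ n) m θ‖ ≤ B := by
    intro n M u hu0 hu θ
    have h1 := hH n M u hu0 hu θ
    have h2 := sum_blocks (fun k => c k * ex k θ) (fun m => (u m : ℂ)) (2 ^ n) M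
    simp only [mul_assoc] at h1 h2
    rw [h2] at h1
    exact h1
  have hblock : ∀ (j : ℕ) (t : ℝ),
      ‖∑ k ∈ Finset.Ico (2 ^ j) (2 * 2 ^ j), c k * ex k t‖ ≤ B := by
    intro j t
    have h1 := hw j 2 (fun m => if m = 1 then 1 else 0) (by simp)
      (by simp) t
    simp only [Finset.sum_range_succ, Finset.range_zero, Finset.sum_empty] at h1
    simpa [PB, one_add_one_eq_two] using h1
  have hP : ∀ (n M : ℕ) (t : ℝ), ∑ m ∈ Finset.Ico 1 M, ‖PB c (2 ^ n) m t‖ ^ 2 ≤ 2 * B ^ 2 :=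
    fun n M t => dual_c _ M B fun u hu0 hu => hw n M u hu0 hu t
  have main : ∀ x y : ℝ, x < y → y - x ≤ 2 * Real.pi → ∃ κ : ℂ,
      ∫ t in x..y, ‖b t - κ‖ ^ 2 ≤ 18 * Real.pi ^ 2 * B ^ 2 * (y - x) := by
    intro x y hxy hxy2
    have hl : 0 < y - x := sub_pos.2 hxy
    obtain ⟨n, hn1, hn2⟩ := exists_scale (y - x) hl hxy2
    set θ₀ := (x + y) / 2 with hθ
    set low : ℝ → ℂ := fun t => ∑ k ∈ Finset.range (2 ^ n), c k * ex k t with hlow
    refine ⟨low θ₀, ?_⟩
    have hlowc : Continuous low := Bern.continuous_sum _ c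
    have hlow1 : ∀ t ∈ Icc x y, ‖low t - low θ₀‖ ^ 2 ≤ 4 * Real.pi ^ 2 * B ^ 2 := by
      intro t ht
      have h1 := low_lip c B hblock n t θ₀
      have h2 : |t - θ₀| ≤ (y - x) / 2 := by
        rw [abs_le, hθ]
        constructor <;> linarith [ht.1, ht.2]
      have h3 : 2 * 2 ^ n * B * |t - θ₀| ≤ 2 * Real.pi * B := by
        calc 2 * 2 ^ n * B * |t - θ₀| ≤ 2 * 2 ^ n * B * ((y - x) / 2) :=
              mul_le_mul_of_nonneg_left h2 (by positivity)
          _ = (2 ^ n * (y - x)) * B := by ring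
          _ ≤ _ := mul_le_mul_of_nonneg_right hn2 hB
      have h4 := pow_le_pow_left₀ (norm_nonneg _) (h1.trans h3) 2
      refine h4.trans (le_of_eq ?_)
      ring
    have key : ∀ l : ℕ, ∫ t in x..y, ‖b t - low θ₀‖ ^ 2 ≤
        3 * (2 * Real.pi * ∑' k, ‖c (k + 2 ^ (n + l))‖ ^ 2) +
          18 * Real.pi ^ 2 * B ^ 2 * (y - x) := by
      intro l
      set G : ℝ → ℂ := fun t => ∑ m ∈ Finset.Ico 1 (2 ^ l), PB c (2 ^ n) m t with hG
      have hGc : Continuous G := continuous_finsetSum _ fun m _ => continuous_PB c _ m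
      have hgp : Function.Periodic
          (fun t => ‖b t - ∑ k ∈ Finset.range (2 ^ (n + l)), c k * ex k t‖ ^ 2)
          (2 * Real.pi) := by
        intro t
        simp only [hb.periodic t, ex_periodic _ t]
      have i1 : ∫ t in x..y, ‖b t - ∑ k ∈ Finset.range (2 ^ (n + l)), c k * ex k t‖ ^ 2 ≤
          2 * Real.pi * ∑' k, ‖c (k + 2 ^ (n + l))‖ ^ 2 := by
        refine le_trans ?_ (hbK b hb (2 ^ (n + l)))
        have e1 := hgp.intervalIntegral_add_eq x 0
        rw [zero_add] at e1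
        rw [← e1]
        refine intervalIntegral.integral_mono_interval le_rfl hxy.le (by linarith) ?_
          (bdry_sq hb (Bern.continuous_sum _ c) _ _)
        exact ae_of_all _ fun t => by simp only; positivity
      have i2 : ∫ t in x..y, ‖low t - low θ₀‖ ^ 2 ≤ 4 * Real.pi ^ 2 * B ^ 2 * (y - x) := by
        have : ∫ t in x..y, ‖low t - low θ₀‖ ^ 2 ≤ ∫ t in x..y, 4 * Real.pi ^ 2 * B ^ 2 :=
          intervalIntegral.integral_mono_on hxy.le
            (((hlowc.sub continuous_const).norm.pow 2).intervalIntegrable _ _)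
            (by simp) hlow1
        rw [intervalIntegral.integral_const, smul_eq_mul] at this
        linarith
      have i3 : ∫ t in x..y, ‖G t‖ ^ 2 ≤ Real.pi ^ 2 * (2 * B ^ 2) * (y - x) := by
        refine high_arc c (2 ^ n) (2 ^ l) (Nat.two_pow_pos n) (2 * B ^ 2) (by positivity)
          (hP n (2 ^ l)) x y hxy ?_ ?_
        · push_cast
          exact hn1
        · push_cast
          exact hn2
      have I1 := bdry_sq hb (Bern.continuous_sum (Finset.range (2 ^ (n + l))) c) x y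
      have I2 : IntervalIntegrable (fun t => ‖low t - low θ₀‖ ^ 2) volume x y :=
        ((hlowc.sub continuous_const).norm.pow 2).intervalIntegrable _ _
      have I3 : IntervalIntegrable (fun t => ‖G t‖ ^ 2) volume x y :=
        (hGc.norm.pow 2).intervalIntegrable _ _
      have i4 : ∫ t in x..y, ‖b t - low θ₀‖ ^ 2 ≤ ∫ t in x..y,
          3 * ((‖b t - ∑ k ∈ Finset.range (2 ^ (n + l)), c k * ex k t‖ ^ 2 +
            ‖low t - low θ₀‖ ^ 2) + ‖G t‖ ^ 2) := by
        refine intervalIntegral.integral_mono_on hxy.le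
          (bdry_sq hb continuous_const _ _) (((I1.add I2).add I3).const_mul 3) fun t _ => ?_
        have e1 : b t - low θ₀ = (b t - ∑ k ∈ Finset.range (2 ^ (n + l)), c k * ex k t) +
            (low t - low θ₀) + G t := by
          rw [split_sum]
          ring
        rw [e1]
        have e2 := norm_add₃_le (a := b t - ∑ k ∈ Finset.range (2 ^ (n + l)), c k * ex k t)
          (b := low t - low θ₀) (c := G t)
        have e3 := pow_le_pow_left₀ (norm_nonneg _) e2 2
        nlinarith [sq_nonneg (‖b t - ∑ k ∈ Finset.range (2 ^ (n + l)), c k * ex k t‖ -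
          ‖low t - low θ₀‖), sq_nonneg (‖b t - ∑ k ∈ Finset.range (2 ^ (n + l)), c k * ex k t‖ -
          ‖G t‖), sq_nonneg (‖low t - low θ₀‖ - ‖G t‖)]
      rw [intervalIntegral.integral_const_mul, intervalIntegral.integral_add (I1.add I2) I3,
        intervalIntegral.integral_add I1 I2] at i4
      nlinarith
    have hlim : Tendsto (fun l : ℕ => 3 * (2 * Real.pi * ∑' k, ‖c (k + 2 ^ (n + l))‖ ^ 2) +
          18 * Real.pi ^ 2 * B ^ 2 * (y - x)) atTop
        (𝓝 (3 * (2 * Real.pi * 0) + 18 * Real.pi ^ 2 * B ^ 2 * (y - x))) := by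
      have h1 := tendsto_sum_nat_add (fun k => ‖c k‖ ^ 2)
      have h2 : Tendsto (fun l : ℕ => 2 ^ (n + l)) atTop atTop :=
        (tendsto_pow_atTop_atTop_of_one_lt (r := 2) (by norm_num : (1 : ℕ) < 2)).comp
          (tendsto_add_atTop_nat n |>.congr fun l => by rw [add_comm])
      exact ((((h1.comp h2).const_mul (2 * Real.pi)).const_mul 3).add_const _)
    have := ge_of_tendsto' hlim key
    simpa using this
  refine ⟨hdiff, hH2, b, hb, 10 * Real.pi * B, ?_⟩
  intro x y hxy hxy2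
  have hl : 0 < y - x := sub_pos.2 hxy
  obtain ⟨κ, hκ⟩ := main x y hxy hxy2
  have j1 := l1_l2 (f := fun t => b t - κ) hxy.le (bdry_sq hb continuous_const x y)
  have j2 : ∫ t in x..y, ‖b t - κ‖ ≤ 5 * Real.pi * B * (y - x) := by
    refine j1.trans ?_
    have e1 : √(∫ t in x..y, ‖b t - κ‖ ^ 2) ≤ √(25 * Real.pi ^ 2 * B ^ 2 * (y - x)) := by
      refine Real.sqrt_le_sqrt (hκ.trans ?_)
      have : 0 ≤ Real.pi ^ 2 * B ^ 2 * (y - x) := by positivity
      nlinarith
    have e2 : √(25 * Real.pi ^ 2 * B ^ 2 * (y - x)) = 5 * Real.pi * B * √(y - x) := by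
      rw [show 25 * Real.pi ^ 2 * B ^ 2 * (y - x) = (5 * Real.pi * B) ^ 2 * (y - x) by ring,
        Real.sqrt_mul (by positivity), Real.sqrt_sq (by positivity)]
    rw [e2] at e1
    calc √(∫ t in x..y, ‖b t - κ‖ ^ 2) * √(y - x) ≤ (5 * Real.pi * B * √(y - x)) * √(y - x) :=
          mul_le_mul_of_nonneg_right e1 (Real.sqrt_nonneg _)
      _ = _ := by rw [mul_assoc, Real.mul_self_sqrt hl.le]
  have hbi := (bdry_int hb x y).1
  have j3 : ‖arcMean b x y - κ‖ ≤ 5 * Real.pi * B := by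
    have e1 : arcMean b x y - κ = (((y - x)⁻¹ : ℝ) : ℂ) * ∫ t in x..y, (b t - κ) := by
      rw [intervalIntegral.integral_sub hbi (by simp), intervalIntegral.integral_const, arcMean,
        mul_sub]
      congr 1
      rw [Complex.real_smul, ← mul_assoc, ← Complex.ofReal_mul, inv_mul_cancel₀ hl.ne']
      simp
    rw [e1, norm_mul, Complex.norm_real, Real.norm_eq_abs, abs_of_pos (by positivity)]
    have e2 := intervalIntegral.norm_integral_le_integral_norm (f := fun t => b t - κ)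
      (μ := volume) hxy.le
    rw [inv_mul_le_iff₀ hl]
    linarith
  have j4 : ∫ t in x..y, ‖b t - arcMean b x y‖ ≤ ∫ t in x..y, (‖b t - κ‖ + ‖arcMean b x y - κ‖) := by
    refine intervalIntegral.integral_mono_on hxy.le (hbi.sub (by simp)).norm
      ((hbi.sub (by simp)).norm.add (by simp)) fun t _ => ?_
    have : b t - arcMean b x y = (b t - κ) - (arcMean b x y - κ) := by ring
    rw [this]
    exact norm_sub_le _ _
  rw [intervalIntegral.integral_add (hbi.sub (by simp)).norm (by simp),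
    intervalIntegral.integral_const, smul_eq_mul] at j4
  rw [inv_mul_le_iff₀ hl]
  nlinarith

end Pool.Agent.P8H68.RB
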