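import Pool.Agent.P8H68.RB.PB2
import Pool.Agent.P8H68.RB.Stm
import Pool.Agent.Helper34.Bmo.JN
import Pool.Agent.R253.BE.Bmo

set_option autoImplicit false

open MeasureTheory ProbabilityTheory Set Filter Topology
open scoped ENNReal NNReal

namespace Pool.Agent.P8H68.RB

namespace Baux

/-- functions in `L²` over a period -/
lemma sq_int {b : ℝ → ℂ} (hp : Function.Periodic b (2 * Real.pi))
    (hb : MemLp b 2 (volume.restrict (Ioc 0 (2 * Real.pi)))) (x y : ℝ) :
    IntervalIntegrable (fun t => ‖b t‖ ^ 2) volume x y := Pool.Agent.R253.BE.sqi hp hb x y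

lemma l1_int {b : ℝ → ℂ} (hp : Function.Periodic b (2 * Real.pi))
    (hb : MemLp b 2 (volume.restrict (Ioc 0 (2 * Real.pi)))) (x y : ℝ) :
    IntervalIntegrable b volume x y := Pool.Agent.R253.BE.l1i hp hb x y

/-- partial sums -/
noncomputable def SK (c : ℕ → ℂ) (K : ℕ) (θ : ℝ) : ℂ := ∑ k ∈ Finset.range K, c k * ex k θ

lemma SK_cont (c : ℕ → ℂ) (K : ℕ) : Continuous (SK c K) :=
  continuous_finsetSum _ fun k _ => continuous_const.mul (continuous_ex k)

lemma SK_per (c : ℕ → ℂ) (K : ℕ) : Function.Periodic (SK c K) (2 * Real.pi) := by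
  intro θ
  simp only [SK, fun m => ex_periodic m θ]

lemma SK_memLp (c : ℕ → ℂ) (K : ℕ) : MemLp (SK c K) 2 (volume.restrict (Ioc 0 (2 * Real.pi))) :=
  Pool.Agent.R253.BE.memLp_cont (SK_cont c K)

/-- pairing with the test function -/
lemma pairing (hBD : S_BD) {N M : ℕ} (hN : 2 ≤ N) {u : ℕ → ℝ} (huM : ∀ m, M ≤ m → u m = 0)
    (hu2 : ∑ m ∈ Finset.range M, u m ^ 2 ≤ 1) {c : ℕ → ℂ} {b : ℝ → ℂ}
    (hc : Summable (fun k => ‖c k‖ ^ 2)) (hb : IsBoundaryFunction (series c) b) (θ₀ : ℝ) :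
    Tendsto (fun K => ∑ k ∈ Finset.range K, (Vk N M u k : ℂ) * c k * ex k θ₀) atTop
      (𝓝 (∫ θ in (-(2 * Real.pi / N))..(2 * Real.pi / N), hf N M u θ * b (θ₀ + θ))) := by
  have hpi := Real.pi_pos
  have hN0 : 0 < N := by omega
  have hN' : (0 : ℝ) < N := by exact_mod_cast hN0
  have hN2 : (2 : ℝ) ≤ N := by exact_mod_cast hN
  set L := 2 * Real.pi / N with hLdef
  have hL : 0 < L := by positivity
  have hL2 : L ≤ Real.pi := by
    rw [hLdef, div_le_iff₀ hN']; nlinarith
  have hbd := (hBD c hc).2.2.2 b hb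
  -- partial sums
  have e1 : ∀ K, ∑ k ∈ Finset.range K, (Vk N M u k : ℂ) * c k * ex k θ₀ =
      ∫ θ in (-L)..L, hf N M u θ * SK c K (θ₀ + θ) := by
    intro K
    have e2 : ∀ θ, hf N M u θ * SK c K (θ₀ + θ) =
        ∑ k ∈ Finset.range K, (c k * ex k θ₀) * (hf N M u θ * ex k θ) := by
      intro θ
      unfold SK
      rw [Finset.mul_sum]
      refine Finset.sum_congr rfl fun k _ => ?_
      rw [ex_add]
      ring
    simp only [e2]
    rw [intervalIntegral.integral_finsetSum]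
    · refine Finset.sum_congr rfl fun k _ => ?_
      rw [intervalIntegral.integral_const_mul, hf_fourier hN0]
      ring
    · intro k _
      exact (continuous_const.mul ((hf_cont N M u).mul (continuous_ex k))).intervalIntegrable _ _
  simp only [e1]
  rw [tendsto_iff_norm_sub_tendsto_zero]
  have hdp : ∀ K, Function.Periodic (fun θ => b θ - SK c K θ) (2 * Real.pi) := fun K θ => by
    simp only [hb.periodic θ, SK_per c K θ]
  have hdm : ∀ K, MemLp (fun θ => b θ - SK c K θ) 2 (volume.restrict (Ioc 0 (2 * Real.pi))) :=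
    fun K => hb.memLp.sub (SK_memLp c K)
  have hsh : ∀ (f : ℝ → ℂ) (x y : ℝ), (∀ x y, IntervalIntegrable (fun t => ‖f t‖ ^ 2) volume x y) →
      IntervalIntegrable (fun t => ‖f (θ₀ + t)‖ ^ 2) volume x y := by
    intro f x y h
    have := (h (θ₀ + x) (θ₀ + y)).comp_add_left θ₀
    simpa using this
  have hbl : IntervalIntegrable (fun t => b (θ₀ + t)) volume (-L) L := by
    have := (l1_int hb.periodic hb.memLp (θ₀ + -L) (θ₀ + L)).comp_add_left θ₀
    simpa using this
  have hi1 : IntervalIntegrable (fun θ => hf N M u θ * b (θ₀ + θ)) volume (-L) L :=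
    hbl.continuousOn_mul (hf_cont N M u).continuousOn
  have hi2 : ∀ K, IntervalIntegrable (fun θ => hf N M u θ * SK c K (θ₀ + θ)) volume (-L) L := fun K =>
    ((hf_cont N M u).mul ((SK_cont c K).comp (continuous_const.add continuous_id))).intervalIntegrable _ _
  have key : ∀ K, ‖(∫ θ in (-L)..L, hf N M u θ * SK c K (θ₀ + θ)) -
      ∫ θ in (-L)..L, hf N M u θ * b (θ₀ + θ)‖ ≤
      √(16 * Real.pi * N) * √(2 * Real.pi * ∑' k, ‖c (k + K)‖ ^ 2) := by
    intro K
    rw [norm_sub_rev, ← intervalIntegral.integral_sub hi1 (hi2 K)]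
    have e3 : ∀ θ, hf N M u θ * b (θ₀ + θ) - hf N M u θ * SK c K (θ₀ + θ) =
        hf N M u θ * (b (θ₀ + θ) - SK c K (θ₀ + θ)) := fun θ => by ring
    simp only [e3]
    have hsq := hsh (fun θ => b θ - SK c K θ) (-L) L (fun x y => sq_int (hdp K) (hdm K) x y)
    have h1 := cs_interval (f := hf N M u) (g := fun θ => b (θ₀ + θ) - SK c K (θ₀ + θ)) (x := -L) (y := L)
      (by linarith) (((hf_cont N M u).norm.pow 2).intervalIntegrable _ _) hsq
    refine h1.trans (mul_le_mul (Real.sqrt_le_sqrt (hf_sq hN0 huM hu2)) (Real.sqrt_le_sqrt ?_)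
      (Real.sqrt_nonneg _) (Real.sqrt_nonneg _))
    have h2 : ∫ t in (-L)..L, ‖b (θ₀ + t) - SK c K (θ₀ + t)‖ ^ 2 =
        ∫ t in (θ₀ + -L)..(θ₀ + L), ‖b t - SK c K t‖ ^ 2 :=
      intervalIntegral.integral_comp_add_left (fun t => ‖b t - SK c K t‖ ^ 2) θ₀
    rw [h2]
    refine (arc_sq (hdp K) (fun x y => sq_int (hdp K) (hdm K) x y) (by linarith) (by linarith)).trans ?_
    exact hbd K
  have hlim : Tendsto (fun K => √(16 * Real.pi * N) * √(2 * Real.pi * ∑' k, ‖c (k + K)‖ ^ 2)) atTop (𝓝 0) := by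
    have h1 : Tendsto (fun K => ∑' k, ‖c (k + K)‖ ^ 2) atTop (𝓝 0) :=
      tendsto_sum_nat_add fun k => ‖c k‖ ^ 2
    have h2 := ((h1.const_mul (2 * Real.pi)).sqrt).const_mul (√(16 * Real.pi * N))
    simpa using h2
  exact squeeze_zero (fun K => norm_nonneg _) key hlim

/-- the bound for the pairing -/
lemma pairing_le {N M : ℕ} (hN : 2 ≤ N) {u : ℕ → ℝ} (huM : ∀ m, M ≤ m → u m = 0)
    (hu2 : ∑ m ∈ Finset.range M, u m ^ 2 ≤ 1) {c : ℕ → ℂ} {b : ℝ → ℂ}
    (hb : IsBoundaryFunction (series c) b) {m : ℝ} (hm : 0 < m) (ho : OscLE b m) (θ₀ : ℝ) :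
    ‖∫ θ in (-(2 * Real.pi / N))..(2 * Real.pi / N), hf N M u θ * b (θ₀ + θ)‖ ≤
      80 * Real.pi * m := by
  have hpi := Real.pi_pos
  have hN0 : 0 < N := by omega
  have hN' : (0 : ℝ) < N := by exact_mod_cast hN0
  have hN2 : (2 : ℝ) ≤ N := by exact_mod_cast hN
  set L := 2 * Real.pi / N with hLdef
  have hL : 0 < L := by positivity
  have hL2 : L ≤ Real.pi := by
    rw [hLdef, div_le_iff₀ hN']; nlinarith
  have hLI : Helper34.Bmo.LI b := fun x y => l1_int hb.periodic hb.memLp x y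
  obtain ⟨j1, j2⟩ := Helper34.Bmo.jn_l2 hLI (a := θ₀ + -L) (b := θ₀ + L) (m := m) (by linarith) hm (by
    intro x y hx hxy hy
    have h1 := ho x y hxy (by linarith)
    have h2 : 0 < y - x := by linarith
    rw [inv_mul_le_iff₀ h2] at h1
    rw [mul_comm]
    exact h1)
  set μ := Helper34.Bmo.mean b (θ₀ + -L) (θ₀ + L) with hμ
  have hbl : IntervalIntegrable (fun t => b (θ₀ + t)) volume (-L) L := by
    have := (l1_int hb.periodic hb.memLp (θ₀ + -L) (θ₀ + L)).comp_add_left θ₀
    simpa using this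
  have hi1 : IntervalIntegrable (fun θ => hf N M u θ * b (θ₀ + θ)) volume (-L) L :=
    hbl.continuousOn_mul (hf_cont N M u).continuousOn
  have hzero : ∫ θ in (-L)..L, hf N M u θ * μ = 0 := by
    rw [intervalIntegral.integral_mul_const]
    have h1 := hf_fourier hN0 M u 0
    simp only [ex_zero_left, mul_one] at h1
    rw [← hLdef] at h1
    rw [h1, Vk_zero hN0]
    simp
  have e1 : ∫ θ in (-L)..L, hf N M u θ * b (θ₀ + θ) = ∫ θ in (-L)..L, hf N M u θ * (b (θ₀ + θ) - μ) := by
    have h2 : IntervalIntegrable (fun θ => hf N M u θ * μ) volume (-L) L :=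
      ((hf_cont N M u).mul continuous_const).intervalIntegrable _ _
    have e2 : ∀ θ, hf N M u θ * (b (θ₀ + θ) - μ) = hf N M u θ * b (θ₀ + θ) - hf N M u θ * μ :=
      fun θ => by ring
    simp only [e2]
    rw [intervalIntegral.integral_sub hi1 h2, hzero, sub_zero]
  rw [e1]
  have hsq : IntervalIntegrable (fun t => ‖b (θ₀ + t) - μ‖ ^ 2) volume (-L) L := by
    have := j1.comp_add_left θ₀
    simpa using this
  have h1 := cs_interval (f := hf N M u) (g := fun θ => b (θ₀ + θ) - μ) (x := -L) (y := L)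
    (by linarith) (((hf_cont N M u).norm.pow 2).intervalIntegrable _ _) hsq
  have h2 : ∫ t in (-L)..L, ‖b (θ₀ + t) - μ‖ ^ 2 = ∫ t in (θ₀ + -L)..(θ₀ + L), ‖b t - μ‖ ^ 2 :=
    intervalIntegral.integral_comp_add_left (fun t => ‖b t - μ‖ ^ 2) θ₀
  have h3 : ∫ t in (-L)..L, ‖b (θ₀ + t) - μ‖ ^ 2 ≤ 96 * m ^ 2 * (4 * Real.pi / N) := by
    rw [h2]
    refine j2.trans (le_of_eq ?_)
    rw [hLdef]
    ring
  have h4 := hf_sq hN0 huM hu2
  rw [← hLdef] at h4
  refine h1.trans ?_
  calc √(∫ t in (-L)..L, ‖hf N M u t‖ ^ 2) * √(∫ t in (-L)..L, ‖b (θ₀ + t) - μ‖ ^ 2)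
      ≤ √(16 * Real.pi * N) * √(96 * m ^ 2 * (4 * Real.pi / N)) :=
        mul_le_mul (Real.sqrt_le_sqrt h4) (Real.sqrt_le_sqrt h3) (Real.sqrt_nonneg _) (Real.sqrt_nonneg _)
    _ = √(6144 * (Real.pi * m) ^ 2) := by
        rw [← Real.sqrt_mul (by positivity)]
        congr 1
        field_simp
        ring
    _ ≤ 80 * Real.pi * m := by
        rw [Real.sqrt_le_left (by positivity)]
        nlinarith [sq_nonneg (Real.pi * m)]

end Baux

open Baux

theorem part_B (hBD : S_BD) : S_B := by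
  have hpi := Real.pi_pos
  have hpi4 := Real.pi_lt_four
  refine ⟨400, by norm_num, ?_⟩
  intro n M u hu hu0 huM hu2
  have hcs : ∀ c : ℕ → ℂ, Summable (fun k => ‖c k‖ ^ 2) → 0 ≤ √(∑' k, ‖c k‖ ^ 2) := fun c _ =>
    Real.sqrt_nonneg _
  have hm0 : ∀ (b : ℝ → ℂ) (m : ℝ), OscLE b m → 0 ≤ m := by
    intro b m ho
    refine le_trans ?_ (ho 0 (2 * Real.pi) (by positivity) (by linarith))
    have : 0 ≤ ∫ θ in (0:ℝ)..(2 * Real.pi), ‖b θ - arcMean b 0 (2 * Real.pi)‖ :=
      intervalIntegral.integral_nonneg (by positivity) fun _ _ => norm_nonneg _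
    have h2 : 0 ≤ (2 * Real.pi - 0)⁻¹ := by
      rw [sub_zero]; positivity
    exact mul_nonneg h2 this
  rcases Nat.eq_zero_or_pos n with hn | hn
  · -- level zero
    subst hn
    have hu1 : ∀ k, u k ≤ 1 := by
      intro k
      rcases le_or_gt M k with h | h
      · rw [huM k h]; norm_num
      · have h1 : u k ^ 2 ≤ ∑ m ∈ Finset.range M, u m ^ 2 :=
          Finset.single_le_sum (f := fun m => u m ^ 2) (fun m _ => sq_nonneg _) (Finset.mem_range.2 h)
        nlinarith [hu k]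
    refine ⟨u, fun k => ⟨hu k, (hu1 k).trans (by norm_num)⟩, fun k => by simp, ?_, ?_⟩
    · refine summable_of_ne_finset_zero (s := Finset.range M) fun k hk => ?_
      rw [huM k (by simpa using hk)]
      ring
    · intro c b m hc _ ho θ
      have hm := hm0 b m ho
      rw [tsum_eq_sum (s := Finset.range M) fun k hk => by
        rw [huM k (by simpa using hk)]; simp]
      have h1 : ‖∑ k ∈ Finset.range M, (u k : ℂ) * c k * ex k θ‖ ≤
          ∑ k ∈ Finset.range M, u k * ‖c k‖ := by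
        refine (norm_sum_le _ _).trans (Finset.sum_le_sum fun k _ => ?_)
        rw [norm_mul, norm_mul, norm_ex, mul_one, Complex.norm_real, Real.norm_eq_abs,
          abs_of_nonneg (hu k)]
      have h2 := Real.sum_mul_le_sqrt_mul_sqrt (Finset.range M) u (fun k => ‖c k‖)
      have h3 : √(∑ k ∈ Finset.range M, u k ^ 2) ≤ 1 := by
        rw [Real.sqrt_le_left (by norm_num)]; simpa using hu2
      have h4 : √(∑ k ∈ Finset.range M, ‖c k‖ ^ 2) ≤ √(∑' k, ‖c k‖ ^ 2) :=
        Real.sqrt_le_sqrt (hc.sum_le_tsum _ fun k _ => by positivity)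
      have h5 : √(∑ k ∈ Finset.range M, u k ^ 2) * √(∑ k ∈ Finset.range M, ‖c k‖ ^ 2) ≤
          1 * √(∑' k, ‖c k‖ ^ 2) := mul_le_mul h3 h4 (Real.sqrt_nonneg _) (by norm_num)
      have h6 := hcs c hc
      linarith
  · -- positive levels
    have hN2 : 2 ≤ 2 ^ n := by
      calc 2 = 2 ^ 1 := by norm_num
        _ ≤ 2 ^ n := Nat.pow_le_pow_right (by norm_num) hn
    have hN0 : 0 < 2 ^ n := by positivity
    set N := 2 ^ n with hNdef
    have hVsum : Summable fun k => Vk N M u k ^ 2 :=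
      summable_of_sum_le (c := 2 * Real.pi * (16 * Real.pi * N)) (fun k => sq_nonneg _)
        fun s => Vk_bessel hN2 huM hu2 s
    refine ⟨fun k => Real.pi / 8 * Vk N M u k, fun k => ⟨?_, ?_⟩, fun k => ?_, ?_, ?_⟩
    · exact mul_nonneg (by positivity) (Vk_nonneg N M hu k)
    · have h1 := Vk_upper hN0 hu huM hu2 k
      have h2 : Real.pi / 8 * Vk N M u k ≤ Real.pi / 8 * (8 * Real.pi) :=
        mul_le_mul_of_nonneg_left h1 (by positivity)
      nlinarith
    · have h1 := Vk_lower hN0 hu hu0 huM k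
      have h2 : Real.pi / 8 * (u (k / N) * (8 / Real.pi)) ≤ Real.pi / 8 * Vk N M u k :=
        mul_le_mul_of_nonneg_left h1 (by positivity)
      have h3 : Real.pi / 8 * (u (k / N) * (8 / Real.pi)) = u (k / N) := by field_simp
      rw [h3] at h2
      exact h2
    · have := hVsum.mul_left ((Real.pi / 8) ^ 2)
      simpa only [mul_pow] using this
    · intro c b m hc hb ho θ
      have hm := hm0 b m ho
      -- the series converges absolutely
      have habs : Summable fun k => (Vk N M u k : ℂ) * c k * ex k θ := by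
        refine Summable.of_norm_bounded (hVsum.add hc) fun k => ?_
        rw [norm_mul, norm_mul, norm_ex, mul_one, Complex.norm_real, Real.norm_eq_abs]
        have := sq_abs (Vk N M u k)
        nlinarith [sq_nonneg (|Vk N M u k| - ‖c k‖), sq_nonneg (|Vk N M u k|), sq_nonneg ‖c k‖]
      have hlim := tendsto_nhds_unique habs.hasSum.tendsto_sum_nat (pairing hBD hN2 huM hu2 hc hb θ)
      have h1 : ∑' k, ((Real.pi / 8 * Vk N M u k : ℝ) : ℂ) * c k * ex k θ =
          ((Real.pi / 8 : ℝ) : ℂ) * ∑' k, (Vk N M u k : ℂ) * c k * ex k θ := by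
        rw [← tsum_mul_left]
        refine tsum_congr fun k => ?_
        push_cast
        ring
      rw [h1, hlim, norm_mul, Complex.norm_real, Real.norm_eq_abs, abs_of_pos (by positivity)]
      have h2 : ‖∫ θ' in (-(2 * Real.pi / N))..(2 * Real.pi / N), hf N M u θ' * b (θ + θ')‖ ≤
          80 * Real.pi * m := by
        refine le_of_forall_pos_le_add fun ε hε => ?_
        have h3 : OscLE b (m + ε / (80 * Real.pi)) := fun x y hx hy =>
          (ho x y hx hy).trans (by have : 0 < ε / (80 * Real.pi) := by positivity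
                                   linarith)
        have h4 := pairing_le hN2 huM hu2 hb (by positivity) h3 θ
        refine h4.trans (le_of_eq ?_)
        field_simp
      have h3 := hcs c hc
      have h4 : Real.pi / 8 * ‖∫ θ' in (-(2 * Real.pi / N))..(2 * Real.pi / N), hf N M u θ' * b (θ + θ')‖ ≤
          Real.pi / 8 * (80 * Real.pi * m) := mul_le_mul_of_nonneg_left h2 (by positivity)
      have h5 : Real.pi / 8 * (80 * Real.pi * m) ≤ 400 * m := by
        have : Real.pi * Real.pi ≤ 40 := by nlinarith [Real.pi_lt_d2]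
        nlinarith
      nlinarith

end Pool.Agent.P8H68.RB
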