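import Pool.Agent.P8H68.RB.Parseval

set_option autoImplicit false

open MeasureTheory ProbabilityTheory Set Filter Topology
open scoped ENNReal NNReal

namespace Pool.Agent.P8H68.RB

namespace Baux

/-! ### the triangle function -/

lemma tri_int {L l : ℝ} (hL : L ≠ 0) (hl : l ≠ 0) :
    ∫ θ in (0:ℝ)..L, (1 - θ / L) * Real.cos (l * θ) = (1 - Real.cos (l * L)) / (l ^ 2 * L) := by
  have h1 : ∀ θ ∈ uIcc 0 L, HasDerivAt (fun θ => (1 - θ / L) * (Real.sin (l * θ) / l) -
      Real.cos (l * θ) / (l ^ 2 * L)) ((1 - θ / L) * Real.cos (l * θ)) θ := by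
    intro θ _
    have e1 : HasDerivAt (fun θ : ℝ => 1 - θ / L) (-(1 / L)) θ := by
      have := (((hasDerivAt_id θ).div_const L).const_sub 1)
      simpa using this
    have e0 : HasDerivAt (fun θ : ℝ => l * θ) l θ := by
      simpa using (hasDerivAt_id θ).const_mul l
    have e2 : HasDerivAt (fun θ : ℝ => Real.sin (l * θ) / l) (Real.cos (l * θ) * l / l) θ :=
      (e0.sin).div_const l
    have e3 : HasDerivAt (fun θ : ℝ => Real.cos (l * θ) / (l ^ 2 * L))
        (-Real.sin (l * θ) * l / (l ^ 2 * L)) θ := (e0.cos).div_const _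
    refine ((e1.mul e2).sub e3).congr_deriv ?_
    field_simp
    ring
  rw [intervalIntegral.integral_eq_sub_of_hasDerivAt h1]
  · simp only [mul_zero, Real.sin_zero, Real.cos_zero, zero_div]
    rw [div_self hL]
    field_simp
    ring
  · apply Continuous.intervalIntegrable
    fun_prop

lemma tri_int_zero {L : ℝ} (hL : L ≠ 0) :
    ∫ θ in (0:ℝ)..L, (1 - θ / L) * Real.cos (0 * θ) = L / 2 := by
  simp only [zero_mul, Real.cos_zero, mul_one]
  rw [intervalIntegral.integral_sub (by simp) (by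
    apply Continuous.intervalIntegrable; fun_prop)]
  rw [intervalIntegral.integral_div, integral_id, intervalIntegral.integral_const]
  simp only [sub_zero, smul_eq_mul, mul_one]
  field_simp
  ring

/-- the Fourier coefficients of the triangle function -/
noncomputable def Psi (N : ℕ) (l : ℝ) : ℝ :=
  N * (2 * ∫ θ in (0:ℝ)..(2 * Real.pi / N), (1 - θ / (2 * Real.pi / N)) * Real.cos (l * θ))

lemma Psi_nonneg (N : ℕ) (l : ℝ) : 0 ≤ Psi N l := by
  have hpi := Real.pi_pos
  unfold Psi
  rcases Nat.eq_zero_or_pos N with h | h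
  · subst h; simp
  have hN : (0 : ℝ) < N := by exact_mod_cast h
  have hL : 0 < 2 * Real.pi / N := by positivity
  rcases eq_or_ne l 0 with h0 | h0
  · subst h0
    rw [tri_int_zero hL.ne']
    positivity
  · rw [tri_int hL.ne' h0]
    have : 0 ≤ 1 - Real.cos (l * (2 * Real.pi / N)) := by
      have := Real.cos_le_one (l * (2 * Real.pi / N))
      linarith
    positivity

lemma Psi_zero {N : ℕ} (hN : 0 < N) {m : ℤ} (hm : m ≠ 0) : Psi N (m * N) = 0 := by
  have hpi := Real.pi_pos
  have hN' : (0 : ℝ) < N := by exact_mod_cast hN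
  have hL : 0 < 2 * Real.pi / N := by positivity
  have hm' : (m : ℝ) ≠ 0 := by exact_mod_cast hm
  unfold Psi
  rw [tri_int hL.ne' (mul_ne_zero hm' hN'.ne')]
  have : (m : ℝ) * N * (2 * Real.pi / N) = m * (2 * Real.pi) := by field_simp
  rw [this, Real.cos_int_mul_two_pi]
  simp

lemma Psi_lower {N : ℕ} (hN : 0 < N) {l : ℝ} (hl : |l| ≤ N / 2) : 8 / Real.pi ≤ Psi N l := by
  have hpi := Real.pi_pos
  have hpi3 := Real.pi_gt_three
  have hN' : (0 : ℝ) < N := by exact_mod_cast hN
  have hL : 0 < 2 * Real.pi / N := by positivity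
  unfold Psi
  rcases eq_or_ne l 0 with h0 | h0
  · subst h0
    rw [tri_int_zero hL.ne']
    rw [div_le_iff₀ hpi]
    have : (N : ℝ) * (2 * (2 * Real.pi / N / 2)) = 2 * Real.pi := by field_simp
    rw [this]
    nlinarith
  · rw [tri_int hL.ne' h0]
    have hx : |l * (2 * Real.pi / N)| ≤ Real.pi := by
      rw [abs_mul, abs_of_pos hL]
      calc |l| * (2 * Real.pi / N) ≤ N / 2 * (2 * Real.pi / N) :=
            mul_le_mul_of_nonneg_right hl hL.le
        _ = Real.pi := by field_simp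
    have h1 := Real.cos_le_one_sub_mul_cos_sq hx
    have h2 : 2 / Real.pi ^ 2 * (l * (2 * Real.pi / N)) ^ 2 ≤ 1 - Real.cos (l * (2 * Real.pi / N)) := by
      linarith
    have h3 : 8 / Real.pi = N * (2 * (2 / Real.pi ^ 2 * (l * (2 * Real.pi / N)) ^ 2 /
        (l ^ 2 * (2 * Real.pi / N)))) := by
      field_simp
      ring
    rw [h3]
    have h4 : 0 < l ^ 2 * (2 * Real.pi / N) := by positivity
    gcongr

/-- the triangle function as a Fourier integral -/
lemma Psi_fourier {N : ℕ} (hN : 0 < N) (l : ℝ) :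
    ∫ θ in (-(2 * Real.pi / N))..(2 * Real.pi / N),
      ((N * (1 - |θ| / (2 * Real.pi / N)) : ℝ) : ℂ) * Complex.exp ((l * θ : ℝ) * Complex.I) =
      (Psi N l : ℂ) := by
  have hpi := Real.pi_pos
  have hN' : (0 : ℝ) < N := by exact_mod_cast hN
  set L := 2 * Real.pi / N with hLdef
  have hL : 0 < L := by positivity
  have hc : Continuous fun θ : ℝ => ((N * (1 - |θ| / L) : ℝ) : ℂ) *
      Complex.exp ((l * θ : ℝ) * Complex.I) := by fun_prop
  have hsplit := intervalIntegral.integral_add_adjacent_intervals (μ := volume)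
    (hc.intervalIntegrable (-L) 0) (hc.intervalIntegrable 0 L)
  rw [← hsplit]
  have h1 : ∫ θ in (-L)..0, ((N * (1 - |θ| / L) : ℝ) : ℂ) * Complex.exp ((l * θ : ℝ) * Complex.I) =
      ∫ θ in (0:ℝ)..L, ((N * (1 - |θ| / L) : ℝ) : ℂ) * Complex.exp ((l * (-θ) : ℝ) * Complex.I) := by
    have := intervalIntegral.integral_comp_neg (a := 0) (b := L)
      (fun θ : ℝ => ((N * (1 - |θ| / L) : ℝ) : ℂ) * Complex.exp ((l * θ : ℝ) * Complex.I))
    simp only [abs_neg, neg_zero] at this
    exact this.symm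
  have hc2 : Continuous fun θ : ℝ => ((N * (1 - |θ| / L) : ℝ) : ℂ) *
      Complex.exp ((l * (-θ) : ℝ) * Complex.I) := by fun_prop
  rw [h1, ← intervalIntegral.integral_add (hc2.intervalIntegrable _ _) (hc.intervalIntegrable _ _)]
  unfold Psi
  rw [← hLdef]
  have h2 : ∀ θ ∈ uIcc 0 L, ((N * (1 - |θ| / L) : ℝ) : ℂ) * Complex.exp ((l * (-θ) : ℝ) * Complex.I) +
      ((N * (1 - |θ| / L) : ℝ) : ℂ) * Complex.exp ((l * θ : ℝ) * Complex.I) =
      (((N : ℝ) * 2 * ((1 - θ / L) * Real.cos (l * θ)) : ℝ) : ℂ) := by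
    intro θ hθ
    rw [uIcc_of_le hL.le] at hθ
    rw [abs_of_nonneg hθ.1, ← mul_add]
    have h3 : Complex.exp ((l * (-θ) : ℝ) * Complex.I) + Complex.exp ((l * θ : ℝ) * Complex.I) =
        2 * Complex.cos ((l * θ : ℝ) : ℂ) := by
      rw [Complex.cos]
      have : ((l * (-θ) : ℝ) : ℂ) * Complex.I = -(((l * θ : ℝ) : ℂ)) * Complex.I := by
        push_cast; ring
      rw [this]
      ring
    rw [h3, ← Complex.ofReal_cos]
    push_cast
    ring
  rw [intervalIntegral.integral_congr h2, intervalIntegral.integral_ofReal,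
    intervalIntegral.integral_const_mul]
  congr 1
  ring

end Baux

end Pool.Agent.P8H68.RB
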