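import Pool.Agent.P8H68.RB.PB1

set_option autoImplicit false

open MeasureTheory ProbabilityTheory Set Filter Topology
open scoped ENNReal NNReal

namespace Pool.Agent.P8H68.RB

namespace Baux

/-- `u_m + u_{m-1}` -/
def ut (u : ℕ → ℝ) (m : ℕ) : ℝ := if m = 0 then 0 else u m + u (m - 1)

/-- the test function -/
noncomputable def hf (N M : ℕ) (u : ℕ → ℝ) (θ : ℝ) : ℂ :=
  ((N * (1 - |θ| / (2 * Real.pi / N)) : ℝ) : ℂ) *
    ∑ m ∈ Finset.range (M + 1), (ut u m : ℂ) * (starRingEnd ℂ) (ex (m * N) θ)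

/-- its Fourier coefficients -/
noncomputable def Vk (N M : ℕ) (u : ℕ → ℝ) (k : ℕ) : ℝ :=
  ∑ m ∈ Finset.range (M + 1), ut u m * Psi N ((k : ℝ) - m * N)

lemma hf_cont (N M : ℕ) (u : ℕ → ℝ) : Continuous (hf N M u) := by
  unfold hf
  refine Continuous.mul (by fun_prop) (continuous_finsetSum _ fun m _ => ?_)
  exact continuous_const.mul (Complex.continuous_conj.comp (continuous_ex _))

lemma hf_fourier {N : ℕ} (hN : 0 < N) (M : ℕ) (u : ℕ → ℝ) (k : ℕ) :
    ∫ θ in (-(2 * Real.pi / N))..(2 * Real.pi / N), hf N M u θ * ex k θ = (Vk N M u k : ℂ) := by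
  have h1 : ∀ θ : ℝ, hf N M u θ * ex k θ = ∑ m ∈ Finset.range (M + 1), (ut u m : ℂ) *
      (((N * (1 - |θ| / (2 * Real.pi / N)) : ℝ) : ℂ) *
        Complex.exp (((((k : ℝ) - m * N) * θ : ℝ)) * Complex.I)) := by
    intro θ
    unfold hf
    rw [Finset.mul_sum, Finset.sum_mul]
    refine Finset.sum_congr rfl fun m _ => ?_
    have e : ex k θ * (starRingEnd ℂ) (ex (m * N) θ) =
        Complex.exp (((((k : ℝ) - m * N) * θ : ℝ)) * Complex.I) := by
      rw [ex_mul_conj]
      congr 3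
      push_cast
      ring
    rw [← e]
    ring
  simp only [h1]
  rw [intervalIntegral.integral_finsetSum]
  · unfold Vk
    rw [Complex.ofReal_sum]
    refine Finset.sum_congr rfl fun m _ => ?_
    rw [intervalIntegral.integral_const_mul, Psi_fourier hN, Complex.ofReal_mul]
  · intro m _
    apply Continuous.intervalIntegrable
    fun_prop

lemma ut_nonneg {u : ℕ → ℝ} (hu : ∀ m, 0 ≤ u m) (m : ℕ) : 0 ≤ ut u m := by
  unfold ut
  split_ifs
  · exact le_rfl
  · exact add_nonneg (hu _) (hu _)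

lemma Vk_nonneg (N M : ℕ) {u : ℕ → ℝ} (hu : ∀ m, 0 ≤ u m) (k : ℕ) : 0 ≤ Vk N M u k :=
  Finset.sum_nonneg fun m _ => mul_nonneg (ut_nonneg hu m) (Psi_nonneg N _)

lemma Vk_lower {N M : ℕ} (hN : 0 < N) {u : ℕ → ℝ} (hu : ∀ m, 0 ≤ u m) (hu0 : u 0 = 0)
    (huM : ∀ m, M ≤ m → u m = 0) (k : ℕ) : u (k / N) * (8 / Real.pi) ≤ Vk N M u k := by
  have hpi := Real.pi_pos
  have hN' : (0 : ℝ) < N := by exact_mod_cast hN
  set q := k / N with hq
  rcases Nat.eq_zero_or_pos q with h0 | h0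
  · rw [h0, hu0, zero_mul]; exact Vk_nonneg N M hu k
  rcases le_or_gt M q with hM | hM
  · rw [huM q hM, zero_mul]; exact Vk_nonneg N M hu k
  have hk : N * q + k % N = k := Nat.div_add_mod k N
  have hr : k % N < N := Nat.mod_lt k hN
  have hk' : (N : ℝ) * q + (k % N : ℕ) = k := by exact_mod_cast hk
  have hr' : ((k % N : ℕ) : ℝ) < N := by exact_mod_cast hr
  have hr0 : (0 : ℝ) ≤ ((k % N : ℕ) : ℝ) := Nat.cast_nonneg _
  rcases le_or_gt ((k % N : ℕ) : ℝ) (N / 2) with h2 | h2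
  · have h3 : ut u q * Psi N ((k : ℝ) - q * N) ≤ Vk N M u k :=
      Finset.single_le_sum (f := fun m => ut u m * Psi N ((k : ℝ) - m * N))
        (fun m _ => mul_nonneg (ut_nonneg hu m) (Psi_nonneg N _)) (Finset.mem_range.2 (by omega))
    refine le_trans ?_ h3
    have h4 : 8 / Real.pi ≤ Psi N ((k : ℝ) - q * N) := by
      refine Psi_lower hN ?_
      have : (k : ℝ) - q * N = ((k % N : ℕ) : ℝ) := by linarith
      rw [this, abs_of_nonneg hr0]
      exact h2
    have h5 : u q ≤ ut u q := by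
      unfold ut
      rw [if_neg (by omega)]
      have := hu (q - 1)
      linarith
    exact mul_le_mul h5 h4 (by positivity) ((hu q).trans h5)
  · have h3 : ut u (q + 1) * Psi N ((k : ℝ) - (q + 1 : ℕ) * N) ≤ Vk N M u k :=
      Finset.single_le_sum (f := fun m => ut u m * Psi N ((k : ℝ) - m * N))
        (fun m _ => mul_nonneg (ut_nonneg hu m) (Psi_nonneg N _)) (Finset.mem_range.2 (by omega))
    refine le_trans ?_ h3
    have h4 : 8 / Real.pi ≤ Psi N ((k : ℝ) - (q + 1 : ℕ) * N) := by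
      refine Psi_lower hN ?_
      have : (k : ℝ) - (q + 1 : ℕ) * N = ((k % N : ℕ) : ℝ) - N := by push_cast; linarith
      rw [this, abs_of_nonpos (by linarith)]
      linarith
    have h5 : u q ≤ ut u (q + 1) := by
      unfold ut
      rw [if_neg (by omega)]
      have := hu (q + 1)
      simp only [Nat.add_sub_cancel]
      linarith
    exact mul_le_mul h5 h4 (by positivity) ((hu q).trans h5)

lemma Vk_zero {N : ℕ} (hN : 0 < N) (M : ℕ) (u : ℕ → ℝ) : Vk N M u 0 = 0 := by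
  unfold Vk
  refine Finset.sum_eq_zero fun m _ => ?_
  rcases Nat.eq_zero_or_pos m with h | h
  · subst h; simp [ut]
  · have h1 : ((0 : ℕ) : ℝ) - m * N = ((-(m : ℤ) : ℤ) : ℝ) * N := by push_cast; ring
    rw [h1, Psi_zero hN (by omega), mul_zero]

lemma ut_sq {M : ℕ} {u : ℕ → ℝ} (huM : ∀ m, M ≤ m → u m = 0)
    (hu2 : ∑ m ∈ Finset.range M, u m ^ 2 ≤ 1) :
    ∑ m ∈ Finset.range (M + 1), ut u m ^ 2 ≤ 4 := by
  have h1 : ∑ m ∈ Finset.range (M + 1), ut u m ^ 2 ≤
      ∑ m ∈ Finset.range (M + 1), 2 * u m ^ 2 + ∑ m ∈ Finset.range M, 2 * u m ^ 2 := by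
    rw [Finset.sum_range_succ']
    have e0 : ut u 0 ^ 2 = 0 := by simp [ut]
    rw [e0, add_zero]
    have e1 : ∑ m ∈ Finset.range (M + 1), 2 * u m ^ 2 =
        ∑ m ∈ Finset.range M, 2 * u (m + 1) ^ 2 + 2 * u 0 ^ 2 := Finset.sum_range_succ' _ _
    rw [e1]
    have h2 : ∑ m ∈ Finset.range M, ut u (m + 1) ^ 2 ≤
        ∑ m ∈ Finset.range M, 2 * u (m + 1) ^ 2 + ∑ m ∈ Finset.range M, 2 * u m ^ 2 := by
      rw [← Finset.sum_add_distrib]
      refine Finset.sum_le_sum fun m _ => ?_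
      unfold ut
      rw [if_neg (by omega)]
      simp only [Nat.add_sub_cancel]
      nlinarith [sq_nonneg (u (m + 1) - u m)]
    nlinarith [sq_nonneg (u 0)]
  have h2 : ∑ m ∈ Finset.range (M + 1), 2 * u m ^ 2 = ∑ m ∈ Finset.range M, 2 * u m ^ 2 := by
    rw [Finset.sum_range_succ, huM M le_rfl]
    ring
  rw [h2, ← Finset.mul_sum] at h1
  linarith

lemma hf_sq {N M : ℕ} (hN : 0 < N) {u : ℕ → ℝ} (huM : ∀ m, M ≤ m → u m = 0)
    (hu2 : ∑ m ∈ Finset.range M, u m ^ 2 ≤ 1) :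
    ∫ θ in (-(2 * Real.pi / N))..(2 * Real.pi / N), ‖hf N M u θ‖ ^ 2 ≤ 16 * Real.pi * N := by
  have hpi := Real.pi_pos
  have hN' : (0 : ℝ) < N := by exact_mod_cast hN
  set L := 2 * Real.pi / N with hLdef
  have hL : 0 < L := by positivity
  set G : ℝ → ℝ := fun φ => ‖∑ m ∈ Finset.range (M + 1), (ut u m : ℂ) * ex m φ‖ ^ 2 with hG
  have hGc : Continuous G := by
    simp only [hG]
    exact ((continuous_finsetSum _ fun m _ => continuous_const.mul (continuous_ex m)).norm.pow 2)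
  have hGp : Function.Periodic G (2 * Real.pi) := by
    intro φ
    simp only [hG, fun m => ex_periodic m φ]
  have h1 : ∀ θ ∈ Icc (-L) L, ‖hf N M u θ‖ ^ 2 ≤ (N : ℝ) ^ 2 * G (N * θ) := by
    intro θ hθ
    unfold hf
    rw [norm_mul, mul_pow]
    have h2 : ‖∑ m ∈ Finset.range (M + 1), (ut u m : ℂ) * (starRingEnd ℂ) (ex (m * N) θ)‖ ^ 2 =
        G (N * θ) := by
      simp only [hG]
      rw [← Complex.norm_conj, map_sum]
      congr 2
      refine Finset.sum_congr rfl fun m _ => ?_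
      rw [map_mul, Complex.conj_conj, Complex.conj_ofReal]
      congr 1
      unfold ex
      congr 2
      push_cast
      ring
    rw [h2]
    refine mul_le_mul_of_nonneg_right ?_ (by simp only [hG]; positivity)
    rw [Complex.norm_real, Real.norm_eq_abs, sq_abs, ← hLdef]
    have h3 : |θ| ≤ L := abs_le.2 ⟨hθ.1, hθ.2⟩
    have h4 : 0 ≤ 1 - |θ| / L := by
      rw [sub_nonneg, div_le_one hL]; exact h3
    have h5 : 1 - |θ| / L ≤ 1 := by
      have : 0 ≤ |θ| / L := by positivity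
      linarith
    have h6 : (N : ℝ) * (1 - |θ| / L) ≤ N := by nlinarith
    have h7 : 0 ≤ (N : ℝ) * (1 - |θ| / L) := by positivity
    exact pow_le_pow_left₀ h7 h6 2
  have h2 : ∫ θ in (-L)..L, ‖hf N M u θ‖ ^ 2 ≤ ∫ θ in (-L)..L, (N : ℝ) ^ 2 * G (N * θ) := by
    refine intervalIntegral.integral_mono_on (by linarith) ?_ ?_ h1
    · exact ((hf_cont N M u).norm.pow 2).intervalIntegrable _ _
    · exact (continuous_const.mul (hGc.comp (continuous_const.mul continuous_id))).intervalIntegrable _ _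
  refine h2.trans ?_
  rw [intervalIntegral.integral_const_mul, intervalIntegral.integral_comp_mul_left _ hN'.ne']
  have e1 : (N : ℝ) * (-L) = -(2 * Real.pi) := by rw [hLdef]; field_simp
  have e2 : (N : ℝ) * L = 2 * Real.pi := by rw [hLdef]; field_simp
  rw [e1, e2]
  have hsplit := intervalIntegral.integral_add_adjacent_intervals (μ := volume)
    (hGc.intervalIntegrable (-(2 * Real.pi)) 0) (hGc.intervalIntegrable 0 (2 * Real.pi))
  have hper := hGp.intervalIntegral_add_eq (-(2 * Real.pi)) 0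
  rw [neg_add_cancel, zero_add] at hper
  have hpars := parseval (Finset.range (M + 1)) (fun m => (ut u m : ℂ))
  have e3 : ∀ m, ‖(ut u m : ℂ)‖ ^ 2 = ut u m ^ 2 := fun m => by
    rw [Complex.norm_real, Real.norm_eq_abs, sq_abs]
  simp only [e3] at hpars
  have h4 := ut_sq huM hu2
  have h5 : ∫ φ in (0:ℝ)..(2 * Real.pi), G φ ≤ 8 * Real.pi := by
    have : ∫ φ in (0:ℝ)..(2 * Real.pi), G φ = 2 * Real.pi * ∑ m ∈ Finset.range (M + 1), ut u m ^ 2 := hpars
    rw [this]
    nlinarith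
  rw [← hsplit, hper, smul_eq_mul]
  have h6 : (N : ℝ) ^ 2 * ((N : ℝ)⁻¹ * ((∫ φ in (0:ℝ)..(2 * Real.pi), G φ) + ∫ φ in (0:ℝ)..(2 * Real.pi), G φ)) =
      N * (2 * ∫ φ in (0:ℝ)..(2 * Real.pi), G φ) := by
    field_simp
    ring
  rw [h6]
  nlinarith

/-- the integral of a square over an arc -/
lemma arc_sq {f : ℝ → ℂ} (hp : Function.Periodic f (2 * Real.pi))
    (hi : ∀ x y, IntervalIntegrable (fun t => ‖f t‖ ^ 2) volume x y) {x y : ℝ} (hxy : x ≤ y)
    (h2 : y - x ≤ 2 * Real.pi) :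
    ∫ t in x..y, ‖f t‖ ^ 2 ≤ ∫ t in (0:ℝ)..(2 * Real.pi), ‖f t‖ ^ 2 := by
  have hp2 : Function.Periodic (fun t => ‖f t‖ ^ 2) (2 * Real.pi) := fun t => by simp only [hp t]
  have h3 := hp2.intervalIntegral_add_eq 0 x
  rw [zero_add] at h3
  rw [h3]
  apply intervalIntegral.integral_mono_interval le_rfl hxy (by linarith)
    (Eventually.of_forall fun t => by positivity) (hi _ _)

/-- Bessel's inequality for the test function -/
lemma Vk_bessel {N M : ℕ} (hN : 2 ≤ N) {u : ℕ → ℝ} (huM : ∀ m, M ≤ m → u m = 0)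
    (hu2 : ∑ m ∈ Finset.range M, u m ^ 2 ≤ 1) (s : Finset ℕ) :
    ∑ k ∈ s, Vk N M u k ^ 2 ≤ 2 * Real.pi * (16 * Real.pi * N) := by
  have hpi := Real.pi_pos
  have hN0 : 0 < N := by omega
  have hN' : (0 : ℝ) < N := by exact_mod_cast hN0
  have hN2 : (2 : ℝ) ≤ N := by exact_mod_cast hN
  set L := 2 * Real.pi / N with hLdef
  have hL : 0 < L := by positivity
  have hL2 : L ≤ Real.pi := by
    rw [hLdef, div_le_iff₀ hN']; nlinarith
  set X := ∑ k ∈ s, Vk N M u k ^ 2 with hX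
  have hX0 : 0 ≤ X := Finset.sum_nonneg fun k _ => sq_nonneg _
  set F : ℝ → ℂ := fun θ => ∑ k ∈ s, (Vk N M u k : ℂ) * ex k θ with hF
  have hFc : Continuous F := continuous_finsetSum _ fun k _ => continuous_const.mul (continuous_ex k)
  have hFp : Function.Periodic F (2 * Real.pi) := by
    intro θ
    simp only [hF, fun m => ex_periodic m θ]
  have h1 : ∫ θ in (-L)..L, hf N M u θ * F θ = (X : ℂ) := by
    have e1 : ∀ θ, hf N M u θ * F θ = ∑ k ∈ s, (Vk N M u k : ℂ) * (hf N M u θ * ex k θ) := by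
      intro θ
      simp only [hF]
      rw [Finset.mul_sum]
      exact Finset.sum_congr rfl fun k _ => by ring
    simp only [e1]
    rw [intervalIntegral.integral_finsetSum]
    · rw [hX]
      push_cast
      refine Finset.sum_congr rfl fun k _ => ?_
      rw [intervalIntegral.integral_const_mul, hf_fourier hN0]
      ring
    · intro k _
      exact (continuous_const.mul ((hf_cont N M u).mul (continuous_ex k))).intervalIntegrable _ _
  have h2 := cs_interval (f := hf N M u) (g := F) (x := -L) (y := L) (by linarith)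
    (((hf_cont N M u).norm.pow 2).intervalIntegrable _ _) ((hFc.norm.pow 2).intervalIntegrable _ _)
  rw [h1, Complex.norm_real, Real.norm_eq_abs, abs_of_nonneg hX0] at h2
  have h3 : ∫ θ in (-L)..L, ‖F θ‖ ^ 2 ≤ 2 * Real.pi * X := by
    refine (arc_sq hFp (fun x y => (hFc.norm.pow 2).intervalIntegrable _ _) (by linarith)
      (by linarith)).trans (le_of_eq ?_)
    have := parseval s (fun k => (Vk N M u k : ℂ))
    rw [hX]
    refine this.trans ?_
    congr 1
    refine Finset.sum_congr rfl fun k _ => ?_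
    rw [Complex.norm_real, Real.norm_eq_abs, sq_abs]
  have h4 := hf_sq hN0 huM hu2
  rw [← hLdef] at h4
  have h5 : X ≤ √(16 * Real.pi * N) * √(2 * Real.pi * X) :=
    h2.trans (mul_le_mul (Real.sqrt_le_sqrt h4) (Real.sqrt_le_sqrt h3) (Real.sqrt_nonneg _)
      (Real.sqrt_nonneg _))
  rw [← Real.sqrt_mul (by positivity)] at h5
  have h6 : X ^ 2 ≤ 16 * Real.pi * N * (2 * Real.pi * X) := by
    have := pow_le_pow_left₀ hX0 h5 2
    rwa [Real.sq_sqrt (by positivity)] at this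
  rcases hX0.eq_or_lt with h7 | h7
  · rw [← h7]; positivity
  · have h8 : X * X ≤ (2 * Real.pi * (16 * Real.pi * N)) * X := by nlinarith
    exact le_of_mul_le_mul_right h8 h7

lemma Vk_upper {N M : ℕ} (hN : 0 < N) {u : ℕ → ℝ} (hu : ∀ m, 0 ≤ u m)
    (huM : ∀ m, M ≤ m → u m = 0) (hu2 : ∑ m ∈ Finset.range M, u m ^ 2 ≤ 1) (k : ℕ) :
    Vk N M u k ≤ 8 * Real.pi := by
  have hpi := Real.pi_pos
  have hN' : (0 : ℝ) < N := by exact_mod_cast hN
  set L := 2 * Real.pi / N with hLdef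
  have hL : 0 < L := by positivity
  have h2 := cs_interval (f := hf N M u) (g := ex k) (x := -L) (y := L) (by linarith)
    (((hf_cont N M u).norm.pow 2).intervalIntegrable _ _)
    (((continuous_ex k).norm.pow 2).intervalIntegrable _ _)
  rw [hf_fourier hN, Complex.norm_real, Real.norm_eq_abs, abs_of_nonneg (Vk_nonneg N M hu k)] at h2
  simp only [norm_ex, one_pow, intervalIntegral.integral_const, smul_eq_mul, mul_one] at h2
  refine h2.trans ?_
  rw [← Real.sqrt_mul (intervalIntegral.integral_nonneg (by linarith) fun _ _ => by positivity)]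
  rw [Real.sqrt_le_left (by positivity)]
  have h4 := hf_sq hN huM hu2
  rw [← hLdef] at h4
  have h5 : L - -L = 4 * Real.pi / N := by rw [hLdef]; ring
  rw [h5]
  have h6 : (∫ θ in (-L)..L, ‖hf N M u θ‖ ^ 2) * (4 * Real.pi / N) ≤ 16 * Real.pi * N * (4 * Real.pi / N) :=
    mul_le_mul_of_nonneg_right h4 (by positivity)
  refine h6.trans (le_of_eq ?_)
  field_simp
  ring

end Baux

end Pool.Agent.P8H68.RB
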