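import Pool.Agent.P8H68.RB.Stm
import Pool.Agent.P8H68.RB.Basic
import Pool.Agent.R253.BE.Bdry

/-!
# Boundary functions of power series with square summable coefficients (package BD)
-/

set_option autoImplicit false

open MeasureTheory Set Filter Topology ComplexConjugate

namespace Pool.Agent.P8H68.RB

namespace BDaux

lemma int_ex_mul (k l : ℕ) :
    ∫ θ in (0:ℝ)..(2 * Real.pi), ex k θ * conj (ex l θ) =
      if k = l then ((2 * Real.pi : ℝ) : ℂ) else 0 := by
  split_ifs with h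
  · subst h
    have h1 : ∀ θ : ℝ, ex k θ * conj (ex k θ) = 1 := fun θ => by
      rw [Complex.mul_conj', norm_ex]; norm_num
    simp only [h1]
    simp
  · have h1 : ∀ θ : ℝ, ex k θ * conj (ex l θ) = Complex.exp (((k:ℂ) - l) * Complex.I * θ) := by
      intro θ
      rw [ex, ex, ← Complex.exp_conj, ← Complex.exp_add]
      congr 1
      simp only [map_mul, Complex.conj_ofReal, Complex.conj_I]
      push_cast
      ring
    simp only [h1]
    have h2 : ((k:ℂ) - l) * Complex.I ≠ 0 := by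
      refine mul_ne_zero ?_ Complex.I_ne_zero
      rw [sub_ne_zero]
      exact_mod_cast h
    rw [integral_exp_mul_complex h2]
    have h3 : Complex.exp (((k:ℂ) - l) * Complex.I * ((2 * Real.pi : ℝ) : ℂ)) = 1 := by
      rw [Complex.exp_eq_one_iff]
      refine ⟨(k : ℤ) - l, ?_⟩
      push_cast
      ring
    rw [h3]
    simp

/-- Parseval for finite sums -/
lemma parseval_fin (s : Finset ℕ) (d : ℕ → ℂ) :
    ∫ θ in (0:ℝ)..(2 * Real.pi), ‖∑ k ∈ s, d k * ex k θ‖ ^ 2 = 2 * Real.pi * ∑ k ∈ s, ‖d k‖ ^ 2 := by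
  have h1 : ∀ θ : ℝ, ((‖∑ k ∈ s, d k * ex k θ‖ ^ 2 : ℝ) : ℂ) =
      ∑ k ∈ s, ∑ l ∈ s, d k * conj (d l) * (ex k θ * conj (ex l θ)) := by
    intro θ
    have := Complex.mul_conj' (∑ k ∈ s, d k * ex k θ)
    push_cast
    rw [← this, map_sum, Finset.sum_mul_sum]
    refine Finset.sum_congr rfl fun k _ => Finset.sum_congr rfl fun l _ => ?_
    rw [map_mul]
    ring
  have h2 : ((∫ θ in (0:ℝ)..(2 * Real.pi), ‖∑ k ∈ s, d k * ex k θ‖ ^ 2 : ℝ) : ℂ) =
      ((2 * Real.pi * ∑ k ∈ s, ‖d k‖ ^ 2 : ℝ) : ℂ) := by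
    rw [← intervalIntegral.integral_ofReal]
    simp only [h1]
    have hc : ∀ k l : ℕ, Continuous fun θ : ℝ => d k * conj (d l) * (ex k θ * conj (ex l θ)) :=
      fun k l => continuous_const.mul ((continuous_ex k).mul
        (Complex.continuous_conj.comp (continuous_ex l)))
    rw [intervalIntegral.integral_finsetSum fun k _ =>
      (continuous_finsetSum _ fun l _ => hc k l).intervalIntegrable _ _]
    have h3 : ∀ k ∈ s, ∫ θ in (0:ℝ)..(2 * Real.pi), ∑ l ∈ s, d k * conj (d l) * (ex k θ * conj (ex l θ)) =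
        2 * Real.pi * (‖d k‖ : ℂ) ^ 2 := by
      intro k hk
      rw [intervalIntegral.integral_finsetSum fun l _ => (hc k l).intervalIntegrable _ _]
      simp only [intervalIntegral.integral_const_mul, int_ex_mul]
      rw [Finset.sum_eq_single k]
      · rw [if_pos rfl, Complex.mul_conj']
        push_cast
        ring
      · intro l _ hl
        rw [if_neg (Ne.symm hl), mul_zero]
      · intro h
        exact absurd hk h
    rw [Finset.sum_congr rfl h3]
    push_cast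
    rw [Finset.mul_sum]
  exact_mod_cast h2

lemma coef_bound {c : ℕ → ℂ} (hc : Summable fun k => ‖c k‖ ^ 2) : ∃ B : ℝ, ∀ k, ‖c k‖ ≤ B := by
  have h := hc.tendsto_atTop_zero
  obtain ⟨B, hB⟩ := h.bddAbove_range
  refine ⟨1 + B, fun k => ?_⟩
  have h1 : ‖c k‖ ^ 2 ≤ B := hB ⟨k, rfl⟩
  nlinarith [sq_nonneg (‖c k‖ - 1), norm_nonneg (c k)]

lemma summable_r {c : ℕ → ℂ} {B : ℝ} (hB : ∀ k, ‖c k‖ ≤ B) {r : ℝ} (h0 : 0 ≤ r) (h1 : r < 1) :
    Summable fun k => ‖c k‖ * r ^ k :=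
  Summable.of_nonneg_of_le (fun k => by positivity)
    (fun k => mul_le_mul_of_nonneg_right (hB k) (by positivity))
    ((summable_geometric_of_lt_one h0 h1).mul_left B)

lemma summable_z {c : ℕ → ℂ} {B : ℝ} (hB : ∀ k, ‖c k‖ ≤ B) {z : ℂ} (hz : ‖z‖ < 1) :
    Summable fun k => c k * z ^ k := by
  refine Summable.of_norm ?_
  refine (summable_r hB (norm_nonneg z) hz).congr fun k => ?_
  rw [norm_mul, norm_pow]

lemma diff {c : ℕ → ℂ} (hc : Summable fun k => ‖c k‖ ^ 2) :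
    DifferentiableOn ℂ (series c) (Metric.ball 0 1) := by
  obtain ⟨B, hB⟩ := coef_bound hc
  intro z hz
  have hz1 : ‖z‖ < 1 := by simpa using hz
  obtain ⟨r, hr1, hr2⟩ := exists_between hz1
  have hr0 : 0 < r := lt_of_le_of_lt (norm_nonneg _) hr1
  have h : DifferentiableOn ℂ (fun w => ∑' k, c k * w ^ k) (Metric.ball 0 r) := by
    refine Complex.differentiableOn_tsum_of_summable_norm (u := fun k => ‖c k‖ * r ^ k)
      (summable_r hB hr0.le hr2) (fun k => ?_) Metric.isOpen_ball fun k w hw => ?_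
    · exact (differentiable_id.pow k |>.const_mul (c k)).differentiableOn
    · have hw' : ‖w‖ < r := by simpa using hw
      rw [norm_mul, norm_pow]
      gcongr
  have hz' : z ∈ Metric.ball (0:ℂ) r := by simpa using hr1
  exact ((h z hz').differentiableAt (Metric.isOpen_ball.mem_nhds hz')).differentiableWithinAt

/-- Parseval's inequality for the remainders of a power series on a circle -/
lemma parseval_le {c : ℕ → ℂ} (hc : Summable fun k => ‖c k‖ ^ 2) (K : ℕ) {r : ℝ} (h0 : 0 ≤ r)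
    (h1 : r < 1) :
    ∫ θ in (0:ℝ)..(2 * Real.pi), ‖series c (r * Complex.exp (θ * Complex.I)) -
      ∑ k ∈ Finset.range K, c k * (r:ℂ) ^ k * ex k θ‖ ^ 2 ≤
      2 * Real.pi * ∑' k, ‖c (k + K)‖ ^ 2 := by
  obtain ⟨B, hB⟩ := coef_bound hc
  have hz : ∀ θ : ℝ, ‖(r:ℂ) * Complex.exp (θ * Complex.I)‖ = r := fun θ => by
    rw [norm_mul, Complex.norm_exp_ofReal_mul_I, mul_one, Complex.norm_real, Real.norm_eq_abs,
      abs_of_nonneg h0]
  have hterm : ∀ (k : ℕ) (θ : ℝ), c k * ((r:ℂ) * Complex.exp (θ * Complex.I)) ^ k =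
      c k * (r:ℂ) ^ k * ex k θ := fun k θ => by
    rw [mul_pow, ex_eq_pow]; ring
  have hs : ∀ θ : ℝ, Summable fun k => c k * (r:ℂ) ^ k * ex k θ := fun θ => by
    refine (summable_z hB (z := (r:ℂ) * Complex.exp (θ * Complex.I)) (by rw [hz]; exact h1)).congr
      fun k => ?_
    exact hterm k θ
  have hS : ∀ θ : ℝ, series c (r * Complex.exp (θ * Complex.I)) = ∑' k, c k * (r:ℂ) ^ k * ex k θ :=
    fun θ => by
      unfold series
      exact tsum_congr fun k => hterm k θ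
  -- the finite sums
  set F : ℕ → ℝ → ℝ := fun N θ => ‖∑ k ∈ Finset.range N, c (k + K) * (r:ℂ) ^ (k + K) * ex (k + K) θ‖ ^ 2 with hF
  set M : ℝ := ∑' k, ‖c k‖ * r ^ k with hM
  have hterm0 : ∀ (k : ℕ) (θ : ℝ), ‖c k * (r:ℂ) ^ k * ex k θ‖ = ‖c k‖ * r ^ k := fun k θ => by
    rw [norm_mul, norm_mul, norm_ex, mul_one, norm_pow, Complex.norm_real, Real.norm_eq_abs,
      abs_of_nonneg h0]
  have hFle : ∀ N θ, ‖F N θ‖ ≤ M ^ 2 := by
    intro N θ
    rw [hF]
    simp only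
    rw [Real.norm_eq_abs, abs_of_nonneg (by positivity)]
    refine pow_le_pow_left₀ (norm_nonneg _) ?_ 2
    refine (norm_sum_le _ _).trans ?_
    simp only [hterm0]
    have h2 : ∑ k ∈ Finset.range N, ‖c (k + K)‖ * r ^ (k + K) =
        ∑ k ∈ (Finset.range N).map (addRightEmbedding K), ‖c k‖ * r ^ k := by
      rw [Finset.sum_map]; rfl
    rw [h2]
    exact (summable_r hB h0 h1).sum_le_tsum _ fun k _ => by positivity
  have hlim : ∀ θ : ℝ, Tendsto (fun N => F N θ) atTop (𝓝 (‖series c (r * Complex.exp (θ * Complex.I)) -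
      ∑ k ∈ Finset.range K, c k * (r:ℂ) ^ k * ex k θ‖ ^ 2)) := by
    intro θ
    have h2 : HasSum (fun k => c (k + K) * (r:ℂ) ^ (k + K) * ex (k + K) θ)
        (series c (r * Complex.exp (θ * Complex.I)) - ∑ k ∈ Finset.range K, c k * (r:ℂ) ^ k * ex k θ) := by
      rw [hS]
      exact (hasSum_nat_add_iff' K).2 (hs θ).hasSum
    exact (h2.tendsto_sum_nat.norm).pow 2
  have hcont : ∀ N, Continuous (F N) := fun N =>
    ((continuous_finsetSum _ fun k _ => continuous_const.mul (continuous_ex (k + K))).norm).pow 2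
  have hint : Tendsto (fun N => ∫ θ in (0:ℝ)..(2 * Real.pi), F N θ) atTop
      (𝓝 (∫ θ in (0:ℝ)..(2 * Real.pi), ‖series c (r * Complex.exp (θ * Complex.I)) -
      ∑ k ∈ Finset.range K, c k * (r:ℂ) ^ k * ex k θ‖ ^ 2)) := by
    refine intervalIntegral.tendsto_integral_filter_of_dominated_convergence (fun _ => M ^ 2) ?_ ?_ ?_ ?_
    · exact Eventually.of_forall fun N => (hcont N).aestronglyMeasurable
    · exact Eventually.of_forall fun N => Eventually.of_forall fun θ _ => hFle N θ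
    · exact intervalIntegrable_const
    · exact Eventually.of_forall fun θ _ => hlim θ
  refine le_of_tendsto hint (Eventually.of_forall fun N => ?_)
  have h3 : ∀ θ : ℝ, F N θ = ‖∑ k ∈ (Finset.range N).map (addRightEmbedding K),
      (c k * (r:ℂ) ^ k) * ex k θ‖ ^ 2 := by
    intro θ
    rw [Finset.sum_map]; rfl
  simp only [h3]
  rw [parseval_fin, Finset.sum_map]
  refine mul_le_mul_of_nonneg_left ?_ (by positivity)
  have h4 : Summable fun k => ‖c (k + K)‖ ^ 2 := (summable_nat_add_iff K).2 hc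
  refine le_trans (Finset.sum_le_sum fun k _ => ?_) (h4.sum_le_tsum (Finset.range N) fun k _ => by positivity)
  simp only [addRightEmbedding_apply]
  rw [norm_mul, norm_pow, Complex.norm_real, Real.norm_eq_abs, abs_of_nonneg h0]
  refine pow_le_pow_left₀ (by positivity) ?_ 2
  exact mul_le_of_le_one_right (norm_nonneg _) (pow_le_one₀ h0 h1.le)

lemma sq_le {x y u v : ℂ} {η : ℝ} (hη : 0 < η) (h : v = x + y) (hy : y = u + (v - x - u)) :
    ‖v‖ ^ 2 ≤ (1 + η) * ‖x‖ ^ 2 + (1 + η⁻¹) * (2 * ‖u‖ ^ 2 + 2 * ‖v - x - u‖ ^ 2) := by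
  have h1 : ‖v‖ ≤ ‖x‖ + ‖y‖ := by rw [h]; exact norm_add_le _ _
  have h2 : ‖y‖ ≤ ‖u‖ + ‖v - x - u‖ := by
    conv_lhs => rw [hy]
    exact norm_add_le _ _
  have h3 : ‖v‖ ^ 2 ≤ (‖x‖ + ‖y‖) ^ 2 := pow_le_pow_left₀ (norm_nonneg _) h1 2
  have h4 : ‖y‖ ^ 2 ≤ (‖u‖ + ‖v - x - u‖) ^ 2 := pow_le_pow_left₀ (norm_nonneg _) h2 2
  have h5 : (‖u‖ + ‖v - x - u‖) ^ 2 ≤ 2 * ‖u‖ ^ 2 + 2 * ‖v - x - u‖ ^ 2 := by
    nlinarith [sq_nonneg (‖u‖ - ‖v - x - u‖)]
  have h6 : (‖x‖ + ‖y‖) ^ 2 ≤ (1 + η) * ‖x‖ ^ 2 + (1 + η⁻¹) * ‖y‖ ^ 2 := by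
    have h7 : 0 ≤ (η * ‖x‖ - ‖y‖) ^ 2 * η⁻¹ := by positivity
    have h8 : (η * ‖x‖ - ‖y‖) ^ 2 * η⁻¹ = η * ‖x‖ ^ 2 - 2 * (‖x‖ * ‖y‖) + η⁻¹ * ‖y‖ ^ 2 := by
      field_simp
      ring
    nlinarith
  have h9 : (1 + η⁻¹) * ‖y‖ ^ 2 ≤ (1 + η⁻¹) * (2 * ‖u‖ ^ 2 + 2 * ‖v - x - u‖ ^ 2) :=
    mul_le_mul_of_nonneg_left (h4.trans h5) (by positivity)
  linarith

end BDaux

open Pool.Agent.R253.BE in
theorem part_BD : S_BD := by
  intro c hc
  have hpi : (0:ℝ) ≤ 2 * Real.pi := by positivity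
  have hd := BDaux.diff hc
  have hN : ∀ r : ℝ, 0 < r → r < 1 →
      ∫ θ in (0:ℝ)..(2 * Real.pi), ‖series c (r * Complex.exp (θ * Complex.I))‖ ^ 2 ≤
        2 * Real.pi * ∑' k, ‖c k‖ ^ 2 := by
    intro r h0 h1
    have := BDaux.parseval_le hc 0 h0.le h1
    simpa using this
  refine ⟨hd, ⟨_, hN⟩, ?_, ?_⟩
  · obtain ⟨b, hb⟩ := exists_bdry hd (B := 2 * Real.pi * ∑' k, ‖c k‖ ^ 2) (fun r h0 h1 => by
      unfold Nk
      simpa [circleMap] using hN r h0 h1)
    exact ⟨b, ⟨hb.per, hb.memLp, by simpa [circleMap] using hb.lim⟩⟩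
  · intro b hb K
    set T : ℝ := 2 * Real.pi * ∑' k, ‖c (k + K)‖ ^ 2 with hT
    set S : ℝ → ℂ := fun θ => ∑ k ∈ Finset.range K, c k * ex k θ with hS
    set Sr : ℝ → ℝ → ℂ := fun r θ => ∑ k ∈ Finset.range K, c k * (r:ℂ) ^ k * ex k θ with hSr
    set f : ℝ → ℝ → ℂ := fun r θ => series c (r * Complex.exp (θ * Complex.I)) with hf
    have hcS : Continuous S := continuous_finsetSum _ fun k _ => continuous_const.mul (continuous_ex k)
    have hcSr : ∀ r, Continuous (Sr r) := fun r =>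
      continuous_finsetSum _ fun k _ => continuous_const.mul (continuous_ex k)
    have hcf : ∀ r, 0 < r → r < 1 → Continuous (f r) := by
      intro r h0 h1
      have := cont_circ hd.continuousOn h0.le h1
      simpa [circleMap, hf] using this
    have hint : ∀ g : ℝ → ℂ, MemLp g 2 m0 → Integrable (fun θ => ‖g θ‖ ^ 2) m0 := fun g hg =>
      (memLp_two_iff_integrable_sq_norm hg.1).1 hg
    have hbS : MemLp (fun θ => b θ - S θ) 2 m0 := hb.memLp.sub (memLp_cont hcS)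
    -- the remainder from the dilations of the finite sums
    have hD : ∀ r : ℝ, ∫ θ in (0:ℝ)..(2 * Real.pi), ‖Sr r θ - S θ‖ ^ 2 =
        2 * Real.pi * ∑ k ∈ Finset.range K, ‖c k * ((r:ℂ) ^ k - 1)‖ ^ 2 := by
      intro r
      rw [← BDaux.parseval_fin]
      refine intervalIntegral.integral_congr fun θ _ => ?_
      simp only [hSr, hS]
      rw [← Finset.sum_sub_distrib]
      congr 2
      exact Finset.sum_congr rfl fun k _ => by ring
    have hDlim : Tendsto (fun r : ℝ => ∫ θ in (0:ℝ)..(2 * Real.pi), ‖Sr r θ - S θ‖ ^ 2) (𝓝[<] 1)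
        (𝓝 0) := by
      simp only [hD]
      have h1 : Continuous fun r : ℝ => 2 * Real.pi * ∑ k ∈ Finset.range K, ‖c k * ((r:ℂ) ^ k - 1)‖ ^ 2 := by
        refine continuous_const.mul (continuous_finsetSum _ fun k _ => ?_)
        refine (Continuous.norm ?_).pow 2
        exact continuous_const.mul ((Complex.continuous_ofReal.pow k).sub continuous_const)
      have h2 := (h1.tendsto 1).mono_left (nhdsWithin_le_nhds (s := Iio (1:ℝ)))
      simpa using h2
    have hkey : ∀ η : ℝ, 0 < η → ∫ θ in (0:ℝ)..(2 * Real.pi), ‖b θ - S θ‖ ^ 2 ≤ (1 + η) * T := by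
      intro η hη
      have h1 : ∀ᶠ r : ℝ in 𝓝[<] 1, ∫ θ in (0:ℝ)..(2 * Real.pi), ‖b θ - S θ‖ ^ 2 ≤
          (1 + η) * T + (1 + η⁻¹) * (2 * (∫ θ in (0:ℝ)..(2 * Real.pi), ‖f r θ - b θ‖ ^ 2) +
            2 * (∫ θ in (0:ℝ)..(2 * Real.pi), ‖Sr r θ - S θ‖ ^ 2)) := by
        have h2 : ∀ᶠ r : ℝ in 𝓝[<] 1, 0 < r := nhdsWithin_le_nhds (lt_mem_nhds one_pos)
        filter_upwards [h2, self_mem_nhdsWithin] with r hr0 hr1
        have hr1' : r < 1 := hr1
        have h3 := BDaux.parseval_le hc K hr0.le hr1'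
        have hfm : MemLp (f r) 2 m0 := memLp_cont (hcf r hr0 hr1')
        have i1 : Integrable (fun θ => ‖f r θ - Sr r θ‖ ^ 2) m0 :=
          hint _ (hfm.sub (memLp_cont (hcSr r)))
        have i2 : Integrable (fun θ => ‖f r θ - b θ‖ ^ 2) m0 := hint _ (hfm.sub hb.memLp)
        have i3 : Integrable (fun θ => ‖Sr r θ - S θ‖ ^ 2) m0 :=
          hint _ ((memLp_cont (hcSr r)).sub (memLp_cont hcS))
        rw [intervalIntegral.integral_of_le hpi, intervalIntegral.integral_of_le hpi,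
          intervalIntegral.integral_of_le hpi]
        have h4 : ∫ θ in Ioc 0 (2 * Real.pi), ‖b θ - S θ‖ ^ 2 ≤
            ∫ θ in Ioc 0 (2 * Real.pi), ((1 + η) * ‖f r θ - Sr r θ‖ ^ 2 +
              (1 + η⁻¹) * (2 * ‖f r θ - b θ‖ ^ 2 + 2 * ‖Sr r θ - S θ‖ ^ 2)) := by
          refine integral_mono (hint _ hbS)
            ((i1.const_mul _).add (((i2.const_mul _).add (i3.const_mul _)).const_mul _)) fun θ => ?_
          simp only
          have h5 := BDaux.sq_le (x := f r θ - Sr r θ) (y := (b θ - f r θ) + (Sr r θ - S θ))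
            (u := b θ - f r θ) (v := b θ - S θ) hη (by ring) (by ring)
          have h6 : b θ - S θ - (f r θ - Sr r θ) - (b θ - f r θ) = Sr r θ - S θ := by ring
          rw [h6, norm_sub_rev (b θ) (f r θ)] at h5
          exact h5
        refine h4.trans ?_
        have j1 : Integrable (fun θ => (1 + η) * ‖f r θ - Sr r θ‖ ^ 2) m0 := i1.const_mul _
        have j2 : Integrable (fun θ => 2 * ‖f r θ - b θ‖ ^ 2) m0 := i2.const_mul _
        have j3 : Integrable (fun θ => 2 * ‖Sr r θ - S θ‖ ^ 2) m0 := i3.const_mul _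
        have j4 : Integrable (fun θ => (1 + η⁻¹) * (2 * ‖f r θ - b θ‖ ^ 2 + 2 * ‖Sr r θ - S θ‖ ^ 2)) m0 :=
          (j2.add j3).const_mul _
        rw [integral_add j1 j4, integral_const_mul, integral_const_mul, integral_add j2 j3,
          integral_const_mul, integral_const_mul]
        rw [intervalIntegral.integral_of_le hpi] at h3
        have h7 := mul_le_mul_of_nonneg_left h3 (by positivity : 0 ≤ 1 + η)
        exact add_le_add_left h7 _
      have h2 : Tendsto (fun r : ℝ => (1 + η) * T + (1 + η⁻¹) *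
          (2 * (∫ θ in (0:ℝ)..(2 * Real.pi), ‖f r θ - b θ‖ ^ 2) +
            2 * (∫ θ in (0:ℝ)..(2 * Real.pi), ‖Sr r θ - S θ‖ ^ 2))) (𝓝[<] 1)
          (𝓝 ((1 + η) * T + (1 + η⁻¹) * (2 * 0 + 2 * 0))) :=
        tendsto_const_nhds.add (((hb.lim.const_mul 2).add (hDlim.const_mul 2)).const_mul _)
      have h3 := ge_of_tendsto h2 h1
      simpa using h3
    have hT0 : Tendsto (fun η : ℝ => (1 + η) * T) (𝓝[>] 0) (𝓝 ((1 + 0) * T)) := by
      refine Tendsto.mono_left ?_ nhdsWithin_le_nhds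
      exact ((continuous_const.add continuous_id).mul continuous_const).tendsto 0
    have h8 := ge_of_tendsto hT0 (by
      filter_upwards [self_mem_nhdsWithin] with η hη
      exact hkey η hη)
    simpa using h8

end Pool.Agent.P8H68.RB
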