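import Pool.Agent.P8H68.RB.Stm
import Pool.Agent.P8H68.RB.Basic

/-!
# Lower bound for the Bloch norm (package BLL)
-/

set_option autoImplicit false

open MeasureTheory ProbabilityTheory Set Filter Topology

namespace Pool.Agent.P8H68.RB

namespace BLLaux

lemma coef_bound {c : ℕ → ℂ} (hc : Summable fun k => ‖c k‖ ^ 2) : ∃ B : ℝ, ∀ k, ‖c k‖ ≤ B := by
  have h := hc.tendsto_atTop_zero
  obtain ⟨B, hB⟩ := h.bddAbove_range
  refine ⟨1 + B, fun k => ?_⟩
  have h1 : ‖c k‖ ^ 2 ≤ B := hB ⟨k, rfl⟩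
  nlinarith [sq_nonneg (‖c k‖ - 1), norm_nonneg (c k)]

lemma deriv_series {c : ℕ → ℂ} (hc : Summable fun k => ‖c k‖ ^ 2) {z : ℂ} (hz : ‖z‖ < 1) :
    HasSum (fun k : ℕ => (k : ℂ) * c k * z ^ k) (z * deriv (series c) z) := by
  obtain ⟨B, hB⟩ := coef_bound hc
  obtain ⟨r, hr1, hr2⟩ := exists_between hz
  have hr0 : 0 < r := lt_of_le_of_lt (norm_nonneg _) hr1
  have hsum : Summable fun k => ‖c k‖ * r ^ k :=
    Summable.of_nonneg_of_le (fun k => by positivity)
      (fun k => mul_le_mul_of_nonneg_right (hB k) (by positivity))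
      ((summable_geometric_of_lt_one hr0.le hr2).mul_left B)
  have h := Complex.hasSum_deriv_of_summable_norm (F := fun k (w : ℂ) => c k * w ^ k)
    (u := fun k => ‖c k‖ * r ^ k) (U := Metric.ball 0 r) hsum
    (fun k => (differentiable_id.pow k |>.const_mul (c k)).differentiableOn) Metric.isOpen_ball
    (fun k w hw => by
      have hw' : ‖w‖ < r := by simpa using hw
      rw [norm_mul, norm_pow]
      gcongr)
    (z := z) (by simpa using hr1)
  have h2 := h.mul_left z
  refine h2.congr_fun fun k => ?_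
  have h3 : deriv (fun w : ℂ => c k * w ^ k) z = c k * (k * z ^ (k - 1)) := by
    rw [deriv_const_mul _ (by fun_prop), deriv_pow_field]
  rw [h3]
  rcases Nat.eq_zero_or_pos k with hk | hk
  · subst hk; simp
  · obtain ⟨j, rfl⟩ := Nat.exists_eq_add_of_le' hk
    simp only [Nat.add_sub_cancel]
    ring

lemma quarter (n : ℕ) : (1 / 4 : ℝ) ≤ (1 - (1 / 2) ^ (n + 1)) ^ (2 ^ (n + 1)) := by
  have h0 : (0:ℝ) < (1 / 2) ^ (n + 1) := by positivity
  have h1 : ((1:ℝ) / 2) ^ (n + 1) ≤ 1 / 2 := by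
    rw [pow_succ]
    have : ((1:ℝ) / 2) ^ n ≤ 1 := pow_le_one₀ (by norm_num) (by norm_num)
    nlinarith
  have h2 : (1 / 2 : ℝ) ≤ (1 - (1 / 2) ^ (n + 1)) ^ (2 ^ n) := by
    have h3 := one_add_mul_le_pow (a := -((1:ℝ) / 2) ^ (n + 1)) (by linarith) (2 ^ n)
    have h4 : ((2 ^ n : ℕ) : ℝ) * (-((1:ℝ) / 2) ^ (n + 1)) = -(1 / 2) := by
      push_cast
      rw [pow_succ, one_div, inv_pow]
      have : (2:ℝ) ^ n ≠ 0 := by positivity
      field_simp
    rw [h4] at h3
    have h5 : (1 + -((1:ℝ) / 2) ^ (n + 1)) = 1 - (1 / 2) ^ (n + 1) := by ring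
    rw [h5] at h3
    linarith
  rw [pow_succ 2 n, pow_mul]
  nlinarith

end BLLaux

theorem part_BLL : S_BLL := by
  refine ⟨8, by norm_num, fun n => ?_⟩
  set q : ℝ := (1 / 2) ^ (n + 1) with hq
  set r : ℝ := 1 - q with hr
  have hq0 : 0 < q := by positivity
  have hq1 : q ≤ 1 / 2 := by
    rw [hq, pow_succ]
    have : ((1:ℝ) / 2) ^ n ≤ 1 := pow_le_one₀ (by norm_num) (by norm_num)
    nlinarith
  have hr0 : 0 < r := by rw [hr]; linarith
  have hr1 : r < 1 := by rw [hr]; linarith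
  have hkr : ∀ k : ℕ, (k : ℝ) * r ^ k * q ≤ 1 := by
    intro k
    have h1 : (k : ℝ) * r ^ k ≤ ∑ j ∈ Finset.range k, r ^ j := by
      have h2 : (k : ℝ) * r ^ k = ∑ j ∈ Finset.range k, r ^ k := by simp
      rw [h2]
      refine Finset.sum_le_sum fun j hj => ?_
      exact pow_le_pow_of_le_one hr0.le hr1.le (Finset.mem_range.1 hj).le
    have h3 : (∑ j ∈ Finset.range k, r ^ j) * q = 1 - r ^ k := by
      have := geom_sum_mul_neg r k
      rw [show (1:ℝ) - r = q by rw [hr]; ring] at this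
      exact this
    have h4 := mul_le_mul_of_nonneg_right h1 hq0.le
    have h5 : 0 < r ^ k := by positivity
    linarith
  have hv0 : ∀ k : ℕ, 0 ≤ 8 * ((k : ℝ) * r ^ k * q) := fun k => by positivity
  have hv8 : ∀ k : ℕ, 8 * ((k : ℝ) * r ^ k * q) ≤ 8 := fun k => by
    have := hkr k
    linarith
  have hsum : Summable fun k : ℕ => 8 * ((k : ℝ) * r ^ k * q) := by
    have h1 := summable_pow_mul_geometric_of_norm_lt_one (R := ℝ) 1 (r := r)
      (by rw [Real.norm_eq_abs, abs_of_pos hr0]; exact hr1)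
    simp only [pow_one] at h1
    exact (h1.mul_right q).mul_left 8
  refine ⟨fun k => 8 * ((k : ℝ) * r ^ k * q), fun k => ⟨hv0 k, hv8 k⟩, fun k hk => ?_, ?_,
    fun c m hc hm θ => ?_⟩
  · rw [Finset.mem_Ico] at hk
    have h1 : (1 / 2 : ℝ) ≤ (k : ℝ) * q := by
      have h2 : ((2 ^ n : ℕ) : ℝ) ≤ k := by exact_mod_cast hk.1
      have h3 : ((2 ^ n : ℕ) : ℝ) * q = 1 / 2 := by
        rw [hq]
        push_cast
        rw [pow_succ, one_div, inv_pow]
        have : (2:ℝ) ^ n ≠ 0 := by positivity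
        field_simp
      nlinarith
    have h2 : (1 / 4 : ℝ) ≤ r ^ k := by
      refine (BLLaux.quarter n).trans ?_
      exact pow_le_pow_of_le_one hr0.le hr1.le hk.2.le
    have h3 : (k : ℝ) * r ^ k * q = (k * q) * r ^ k := by ring
    simp only
    rw [h3]
    nlinarith
  · refine Summable.of_nonneg_of_le (fun k => sq_nonneg _) (fun k => ?_) (hsum.mul_left 8)
    rw [sq]
    exact mul_le_mul_of_nonneg_right (hv8 k) (hv0 k)
  · set z : ℂ := (r : ℂ) * Complex.exp (θ * Complex.I) with hz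
    have hzn : ‖z‖ = r := by
      rw [hz, norm_mul, Complex.norm_exp_ofReal_mul_I, mul_one, Complex.norm_real, Real.norm_eq_abs,
        abs_of_pos hr0]
    have h1 := BLLaux.deriv_series hc (z := z) (by rw [hzn]; exact hr1)
    have h2 := h1.mul_left (8 * (q : ℂ))
    have h3 : ∑' k : ℕ, ((8 * ((k : ℝ) * r ^ k * q) : ℝ) : ℂ) * c k * ex k θ =
        8 * (q : ℂ) * (z * deriv (series c) z) := by
      rw [← h2.tsum_eq]
      refine tsum_congr fun k => ?_
      rw [hz, mul_pow, ex_eq_pow]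
      push_cast
      ring
    simp only
    rw [h3]
    have hzb : z ∈ Metric.ball (0:ℂ) 1 := by
      rw [mem_ball_zero_iff, hzn]; exact hr1
    have h4 := hm z hzb
    rw [hzn] at h4
    have h5 : ‖8 * (q : ℂ) * (z * deriv (series c) z)‖ = 8 * (q * (r * ‖deriv (series c) z‖)) := by
      rw [norm_mul, norm_mul, norm_mul, hzn, Complex.norm_real, Real.norm_eq_abs, abs_of_pos hq0]
      norm_num
      ring
    rw [h5]
    have h6 : (1 - r ^ 2) = q * (1 + r) := by rw [hr]; ring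
    rw [h6] at h4
    have h7 : 0 ≤ ‖deriv (series c) z‖ := norm_nonneg _
    have h8 : q * (r * ‖deriv (series c) z‖) ≤ q * (1 + r) * ‖deriv (series c) z‖ := by
      have : q * (1 + r) * ‖deriv (series c) z‖ - q * (r * ‖deriv (series c) z‖) =
        q * ‖deriv (series c) z‖ := by ring
      have h9 : 0 ≤ q * ‖deriv (series c) z‖ := by positivity
      linarith
    linarith

end Pool.Agent.P8H68.RB
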