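import Pool.Agent.P8H68.RB.Bern
import Pool.Agent.P8H68.RB.Stm

/-!
# Part BLU: upper bound for the Bloch norm
-/

set_option autoImplicit false

open MeasureTheory Set Filter Topology
open scoped ComplexConjugate

namespace Pool.Agent.P8H68.RB.Bern

/-- the derivative of a power series with bounded coefficients -/
theorem ser_deriv (c : ℕ → ℂ) (M : ℝ) (hM : ∀ k, ‖c k‖ ≤ M) (z : ℂ) (hz : ‖z‖ < 1) :
    Summable (fun k : ℕ => c k * ((k : ℂ) * z ^ (k - 1))) ∧
    HasDerivAt (series c) (∑' k : ℕ, c k * ((k : ℂ) * z ^ (k - 1))) z := by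
  obtain ⟨r, hr1, hr2⟩ := exists_between hz
  have hr0 : 0 < r := (norm_nonneg z).trans_lt hr1
  have hM0 : 0 ≤ M := (norm_nonneg _).trans (hM 0)
  have hu : Summable (fun k : ℕ => M * ((k : ℝ) * r ^ (k - 1))) := by
    refine Summable.mul_left _ ?_
    have h1 : Summable (fun k : ℕ => (k : ℝ) * r ^ k) := by
      have := summable_pow_mul_geometric_of_norm_lt_one (R := ℝ) 1 (r := r)
        (by rw [Real.norm_eq_abs, abs_of_pos hr0]; exact hr2)
      simpa using this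
    have h2 : (fun k : ℕ => (k : ℝ) * r ^ (k - 1)) = fun k : ℕ => r⁻¹ * ((k : ℝ) * r ^ k) := by
      funext k
      rcases k with _ | k
      · simp
      · rw [Nat.add_sub_cancel, pow_succ]
        field_simp
    rw [h2]
    exact h1.mul_left _
  have hb : ∀ (k : ℕ) (y : ℂ), y ∈ Metric.ball (0 : ℂ) r →
      ‖c k * ((k : ℂ) * y ^ (k - 1))‖ ≤ M * ((k : ℝ) * r ^ (k - 1)) := by
    intro k y hy
    rw [mem_ball_zero_iff] at hy
    rw [norm_mul, norm_mul, Complex.norm_natCast, norm_pow]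
    gcongr
    exact hM k
  refine ⟨Summable.of_norm_bounded hu fun k => hb k z (by rwa [mem_ball_zero_iff]), ?_⟩
  refine hasDerivAt_tsum_of_isPreconnected (y₀ := 0) hu Metric.isOpen_ball
    (convex_ball (0 : ℂ) r).isPreconnected (fun k y _ => ?_) hb
    (Metric.mem_ball_self hr0) ?_ (by rwa [mem_ball_zero_iff])
  · exact (hasDerivAt_pow k y).const_mul (c k)
  · refine summable_of_ne_finset_zero (s := {0}) fun k hk => ?_
    have : k ≠ 0 := by simpa using hk
    rw [zero_pow this, mul_zero]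

theorem bdd_of_summable {c : ℕ → ℂ} (hc : Summable (fun k => ‖c k‖ ^ 2)) :
    ∃ M : ℝ, ∀ k, ‖c k‖ ≤ M := by
  refine ⟨√(∑' k, ‖c k‖ ^ 2), fun k => ?_⟩
  exact Real.le_sqrt_of_sq_le (hc.le_tsum k fun j _ => sq_nonneg _)

theorem diffOn {c : ℕ → ℂ} (hc : Summable (fun k => ‖c k‖ ^ 2)) :
    DifferentiableOn ℂ (series c) (Metric.ball 0 1) := by
  obtain ⟨M, hM⟩ := bdd_of_summable hc
  intro z hz
  rw [mem_ball_zero_iff] at hz
  exact (ser_deriv c M hM z hz).2.differentiableAt.differentiableWithinAt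

/-- a block of coefficients on a smaller circle -/
theorem block_bound (c : ℕ → ℂ) (B : ℝ) (N : ℕ)
    (h : ∀ θ : ℝ, ‖∑ k ∈ Finset.Ico N (2 * N), c k * ex k θ‖ ≤ B) (z : ℂ) (hz : ‖z‖ ≤ 1) :
    ‖∑ k ∈ Finset.Ico N (2 * N), c k * z ^ k‖ ≤ ‖z‖ ^ N * B := by
  have h1 : ∀ w : ℂ, ∑ k ∈ Finset.Ico N (2 * N), c k * w ^ k =
      w ^ N * ∑ j ∈ Finset.range N, c (N + j) * w ^ j := by
    intro w
    rw [Finset.sum_Ico_eq_sum_range, Finset.mul_sum]
    have : 2 * N - N = N := by omega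
    rw [this]
    refine Finset.sum_congr rfl fun j _ => ?_
    rw [pow_add]
    ring
  rw [h1, norm_mul, norm_pow]
  gcongr
  refine max_mod N (fun j => c (N + j)) B ?_ z hz
  intro t
  have h2 := h t
  simp only [ex_eq_pow] at h2 ⊢
  rw [h1, norm_mul, norm_pow] at h2
  have h3 : ‖Complex.exp (t * Complex.I)‖ = 1 := Complex.norm_exp_ofReal_mul_I t
  rw [h3, one_pow, one_mul] at h2
  exact h2

/-- a differentiated block -/
theorem block_deriv (c : ℕ → ℂ) (B : ℝ) (N : ℕ)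
    (h : ∀ θ : ℝ, ‖∑ k ∈ Finset.Ico N (2 * N), c k * ex k θ‖ ≤ B) (z : ℂ) (hz : ‖z‖ ≤ 1) :
    ‖∑ k ∈ Finset.Ico N (2 * N), (k : ℂ) * c k * z ^ k‖ ≤ 2 * N * (‖z‖ ^ N * B) := by
  set a : ℕ → ℂ := fun k => if N ≤ k then c k * (‖z‖ : ℂ) ^ k else 0 with ha
  have hsum : ∀ (f : ℕ → ℂ), ∑ k ∈ Finset.range (2 * N), (if N ≤ k then f k else 0) =
      ∑ k ∈ Finset.Ico N (2 * N), f k := by
    intro f
    rw [← Finset.sum_filter]
    congr 1
    ext k
    simp only [Finset.mem_filter, Finset.mem_range, Finset.mem_Ico]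
    omega
  have h1 : ∀ t : ℝ, ‖∑ k ∈ Finset.range (2 * N), a k * ex k t‖ ≤ ‖z‖ ^ N * B := by
    intro t
    have e1 : ∑ k ∈ Finset.range (2 * N), a k * ex k t =
        ∑ k ∈ Finset.Ico N (2 * N), c k * ((‖z‖ : ℂ) * Complex.exp (t * Complex.I)) ^ k := by
      rw [← hsum]
      refine Finset.sum_congr rfl fun k _ => ?_
      simp only [ha, ite_mul, zero_mul]
      split_ifs
      · rw [ex_eq_pow, mul_pow]; ring
      · rfl
    have e2 : ‖(‖z‖ : ℂ) * Complex.exp (t * Complex.I)‖ = ‖z‖ := by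
      rw [norm_mul, Complex.norm_real, norm_norm, Complex.norm_exp_ofReal_mul_I, mul_one]
    have e3 := block_bound c B N h ((‖z‖ : ℂ) * Complex.exp (t * Complex.I)) (by rw [e2]; exact hz)
    rw [e2] at e3
    rw [e1]
    exact e3
  have h2 := bernstein (2 * N) a _ h1 (Complex.arg z)
  have h3 : ∑ k ∈ Finset.range (2 * N), (k : ℂ) * a k * ex k (Complex.arg z) =
      ∑ k ∈ Finset.Ico N (2 * N), (k : ℂ) * c k * z ^ k := by
    rw [← hsum]
    refine Finset.sum_congr rfl fun k _ => ?_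
    simp only [ha, mul_ite, ite_mul, zero_mul, mul_zero]
    split_ifs
    · rw [ex_eq_pow]
      have e4 : z ^ k = (‖z‖ : ℂ) ^ k * Complex.exp (Complex.arg z * Complex.I) ^ k := by
        rw [← mul_pow, Complex.norm_mul_exp_arg_mul_I]
      rw [e4]
      ring
    · rfl
  rw [h3] at h2
  push_cast at h2
  exact h2

theorem geom_block (r : ℝ) (h0 : 0 ≤ r) (h1 : r ≤ 1) (L : ℕ) :
    ∑ n ∈ Finset.range L, 2 * (2 : ℝ) ^ n * r ^ (2 ^ n) ≤
      4 * ∑ j ∈ Finset.Ico 1 (2 ^ L), r ^ j := by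
  have key : ∀ L : ℕ, ∑ n ∈ Finset.range (L + 1), 2 * (2 : ℝ) ^ n * r ^ (2 ^ n) ≤
      4 * ∑ j ∈ Finset.Ico 1 (2 ^ L + 1), r ^ j := by
    intro L
    induction L with
    | zero => simp; linarith
    | succ L ih =>
      rw [Finset.sum_range_succ]
      have e1 : ∑ j ∈ Finset.Ico 1 (2 ^ (L + 1) + 1), r ^ j =
          ∑ j ∈ Finset.Ico 1 (2 ^ L + 1), r ^ j +
            ∑ j ∈ Finset.Ico (2 ^ L + 1) (2 ^ (L + 1) + 1), r ^ j := by
        have p1 : 1 ≤ 2 ^ L := Nat.one_le_two_pow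
        have p2 : 2 ^ L ≤ 2 ^ (L + 1) := Nat.pow_le_pow_right (by norm_num) (by omega)
        rw [Finset.sum_Ico_consecutive _ (by omega) (by omega)]
      have e2 : (2 : ℝ) ^ L * r ^ (2 ^ (L + 1)) ≤
          ∑ j ∈ Finset.Ico (2 ^ L + 1) (2 ^ (L + 1) + 1), r ^ j := by
        have : ∑ j ∈ Finset.Ico (2 ^ L + 1) (2 ^ (L + 1) + 1), r ^ (2 ^ (L + 1)) ≤
            ∑ j ∈ Finset.Ico (2 ^ L + 1) (2 ^ (L + 1) + 1), r ^ j := by
          refine Finset.sum_le_sum fun j hj => ?_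
          rw [Finset.mem_Ico] at hj
          exact pow_le_pow_of_le_one h0 h1 (by omega)
        rw [Finset.sum_const, Nat.card_Ico, nsmul_eq_mul] at this
        have e3 : 2 ^ (L + 1) + 1 - (2 ^ L + 1) = 2 ^ L := by
          rw [pow_succ]; omega
        rw [e3] at this
        push_cast at this
        exact this
      rw [e1, mul_add]
      refine add_le_add ih ?_
      calc 2 * (2 : ℝ) ^ (L + 1) * r ^ (2 ^ (L + 1)) = 4 * ((2 : ℝ) ^ L * r ^ (2 ^ (L + 1))) := by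
            rw [pow_succ 2 L]; ring
        _ ≤ _ := by gcongr
  rcases L with _ | L
  · simp
  · refine (key L).trans ?_
    gcongr 4 * ?_
    refine Finset.sum_le_sum_of_subset_of_nonneg ?_ fun _ _ _ => pow_nonneg h0 _
    intro j hj
    rw [Finset.mem_Ico] at hj ⊢
    have : 2 ^ L + 1 ≤ 2 ^ (L + 1) := by
      have := Nat.one_le_two_pow (n := L)
      rw [pow_succ]; omega
    omega

theorem geom_le (r : ℝ) (h0 : 0 ≤ r) (m : ℕ) :
    (1 - r) * ∑ j ∈ Finset.Ico 1 m, r ^ j ≤ r := by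
  rcases m with _ | m
  · simpa using h0
  · have e1 : (1 - r) * ∑ j ∈ Finset.Ico 1 (m + 1), r ^ j = r * (1 - r ^ m) := by
      rw [Finset.sum_Ico_eq_sum_range, Nat.add_sub_cancel]
      have : ∑ j ∈ Finset.range m, r ^ (1 + j) = r * ∑ j ∈ Finset.range m, r ^ j := by
        rw [Finset.mul_sum]
        exact Finset.sum_congr rfl fun j _ => by rw [pow_add, pow_one]
      rw [this]
      have h2 := mul_neg_geom_sum r m
      calc (1 - r) * (r * ∑ j ∈ Finset.range m, r ^ j) =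
          r * ((1 - r) * ∑ j ∈ Finset.range m, r ^ j) := by ring
        _ = _ := by rw [h2]
    rw [e1]
    have : 0 ≤ r ^ m := pow_nonneg h0 m
    nlinarith

/-- dyadic decomposition of a sum -/
theorem dyadic (f : ℕ → ℂ) (L : ℕ) : ∑ k ∈ Finset.range (2 ^ L), f k =
    f 0 + ∑ n ∈ Finset.range L, ∑ k ∈ Finset.Ico (2 ^ n) (2 * 2 ^ n), f k := by
  induction L with
  | zero => simp
  | succ L ih =>
    have p1 : 1 ≤ 2 ^ L := Nat.one_le_two_pow
    rw [Finset.sum_range_succ, ← add_assoc, ← ih, pow_succ, mul_comm (2 ^ L) 2,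
      Finset.range_eq_Ico, Finset.range_eq_Ico,
      Finset.sum_Ico_consecutive _ (by omega) (by omega)]

end Bern

open Bern in
theorem part_BLU : S_BLU := by
  intro c B hc h
  refine ⟨diffOn hc, 8 * B, ?_⟩
  obtain ⟨M, hM⟩ := bdd_of_summable hc
  have hB : 0 ≤ B := (norm_nonneg _).trans (h 0 0)
  have h' : ∀ (n : ℕ) (θ : ℝ),
      ‖∑ k ∈ Finset.Ico (2 ^ n) (2 * 2 ^ n), c k * ex k θ‖ ≤ B := by
    intro n θ
    have := h n θ
    rwa [pow_succ, mul_comm (2 ^ n) 2] at this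
  intro z hz
  rw [mem_ball_zero_iff] at hz
  obtain ⟨hs, hd⟩ := ser_deriv c M hM z hz
  rw [hd.deriv]
  by_cases hz0 : z = 0
  · subst hz0
    have e1 : ∑' k : ℕ, c k * ((k : ℂ) * (0 : ℂ) ^ (k - 1)) = c 1 := by
      rw [tsum_eq_single 1]
      · simp
      · intro k hk
        rcases k with _ | _ | k
        · simp
        · exact absurd rfl hk
        · simp
    rw [e1]
    have e2 := h 0 0
    simp only [pow_zero, zero_add, pow_one] at e2
    have e3 : Finset.Ico 1 2 = {1} := rfl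
    rw [e3, Finset.sum_singleton, norm_mul, norm_ex, mul_one] at e2
    simp only [norm_zero]
    nlinarith
  · have hr : 0 < ‖z‖ := norm_pos_iff.2 hz0
    set r := ‖z‖ with hrdef
    -- the series of `z f'(z)`
    have hs' : HasSum (fun k : ℕ => (k : ℂ) * c k * z ^ k)
        (z * ∑' k : ℕ, c k * ((k : ℂ) * z ^ (k - 1))) := by
      have := hs.hasSum.mul_left z
      refine this.congr_fun ?_ |> fun h => h
      intro k
      rcases k with _ | k
      · simp
      · rw [Nat.add_sub_cancel, pow_succ]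
        ring
    have hbound : ∀ L : ℕ, ‖∑ k ∈ Finset.range (2 ^ L), (k : ℂ) * c k * z ^ k‖ * (1 - r) ≤
        4 * B * r := by
      intro L
      have e1 : ‖∑ k ∈ Finset.range (2 ^ L), (k : ℂ) * c k * z ^ k‖ ≤
          B * ∑ n ∈ Finset.range L, 2 * (2 : ℝ) ^ n * r ^ (2 ^ n) := by
        rw [dyadic, Finset.mul_sum]
        simp only [Nat.cast_zero, zero_mul, zero_add]
        refine (norm_sum_le _ _).trans (Finset.sum_le_sum fun n _ => ?_)
        refine (block_deriv c B (2 ^ n) (h' n) z hz.le).trans (le_of_eq ?_)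
        push_cast
        ring
      calc ‖∑ k ∈ Finset.range (2 ^ L), (k : ℂ) * c k * z ^ k‖ * (1 - r) ≤
          (B * (4 * ∑ j ∈ Finset.Ico 1 (2 ^ L), r ^ j)) * (1 - r) := by
            refine mul_le_mul_of_nonneg_right (e1.trans ?_) (by linarith)
            exact mul_le_mul_of_nonneg_left (geom_block r hr.le hz.le L) hB
        _ = 4 * B * ((1 - r) * ∑ j ∈ Finset.Ico 1 (2 ^ L), r ^ j) := by ring
        _ ≤ 4 * B * r := by
            refine mul_le_mul_of_nonneg_left (Bern.geom_le r hr.le _) (by positivity)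
    have hlim : Tendsto (fun L : ℕ =>
        ‖∑ k ∈ Finset.range (2 ^ L), (k : ℂ) * c k * z ^ k‖ * (1 - r)) atTop
        (𝓝 (‖z * ∑' k : ℕ, c k * ((k : ℂ) * z ^ (k - 1))‖ * (1 - r))) := by
      refine Tendsto.mul_const _ (Tendsto.norm ?_)
      exact hs'.tendsto_sum_nat.comp (tendsto_pow_atTop_atTop_of_one_lt (by norm_num))
    have h1 := le_of_tendsto hlim (Eventually.of_forall hbound)
    rw [norm_mul, ← hrdef] at h1
    have h2 : ‖∑' k : ℕ, c k * ((k : ℂ) * z ^ (k - 1))‖ * (1 - r) ≤ 4 * B := by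
      have : r * (‖∑' k : ℕ, c k * ((k : ℂ) * z ^ (k - 1))‖ * (1 - r)) ≤ r * (4 * B) := by
        linarith
      exact le_of_mul_le_mul_left this hr
    have h3 : (1 - r ^ 2) * ‖∑' k : ℕ, c k * ((k : ℂ) * z ^ (k - 1))‖ =
        (1 + r) * (‖∑' k : ℕ, c k * ((k : ℂ) * z ^ (k - 1))‖ * (1 - r)) := by ring
    rw [h3]
    calc _ ≤ (1 + r) * (4 * B) := by gcongr
      _ ≤ 8 * B := by nlinarith

end Pool.Agent.P8H68.RB
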