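import Pool.Agent.P8H68.RB.Stm
import Pool.Agent.P8H68.RB.Basic

/-!
# Package CT: contraction principle for Steinhaus sums
-/

set_option autoImplicit false

open MeasureTheory ProbabilityTheory Set Filter Topology
open scoped ENNReal NNReal

namespace Pool.Agent.P8H68.RB

namespace CTaux

/-- a number in the unit disc is the average of two unimodular numbers -/
lemma avg (l : ℂ) (hl : ‖l‖ ≤ 1) : ∃ z z' : ℂ, ‖z‖ = 1 ∧ ‖z'‖ = 1 ∧ l = (z + z') / 2 := by
  obtain ⟨e, he, hle⟩ : ∃ e : ℂ, ‖e‖ = 1 ∧ l = (‖l‖ : ℂ) * e := by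
    by_cases h : l = 0
    · exact ⟨1, norm_one, by rw [h]; simp⟩
    · have h0 : (‖l‖ : ℂ) ≠ 0 := by rw [Complex.ofReal_ne_zero]; exact norm_ne_zero_iff.2 h
      refine ⟨l / ‖l‖, ?_, by field_simp⟩
      rw [norm_div, Complex.norm_real, norm_norm, div_self (norm_ne_zero_iff.2 h)]
  have hr : 0 ≤ 1 - ‖l‖ ^ 2 := by nlinarith [norm_nonneg l]
  have hn : ∀ x y : ℝ, x ^ 2 + y ^ 2 = 1 → ‖(x : ℂ) + y * Complex.I‖ = 1 := by
    intro x y h
    have h1 : ‖(x : ℂ) + y * Complex.I‖ ^ 2 = 1 := by
      rw [← Complex.normSq_eq_norm_sq, Complex.normSq_add_mul_I, h]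
    exact (pow_eq_one_iff_of_nonneg (norm_nonneg _) two_ne_zero).1 h1
  refine ⟨e * ((‖l‖ : ℂ) + (√(1 - ‖l‖ ^ 2) : ℝ) * Complex.I), e * ((‖l‖ : ℂ) + ((-√(1 - ‖l‖ ^ 2) : ℝ) : ℂ) * Complex.I),
    ?_, ?_, ?_⟩
  · rw [norm_mul, he, one_mul]
    exact hn _ _ (by rw [Real.sq_sqrt hr]; ring)
  · rw [norm_mul, he, one_mul]
    exact hn _ _ (by rw [neg_sq, Real.sq_sqrt hr]; ring)
  · push_cast
    calc l = (‖l‖ : ℂ) * e := hle
      _ = _ := by ring

end CTaux

open CTaux

/-- package CT -/
theorem part_CT (hROT : S_ROT) : S_CT := by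
  intro Ω _ P _ ξ hξ K w l D hl
  set F : (ℕ → ℂ) → ℝ≥0∞ := fun l =>
    ∫⁻ ω, (⨆ t ∈ D, ENNReal.ofReal ‖∑ k ∈ Finset.range K, l k * w k * ξ k ω * ex k t‖) ∂P with hF
  set R : ℝ≥0∞ := ∫⁻ ω, (⨆ t ∈ D, ENNReal.ofReal ‖∑ k ∈ Finset.range K, w k * ξ k ω * ex k t‖) ∂P with hR
  have hmeas : ∀ l : ℕ → ℂ, Measurable fun ω =>
      (⨆ t ∈ D, ENNReal.ofReal ‖∑ k ∈ Finset.range K, l k * w k * ξ k ω * ex k t‖) := by
    intro l
    refine Measurable.biSup (D : Set ℝ) D.countable_toSet fun t _ => ?_
    refine (Measurable.norm ?_).ennreal_ofReal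
    exact Finset.measurable_fun_sum _ fun k _ => ((hξ.meas k).const_mul _).mul_const _
  have key : ∀ n : ℕ, ∀ l : ℕ → ℂ, (∀ k, ‖l k‖ ≤ 1) → (∀ k, n ≤ k → ‖l k‖ = 1) → F l ≤ R := by
    intro n
    induction n with
    | zero =>
      intro l _ hl1
      have hlaw := (hROT Ω P ξ hξ l fun k => hl1 k (Nat.zero_le k)).2
      set G : (ℕ → ℂ) → ℝ≥0∞ := fun z =>
        (⨆ t ∈ D, ENNReal.ofReal ‖∑ k ∈ Finset.range K, w k * z k * ex k t‖) with hG
      have hGm : Measurable G := by
        refine Measurable.biSup (D : Set ℝ) D.countable_toSet fun t _ => ?_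
        refine (Measurable.norm ?_).ennreal_ofReal
        exact Finset.measurable_fun_sum _ fun k _ => ((measurable_pi_apply k).const_mul _).mul_const _
      have h1 : F l = ∫⁻ z, G z ∂(P.map fun ω (k : ℕ) => l k * ξ k ω) := by
        rw [lintegral_map hGm (measurable_pi_lambda _ fun k => (hξ.meas k).const_mul _)]
        refine lintegral_congr fun ω => ?_
        simp only [hG]
        congr 1
        funext t
        congr 1
        funext _
        congr 2
        exact Finset.sum_congr rfl fun k _ => by ring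
      have h2 : R = ∫⁻ z, G z ∂(P.map fun ω (k : ℕ) => ξ k ω) := by
        rw [lintegral_map hGm (measurable_pi_lambda _ fun k => hξ.meas k)]
      rw [h1, h2, hlaw]
    | succ n ih =>
      intro l hl hl1
      obtain ⟨z, z', hz, hz', hzz⟩ := avg (l n) (hl n)
      have hu : ∀ y : ℂ, ‖y‖ = 1 → F (Function.update l n y) ≤ R := by
        intro y hy
        refine ih _ ?_ ?_
        · intro k
          by_cases hk : k = n
          · subst hk; rw [Function.update_self, hy]
          · rw [Function.update_of_ne hk]; exact hl k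
        · intro k hk
          by_cases hk' : k = n
          · subst hk'; rw [Function.update_self, hy]
          · rw [Function.update_of_ne hk']; exact hl1 k (by omega)
      have hsplit : ∀ (ω : Ω) (t : ℝ), ∑ k ∈ Finset.range K, l k * w k * ξ k ω * ex k t =
          (1 / 2 : ℂ) * ∑ k ∈ Finset.range K, Function.update l n z k * w k * ξ k ω * ex k t +
          (1 / 2 : ℂ) * ∑ k ∈ Finset.range K, Function.update l n z' k * w k * ξ k ω * ex k t := by
        intro ω t
        rw [Finset.mul_sum, Finset.mul_sum, ← Finset.sum_add_distrib]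
        refine Finset.sum_congr rfl fun k _ => ?_
        by_cases hk : k = n
        · subst hk
          rw [Function.update_self, Function.update_self]
          rw [hzz]
          ring
        · rw [Function.update_of_ne hk, Function.update_of_ne hk]
          ring
      have hhalf : ENNReal.ofReal (1 / 2) + ENNReal.ofReal (1 / 2) = 1 := by
        rw [← ENNReal.ofReal_add (by norm_num) (by norm_num)]; norm_num
      calc F l ≤ ∫⁻ ω, (ENNReal.ofReal (1 / 2) * (⨆ t ∈ D, ENNReal.ofReal
              ‖∑ k ∈ Finset.range K, Function.update l n z k * w k * ξ k ω * ex k t‖) +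
            ENNReal.ofReal (1 / 2) * (⨆ t ∈ D, ENNReal.ofReal
              ‖∑ k ∈ Finset.range K, Function.update l n z' k * w k * ξ k ω * ex k t‖)) ∂P := by
            refine lintegral_mono fun ω => ?_
            refine iSup₂_le fun t ht => ?_
            rw [hsplit]
            refine (ENNReal.ofReal_le_ofReal (norm_add_le _ _)).trans ?_
            rw [ENNReal.ofReal_add (norm_nonneg _) (norm_nonneg _), norm_mul, norm_mul,
              ENNReal.ofReal_mul (norm_nonneg _), ENNReal.ofReal_mul (norm_nonneg _)]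
            have h2 : ‖(1 / 2 : ℂ)‖ = 1 / 2 := by norm_num
            rw [h2]
            exact add_le_add
              (mul_le_mul_right (le_iSup₂ (f := fun t (_ : t ∈ D) => ENNReal.ofReal
                ‖∑ k ∈ Finset.range K, Function.update l n z k * w k * ξ k ω * ex k t‖) t ht) _)
              (mul_le_mul_right (le_iSup₂ (f := fun t (_ : t ∈ D) => ENNReal.ofReal
                ‖∑ k ∈ Finset.range K, Function.update l n z' k * w k * ξ k ω * ex k t‖) t ht) _)
        _ = ENNReal.ofReal (1 / 2) * F (Function.update l n z) + ENNReal.ofReal (1 / 2) * F (Function.update l n z') := by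
            rw [lintegral_add_left ((hmeas _).const_mul _), lintegral_const_mul' _ _ ENNReal.ofReal_ne_top,
              lintegral_const_mul' _ _ ENNReal.ofReal_ne_top]
        _ ≤ ENNReal.ofReal (1 / 2) * R + ENNReal.ofReal (1 / 2) * R :=
            add_le_add (mul_le_mul_right (hu z hz) _) (mul_le_mul_right (hu z' hz') _)
        _ = R := by rw [← add_mul, hhalf, one_mul]
  have h1 := key K (fun k => if k < K then l k else 1) (by
      intro k
      split_ifs
      · exact hl k
      · rw [norm_one]) (by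
      intro k hk
      rw [if_neg (by omega), norm_one])
  refine le_trans (le_of_eq ?_) h1
  simp only [hF]
  refine lintegral_congr fun ω => ?_
  congr 1
  funext t
  congr 1
  funext _
  congr 2
  refine Finset.sum_congr rfl fun k hk => ?_
  rw [if_pos (Finset.mem_range.1 hk)]

end Pool.Agent.P8H68.RB
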