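import Mathlib

/-!
# Project RB, package D: the maximal inequality for dyadic block sums with random signs
-/

set_option autoImplicit false

open Finset

namespace Pool.Agent.P8H68.RB.DD

/-- sums of pairs of neighbours -/
def Tt (y : ℕ → ℝ) (m : ℕ) : ℝ := y (2 * m) + y (2 * m + 1)

/-- the indicator of `m ≠ 0` -/
def f0 (m : ℕ) : ℝ := if m = 0 then 0 else 1

/-- the sum of the squares without the first term -/
def Q (K : ℕ) (y : ℕ → ℝ) : ℝ := ∑ m ∈ range K, f0 m * y m ^ 2

/-- vanishing from `K` on -/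
def Vn (K : ℕ) (y : ℕ → ℝ) : Prop := ∀ k, K ≤ k → y k = 0

/-- signs -/
noncomputable def sg {K : ℕ} (s : Fin K → ℤˣ) (k : ℕ) : ℝ :=
  if h : k < K then (((s ⟨k, h⟩ : ℤˣ) : ℤ) : ℝ) else 1

theorem f0_nonneg (m : ℕ) : 0 ≤ f0 m := by unfold f0; split_ifs <;> norm_num
theorem f0_le (m : ℕ) : f0 m ≤ 1 := by unfold f0; split_ifs <;> norm_num
theorem f0_half (m : ℕ) : f0 (m / 2) ≤ f0 m := by
  unfold f0
  by_cases h : m = 0
  · subst h; simp
  · rw [if_neg h]; split_ifs <;> norm_num

theorem Q_nonneg (K : ℕ) (y : ℕ → ℝ) : 0 ≤ Q K y :=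
  sum_nonneg fun m _ => mul_nonneg (f0_nonneg m) (sq_nonneg _)

theorem Vn_Tt {K : ℕ} {y : ℕ → ℝ} (h : Vn K y) : Vn K (Tt y) := fun k hk => by
  unfold Tt
  rw [h _ (by omega), h _ (by omega), add_zero]

theorem Vn_sg {K : ℕ} {y : ℕ → ℝ} (h : Vn K y) (s : Fin K → ℤˣ) :
    Vn K (fun k => sg s k * y k) := fun k hk => by
  simp only
  rw [h k hk, mul_zero]

theorem sum_pairs (K : ℕ) (F : ℕ → ℝ) :
    ∑ i ∈ range (2 * K), F i = ∑ m ∈ range K, (F (2 * m) + F (2 * m + 1)) := by
  induction K with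
  | zero => simp
  | succ K ih =>
    rw [show 2 * (K + 1) = 2 * K + 1 + 1 by ring, sum_range_succ, sum_range_succ, ih,
      sum_range_succ, add_assoc]

theorem sum_pairs' {K : ℕ} {F : ℕ → ℝ} (h : ∀ k, K ≤ k → F k = 0) :
    ∑ i ∈ range K, F i = ∑ m ∈ range K, (F (2 * m) + F (2 * m + 1)) := by
  rw [← sum_pairs]
  refine sum_subset (range_subset_range.mpr (by omega)) fun i _ hi => h i ?_
  simpa using hi

/-- step weights as weights of block sums -/
theorem sum_step {K : ℕ} (u : ℕ → ℝ) (n : ℕ) : ∀ {y : ℕ → ℝ}, Vn K y →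
    ∑ i ∈ range K, u (i / 2 ^ n) * y i = ∑ m ∈ range K, u m * (Tt^[n] y) m := by
  induction n with
  | zero => intro y _; simp
  | succ n ih =>
    intro y hy
    rw [Function.iterate_succ_apply, ← ih (Vn_Tt hy)]
    rw [sum_pairs' (F := fun i => u (i / 2 ^ (n + 1)) * y i)
      (fun k hk => by rw [hy k hk, mul_zero])]
    refine sum_congr rfl fun m _ => ?_
    have e1 : 2 * m / 2 ^ (n + 1) = m / 2 ^ n := by
      rw [pow_succ', ← Nat.div_div_eq_div_mul]
      congr 1
      omega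
    have e2 : (2 * m + 1) / 2 ^ (n + 1) = m / 2 ^ n := by
      rw [pow_succ', ← Nat.div_div_eq_div_mul]
      congr 1
      omega
    rw [e1, e2]
    unfold Tt
    ring

theorem sg_sq {K : ℕ} (s : Fin K → ℤˣ) (k : ℕ) : sg s k ^ 2 = 1 := by
  unfold sg
  split_ifs with h
  · rcases Int.units_eq_one_or (s ⟨k, h⟩) with h1 | h1 <;> rw [h1] <;> norm_num
  · norm_num

theorem sg_mul {K : ℕ} (s t : Fin K → ℤˣ) (k : ℕ) : sg (s * t) k = sg s k * sg t k := by
  unfold sg
  split_ifs with h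
  · simp
  · norm_num

/-- doubling of signs -/
def dbl {K : ℕ} (s : Fin K → ℤˣ) : Fin K → ℤˣ := fun k => s ⟨k / 2, by omega⟩

theorem sg_dbl {K : ℕ} (s : Fin K → ℤˣ) {k : ℕ} (h : k < K) : sg (dbl s) k = sg s (k / 2) := by
  unfold sg dbl
  rw [dif_pos h, dif_pos (by omega)]

theorem Q_sg {K : ℕ} (s : Fin K → ℤˣ) (y : ℕ → ℝ) : Q K (fun k => sg s k * y k) = Q K y := by
  unfold Q
  refine sum_congr rfl fun m _ => ?_
  simp only
  rw [mul_pow, sg_sq, one_mul]

theorem Tt_dbl {K : ℕ} (s t : Fin K → ℤˣ) {y : ℕ → ℝ} (h : Vn K y) :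
    Tt (fun k => sg (dbl s * t) k * y k) = fun m => sg s m * Tt (fun k => sg t k * y k) m := by
  funext m
  have key : ∀ k, k / 2 = m → sg (dbl s * t) k * y k = sg s m * (sg t k * y k) := by
    intro k hk
    by_cases h1 : k < K
    · rw [sg_mul, sg_dbl s h1, hk]; ring
    · rw [h k (by omega)]; ring
  unfold Tt
  simp only
  rw [key (2 * m) (by omega), key (2 * m + 1) (by omega)]
  ring

/-- two different signs are orthogonal -/
theorem sum_sg_mul {K : ℕ} {k l : ℕ} (hl : l < K) (hkl : k ≠ l) :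
    ∑ s : Fin K → ℤˣ, sg s k * sg s l = 0 := by
  set e : Fin K → ℤˣ := Function.update 1 ⟨l, hl⟩ (-1) with he
  have h1 : ∑ s : Fin K → ℤˣ, sg s k * sg s l = ∑ s : Fin K → ℤˣ, sg (e * s) k * sg (e * s) l :=
    (Fintype.sum_equiv (Equiv.mulLeft e) _ _ fun s => rfl).symm
  have h2 : sg e k = 1 := by
    unfold sg
    split_ifs with h
    · rw [he, Function.update_of_ne]
      · simp
      · intro h3; exact hkl (Fin.mk.inj_iff.mp h3)
    · rfl
  have h3 : sg e l = -1 := by
    unfold sg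
    rw [dif_pos hl, he, Function.update_self]
    simp
  have h4 : ∀ s : Fin K → ℤˣ, sg (e * s) k * sg (e * s) l = - (sg s k * sg s l) := by
    intro s
    rw [sg_mul, sg_mul, h2, h3]; ring
  rw [sum_congr rfl fun s _ => h4 s, sum_neg_distrib] at h1
  linarith

/-- the mean of `Q (T (s y))` -/
theorem sum_Q {K : ℕ} {y : ℕ → ℝ} (hy : Vn K y) :
    ∑ s : Fin K → ℤˣ, Q K (Tt (fun k => sg s k * y k)) ≤
      (Fintype.card (Fin K → ℤˣ) : ℝ) * Q K y := by
  unfold Q
  rw [sum_comm]
  have h1 : ∀ m ∈ range K, ∑ s : Fin K → ℤˣ, f0 m * Tt (fun k => sg s k * y k) m ^ 2 =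
      (Fintype.card (Fin K → ℤˣ) : ℝ) * (f0 m * (y (2 * m) ^ 2 + y (2 * m + 1) ^ 2)) := by
    intro m _
    have h2 : ∀ s : Fin K → ℤˣ, f0 m * Tt (fun k => sg s k * y k) m ^ 2 =
        f0 m * (y (2 * m) ^ 2 + y (2 * m + 1) ^ 2) +
          2 * f0 m * (y (2 * m) * y (2 * m + 1)) * (sg s (2 * m) * sg s (2 * m + 1)) := by
      intro s
      unfold Tt
      have a1 := sg_sq s (2 * m)
      have a2 := sg_sq s (2 * m + 1)
      calc _ = f0 m * (sg s (2 * m) ^ 2 * y (2 * m) ^ 2 +
            sg s (2 * m + 1) ^ 2 * y (2 * m + 1) ^ 2) +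
          2 * f0 m * (y (2 * m) * y (2 * m + 1)) * (sg s (2 * m) * sg s (2 * m + 1)) := by ring
        _ = _ := by rw [a1, a2]; ring
    rw [sum_congr rfl fun s _ => h2 s, sum_add_distrib, sum_const, card_univ,
      nsmul_eq_mul, ← mul_sum]
    by_cases h3 : 2 * m + 1 < K
    · rw [sum_sg_mul h3 (by omega)]; ring
    · rw [hy (2 * m + 1) (by omega)]; ring
  rw [sum_congr rfl h1, ← mul_sum]
  refine mul_le_mul_of_nonneg_left ?_ (by positivity)
  have h4 : ∑ m ∈ range K, f0 m * (y (2 * m) ^ 2 + y (2 * m + 1) ^ 2) =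
      ∑ i ∈ range K, f0 (i / 2) * y i ^ 2 := by
    rw [sum_pairs' (F := fun i => f0 (i / 2) * y i ^ 2)
      (fun k hk => by rw [hy k hk]; ring)]
    refine sum_congr rfl fun m _ => ?_
    rw [show 2 * m / 2 = m by omega, show (2 * m + 1) / 2 = m by omega]
    ring
  rw [h4]
  exact sum_le_sum fun i _ => mul_le_mul_of_nonneg_right (f0_half i) (sq_nonneg _)

open Classical in
/-- indicator of a proposition -/
noncomputable def ind (P : Prop) : ℝ := if P then 1 else 0

theorem ind_le (P : Prop) : ind P ≤ 1 := by unfold ind; split_ifs <;> norm_num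
theorem ind_nonneg (P : Prop) : 0 ≤ ind P := by unfold ind; split_ifs <;> norm_num
theorem ind_false {P : Prop} (h : ¬ P) : ind P = 0 := by unfold ind; rw [if_neg h]
theorem ind_true {P : Prop} (h : P) : ind P = 1 := by unfold ind; rw [if_pos h]

/-- the maximal inequality -/
theorem maximal {K : ℕ} {l : ℝ} (hl : 0 < l) (N : ℕ) : ∀ {y : ℕ → ℝ}, Vn K y →
    ∑ s : Fin K → ℤˣ, ind (∃ n ≤ N, l < Q K (Tt^[n] (fun k => sg s k * y k))) ≤
      (Fintype.card (Fin K → ℤˣ) : ℝ) * (Q K y / l) := by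
  induction N with
  | zero =>
    intro y hy
    by_cases h : l < Q K y
    · have h1 : (1:ℝ) ≤ Q K y / l := by rw [le_div_iff₀ hl]; linarith
      calc _ ≤ ∑ s : Fin K → ℤˣ, (1:ℝ) := sum_le_sum fun s _ => ind_le _
        _ = (Fintype.card (Fin K → ℤˣ) : ℝ) * 1 := by
          rw [sum_const, card_univ, nsmul_eq_mul]
        _ ≤ _ := mul_le_mul_of_nonneg_left h1 (by positivity)
    · have h2 : ∀ s : Fin K → ℤˣ,
          ind (∃ n ≤ 0, l < Q K (Tt^[n] (fun k => sg s k * y k))) = 0 := by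
        intro s
        apply ind_false
        rintro ⟨n, hn, h3⟩
        obtain rfl : n = 0 := by omega
        rw [Function.iterate_zero_apply, Q_sg] at h3
        exact h h3
      rw [sum_congr rfl fun s _ => h2 s, sum_const_zero]
      have := Q_nonneg K y
      positivity
  | succ N ih =>
    intro y hy
    by_cases h : l < Q K y
    · have h1 : (1:ℝ) ≤ Q K y / l := by rw [le_div_iff₀ hl]; linarith
      calc _ ≤ ∑ s : Fin K → ℤˣ, (1:ℝ) := sum_le_sum fun s _ => ind_le _
        _ = (Fintype.card (Fin K → ℤˣ) : ℝ) * 1 := by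
          rw [sum_const, card_univ, nsmul_eq_mul]
        _ ≤ _ := mul_le_mul_of_nonneg_left h1 (by positivity)
    · have h2 : ∀ s : Fin K → ℤˣ,
          ind (∃ n ≤ N + 1, l < Q K (Tt^[n] (fun k => sg s k * y k))) =
          ind (∃ n ≤ N, l < Q K (Tt^[n] (Tt (fun k => sg s k * y k)))) := by
        intro s
        congr 1
        apply propext
        constructor
        · rintro ⟨n, hn, h3⟩
          rcases n with _ | n
          · rw [Function.iterate_zero_apply, Q_sg] at h3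
            exact absurd h3 h
          · refine ⟨n, by omega, ?_⟩
            rw [Function.iterate_succ_apply] at h3
            exact h3
        · rintro ⟨n, hn, h3⟩
          refine ⟨n + 1, by omega, ?_⟩
          rw [Function.iterate_succ_apply]
          exact h3
      rw [sum_congr rfl fun s _ => h2 s]
      set F : (Fin K → ℤˣ) → ℝ := fun s =>
        ind (∃ n ≤ N, l < Q K (Tt^[n] (Tt (fun k => sg s k * y k)))) with hF
      have hc : (0:ℝ) < Fintype.card (Fin K → ℤˣ) := by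
        exact_mod_cast Fintype.card_pos
      have h3 : (Fintype.card (Fin K → ℤˣ) : ℝ) * ∑ s, F s =
          ∑ s : Fin K → ℤˣ, ∑ t : Fin K → ℤˣ, F (dbl t * s) := by
        rw [sum_comm]
        have h4 : ∀ t : Fin K → ℤˣ, ∑ s : Fin K → ℤˣ, F (dbl t * s) = ∑ s, F s := fun t =>
          Fintype.sum_equiv (Equiv.mulLeft (dbl t)) _ _ fun s => rfl
        rw [sum_congr rfl fun t _ => h4 t, sum_const, card_univ, nsmul_eq_mul]
      have h5 : ∀ s : Fin K → ℤˣ, ∑ t : Fin K → ℤˣ, F (dbl t * s) ≤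
          (Fintype.card (Fin K → ℤˣ) : ℝ) * (Q K (Tt (fun k => sg s k * y k)) / l) := by
        intro s
        have h6 := ih (Vn_Tt (Vn_sg hy s))
        refine le_trans (le_of_eq ?_) h6
        refine sum_congr rfl fun t _ => ?_
        rw [hF]
        simp only
        rw [Tt_dbl t s hy]
      have h7 : (Fintype.card (Fin K → ℤˣ) : ℝ) * ∑ s, F s ≤
          (Fintype.card (Fin K → ℤˣ) : ℝ) *
            ((Fintype.card (Fin K → ℤˣ) : ℝ) * (Q K y / l)) := by
        rw [h3]
        refine (sum_le_sum fun s _ => h5 s).trans ?_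
        rw [← mul_sum]
        refine mul_le_mul_of_nonneg_left ?_ hc.le
        rw [← sum_div, ← mul_div_assoc]
        exact div_le_div_of_nonneg_right (sum_Q hy) hl.le
      exact le_of_mul_le_mul_left h7 hc

end Pool.Agent.P8H68.RB.DD
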