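import Pool.Agent.W782.CTCONC
import Pool.Agent.W782.CTLOWC
import Pool.Agent.P8H68.RB.Stm
import Pool.Agent.P8H68.RB.PD1

/-!
# Project RB, package D: expected supremum of the step weights
-/

set_option autoImplicit false

open MeasureTheory ProbabilityTheory Set Filter Topology
open scoped ENNReal
open Pool.Agent.W823.CT

namespace Pool.Agent.P8H68.RB.DD

instance gamP (ι : Type) [Fintype ι] : IsProbabilityMeasure (gam ι) := by
  unfold gam; infer_instance

/-- the vector `a_k g_k` -/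
noncomputable def Y {K : ℕ} (a : ℕ → ℝ) (g : Fin K → ℝ) (k : ℕ) : ℝ :=
  if h : k < K then a k * g ⟨k, h⟩ else 0

theorem Vn_Y {K : ℕ} (a : ℕ → ℝ) (g : Fin K → ℝ) : Vn K (Y a g) := fun k hk => by
  unfold Y; rw [dif_neg (by omega)]

/-- the sign change -/
noncomputable def fl {K : ℕ} (s : Fin K → ℤˣ) (g : Fin K → ℝ) : Fin K → ℝ :=
  fun i => ((s i : ℤ) : ℝ) * g i

theorem Y_fl {K : ℕ} (a : ℕ → ℝ) (s : Fin K → ℤˣ) (g : Fin K → ℝ) :
    Y a (fl s g) = fun k => sg s k * Y a g k := by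
  funext k
  unfold Y sg fl
  split_ifs with h
  · ring
  · ring

theorem dotp_Y {K : ℕ} (u : ℕ → ℝ) (n : ℕ) (a : ℕ → ℝ) (g : Fin K → ℝ) :
    dotp (fun i : Fin K => u ((i : ℕ) / 2 ^ n) * a (i : ℕ)) g =
      ∑ m ∈ Finset.range K, u m * (Tt^[n] (Y a g)) m := by
  rw [← sum_step u n (Vn_Y a g), Finset.sum_range]
  unfold dotp
  refine Finset.sum_congr rfl fun i _ => ?_
  unfold Y
  rw [dif_pos i.2]
  ring

theorem dotp_le_Q {K : ℕ} (u : ℕ → ℝ) (n : ℕ) (a : ℕ → ℝ) (g : Fin K → ℝ) (hu0 : u 0 = 0)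
    (hu : ∑ m ∈ Finset.range K, u m ^ 2 ≤ 1) {l : ℝ} (hl : 0 ≤ l)
    (hQ : Q K (Tt^[n] (Y a g)) ≤ l ^ 2) :
    dotp (fun i : Fin K => u ((i : ℕ) / 2 ^ n) * a (i : ℕ)) g ≤ l := by
  rw [dotp_Y]
  have h1 : ∑ m ∈ Finset.range K, u m * (Tt^[n] (Y a g)) m =
      ∑ m ∈ Finset.range K, u m * (f0 m * (Tt^[n] (Y a g)) m) := by
    refine Finset.sum_congr rfl fun m _ => ?_
    unfold f0
    split_ifs with h
    · rw [h, hu0]; ring
    · ring
  rw [h1]
  refine (Real.sum_mul_le_sqrt_mul_sqrt _ _ _).trans ?_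
  have h2 : ∑ m ∈ Finset.range K, (f0 m * (Tt^[n] (Y a g)) m) ^ 2 = Q K (Tt^[n] (Y a g)) := by
    unfold Q
    refine Finset.sum_congr rfl fun m _ => ?_
    unfold f0
    split_ifs <;> ring
  rw [h2]
  have h3 : √(∑ m ∈ Finset.range K, u m ^ 2) ≤ 1 := by
    rw [Real.sqrt_le_left (by norm_num)]; simpa using hu
  have h4 : √(Q K (Tt^[n] (Y a g))) ≤ l := by
    rw [Real.sqrt_le_left hl]; exact hQ
  calc _ ≤ 1 * l := mul_le_mul h3 h4 (Real.sqrt_nonneg _) zero_le_one
    _ = l := one_mul l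

theorem cont_T {K : ℕ} (a : ℕ → ℝ) (n : ℕ) : ∀ m : ℕ,
    Continuous fun g : Fin K → ℝ => (Tt^[n] (Y a g)) m := by
  induction n with
  | zero =>
    intro m
    simp only [Function.iterate_zero_apply]
    unfold Y
    by_cases h : m < K
    · simp only [dif_pos h]; fun_prop
    · simp only [dif_neg h]; fun_prop
  | succ n ih =>
    intro m
    simp only [Function.iterate_succ_apply']
    unfold Tt
    exact (ih (2 * m)).add (ih (2 * m + 1))

theorem cont_Q {K : ℕ} (a : ℕ → ℝ) (n : ℕ) :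
    Continuous fun g : Fin K → ℝ => Q K (Tt^[n] (Y a g)) := by
  unfold Q
  exact continuous_finsetSum _ fun m _ => continuous_const.mul ((cont_T a n m).pow 2)

/-- the exceptional set -/
def Ex {K : ℕ} (a : ℕ → ℝ) (N : ℕ) (l : ℝ) : Set (Fin K → ℝ) :=
  {g | ∃ n ≤ N, l < Q K (Tt^[n] (Y a g))}

theorem Ex_meas {K : ℕ} (a : ℕ → ℝ) (N : ℕ) (l : ℝ) : MeasurableSet (Ex (K := K) a N l) := by
  have : Ex (K := K) a N l = ⋃ n ∈ Finset.range (N + 1),
      {g : Fin K → ℝ | l < Q K (Tt^[n] (Y a g))} := by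
    ext g
    simp only [Ex, Set.mem_ofPred_eq, mem_iUnion, Finset.mem_range, exists_prop]
    constructor
    · rintro ⟨n, hn, h⟩; exact ⟨n, by omega, h⟩
    · rintro ⟨n, hn, h⟩; exact ⟨n, by omega, h⟩
  rw [this]
  refine Finset.measurableSet_biUnion _ fun n _ => ?_
  exact measurableSet_lt measurable_const (cont_Q a n).measurable

theorem fl_mp {K : ℕ} (s : Fin K → ℤˣ) :
    MeasurePreserving (fl s) (gam (Fin K)) (gam (Fin K)) := by
  unfold gam fl
  refine measurePreserving_pi (fun _ : Fin K => gaussianReal 0 1)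
    (fun _ : Fin K => gaussianReal 0 1) (f := fun i x => ((s i : ℤ) : ℝ) * x) fun i => ?_
  refine ⟨by fun_prop, ?_⟩
  rw [gaussianReal_map_const_mul]
  congr 1
  · ring
  · ext
    rcases Int.units_eq_one_or (s i) with h1 | h1 <;> rw [h1] <;> norm_num

theorem int_sq {K : ℕ} (i : Fin K) : ∫⁻ g, ENNReal.ofReal (g i ^ 2) ∂(gam (Fin K)) = 1 := by
  have h0 : ∫ x, x ^ 2 ∂(gaussianReal 0 1) = 1 := by
    have h := variance_fun_id_gaussianReal (μ := 0) (v := 1)
    rw [variance_eq_integral (by fun_prop)] at h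
    simpa using h
  have h1 : ∫⁻ x, ENNReal.ofReal (x ^ 2) ∂(gaussianReal 0 1) = 1 := by
    have h3 : Integrable (fun x : ℝ => x ^ 2) (gaussianReal 0 1) :=
      (memLp_id_gaussianReal' (μ := 0) (v := 1) 2 (by simp)).integrable_sq
    rw [← ofReal_integral_eq_lintegral_ofReal h3
      (Filter.Eventually.of_forall fun x => sq_nonneg _), h0, ENNReal.ofReal_one]
  have h2 : MeasurePreserving (fun g : Fin K → ℝ => g i) (gam (Fin K)) (gaussianReal 0 1) :=
    measurePreserving_eval _ i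
  rw [← h1, ← h2.lintegral_comp (f := fun x => ENNReal.ofReal (x ^ 2)) (by fun_prop)]

theorem lint_Q {K : ℕ} (a : ℕ → ℝ) :
    ∫⁻ g, ENNReal.ofReal (Q K (Y a g)) ∂(gam (Fin K)) ≤
      ENNReal.ofReal (∑ k ∈ Finset.range K, a k ^ 2) := by
  have h1 : ∀ g : Fin K → ℝ, ENNReal.ofReal (Q K (Y a g)) ≤
      ∑ i : Fin K, ENNReal.ofReal (a i ^ 2) * ENNReal.ofReal (g i ^ 2) := by
    intro g
    have h2 : Q K (Y a g) ≤ ∑ i : Fin K, a i ^ 2 * g i ^ 2 := by
      unfold Q
      rw [Finset.sum_range]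
      refine Finset.sum_le_sum fun i _ => ?_
      unfold Y
      rw [dif_pos i.2]
      have := f0_le (i : ℕ)
      have h3 : 0 ≤ a i ^ 2 * g i ^ 2 := by positivity
      calc f0 i * (a i * g ⟨i, i.2⟩) ^ 2 = f0 i * (a i ^ 2 * g i ^ 2) := by
            rw [mul_pow]
        _ ≤ 1 * (a i ^ 2 * g i ^ 2) := mul_le_mul_of_nonneg_right this h3
        _ = _ := one_mul _
    refine (ENNReal.ofReal_le_ofReal h2).trans (le_of_eq ?_)
    rw [ENNReal.ofReal_sum_of_nonneg fun i _ => by positivity]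
    exact Finset.sum_congr rfl fun i _ => ENNReal.ofReal_mul (sq_nonneg _)
  refine (lintegral_mono h1).trans ?_
  rw [lintegral_finsetSum _ (fun i _ => by fun_prop)]
  rw [Finset.sum_congr rfl fun i _ => lintegral_const_mul _ (by fun_prop)]
  rw [Finset.sum_congr rfl fun i _ => by rw [int_sq, mul_one]]
  rw [← ENNReal.ofReal_sum_of_nonneg fun i _ => by positivity, Finset.sum_range]

theorem Ex_le {K : ℕ} (a : ℕ → ℝ) (N : ℕ) {l : ℝ} (hl : 0 < l) :
    gam (Fin K) (Ex a N l) ≤ ENNReal.ofReal ((∑ k ∈ Finset.range K, a k ^ 2) / l) := by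
  set c : ℕ := Fintype.card (Fin K → ℤˣ) with hc
  have hcp : 0 < c := Fintype.card_pos
  have hcr : (0:ℝ) < c := by exact_mod_cast hcp
  have h1 : (c : ℝ≥0∞) * gam (Fin K) (Ex a N l) =
      ∑ s : Fin K → ℤˣ, ∫⁻ g, ENNReal.ofReal
        (ind (∃ n ≤ N, l < Q K (Tt^[n] (fun k => sg s k * Y a g k)))) ∂(gam (Fin K)) := by
    have h2 : ∀ s : Fin K → ℤˣ, ∫⁻ g, ENNReal.ofReal
        (ind (∃ n ≤ N, l < Q K (Tt^[n] (fun k => sg s k * Y a g k)))) ∂(gam (Fin K)) =
        gam (Fin K) (Ex a N l) := by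
      intro s
      rw [← (fl_mp s).measure_preimage (Ex_meas a N l).nullMeasurableSet,
        ← lintegral_indicator_one ((fl_mp s).measurable (Ex_meas a N l))]
      refine lintegral_congr fun g => ?_
      by_cases h3 : g ∈ fl s ⁻¹' (Ex a N l)
      · rw [Set.indicator_of_mem h3]
        have h4 : ∃ n ≤ N, l < Q K (Tt^[n] (fun k => sg s k * Y a g k)) := by
          obtain ⟨n, hn, h5⟩ := h3
          rw [Y_fl] at h5
          exact ⟨n, hn, h5⟩
        rw [ind_true h4]; simp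
      · rw [Set.indicator_of_notMem h3]
        have h4 : ¬ ∃ n ≤ N, l < Q K (Tt^[n] (fun k => sg s k * Y a g k)) := by
          rintro ⟨n, hn, h5⟩
          apply h3
          refine ⟨n, hn, ?_⟩
          rw [Y_fl]
          exact h5
        rw [ind_false h4]; simp
    rw [Finset.sum_congr rfl fun s _ => h2 s, Finset.sum_const, Finset.card_univ, nsmul_eq_mul]
  have hmeas : ∀ s : Fin K → ℤˣ, Measurable fun g : Fin K → ℝ => ENNReal.ofReal
        (ind (∃ n ≤ N, l < Q K (Tt^[n] (fun k => sg s k * Y a g k)))) := by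
    intro s
    have h2 : (fun g : Fin K → ℝ => ENNReal.ofReal
        (ind (∃ n ≤ N, l < Q K (Tt^[n] (fun k => sg s k * Y a g k))))) =
        (fl s ⁻¹' (Ex a N l)).indicator 1 := by
      funext g
      by_cases h3 : g ∈ fl s ⁻¹' (Ex a N l)
      · rw [Set.indicator_of_mem h3]
        have h4 : ∃ n ≤ N, l < Q K (Tt^[n] (fun k => sg s k * Y a g k)) := by
          obtain ⟨n, hn, h5⟩ := h3
          rw [Y_fl] at h5
          exact ⟨n, hn, h5⟩
        rw [ind_true h4]; simp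
      · rw [Set.indicator_of_notMem h3]
        have h4 : ¬ ∃ n ≤ N, l < Q K (Tt^[n] (fun k => sg s k * Y a g k)) := by
          rintro ⟨n, hn, h5⟩
          apply h3
          refine ⟨n, hn, ?_⟩
          rw [Y_fl]
          exact h5
        rw [ind_false h4]; simp
    rw [h2]
    exact measurable_one.indicator ((fl_mp s).measurable (Ex_meas a N l))
  rw [← lintegral_finsetSum _ (fun s _ => hmeas s)] at h1
  have h6 : ∀ g : Fin K → ℝ, ∑ s : Fin K → ℤˣ, ENNReal.ofReal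
        (ind (∃ n ≤ N, l < Q K (Tt^[n] (fun k => sg s k * Y a g k)))) ≤
      ENNReal.ofReal (c / l) * ENNReal.ofReal (Q K (Y a g)) := by
    intro g
    rw [← ENNReal.ofReal_sum_of_nonneg fun s _ => ind_nonneg _,
      ← ENNReal.ofReal_mul (by positivity)]
    refine ENNReal.ofReal_le_ofReal ((maximal hl N (Vn_Y a g)).trans (le_of_eq ?_))
    rw [hc]; ring
  have h7 : (c : ℝ≥0∞) * gam (Fin K) (Ex a N l) ≤
      (c : ℝ≥0∞) * ENNReal.ofReal ((∑ k ∈ Finset.range K, a k ^ 2) / l) := by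
    rw [h1]
    refine (lintegral_mono h6).trans ?_
    have hmQ : Measurable fun g : Fin K → ℝ => ENNReal.ofReal (Q K (Y a g)) :=
      ENNReal.measurable_ofReal.comp (cont_Q (K := K) a 0).measurable
    rw [lintegral_const_mul _ hmQ]
    refine (mul_le_mul_right (lint_Q a) _).trans (le_of_eq ?_)
    rw [← ENNReal.ofReal_mul (by positivity), ← ENNReal.ofReal_natCast,
      ← ENNReal.ofReal_mul (by positivity)]
    congr 1
    ring
  exact (ENNReal.mul_le_mul_iff_right (by exact_mod_cast hcp.ne') (ENNReal.natCast_ne_top c)).mp h7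

theorem nrm_le {K : ℕ} (u : ℕ → ℝ) (n : ℕ) (a : ℕ → ℝ)
    (hu : ∀ M, ∑ m ∈ Finset.range M, u m ^ 2 ≤ 1) :
    nrm (fun i : Fin K => u ((i : ℕ) / 2 ^ n) * a (i : ℕ)) ≤
      √(∑ k ∈ Finset.range K, a k ^ 2) := by
  unfold nrm
  refine Real.sqrt_le_sqrt ?_
  rw [Finset.sum_range]
  refine Finset.sum_le_sum fun i _ => ?_
  rw [mul_pow]
  have h1 : u ((i : ℕ) / 2 ^ n) ^ 2 ≤ 1 := by
    refine le_trans ?_ (hu ((i : ℕ) / 2 ^ n + 1))
    exact Finset.single_le_sum (f := fun m => u m ^ 2) (fun m _ => sq_nonneg _)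
      (Finset.mem_range.mpr (Nat.lt_succ_self _))
  calc _ ≤ 1 * a i ^ 2 := mul_le_mul_of_nonneg_right h1 (sq_nonneg _)
    _ = _ := one_mul _

end Pool.Agent.P8H68.RB.DD

namespace Pool.Agent.P8H68.RB

open DD in
theorem part_D : S_D := by
  obtain ⟨K0, hK0, hlow⟩ := Pool.Agent.W782.CTLOWC.main Pool.Agent.W782.CTCONC.main'
  refine ⟨max K0 4, by positivity, fun K a τ V n u hu0 hu => ?_⟩
  set A : ℝ := √(∑ k ∈ Finset.range K, a k ^ 2) with hA
  set x : τ → Fin K → ℝ := fun v (i : Fin K) => u v ((i : ℕ) / 2 ^ n v) * a (i : ℕ) with hx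
  have hA0 : 0 ≤ A := Real.sqrt_nonneg _
  have hsum0 : 0 ≤ ∑ k ∈ Finset.range K, a k ^ 2 := Finset.sum_nonneg fun k _ => sq_nonneg _
  have hnrm : ∀ v ∈ V, nrm (x v) ≤ A := fun v hv => nrm_le (u v) (n v) a (hu v hv)
  rcases hA0.eq_or_lt with h0 | h0
  · have h1 : ∀ v ∈ V, x v = 0 := fun v hv =>
      Pool.Agent.W782.CTLOWC.zero_of_nrm (by rw [h0]; exact hnrm v hv)
    have h2 : EM V x = 0 := by
      unfold EM
      simp [Pool.Agent.W782.CTLOWC.mx_zero V x h1]
    rw [h2, ← h0, mul_zero]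
  by_contra hc
  push Not at hc
  have hEM : K0 * A ≤ EM V x := by
    refine le_trans ?_ hc.le
    exact mul_le_mul_of_nonneg_right (le_max_left _ _) hA0
  have hEM4 : 4 * A < EM V x := by
    refine lt_of_le_of_lt ?_ hc
    exact mul_le_mul_of_nonneg_right (le_max_right _ _) hA0
  have h1 := hlow (Fin K) τ V x A hA0 hnrm hEM
  have h4A : 0 < 4 * A ^ 2 := by positivity
  have h2 := Ex_le (K := K) a (V.sup n) h4A
  have hA2 : A ^ 2 = ∑ k ∈ Finset.range K, a k ^ 2 := Real.sq_sqrt hsum0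
  have h3 : (∑ k ∈ Finset.range K, a k ^ 2) / (4 * A ^ 2) = 1 / 4 := by
    rw [← hA2]; field_simp
  rw [h3] at h2
  have h4 : (Set.univ : Set (Fin K → ℝ)) ⊆
      {g | mx V x g < EM V x / 2} ∪ Ex a (V.sup n) (4 * A ^ 2) := by
    intro g _
    by_cases h5 : g ∈ Ex a (V.sup n) (4 * A ^ 2)
    · right; exact h5
    · left
      show mx V x g < EM V x / 2
      have h6 : mx V x g ≤ 2 * A := by
        unfold mx
        split_ifs with hT
        · apply Finset.sup'_le
          intro v hv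
          refine dotp_le_Q (u v) (n v) a g (hu0 v hv) (hu v hv K) (by positivity) ?_
          by_contra h7
          apply h5
          refine ⟨n v, Finset.le_sup hv, ?_⟩
          push Not at h7
          calc 4 * A ^ 2 = (2 * A) ^ 2 := by ring
            _ < _ := h7
        · positivity
      linarith
  have h8 : (1 : ℝ≥0∞) ≤ ENNReal.ofReal (1 / 4) + ENNReal.ofReal (1 / 4) := by
    calc (1 : ℝ≥0∞) = gam (Fin K) Set.univ := measure_univ.symm
      _ ≤ gam (Fin K) ({g | mx V x g < EM V x / 2} ∪ Ex a (V.sup n) (4 * A ^ 2)) :=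
          measure_mono h4
      _ ≤ _ := measure_union_le _ _
      _ ≤ _ := add_le_add h1 h2
  rw [← ENNReal.ofReal_add (by norm_num) (by norm_num), ← ENNReal.ofReal_one,
    ENNReal.ofReal_le_ofReal_iff (by norm_num)] at h8
  norm_num at h8

end Pool.Agent.P8H68.RB
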