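import Pool.Agent.W782.CTEMB
import Pool.Agent.P8H68.RB.Stm

/-!
# Lower bound for Steinhaus sums, in probability (package E; helper47)
-/

set_option autoImplicit false

open MeasureTheory ProbabilityTheory Set Filter Topology
open scoped ENNReal
open Pool.Agent.W823.CT

namespace Pool.Agent.P8H68.RB

namespace PEaux

lemma sup_le_split {τ : Type} (D : Finset τ) (y : τ → ℝ) (hy : ∀ t, 0 ≤ y t) (M l : ℝ) (hl : 0 < l) :
    (⨆ t ∈ D, ENNReal.ofReal (y t)) ≤ ENNReal.ofReal M +
      (ENNReal.ofReal l * (⨆ t ∈ D, ENNReal.ofReal (y t ^ 2)) +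
        ({_t : Unit | ∃ t ∈ D, M < y t}.indicator (fun _ => ENNReal.ofReal (1 / l)) ())) := by
  by_cases h : ∃ t ∈ D, M < y t
  · rw [Set.indicator_of_mem (by exact h)]
    refine iSup₂_le fun t ht => ?_
    have h1 : y t ≤ l * y t ^ 2 + 1 / l := by
      have h2 : 0 ≤ (l * y t - 1) ^ 2 := sq_nonneg _
      have h3 : l * y t ^ 2 + 1 / l - y t = ((l * y t - 1) ^ 2 + l * y t) / l := by
        field_simp; ring
      have h4 : 0 ≤ ((l * y t - 1) ^ 2 + l * y t) / l :=
        div_nonneg (add_nonneg h2 (mul_nonneg hl.le (hy t))) hl.le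
      linarith
    refine le_trans (ENNReal.ofReal_le_ofReal h1) ?_
    rw [ENNReal.ofReal_add (by positivity) (by positivity), ENNReal.ofReal_mul hl.le]
    refine le_trans (add_le_add_left ?_ _) le_add_self
    gcongr
    exact le_iSup₂ (f := fun t (_ : t ∈ D) => ENNReal.ofReal (y t ^ 2)) t ht
  · refine le_trans (iSup₂_le fun t ht => ?_) le_self_add
    push Not at h
    exact ENNReal.ofReal_le_ofReal (h t ht)

end PEaux

open PEaux

theorem part_E (h1 : S_GS) (h2 : S_E1) (h3 : S_SC) (h4 : S_JF) : S_E := by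
  obtain ⟨C0, hC0, hGS⟩ := h1
  obtain ⟨C1, hC1, hE1⟩ := h2
  obtain ⟨C2, hC2, hSC⟩ := h3
  -- the constants
  obtain ⟨h, hh1, hh2⟩ : ∃ h : ℝ, 1 ≤ h ∧ C1 * (C0 / h) ≤ 1 / 4 := by
    refine ⟨max 1 (4 * (C0 * C1)), le_max_left _ _, ?_⟩
    have hp : 0 < max 1 (4 * (C0 * C1)) := lt_of_lt_of_le one_pos (le_max_left _ _)
    rw [← mul_div_assoc, div_le_iff₀ hp]
    have := le_max_right 1 (4 * (C0 * C1))
    linarith
  have hh0 : 0 < h := by linarith
  obtain ⟨q, hq0, hq1⟩ : ∃ q : ℝ, 0 < q ∧ C1 * (h * (2 * (q * C2))) = 1 / 4 := by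
    refine ⟨1 / (8 * (C1 * h * C2)), by positivity, ?_⟩
    field_simp
    norm_num
  refine ⟨2 * (C1 * h) + 1, q ^ 2 * C2, by positivity, by positivity, ?_⟩
  intro Ω _ P _ ξ hξ K b M hM hP
  set N : ℝ := √(∑ k ∈ Finset.range K, b k ^ 2) with hN
  have hN0 : 0 ≤ N := Real.sqrt_nonneg _
  set j : ℝ := (J (Finset.range K) b).toReal with hj
  have hj0 : 0 ≤ j := ENNReal.toReal_nonneg
  have hJ : J (Finset.range K) b = ENNReal.ofReal j := (ENNReal.ofReal_toReal (h4 _ _).ne).symm
  set S : ℝ := j + N with hS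
  rcases (add_nonneg hj0 hN0).eq_or_lt with hS0 | hSpos
  · have : j = 0 := by linarith
    rw [hJ, this, ENNReal.ofReal_zero]
    exact zero_le
  -- the expected supremum
  have hQ : ∀ D : Finset ℝ, ∫⁻ ω, (⨆ t ∈ D, ENNReal.ofReal
      ‖∑ k ∈ Finset.range K, (b k : ℂ) * ξ k ω * ex k t‖) ∂P ≤
      ENNReal.ofReal (M + 2 * (q * C2) * S) := by
    intro D
    have hl : 0 < q / S := div_pos hq0 hSpos
    have hsc := hSC Ω P ξ hξ K Unit {()} (fun _ => b) D (fun _ => 1) S hSpos.le (by simp)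
      (by
        intro v _
        rw [hJ]
        exact ENNReal.ofReal_le_ofReal (by linarith))
      (by
        intro v _
        rw [← hN]
        linarith)
      (by
        rw [(Pool.Agent.W782.CTEMB.main (Fin K) Unit {()} _).2.2.1]
        exact hSpos.le)
    simp only [mul_one, Finset.mem_singleton, ciSup_unique] at hsc
    have hpt : ∀ ω, (⨆ t ∈ D, ENNReal.ofReal ‖∑ k ∈ Finset.range K, (b k : ℂ) * ξ k ω * ex k t‖) ≤
        ENNReal.ofReal M + (ENNReal.ofReal (q / S) * (⨆ t ∈ D, ENNReal.ofReal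
          (‖∑ k ∈ Finset.range K, (b k : ℂ) * ξ k ω * ex k t‖ ^ 2)) +
          ({ω | ∃ t ∈ D, M < ‖∑ k ∈ Finset.range K, (b k : ℂ) * ξ k ω * ex k t‖}.indicator
            (fun _ => ENNReal.ofReal (1 / (q / S))) ω)) :=
      fun ω => sup_le_split D (fun t => ‖∑ k ∈ Finset.range K, (b k : ℂ) * ξ k ω * ex k t‖)
        (fun t => norm_nonneg _) M (q / S) hl
    have hm : ∀ t : ℝ, Measurable fun ω => ‖∑ k ∈ Finset.range K, (b k : ℂ) * ξ k ω * ex k t‖ := by
      intro t
      refine (Finset.measurable_sum _ fun k _ => ?_).norm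
      exact (measurable_const.mul (hξ.meas k)).mul measurable_const
    have hmA : MeasurableSet {ω | ∃ t ∈ D, M < ‖∑ k ∈ Finset.range K, (b k : ℂ) * ξ k ω * ex k t‖} := by
      have : {ω | ∃ t ∈ D, M < ‖∑ k ∈ Finset.range K, (b k : ℂ) * ξ k ω * ex k t‖} =
          ⋃ t ∈ D, {ω | M < ‖∑ k ∈ Finset.range K, (b k : ℂ) * ξ k ω * ex k t‖} := by
        ext ω; simp
      rw [this]
      exact Finset.measurableSet_biUnion _ fun t _ => measurableSet_lt measurable_const (hm t)
    have hmX : Measurable fun ω => (⨆ t ∈ D, ENNReal.ofReal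
          (‖∑ k ∈ Finset.range K, (b k : ℂ) * ξ k ω * ex k t‖ ^ 2)) :=
      Measurable.biSup (D : Set ℝ) D.countable_toSet fun t _ => ((hm t).pow_const 2).ennreal_ofReal
    refine (lintegral_mono hpt).trans ?_
    rw [lintegral_add_left measurable_const, lintegral_const, measure_univ, mul_one,
      lintegral_add_left (hmX.const_mul _), lintegral_const_mul _ hmX,
      lintegral_indicator hmA, lintegral_const, Measure.restrict_apply MeasurableSet.univ,
      Set.univ_inter]
    calc _ ≤ ENNReal.ofReal M + (ENNReal.ofReal (q / S) * ENNReal.ofReal (C2 * S ^ 2) +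
            ENNReal.ofReal (1 / (q / S)) * ENNReal.ofReal (q ^ 2 * C2)) := by
          gcongr
          exact hP D
      _ = ENNReal.ofReal (M + (q / S * (C2 * S ^ 2) + 1 / (q / S) * (q ^ 2 * C2))) := by
          rw [← ENNReal.ofReal_mul hl.le, ← ENNReal.ofReal_mul (by positivity : 0 ≤ 1 / (q / S)),
            ← ENNReal.ofReal_add (by positivity) (by positivity),
            ← ENNReal.ofReal_add hM (by positivity)]
      _ = ENNReal.ofReal (M + 2 * (q * C2) * S) := by
          congr 1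
          field_simp
          ring
  have hEM : ∀ D : Finset ℝ, EM D (gv K b) ≤ h * (M + 2 * (q * C2) * S) + C0 / h * S := by
    intro D
    have hg := hGS Ω P ξ hξ K b D h hh1
    have h5 : ENNReal.ofReal (EM D (gv K b)) ≤
        ENNReal.ofReal (h * (M + 2 * (q * C2) * S) + C0 / h * S) := by
      refine hg.trans ?_
      have e0 : ENNReal.ofReal (h * (M + 2 * (q * C2) * S) + C0 / h * S) =
          ENNReal.ofReal h * ENNReal.ofReal (M + 2 * (q * C2) * S) +
            ENNReal.ofReal (C0 / h) * ENNReal.ofReal S := by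
        rw [← ENNReal.ofReal_mul hh0.le, ← ENNReal.ofReal_mul (by positivity : 0 ≤ C0 / h),
          ← ENNReal.ofReal_add (by positivity) (by positivity)]
      rw [e0, hJ, ← hN, ← ENNReal.ofReal_add hj0 hN0, ← hS]
      gcongr
      exact hQ D
    exact (ENNReal.ofReal_le_ofReal_iff (by positivity)).1 h5
  have hfin := hE1 K b _ hEM
  rw [hJ, ENNReal.ofReal_le_ofReal_iff (by positivity)] at hfin
  rw [hJ]
  refine ENNReal.ofReal_le_ofReal ?_
  have e1 : C1 * (h * (M + 2 * (q * C2) * S) + C0 / h * S) =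
      C1 * h * M + (C1 * (h * (2 * (q * C2)))) * S + (C1 * (C0 / h)) * S := by ring
  rw [e1, hq1] at hfin
  have e2 : (C1 * (C0 / h)) * S ≤ 1 / 4 * S := mul_le_mul_of_nonneg_right hh2 hSpos.le
  have e3 : 0 ≤ C1 * h * N := by positivity
  rw [hS] at hfin e2
  nlinarith
 
end Pool.Agent.P8H68.RB
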