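import Pool.Agent.P8H68.RB.Stm
import Pool.Agent.P8H68.RB.Basic

/-!
# Package E1: lower bound for stationary Gaussian processes
-/

set_option autoImplicit false

open MeasureTheory ProbabilityTheory Set Filter Topology
open scoped ENNReal NNReal
open Pool.Agent.W823.CT

namespace Pool.Agent.P8H68.RB

namespace E1aux

lemma nrm_gv (K : ℕ) (b : ℕ → ℝ) (t s : ℝ) :
    nrm (gv K b t - gv K b s) = dd (Finset.range K) b (t - s) := by
  unfold nrm dd
  congr 1
  rw [Fintype.sum_prod_type, Finset.sum_range]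
  refine Finset.sum_congr rfl fun k _ => ?_
  rw [Fintype.sum_bool, ← norm_ex_sub]
  simp only [gv, Pi.sub_apply, if_true, Bool.false_eq_true, if_false]
  have h : ‖ex k t - ex k s‖ ^ 2 = (Real.cos (((k : ℕ) : ℝ) * t) - Real.cos (((k : ℕ) : ℝ) * s)) ^ 2 +
      (Real.sin (((k : ℕ) : ℝ) * t) - Real.sin (((k : ℕ) : ℝ) * s)) ^ 2 := by
    rw [← Complex.normSq_eq_norm_sq, Complex.normSq_apply]
    simp only [ex, Complex.sub_re, Complex.sub_im, Complex.exp_ofReal_mul_I_re, Complex.exp_ofReal_mul_I_im]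
    ring
  rw [h]
  ring

lemma dotp_gv_add (K : ℕ) (b : ℕ → ℝ) (t h : ℝ) (g : Fin K × Bool → ℝ) :
    dotp (gv K b (t + h)) g = dotp (gv K b t) (rot (fun k : Fin K => ((k : ℕ) : ℝ) * h) g) := by
  unfold dotp
  rw [Fintype.sum_prod_type, Fintype.sum_prod_type]
  refine Finset.sum_congr rfl fun k _ => ?_
  rw [Fintype.sum_bool, Fintype.sum_bool]
  simp only [gv, rot, if_true, Bool.false_eq_true, if_false]
  rw [mul_add, Real.cos_add, Real.sin_add]
  ring

lemma EM_shift (hE : S_EMB) (hR : S_GROT) (K : ℕ) (b : ℕ → ℝ) (h : ℝ) (D : Finset ℝ) :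
    EM (D.image fun t => t + h) (gv K b) = EM D (gv K b) := by
  classical
  have hmp := hR K (fun k : Fin K => ((k : ℕ) : ℝ) * h)
  have e : mx (D.image fun t => t + h) (gv K b) =
      fun g => mx D (gv K b) (rot (fun k : Fin K => ((k : ℕ) : ℝ) * h) g) := by
    funext g
    unfold mx
    by_cases hD : D.Nonempty
    · have hD' : (D.image fun t => t + h).Nonempty := hD.image _
      rw [dif_pos hD, dif_pos hD', Finset.sup'_image]
      refine Finset.sup'_congr hD rfl fun t _ => ?_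
      exact dotp_gv_add K b t h g
    · rw [Finset.not_nonempty_iff_eq_empty] at hD
      subst hD
      simp
  unfold EM
  rw [e]
  have hint := (hE (Fin K × Bool) ℝ D (gv K b)).1
  have h1 := integral_map (μ := gam (Fin K × Bool)) hmp.measurable.aemeasurable
    (f := mx D (gv K b)) (by rw [hmp.map_eq]; exact hint.aestronglyMeasurable)
  rw [hmp.map_eq] at h1
  exact h1.symm

lemma vol_shift (s : Finset ℕ) (b : ℕ → ℝ) (x δ : ℝ) :
    (volume {t : ℝ | t ∈ Icc 0 (2 * Real.pi) ∧ dd s b (t - x) ≤ δ}) =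
      ENNReal.ofReal (2 * Real.pi * mu s b δ) := by
  have hpi := Real.pi_pos
  rw [← volume_ball' s b δ]
  set S : Set ℝ := {t | dd s b t ≤ δ} with hS
  have hSm : MeasurableSet S := measurableSet_le (continuous_dd s b).measurable measurable_const
  set f : ℝ → ℝ := S.indicator (fun _ => (1 : ℝ)) with hf
  have hper : Function.Periodic f (2 * Real.pi) := by
    intro t
    have h1 : (t + 2 * Real.pi ∈ S) ↔ t ∈ S := by
      simp only [hS, Set.mem_ofPred_eq, dd_periodic s b t]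
    by_cases h : t ∈ S
    · rw [hf, Set.indicator_of_mem h, Set.indicator_of_mem (h1.2 h)]
    · rw [hf, Set.indicator_of_notMem h, Set.indicator_of_notMem (fun h' => h (h1.1 h'))]
  have key : ∀ x : ℝ, (volume {t : ℝ | t ∈ Icc 0 (2 * Real.pi) ∧ dd s b (t - x) ≤ δ}).toReal =
      ∫ t in (-x)..(2 * Real.pi - x), f t := by
    intro x
    have h1 : ∫ t in (0 : ℝ)..(2 * Real.pi), f (t - x) = ∫ t in (0 - x)..(2 * Real.pi - x), f t :=
      intervalIntegral.integral_comp_sub_right f x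
    rw [zero_sub] at h1
    rw [← h1, intervalIntegral.integral_of_le (by positivity), ← integral_Icc_eq_integral_Ioc]
    have h2 : (fun t => f (t - x)) = ((fun t : ℝ => t - x) ⁻¹' S).indicator (fun _ => (1 : ℝ)) := by
      funext t
      rw [hf]
      simp only [Set.indicator, Set.mem_preimage]
    have hm : MeasurableSet ((fun t : ℝ => t - x) ⁻¹' S) := (measurable_id.sub_const x) hSm
    rw [h2, integral_indicator hm, integral_const, smul_eq_mul, mul_one, measureReal_def,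
      Measure.restrict_restrict hm, Measure.restrict_apply_univ]
    congr 2
    ext t
    simp only [Set.mem_ofPred_eq, Set.mem_inter_iff, Set.mem_preimage, hS]
    exact and_comm
  have hfin : ∀ x : ℝ, volume {t : ℝ | t ∈ Icc 0 (2 * Real.pi) ∧ dd s b (t - x) ≤ δ} ≠ ⊤ := by
    intro x
    refine (lt_of_le_of_lt (measure_mono (t := Icc 0 (2 * Real.pi)) fun t ht => ht.1) ?_).ne
    rw [Real.volume_Icc]
    exact ENNReal.ofReal_lt_top
  have h0 := key 0
  have hx := key x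
  have hp := hper.intervalIntegral_add_eq (-x) 0
  rw [neg_add_eq_sub, zero_add] at hp
  simp only [neg_zero, sub_zero] at h0
  rw [← ENNReal.toReal_eq_toReal_iff' (hfin x) (volume_ball'_lt_top s b δ).ne, hx, hp, ← h0]
  rfl

lemma sep (s : Finset ℕ) (b : ℕ → ℝ) (ρ δ : ℝ) (n : ℕ) (hδ : 0 ≤ δ)
    (h : (n : ℝ) * mu s b δ < mu s b ρ) :
    ∀ j ≤ n + 1, ∃ X : Finset ℝ, X.card = j ∧ (∀ x ∈ X, dd s b x ≤ ρ) ∧
      ∀ x ∈ X, ∀ y ∈ X, x ≠ y → δ ≤ dd s b (x - y) := by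
  classical
  have hpi := Real.pi_pos
  intro j
  induction j with
  | zero => intro _; exact ⟨∅, by simp⟩
  | succ j ih =>
    intro hj
    obtain ⟨X, hc, h1, h2⟩ := ih (by omega)
    have hlt : volume (⋃ x ∈ X, {t : ℝ | t ∈ Icc 0 (2 * Real.pi) ∧ dd s b (t - x) ≤ δ}) <
        volume (ball' s b ρ) := by
      calc volume (⋃ x ∈ X, {t : ℝ | t ∈ Icc 0 (2 * Real.pi) ∧ dd s b (t - x) ≤ δ})
          ≤ ∑ x ∈ X, volume {t : ℝ | t ∈ Icc 0 (2 * Real.pi) ∧ dd s b (t - x) ≤ δ} :=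
            measure_biUnion_finset_le _ _
        _ = ∑ x ∈ X, ENNReal.ofReal (2 * Real.pi * mu s b δ) :=
            Finset.sum_congr rfl fun x _ => vol_shift s b x δ
        _ = ENNReal.ofReal (j * (2 * Real.pi * mu s b δ)) := by
            rw [Finset.sum_const, hc, nsmul_eq_mul, ENNReal.ofReal_mul (Nat.cast_nonneg j),
              ENNReal.ofReal_natCast]
        _ < ENNReal.ofReal (2 * Real.pi * mu s b ρ) := by
            have h3 : (j : ℝ) * mu s b δ ≤ n * mu s b δ :=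
              mul_le_mul_of_nonneg_right (by exact_mod_cast (by omega : j ≤ n)) (mu_nonneg s b δ)
            have h4 : (j : ℝ) * mu s b δ < mu s b ρ := lt_of_le_of_lt h3 h
            have h5 : (0 : ℝ) ≤ (j : ℝ) * mu s b δ := mul_nonneg (Nat.cast_nonneg j) (mu_nonneg s b δ)
            have h6 : 0 < mu s b ρ := lt_of_le_of_lt h5 h4
            refine (ENNReal.ofReal_lt_ofReal_iff (by positivity)).2 ?_
            have h7 : 0 < 2 * Real.pi := by positivity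
            nlinarith [mul_lt_mul_of_pos_left h4 h7]
        _ = volume (ball' s b ρ) := (volume_ball' s b ρ).symm
    obtain ⟨t, ht, htn⟩ : ∃ t ∈ ball' s b ρ,
        t ∉ ⋃ x ∈ X, {t : ℝ | t ∈ Icc 0 (2 * Real.pi) ∧ dd s b (t - x) ≤ δ} := by
      by_contra hcon
      push Not at hcon
      exact absurd (measure_mono (μ := volume) hcon) (not_le.2 hlt)
    have hsep : ∀ x ∈ X, δ < dd s b (t - x) := by
      intro x hx
      by_contra hle
      exact htn (Set.mem_biUnion hx ⟨ht.1, not_lt.1 hle⟩)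
    have htX : t ∉ X := by
      intro hx
      have h8 := hsep t hx
      rw [sub_self, dd_zero] at h8
      linarith
    refine ⟨insert t X, by rw [Finset.card_insert_of_notMem htX, hc], ?_, ?_⟩
    · intro x hx
      rcases Finset.mem_insert.1 hx with rfl | hx
      · exact ht.2
      · exact h1 x hx
    · intro x hx y hy hxy
      rcases Finset.mem_insert.1 hx with hx1 | hx1
      · rcases Finset.mem_insert.1 hy with hy1 | hy1
        · exact absurd (hx1.trans hy1.symm) hxy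
        · rw [hx1]; exact (hsep y hy1).le
      · rcases Finset.mem_insert.1 hy with hy1 | hy1
        · rw [hy1, dd_sub_comm]; exact (hsep x hx1).le
        · exact h2 x hx1 y hy1 hxy

/-- expected supremum over the ball of radius `R` -/
noncomputable def be (K : ℕ) (b : ℕ → ℝ) (R : ℝ) : ℝ :=
  sSup {x | ∃ D : Finset ℝ, D.Nonempty ∧ (∀ t ∈ D, dd (Finset.range K) b t ≤ R) ∧ EM D (gv K b) = x}

/-- growth of the entropy -/
noncomputable def gg (K : ℕ) (b : ℕ → ℝ) (ρ : ℝ) : ℝ :=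
  √(Real.log (mu (Finset.range K) b ρ / mu (Finset.range K) b (ρ / 2)))

section
variable {K : ℕ} {b : ℕ → ℝ} {B : ℝ}

lemma be_bdd (hB : ∀ D : Finset ℝ, EM D (gv K b) ≤ B) (R : ℝ) :
    BddAbove {x | ∃ D : Finset ℝ, D.Nonempty ∧ (∀ t ∈ D, dd (Finset.range K) b t ≤ R) ∧
      EM D (gv K b) = x} := by
  refine ⟨B, ?_⟩
  rintro x ⟨D, -, -, rfl⟩
  exact hB D

lemma be_nonempty (hE : S_EMB) {R : ℝ} (hR : 0 ≤ R) :
    (0 : ℝ) ∈ {x | ∃ D : Finset ℝ, D.Nonempty ∧ (∀ t ∈ D, dd (Finset.range K) b t ≤ R) ∧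
      EM D (gv K b) = x} := by
  refine ⟨{0}, Finset.singleton_nonempty _, ?_, (hE _ ℝ {0} (gv K b)).2.2.1 0⟩
  intro t ht
  rw [Finset.mem_singleton] at ht
  rw [ht, dd_zero]
  exact hR

lemma be_le (hE : S_EMB) (hB : ∀ D : Finset ℝ, EM D (gv K b) ≤ B) {R : ℝ} (hR : 0 ≤ R) : be K b R ≤ B :=
  csSup_le ⟨0, be_nonempty hE hR⟩ (by rintro x ⟨D, -, -, rfl⟩; exact hB D)

lemma be_nonneg (hE : S_EMB) (hB : ∀ D : Finset ℝ, EM D (gv K b) ≤ B) {R : ℝ} (hR : 0 ≤ R) : 0 ≤ be K b R :=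
  le_csSup (be_bdd hB R) (be_nonempty hE hR)

lemma le_be (hB : ∀ D : Finset ℝ, EM D (gv K b) ≤ B) {R : ℝ} {D : Finset ℝ} (hD : D.Nonempty)
    (h : ∀ t ∈ D, dd (Finset.range K) b t ≤ R) : EM D (gv K b) ≤ be K b R :=
  le_csSup (be_bdd hB R) ⟨D, hD, h, rfl⟩

lemma step (hE : S_EMB) (hR : S_GROT) {r c : ℝ} (hr : 2 ≤ r) (hc : 0 < c)
    (hG : ∀ (ι τ : Type) [Fintype ι] [DecidableEq τ] (N : ℕ)
      (x : Fin N → τ) (D : Fin N → Finset τ) (a : τ → ι → ℝ) (δ b : ℝ), 2 ≤ N → 0 < δ →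
      (∀ i j, i ≠ j → δ ≤ nrm (a (x i) - a (x j))) → (∀ i, (D i).Nonempty) →
      (∀ i, ∀ s ∈ D i, nrm (a s - a (x i)) ≤ δ / r) → (∀ i, b ≤ EM (D i) a) →
      c * δ * √(Real.log N) + b ≤ EM (Finset.univ.biUnion D) a)
    (hB : ∀ D : Finset ℝ, EM D (gv K b) ≤ B) {p : ℕ} (hp : 4 * r ≤ 2 ^ p) {ρ : ℝ} (hρ : 0 < ρ) :
    c * (ρ / 2) * gg K b ρ + be K b (2 * (ρ * (1 / 2) ^ p)) ≤ be K b (2 * ρ) := by
  classical
  set s := Finset.range K with hs
  have hm1 : 0 < mu s b ρ := mu_pos s b hρ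
  have hm2 : 0 < mu s b (ρ / 2) := mu_pos s b (by positivity)
  have hratio : 1 ≤ mu s b ρ / mu s b (ρ / 2) := by
    rw [one_le_div hm2]
    exact mu_mono s b (by linarith)
  -- the number of points
  obtain ⟨N, hN1, hN2, X, hXc, hX1, hX2⟩ : ∃ N : ℕ, 1 ≤ N ∧ mu s b ρ / mu s b (ρ / 2) ≤ N ∧
      ∃ X : Finset ℝ, X.card = N ∧ (∀ x ∈ X, dd s b x ≤ ρ) ∧
      ∀ x ∈ X, ∀ y ∈ X, x ≠ y → ρ / 2 ≤ dd s b (x - y) := by
    obtain ⟨n, hn⟩ : ∃ n, ⌈mu s b ρ / mu s b (ρ / 2)⌉₊ = n + 1 :=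
      Nat.exists_eq_succ_of_ne_zero (Nat.ceil_pos.2 (by linarith)).ne'
    have h1 : (n : ℝ) < mu s b ρ / mu s b (ρ / 2) := by
      have : n < ⌈mu s b ρ / mu s b (ρ / 2)⌉₊ := by omega
      exact Nat.lt_ceil.1 this
    have h2 : mu s b ρ / mu s b (ρ / 2) ≤ (n + 1 : ℕ) := by
      rw [← hn]; exact Nat.le_ceil _
    rw [lt_div_iff₀ hm2] at h1
    obtain ⟨X, hX⟩ := sep s b ρ (ρ / 2) n (by positivity) h1 (n + 1) le_rfl
    exact ⟨n + 1, by omega, h2, X, hX⟩
  have hlog : gg K b ρ ≤ √(Real.log N) := by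
    refine Real.sqrt_le_sqrt (Real.log_le_log (by linarith) hN2)
  have hp2 : 2 * (ρ * (1 / 2) ^ p) ≤ ρ / 2 / r := by
    rw [one_div, inv_pow]
    rw [le_div_iff₀ (by linarith)]
    have h2p : (0 : ℝ) < 2 ^ p := by positivity
    have : 2 * (ρ * ((2 : ℝ) ^ p)⁻¹) * r = ρ * (2 * r) * ((2 : ℝ) ^ p)⁻¹ := by ring
    rw [this, ← div_eq_mul_inv, div_le_iff₀ h2p]
    nlinarith
  have hp0 : 0 ≤ 2 * (ρ * (1 / 2) ^ p) := by positivity
  have hsmall : 2 * (ρ * (1 / 2) ^ p) ≤ 2 * ρ := by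
    refine hp2.trans ?_
    rw [div_div, div_le_iff₀ (by positivity)]
    nlinarith
  suffices hmain : ∀ D0 : Finset ℝ, D0.Nonempty → (∀ t ∈ D0, dd s b t ≤ 2 * (ρ * (1 / 2) ^ p)) →
      c * (ρ / 2) * √(Real.log N) + EM D0 (gv K b) ≤ be K b (2 * ρ) by
    have h1 : be K b (2 * (ρ * (1 / 2) ^ p)) ≤ be K b (2 * ρ) - c * (ρ / 2) * √(Real.log N) := by
      refine csSup_le ⟨0, be_nonempty hE hp0⟩ ?_
      rintro x ⟨D0, h1, h2, rfl⟩
      have := hmain D0 h1 h2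
      linarith
    have h2 : c * (ρ / 2) * gg K b ρ ≤ c * (ρ / 2) * √(Real.log N) :=
      mul_le_mul_of_nonneg_left hlog (by positivity)
    linarith
  intro D0 hD0 hD0s
  rcases Nat.lt_or_ge N 2 with hlt | hge
  · have hN : N = 1 := by omega
    subst hN
    simp only [Nat.cast_one, Real.log_one, Real.sqrt_zero, mul_zero, zero_add]
    exact le_be hB hD0 fun t ht => (hD0s t ht).trans hsmall
  · let x : Fin N → ℝ := fun i => X.orderEmbOfFin hXc i
    have hxX : ∀ i, x i ∈ X := fun i => Finset.orderEmbOfFin_mem X hXc i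
    have hxinj : ∀ i j, i ≠ j → x i ≠ x j := fun i j hij h => hij ((X.orderEmbOfFin hXc).injective h)
    have h1 := hG (Fin K × Bool) ℝ N x (fun i => D0.image fun t => t + x i) (gv K b) (ρ / 2)
      (EM D0 (gv K b)) hge (by positivity)
      (fun i j hij => by rw [nrm_gv]; exact hX2 _ (hxX i) _ (hxX j) (hxinj i j hij))
      (fun i => hD0.image _)
      (fun i t ht => by
        rw [nrm_gv]
        obtain ⟨t', ht', rfl⟩ := Finset.mem_image.1 ht
        rw [add_sub_cancel_right]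
        exact (hD0s t' ht').trans hp2)
      (fun i => (EM_shift hE hR K b (x i) D0).ge)
    refine h1.trans (le_be hB ?_ ?_)
    · obtain ⟨t, ht⟩ := hD0
      have hi : (⟨0, by omega⟩ : Fin N) ∈ (Finset.univ : Finset (Fin N)) := Finset.mem_univ _
      exact ⟨t + x ⟨0, by omega⟩, Finset.mem_biUnion.2 ⟨_, hi, Finset.mem_image_of_mem _ ht⟩⟩
    · intro t ht
      obtain ⟨i, -, hi⟩ := Finset.mem_biUnion.1 ht
      obtain ⟨t', ht', rfl⟩ := Finset.mem_image.1 hi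
      have h2 := dd_add_le s b t' (x i)
      have h3 := hX1 _ (hxX i)
      have h4 := (hD0s t' ht').trans hp2
      have h5 : ρ / 2 / r ≤ ρ := by
        rw [div_div, div_le_iff₀ (by positivity)]
        nlinarith
      linarith

/-- summation of the growth estimates -/
lemma sum_gg (hE : S_EMB) (hR : S_GROT) {r c : ℝ} (hr : 2 ≤ r) (hc : 0 < c)
    (hG : ∀ (ι τ : Type) [Fintype ι] [DecidableEq τ] (N : ℕ)
      (x : Fin N → τ) (D : Fin N → Finset τ) (a : τ → ι → ℝ) (δ b : ℝ), 2 ≤ N → 0 < δ →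
      (∀ i j, i ≠ j → δ ≤ nrm (a (x i) - a (x j))) → (∀ i, (D i).Nonempty) →
      (∀ i, ∀ s ∈ D i, nrm (a s - a (x i)) ≤ δ / r) → (∀ i, b ≤ EM (D i) a) →
      c * δ * √(Real.log N) + b ≤ EM (Finset.univ.biUnion D) a)
    (hB : ∀ D : Finset ℝ, EM D (gv K b) ≤ B) {p : ℕ} (hp : 4 * r ≤ 2 ^ p) {Δ : ℝ} (hΔ : 0 < Δ) (n : ℕ) :
    ∑ i ∈ Finset.range n, Δ * (1 / 2) ^ i * gg K b (Δ * (1 / 2) ^ i) ≤ 2 * p * B / c := by
  set β : ℕ → ℝ := fun i => be K b (2 * (Δ * (1 / 2) ^ i)) with hβ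
  have hpos : ∀ i : ℕ, 0 < Δ * (1 / 2) ^ i := fun i => by positivity
  have h1 : ∀ i : ℕ, c / 2 * (Δ * (1 / 2) ^ i * gg K b (Δ * (1 / 2) ^ i)) + β (p + i) ≤ β i := by
    intro i
    have := step hE hR hr hc hG hB hp (hpos i)
    have e : Δ * (1 / 2) ^ i * (1 / 2) ^ p = Δ * (1 / 2 : ℝ) ^ (p + i) := by rw [pow_add]; ring
    rw [e] at this
    simp only [hβ]
    linarith
  have h2 : c / 2 * ∑ i ∈ Finset.range n, Δ * (1 / 2) ^ i * gg K b (Δ * (1 / 2) ^ i) +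
      ∑ i ∈ Finset.range n, β (p + i) ≤ ∑ i ∈ Finset.range n, β i := by
    rw [Finset.mul_sum, ← Finset.sum_add_distrib]
    exact Finset.sum_le_sum fun i _ => h1 i
  have h3 : ∑ i ∈ Finset.range (p + n), β i = ∑ i ∈ Finset.range p, β i + ∑ i ∈ Finset.range n, β (p + i) :=
    Finset.sum_range_add β p n
  have h4 : ∑ i ∈ Finset.range (n + p), β i = ∑ i ∈ Finset.range n, β i + ∑ i ∈ Finset.range p, β (n + i) :=
    Finset.sum_range_add β n p
  rw [add_comm n p] at h4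
  have h5 : 0 ≤ ∑ i ∈ Finset.range p, β (n + i) :=
    Finset.sum_nonneg fun i _ => be_nonneg hE hB (by have := hpos (n + i); positivity)
  have h6 : ∑ i ∈ Finset.range p, β i ≤ p * B := by
    calc ∑ i ∈ Finset.range p, β i ≤ ∑ i ∈ Finset.range p, B :=
          Finset.sum_le_sum fun i _ => be_le hE hB (by have := hpos i; positivity)
      _ = p * B := by rw [Finset.sum_const, Finset.card_range, nsmul_eq_mul]
  rw [le_div_iff₀ hc]
  nlinarith

end

/-- the entropy integral is at most the sum over dyadic scales -/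
lemma J_le_of_sum (s : Finset ℕ) (b : ℕ → ℝ) {Δ A : ℝ} (hΔ : 0 < Δ) (hΔ2 : 2 * √(∑ k ∈ s, b k ^ 2) ≤ Δ)
    (h : ∀ n : ℕ, ∑ i ∈ Finset.range n, Δ * (1 / 2) ^ (i + 1) * hh s b (Δ * (1 / 2) ^ (i + 1)) ≤ A) :
    J s b ≤ ENNReal.ofReal A := by
  have hpos : ∀ i : ℕ, 0 < Δ * (1 / 2) ^ i := fun i => by positivity
  have hcov : Ioi (0 : ℝ) ⊆ Ioi Δ ∪ ⋃ i : ℕ, Ioc (Δ * (1 / 2) ^ (i + 1)) (Δ * (1 / 2) ^ i) := by
    intro x hx
    rw [Set.mem_Ioi] at hx
    rcases lt_or_ge Δ x with h1 | h1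
    · exact Or.inl h1
    · right
      have hx1 : x / Δ ≤ 1 := by rw [div_le_one hΔ]; exact h1
      have hx0 : 0 < x / Δ := by positivity
      obtain ⟨n, hn1, hn2⟩ := exists_nat_pow_near_of_lt_one hx0 hx1 (by norm_num : (0 : ℝ) < 1 / 2) (by norm_num)
      refine Set.mem_iUnion.2 ⟨n, ?_, ?_⟩
      · rw [lt_div_iff₀ hΔ] at hn1; linarith
      · rw [div_le_iff₀ hΔ] at hn2; linarith
  rw [J_eq]
  calc ∫⁻ ε in Ioi (0 : ℝ), ENNReal.ofReal (hh s b ε)
      ≤ ∫⁻ ε in Ioi Δ ∪ ⋃ i : ℕ, Ioc (Δ * (1 / 2) ^ (i + 1)) (Δ * (1 / 2) ^ i), ENNReal.ofReal (hh s b ε) :=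
        lintegral_mono_set hcov
    _ ≤ (∫⁻ ε in Ioi Δ, ENNReal.ofReal (hh s b ε)) +
        ∫⁻ ε in ⋃ i : ℕ, Ioc (Δ * (1 / 2) ^ (i + 1)) (Δ * (1 / 2) ^ i), ENNReal.ofReal (hh s b ε) :=
        lintegral_union_le _ _ _
    _ = 0 + ∫⁻ ε in ⋃ i : ℕ, Ioc (Δ * (1 / 2) ^ (i + 1)) (Δ * (1 / 2) ^ i), ENNReal.ofReal (hh s b ε) := by
        congr 1
        rw [setLIntegral_congr_fun (g := fun _ => 0) measurableSet_Ioi, lintegral_zero]
        intro ε hε
        simp only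
        rw [hh_eq_zero s b (hΔ2.trans (le_of_lt hε)), ENNReal.ofReal_zero]
    _ = ∫⁻ ε in ⋃ i : ℕ, Ioc (Δ * (1 / 2) ^ (i + 1)) (Δ * (1 / 2) ^ i), ENNReal.ofReal (hh s b ε) := zero_add _
    _ ≤ ∑' i : ℕ, ∫⁻ ε in Ioc (Δ * (1 / 2) ^ (i + 1)) (Δ * (1 / 2) ^ i), ENNReal.ofReal (hh s b ε) :=
        lintegral_iUnion_le _ _
    _ ≤ ∑' i : ℕ, ENNReal.ofReal (Δ * (1 / 2) ^ (i + 1) * hh s b (Δ * (1 / 2) ^ (i + 1))) := by
        refine ENNReal.tsum_le_tsum fun i => ?_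
        calc ∫⁻ ε in Ioc (Δ * (1 / 2) ^ (i + 1)) (Δ * (1 / 2) ^ i), ENNReal.ofReal (hh s b ε)
            ≤ ∫⁻ _ in Ioc (Δ * (1 / 2) ^ (i + 1)) (Δ * (1 / 2) ^ i),
                ENNReal.ofReal (hh s b (Δ * (1 / 2) ^ (i + 1))) := by
              refine setLIntegral_mono measurable_const fun ε hε => ?_
              exact ENNReal.ofReal_le_ofReal (hh_anti s b (hpos _) (le_of_lt hε.1))
          _ = ENNReal.ofReal (Δ * (1 / 2) ^ (i + 1) * hh s b (Δ * (1 / 2) ^ (i + 1))) := by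
              rw [setLIntegral_const, Real.volume_Ioc, ← ENNReal.ofReal_mul (hh_nonneg _ _ _)]
              congr 1
              rw [pow_succ]
              ring
    _ ≤ ENNReal.ofReal A := by
        refine ENNReal.tsum_le_of_sum_range_le fun n => ?_
        rw [← ENNReal.ofReal_sum_of_nonneg fun i _ => mul_nonneg (hpos _).le (hh_nonneg _ _ _)]
        exact ENNReal.ofReal_le_ofReal (h n)

end E1aux

open E1aux

/-- package E1 -/
theorem part_E1 (hGROW : S_GROW) (hE : S_EMB) (hR : S_GROT) : S_E1 := by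
  obtain ⟨r, c, hr, hc, hG⟩ := hGROW
  obtain ⟨p, hp⟩ : ∃ p : ℕ, 4 * r ≤ 2 ^ p := by
    obtain ⟨p, hp⟩ := pow_unbounded_of_one_lt (4 * r) (by norm_num : (1 : ℝ) < 2)
    exact ⟨p, hp.le⟩
  have hp1 : 1 ≤ p := by
    rcases Nat.eq_zero_or_pos p with h | h
    · subst h; rw [pow_zero] at hp; linarith
    · exact h
  have hp0 : (0 : ℝ) < p := by exact_mod_cast hp1
  refine ⟨2 * p / c, by positivity, ?_⟩
  intro K b B hB
  set s := Finset.range K with hs
  have hB0 : 0 ≤ B := (hE _ ℝ ∅ (gv K b)).2.1.trans (hB ∅)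
  have hσ : 0 ≤ √(∑ k ∈ s, b k ^ 2) := Real.sqrt_nonneg _
  rcases hσ.eq_or_lt with h0 | h0
  · -- everything vanishes
    have : J s b = 0 := by
      rw [J_eq, setLIntegral_congr_fun (g := fun _ => 0) measurableSet_Ioi, lintegral_zero]
      intro ε hε
      simp only
      rw [hh_eq_zero s b (by rw [← h0]; have : (0 : ℝ) < ε := hε; linarith), ENNReal.ofReal_zero]
    rw [this]
    exact zero_le
  set Δ : ℝ := 2 * √(∑ k ∈ s, b k ^ 2) with hΔ
  have hΔ0 : 0 < Δ := by positivity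
  have hpos : ∀ i : ℕ, 0 < Δ * (1 / 2) ^ i := fun i => by positivity
  refine J_le_of_sum s b hΔ0 le_rfl fun n => ?_
  set T : ℕ → ℝ := fun n => ∑ i ∈ Finset.range n, Δ * (1 / 2) ^ (i + 1) * hh s b (Δ * (1 / 2) ^ (i + 1)) with hT
  have hG2 := sum_gg hE hR hr hc hG hB hp hΔ0 n
  have hstep : ∀ i : ℕ, hh s b (Δ * (1 / 2) ^ (i + 1)) ≤ hh s b (Δ * (1 / 2) ^ i) + gg K b (Δ * (1 / 2) ^ i) := by
    intro i
    have hm1 := mu_pos s b (hpos i)
    have hm2 := mu_pos s b (hpos (i + 1))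
    have e1 : Δ * (1 / 2) ^ i / 2 = Δ * (1 / 2 : ℝ) ^ (i + 1) := by rw [pow_succ]; ring
    unfold gg hh
    rw [e1]
    have e2 : Real.log (1 / mu s b (Δ * (1 / 2) ^ (i + 1))) = Real.log (1 / mu s b (Δ * (1 / 2) ^ i)) +
        Real.log (mu s b (Δ * (1 / 2) ^ i) / mu s b (Δ * (1 / 2) ^ (i + 1))) := by
      rw [← Real.log_mul (by positivity) (by positivity)]
      congr 1
      field_simp
    rw [e2]
    have n1 : 0 ≤ Real.log (1 / mu s b (Δ * (1 / 2) ^ i)) := by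
      refine Real.log_nonneg ?_
      rw [le_div_iff₀ hm1, one_mul]
      exact mu_le_one s b _
    have n2 : 0 ≤ Real.log (mu s b (Δ * (1 / 2) ^ i) / mu s b (Δ * (1 / 2) ^ (i + 1))) := by
      refine Real.log_nonneg ?_
      rw [le_div_iff₀ hm2, one_mul]
      refine mu_mono s b ?_
      rw [pow_succ]
      have := hpos i
      linarith
    rw [Real.sqrt_le_left (by positivity), add_sq, Real.sq_sqrt n1, Real.sq_sqrt n2]
    have : 0 ≤ 2 * √(Real.log (1 / mu s b (Δ * (1 / 2) ^ i))) *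
      √(Real.log (mu s b (Δ * (1 / 2) ^ i) / mu s b (Δ * (1 / 2) ^ (i + 1)))) := by positivity
    linarith
  have hT0 : T n ≤ 1 / 2 * T n + 1 / 2 * ∑ i ∈ Finset.range n, Δ * (1 / 2) ^ i * gg K b (Δ * (1 / 2) ^ i) := by
    have h1 : T n ≤ ∑ i ∈ Finset.range n, (1 / 2 * (Δ * (1 / 2) ^ i * hh s b (Δ * (1 / 2) ^ i)) +
        1 / 2 * (Δ * (1 / 2) ^ i * gg K b (Δ * (1 / 2) ^ i))) := by
      refine Finset.sum_le_sum fun i _ => ?_
      have h2 := mul_le_mul_of_nonneg_left (hstep i) (hpos (i + 1)).le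
      refine h2.trans (le_of_eq ?_)
      rw [pow_succ]
      ring
    rw [Finset.sum_add_distrib, ← Finset.mul_sum, ← Finset.mul_sum] at h1
    have h2 : ∑ i ∈ Finset.range n, Δ * (1 / 2) ^ i * hh s b (Δ * (1 / 2) ^ i) ≤ T n := by
      rcases n with _ | n
      · simp [hT]
      · rw [Finset.sum_range_succ']
        have e0 : hh s b (Δ * (1 / 2) ^ 0) = 0 := hh_eq_zero s b (by rw [pow_zero, mul_one])
        rw [e0, mul_zero, add_zero]
        simp only [hT]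
        rw [Finset.sum_range_succ (n := n)]
        have := mul_nonneg (hpos (n + 1)).le (hh_nonneg s b (Δ * (1 / 2) ^ (n + 1)))
        linarith
    linarith
  have : T n ≤ 2 * p * B / c := by linarith
  calc T n ≤ 2 * p * B / c := this
    _ = 2 * p / c * B := by ring

end Pool.Agent.P8H68.RB
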