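import Pool.Agent.W597.CTGREEDY
import Pool.Agent.P8H68.RB.Stm

set_option autoImplicit false

open Pool.Agent.W823.CT Pool.Agent.W597.CTGREEDY
open scoped BigOperators

namespace Pool.Agent.P8H68.RB

theorem part_GG : S_GG := by
  classical
  intro r c hr hc
  refine ⟨8 * r / c + 8, by positivity, ?_⟩
  intro V _ _ _ d F Δ hΔ hd0 hdpos hsym htri hdΔ hF0 hmono hgrow
  set w : ℝ := r⁻¹ with hw
  have hr0 : 0 < r := by linarith
  have hw0 : 0 < w := inv_pos.2 hr0
  have hw2 : w ≤ 1 / 2 := by
    rw [hw, one_div]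
    exact inv_anti₀ (by norm_num) hr
  have hex : ∀ (k : ℕ) (A : Finset V), ∃ L z, Good d F (Δ * w ^ (k + 1)) (Δ * w ^ (k + 1) / r) A L z :=
    fun k A => exists_good d F _ _ (by positivity) hd0 A.card A le_rfl
  choose L z hg using hex
  have hsub : ∀ k x, cell L (k + 1) x ⊆ cell L k x := by
    intro k x
    rw [cell]
    exact Finset.filter_subset _ _
  have hcen : ∀ k x, ∃ v ∈ cell L k x, ∀ y ∈ cell L k x, d y v ≤ Δ * w ^ k := by
    intro k x
    rcases k with _ | k
    · refine ⟨x, by simp [cell], fun y _ => ?_⟩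
      simpa using hdΔ y x
    · obtain ⟨g1, g2, g3⟩ := hg k (cell L k x)
      obtain ⟨k1, k2, _⟩ := g2 x (self_mem L k x) _ le_rfl
      refine ⟨z k (cell L k x) (L k (cell L k x) x), ?_, ?_⟩
      · rw [cell, Finset.mem_filter]
        exact ⟨k1, k2⟩
      · intro y hy
        rw [cell, Finset.mem_filter] at hy
        have := g1 y hy.1
        rw [hy.2] at this
        exact this
  have hdiam : ∀ k x, ∀ y ∈ cell L k x, d x y ≤ 2 * Δ * w ^ k := by
    intro k x y hy
    obtain ⟨v, _, hv⟩ := hcen k x
    have h1 := hv x (self_mem L k x)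
    have h2 := hv y hy
    have h3 := htri x v y
    rw [hsym v y] at h3
    linarith
  refine ⟨fun k x => L k (cell L k x) x + 1, ?_, ?_, ?_⟩
  · intro k x; exact Nat.le_add_left 1 _
  · intro k x y h
    exact hdiam k x y (cell_eq L x y k h).2
  · intro m x
    set s : ℕ → ℝ := fun j => √(Real.log ((L j (cell L j x) x + 1 : ℕ) : ℝ)) with hs
    have hlog : ∀ j, 0 ≤ Real.log ((L j (cell L j x) x + 1 : ℕ) : ℝ) := fun j => Real.log_natCast_nonneg _
    have hs0 : ∀ j, 0 ≤ s j := fun j => Real.sqrt_nonneg _
    have hgain : ∀ j, c * (Δ * w ^ (j + 1)) * s j + F (cell L (j + 2) x) ≤ F (cell L j x) := by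
      intro j
      obtain ⟨v, hv1, hv2⟩ := hcen (j + 2) x
      have hv3 := hsub (j + 1) x hv1
      rw [cell, Finset.mem_filter] at hv3
      have := gain d F c r (Δ * w ^ (j + 1)) hr hc (by positivity) hd0 hsym hmono hgrow (cell L j x)
        (L j (cell L j x)) (z j (cell L j x)) (hg j (cell L j x)) v hv3.1 (cell L (j + 2) x) ⟨v, hv1⟩ ?_
      · rw [hv3.2] at this
        exact this
      · intro y hy
        have hy1 := hsub (j + 1) x hy
        rw [cell, Finset.mem_filter] at hy1
        refine ⟨hy1.1, by rw [hy1.2, hv3.2], ?_⟩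
        refine (hv2 y hy).trans (le_of_eq ?_)
        rw [div_eq_mul_inv, ← hw]
        ring
    have htel : ∀ n, ∑ j ∈ Finset.range n, c * (Δ * w ^ (j + 1)) * s j + F (cell L n x) + F (cell L (n + 1) x) ≤
        F (cell L 0 x) + F (cell L 1 x) := by
      intro n
      induction n with
      | zero => simp
      | succ n ih =>
        rw [Finset.sum_range_succ]
        have := hgain n
        linarith
    have hFu : F (cell L 0 x) + F (cell L 1 x) ≤ 2 * F Finset.univ := by
      have h1 : cell L 0 x = Finset.univ := rfl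
      have h2 := hmono (cell L 1 x) Finset.univ ⟨x, self_mem L 1 x⟩ (Finset.subset_univ _)
      rw [h1]; linarith
    have hsum1 : ∑ j ∈ Finset.range m, c * (Δ * w ^ (j + 1)) * s j ≤ 2 * F Finset.univ := by
      have := htel m
      have := hF0 (cell L m x)
      have := hF0 (cell L (m + 1) x)
      linarith
    have hstep1 : ∀ k, √(∑ j ∈ Finset.range (k + 1), (Real.log ((L j (cell L j x) x + 1 : ℕ) : ℝ) + 1)) ≤
        ∑ j ∈ Finset.range (k + 1), (s j + 1) := by
      intro k
      refine (sqrt_sum_le _ (fun j => by have := hlog j; linarith) _).trans (Finset.sum_le_sum fun j _ => ?_)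
      rw [Real.sqrt_le_left (by have := hs0 j; linarith)]
      have h1 := Real.sq_sqrt (hlog j)
      have h2 := hs0 j
      have h3 : s j ^ 2 = Real.log ((L j (cell L j x) x + 1 : ℕ) : ℝ) := h1
      nlinarith
    calc ∑ k ∈ Finset.range m, 2 * Δ * w ^ k *
            √(∑ j ∈ Finset.range (k + 1), (Real.log ((L j (cell L j x) x + 1 : ℕ) : ℝ) + 1))
        ≤ ∑ k ∈ Finset.range m, 2 * Δ * w ^ k * ∑ j ∈ Finset.range (k + 1), (s j + 1) :=
          Finset.sum_le_sum fun k _ => mul_le_mul_of_nonneg_left (hstep1 k) (by positivity)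
      _ ≤ ∑ j ∈ Finset.range m, 4 * Δ * w ^ j * (s j + 1) := by
          have h1 := sum_abel w Δ hw0 hw2 hΔ (fun j => s j + 1) (fun j => by have := hs0 j; linarith) m
          have h2 : 0 ≤ 4 * Δ * w ^ m * ∑ j ∈ Finset.range m, (s j + 1) :=
            mul_nonneg (by positivity) (Finset.sum_nonneg fun j _ => by have := hs0 j; linarith)
          linarith
      _ = (4 * r / c) * ∑ j ∈ Finset.range m, c * (Δ * w ^ (j + 1)) * s j +
            4 * Δ * ∑ j ∈ Finset.range m, w ^ j := by
          rw [Finset.mul_sum, Finset.mul_sum, ← Finset.sum_add_distrib]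
          refine Finset.sum_congr rfl fun j _ => ?_
          rw [pow_succ]
          have hrw : r * w = 1 := mul_inv_cancel₀ hr0.ne'
          have h1 : 4 * r / c * (c * (Δ * (w ^ j * w)) * s j) = 4 * Δ * w ^ j * s j * (r * w) := by
            field_simp
          rw [h1, hrw]
          ring
      _ ≤ (4 * r / c) * (2 * F Finset.univ) + 4 * Δ * 2 := by
          refine add_le_add (mul_le_mul_of_nonneg_left hsum1 (by positivity))
            (mul_le_mul_of_nonneg_left ?_ (by positivity))
          have := sum_w w hw0 hw2 m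
          have := pow_pos hw0 m
          linarith
      _ ≤ (8 * r / c + 8) * (F Finset.univ + Δ) := by
          have h1 := hF0 Finset.univ
          have h2 : 0 < 8 * r / c := by positivity
          have h3 : (4 * r / c) * (2 * F Finset.univ) = 8 * r / c * F Finset.univ := by ring
          rw [h3]
          nlinarith [mul_nonneg h2.le hΔ.le]

end Pool.Agent.P8H68.RB
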