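import Pool.Agent.W782.CTGCV
import Pool.Agent.P8H68.RB.Stm
import Pool.Agent.P8H68.RB.Basic

/-!
# Package GROT: rotation invariance of Gaussian vectors
-/

set_option autoImplicit false

open MeasureTheory ProbabilityTheory Set Filter Topology
open scoped ENNReal NNReal
open Pool.Agent.W823.CT

namespace Pool.Agent.P8H68.RB

namespace GROTaux

/-- the matrix of `rot φ` -/
noncomputable def rm {K : ℕ} (φ : Fin K → ℝ) : Matrix (Fin K × Bool) (Fin K × Bool) ℝ :=
  fun p q => if p.1 = q.1 then
    (if p.2 = true then (if q.2 = true then Real.cos (φ p.1) else -Real.sin (φ p.1))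
    else (if q.2 = true then Real.sin (φ p.1) else Real.cos (φ p.1))) else 0

lemma rm_mulVec {K : ℕ} (φ : Fin K → ℝ) (g : Fin K × Bool → ℝ) : (rm φ).mulVec g = rot φ g := by
  funext p
  obtain ⟨k, c⟩ := p
  simp only [Matrix.mulVec, dotProduct, rm]
  rw [Fintype.sum_prod_type, Finset.sum_eq_single k]
  · rw [Fintype.sum_bool]
    cases c <;> simp [rot, sub_eq_add_neg]
  · intro j _ hj
    refine Finset.sum_eq_zero fun c' _ => ?_
    rw [if_neg (Ne.symm hj), zero_mul]
  · intro h
    exact absurd (Finset.mem_univ k) h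

lemma rm_orth {K : ℕ} (φ : Fin K → ℝ) : rm φ * (rm φ).transpose = 1 := by
  ext p q
  obtain ⟨k, c⟩ := p
  obtain ⟨l, c'⟩ := q
  rw [Matrix.mul_apply]
  simp only [Matrix.transpose_apply, rm]
  rw [Fintype.sum_prod_type, Finset.sum_eq_single k]
  · rw [Fintype.sum_bool]
    by_cases h : l = k
    · subst h
      have h1 := Real.cos_sq_add_sin_sq (φ l)
      cases c <;> cases c' <;> simp <;> nlinarith
    · have h2 : ((k, c) : Fin K × Bool) ≠ (l, c') := fun h3 => h (congrArg Prod.fst h3).symm
      rw [Matrix.one_apply_ne h2]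
      simp [h]
  · intro j _ hj
    refine Finset.sum_eq_zero fun c' _ => ?_
    simp [Ne.symm hj]
  · intro h
    exact absurd (Finset.mem_univ k) h

end GROTaux

open GROTaux

/-- package GROT -/
theorem part_GROT : S_GROT := by
  intro K φ
  have hm : Measurable (rot (K := K) φ) := by
    refine measurable_pi_lambda _ fun p => ?_
    obtain ⟨k, c⟩ := p
    have h1 : Measurable fun g : Fin K × Bool → ℝ => g (k, true) := measurable_pi_apply _
    have h2 : Measurable fun g : Fin K × Bool → ℝ => g (k, false) := measurable_pi_apply _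
    cases c
    · simp only [rot, Bool.false_eq_true, if_false]
      exact (h1.const_mul _).add (h2.const_mul _)
    · simp only [rot, if_true]
      exact (h1.const_mul _).sub (h2.const_mul _)
  refine ⟨hm, ?_⟩
  refine Measure.ext fun s hs => ?_
  rw [Measure.map_apply hm hs]
  have hgcv := Pool.Agent.W782.CTGCV.main (Fin K × Bool) 1
  have hpd : (1 : Matrix (Fin K × Bool) (Fin K × Bool) ℝ).PosDef := Matrix.PosDef.one
  have e1 := hgcv (rm φ) hpd (by rw [inv_one]; exact rm_orth φ) (s.indicator fun _ => 1)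
    (measurable_const.indicator hs)
  have e2 := hgcv 1 hpd (by rw [inv_one, Matrix.transpose_one, mul_one]) (s.indicator fun _ => 1)
    (measurable_const.indicator hs)
  rw [e1] at e2
  set c : ℝ≥0∞ := ENNReal.ofReal (√(2 * Real.pi) ^ Fintype.card (Fin K × Bool) /
    √(1 : Matrix (Fin K × Bool) (Fin K × Bool) ℝ).det) with hc
  have hc0 : c ≠ 0 := by
    rw [hc, Matrix.det_one, Real.sqrt_one, div_one, ne_eq, ENNReal.ofReal_eq_zero, not_le]
    positivity
  have hct : c ≠ ⊤ := ENNReal.ofReal_ne_top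
  have e3 := (ENNReal.mul_right_inj hc0 hct).1 e2
  simp only [rm_mulVec, Matrix.one_mulVec] at e3
  have e4 : ∫⁻ g, s.indicator (fun _ => (1 : ℝ≥0∞)) g ∂(gam (Fin K × Bool)) = gam (Fin K × Bool) s := by
    rw [lintegral_indicator hs, setLIntegral_one]
  have e5 : ∫⁻ g, s.indicator (fun _ => (1 : ℝ≥0∞)) (rot φ g) ∂(gam (Fin K × Bool)) =
      gam (Fin K × Bool) (rot φ ⁻¹' s) := by
    have e6 : (fun g => s.indicator (fun _ => (1 : ℝ≥0∞)) (rot φ g)) =
        (rot φ ⁻¹' s).indicator fun _ => 1 := by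
      funext g
      rfl
    rw [e6, lintegral_indicator (hm hs), setLIntegral_one]
  rw [← e4, ← e5]
  exact e3

end Pool.Agent.P8H68.RB
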