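import Pool.Agent.P8H68.RB.Stm
import Pool.Agent.P8H68.RB.Basic

/-!
# Package GS: the Gaussian supremum is controlled by the Steinhaus supremum
-/

set_option autoImplicit false

open MeasureTheory ProbabilityTheory Set Filter Topology
open scoped ENNReal NNReal
open Pool.Agent.W823.CT

namespace Pool.Agent.P8H68.RB

namespace GSaux

instance gam_prob (ι : Type) [Fintype ι] : IsProbabilityMeasure (gam ι) := by
  unfold gam; infer_instance

/-- complex coordinates of a Gaussian vector -/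
noncomputable def cg {K : ℕ} (g : Fin K × Bool → ℝ) (k : ℕ) : ℂ :=
  if hk : k < K then ⟨g (⟨k, hk⟩, true), g (⟨k, hk⟩, false)⟩ else 0

lemma cg_of_lt {K : ℕ} (g : Fin K × Bool → ℝ) {k : ℕ} (hk : k < K) :
    cg g k = ⟨g (⟨k, hk⟩, true), g (⟨k, hk⟩, false)⟩ := by
  rw [cg, dif_pos hk]

lemma measurable_cg {K : ℕ} (k : ℕ) : Measurable fun g : Fin K × Bool → ℝ => cg g k := by
  by_cases hk : k < K
  · have h : (fun g : Fin K × Bool → ℝ => cg g k) =
        fun g => ((g (⟨k, hk⟩, true) : ℝ) : ℂ) + ((g (⟨k, hk⟩, false) : ℝ) : ℂ) * Complex.I := by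
      funext g
      rw [cg_of_lt g hk]
      apply Complex.ext <;> simp
    rw [h]
    have h1 : Measurable fun g : Fin K × Bool → ℝ => g (⟨k, hk⟩, true) := measurable_pi_apply _
    have h2 : Measurable fun g : Fin K × Bool → ℝ => g (⟨k, hk⟩, false) := measurable_pi_apply _
    exact (Complex.measurable_ofReal.comp h1).add ((Complex.measurable_ofReal.comp h2).mul_const _)
  · have h : (fun g : Fin K × Bool → ℝ => cg g k) = fun _ => 0 := by
      funext g; rw [cg, dif_neg hk]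
    rw [h]
    exact measurable_const

lemma dotp_eq {K : ℕ} (b : ℕ → ℝ) (t : ℝ) (g : Fin K × Bool → ℝ) :
    dotp (gv K b t) g = (∑ k ∈ Finset.range K, (b k : ℂ) * cg g k * ex k t).re := by
  rw [Complex.re_sum, Finset.sum_range]
  unfold dotp
  rw [Fintype.sum_prod_type]
  refine Finset.sum_congr rfl fun k _ => ?_
  rw [Fintype.sum_bool, cg_of_lt g k.2]
  simp only [gv, if_true, Bool.false_eq_true, if_false, ex, Complex.mul_re, Complex.mul_im,
    Complex.ofReal_re, Complex.ofReal_im, Complex.exp_ofReal_mul_I_re, Complex.exp_ofReal_mul_I_im]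
  ring

lemma cg_rot {K : ℕ} (φ : Fin K → ℝ) (g : Fin K × Bool → ℝ) {k : ℕ} (hk : k < K) :
    cg (rot φ g) k = Complex.exp ((φ ⟨k, hk⟩ : ℝ) * Complex.I) * cg g k := by
  rw [cg_of_lt _ hk, cg_of_lt _ hk]
  apply Complex.ext
  · simp only [rot, if_true, Complex.mul_re, Complex.exp_ofReal_mul_I_re, Complex.exp_ofReal_mul_I_im]
  · simp only [rot, Bool.false_eq_true, if_false, Complex.mul_im, Complex.exp_ofReal_mul_I_re,
      Complex.exp_ofReal_mul_I_im]
    ring

lemma ofReal_integral_le {α : Type} [MeasurableSpace α] {μ : Measure α} {f : α → ℝ} (hf : Integrable f μ) :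
    ENNReal.ofReal (∫ x, f x ∂μ) ≤ ∫⁻ x, ENNReal.ofReal (f x) ∂μ := by
  rw [integral_eq_lintegral_pos_part_sub_lintegral_neg_part hf]
  refine (ENNReal.ofReal_le_ofReal (sub_le_self _ ENNReal.toReal_nonneg)).trans ?_
  exact ENNReal.ofReal_toReal_le

/-- first moment from second moment -/
lemma first_le {α : Type} [MeasurableSpace α] (P : Measure α) [IsProbabilityMeasure P] (D : Finset ℝ)
    (f : ℝ → α → ℂ) {A : ℝ} (hA : 0 ≤ A)
    (h : ∫⁻ ω, (⨆ t ∈ D, ENNReal.ofReal (‖f t ω‖ ^ 2)) ∂P ≤ ENNReal.ofReal (A ^ 2)) :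
    ∫⁻ ω, (⨆ t ∈ D, ENNReal.ofReal ‖f t ω‖) ∂P ≤ ENNReal.ofReal A := by
  refine ENNReal.le_of_forall_pos_le_add fun η hη _ => ?_
  have hη' : (0 : ℝ) < η := hη
  set t₀ : ℝ := A + η with ht₀
  have ht : 0 < t₀ := by positivity
  have hpt : ∀ ω, (⨆ t ∈ D, ENNReal.ofReal ‖f t ω‖) ≤
      ENNReal.ofReal (1 / (2 * t₀)) * (⨆ t ∈ D, ENNReal.ofReal (‖f t ω‖ ^ 2)) + ENNReal.ofReal (t₀ / 2) := by
    intro ω
    refine iSup₂_le fun t htD => ?_
    have h1 : ENNReal.ofReal (‖f t ω‖ ^ 2) ≤ ⨆ t ∈ D, ENNReal.ofReal (‖f t ω‖ ^ 2) :=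
      le_iSup₂ (f := fun t (_ : t ∈ D) => ENNReal.ofReal (‖f t ω‖ ^ 2)) t htD
    refine le_trans ?_ (add_le_add (mul_le_mul_right h1 _) le_rfl)
    rw [← ENNReal.ofReal_mul (by positivity), ← ENNReal.ofReal_add (by positivity) (by positivity)]
    refine ENNReal.ofReal_le_ofReal ?_
    have h3 : 1 / (2 * t₀) * ‖f t ω‖ ^ 2 + t₀ / 2 = (‖f t ω‖ ^ 2 + t₀ ^ 2) / (2 * t₀) := by
      field_simp
    rw [h3, le_div_iff₀ (by positivity)]
    nlinarith [sq_nonneg (‖f t ω‖ - t₀)]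
  calc ∫⁻ ω, (⨆ t ∈ D, ENNReal.ofReal ‖f t ω‖) ∂P
      ≤ ∫⁻ ω, (ENNReal.ofReal (1 / (2 * t₀)) * (⨆ t ∈ D, ENNReal.ofReal (‖f t ω‖ ^ 2)) +
          ENNReal.ofReal (t₀ / 2)) ∂P := lintegral_mono hpt
    _ = ENNReal.ofReal (1 / (2 * t₀)) * ∫⁻ ω, (⨆ t ∈ D, ENNReal.ofReal (‖f t ω‖ ^ 2)) ∂P +
          ENNReal.ofReal (t₀ / 2) := by
        rw [lintegral_add_right _ measurable_const, lintegral_const_mul' _ _ ENNReal.ofReal_ne_top,
          lintegral_const, measure_univ, mul_one]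
    _ ≤ ENNReal.ofReal (1 / (2 * t₀)) * ENNReal.ofReal (A ^ 2) + ENNReal.ofReal (t₀ / 2) := by gcongr
    _ = ENNReal.ofReal (1 / (2 * t₀) * A ^ 2 + t₀ / 2) := by
        rw [← ENNReal.ofReal_mul (by positivity), ← ENNReal.ofReal_add (by positivity) (by positivity)]
    _ ≤ ENNReal.ofReal t₀ := by
        refine ENNReal.ofReal_le_ofReal ?_
        have h3 : 1 / (2 * t₀) * A ^ 2 + t₀ / 2 = (A ^ 2 + t₀ ^ 2) / (2 * t₀) := by
          field_simp
        rw [h3, div_le_iff₀ (by positivity)]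
        have : A ≤ t₀ := by linarith
        nlinarith
    _ = ENNReal.ofReal A + η := by
        rw [ht₀, ENNReal.ofReal_add hA hη'.le, ENNReal.ofReal_coe_nnreal]

/-- fourth moment of a Gaussian variable -/
lemma fourth : ∫⁻ x, ENNReal.ofReal (x ^ 4) ∂(gaussianReal 0 1) ≤ ENNReal.ofReal 80 := by
  have hi1 : Integrable (fun x : ℝ => Real.exp (1 * x)) (gaussianReal 0 1) := integrable_exp_mul_gaussianReal 1
  have hi2 : Integrable (fun x : ℝ => Real.exp (-1 * x)) (gaussianReal 0 1) := integrable_exp_mul_gaussianReal (-1)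
  have hpt : ∀ x : ℝ, x ^ 4 ≤ 24 * (Real.exp (1 * x) + Real.exp (-1 * x)) := by
    intro x
    have h1 : |x| ^ 4 / (Nat.factorial 4 : ℕ) ≤ Real.exp |x| :=
      Real.pow_div_factorial_le_exp |x| (abs_nonneg x) 4
    have h2 : Real.exp |x| ≤ Real.exp (1 * x) + Real.exp (-1 * x) := by
      rcases abs_cases x with ⟨h, _⟩ | ⟨h, _⟩
      · rw [h, one_mul]; have := Real.exp_pos (-1 * x); linarith
      · rw [h, neg_one_mul]; have := Real.exp_pos (1 * x); linarith
    have h3 : |x| ^ 4 = x ^ 4 := by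
      rw [show (4 : ℕ) = 2 * 2 by norm_num, pow_mul, pow_mul, sq_abs]
    have h4 : ((Nat.factorial 4 : ℕ) : ℝ) = 24 := by norm_num [Nat.factorial]
    rw [h3, h4, div_le_iff₀ (by norm_num)] at h1
    linarith
  have hm1 : ∫ x, Real.exp (1 * x) ∂(gaussianReal 0 1) = Real.exp (1 / 2) := by
    have := congrFun (mgf_fun_id_gaussianReal (μ := 0) (v := 1)) 1
    unfold mgf at this
    rw [this]
    norm_num
  have hm2 : ∫ x, Real.exp (-1 * x) ∂(gaussianReal 0 1) = Real.exp (1 / 2) := by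
    have := congrFun (mgf_fun_id_gaussianReal (μ := 0) (v := 1)) (-1)
    unfold mgf at this
    rw [this]
    norm_num
  calc ∫⁻ x, ENNReal.ofReal (x ^ 4) ∂(gaussianReal 0 1)
      ≤ ∫⁻ x, ENNReal.ofReal (24 * (Real.exp (1 * x) + Real.exp (-1 * x))) ∂(gaussianReal 0 1) :=
        lintegral_mono fun x => ENNReal.ofReal_le_ofReal (hpt x)
    _ = ENNReal.ofReal (∫ x, 24 * (Real.exp (1 * x) + Real.exp (-1 * x)) ∂(gaussianReal 0 1)) := by
        have hI : Integrable (fun x : ℝ => 24 * (Real.exp (1 * x) + Real.exp (-1 * x))) (gaussianReal 0 1) :=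
          (hi1.add hi2).const_mul 24
        rw [ofReal_integral_eq_lintegral_ofReal hI]
        exact Eventually.of_forall fun x => by positivity
    _ ≤ ENNReal.ofReal 80 := by
        refine ENNReal.ofReal_le_ofReal ?_
        rw [integral_const_mul, integral_add hi1 hi2, hm1, hm2]
        have h5 : Real.exp (1 / 2) ≤ 5 / 3 := by
          have h6 : Real.exp (1 / 2) ^ 2 = Real.exp 1 := by
            rw [← Real.exp_nat_mul]; norm_num
          have h7 := Real.exp_one_lt_d9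
          have h8 := Real.exp_pos (1 / 2)
          nlinarith
        linarith

lemma coord_fourth {K : ℕ} (i : Fin K × Bool) :
    ∫⁻ g, ENNReal.ofReal (g i ^ 4) ∂(gam (Fin K × Bool)) ≤ ENNReal.ofReal 80 := by
  have hmp : MeasurePreserving (Function.eval i) (gam (Fin K × Bool)) (gaussianReal 0 1) :=
    measurePreserving_eval (fun _ : Fin K × Bool => gaussianReal 0 1) i
  have h := hmp.lintegral_comp (f := fun x : ℝ => ENNReal.ofReal (x ^ 4))
    ((measurable_id.pow_const 4).ennreal_ofReal)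
  simp only [Function.eval] at h
  rw [h]
  exact fourth

/-- the excess of the modulus -/
noncomputable def mm {K : ℕ} (h : ℝ) (k : ℕ) (g : Fin K × Bool → ℝ) : ℝ := max 0 (‖cg g k‖ - h)

lemma measurable_mm {K : ℕ} (h : ℝ) (k : ℕ) : Measurable (mm (K := K) h k) :=
  measurable_const.max ((measurable_cg k).norm.sub_const h)

lemma mm_sq {K : ℕ} {h : ℝ} (hh : 1 ≤ h) (k : ℕ) :
    ∫⁻ g, ENNReal.ofReal (mm h k g ^ 2) ∂(gam (Fin K × Bool)) ≤ ENNReal.ofReal ((18 / h) ^ 2) := by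
  have h0 : 0 < h := by linarith
  by_cases hk : k < K
  · have hpt : ∀ g : Fin K × Bool → ℝ, ENNReal.ofReal (mm h k g ^ 2) ≤
        ENNReal.ofReal (2 / h ^ 2) * (ENNReal.ofReal (g (⟨k, hk⟩, true) ^ 4) +
          ENNReal.ofReal (g (⟨k, hk⟩, false) ^ 4)) := by
      intro g
      rw [← ENNReal.ofReal_add (by positivity) (by positivity), ← ENNReal.ofReal_mul (by positivity)]
      refine ENNReal.ofReal_le_ofReal ?_
      have hn : ‖cg g k‖ ^ 2 = g (⟨k, hk⟩, true) ^ 2 + g (⟨k, hk⟩, false) ^ 2 := by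
        rw [← Complex.normSq_eq_norm_sq, cg_of_lt g hk, Complex.normSq_mk]; ring
      set x := g (⟨k, hk⟩, true)
      set y := g (⟨k, hk⟩, false)
      set r := ‖cg g k‖ with hr
      have hr0 : 0 ≤ r := norm_nonneg _
      have h1 : mm h k g ^ 2 * h ^ 2 ≤ r ^ 4 := by
        unfold mm
        rw [← hr]
        rcases le_total (r - h) 0 with h2 | h2
        · rw [max_eq_left h2]
          simp only [ne_eq, OfNat.ofNat_ne_zero, not_false_eq_true, zero_pow, zero_mul]
          positivity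
        · rw [max_eq_right h2]
          have h3 : (r - h) * h ≤ r ^ 2 := by nlinarith
          have h4 : 0 ≤ (r - h) * h := mul_nonneg h2 h0.le
          calc (r - h) ^ 2 * h ^ 2 = ((r - h) * h) ^ 2 := by ring
            _ ≤ (r ^ 2) ^ 2 := pow_le_pow_left₀ h4 h3 2
            _ = r ^ 4 := by ring
      have h5 : r ^ 4 ≤ 2 * (x ^ 4 + y ^ 4) := by
        have : r ^ 4 = (r ^ 2) ^ 2 := by ring
        rw [this, hn]
        nlinarith [sq_nonneg (x ^ 2 - y ^ 2)]
      have h6 : 2 / h ^ 2 * (x ^ 4 + y ^ 4) = 2 * (x ^ 4 + y ^ 4) / h ^ 2 := by ring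
      rw [h6, le_div_iff₀ (by positivity)]
      linarith
    calc ∫⁻ g, ENNReal.ofReal (mm h k g ^ 2) ∂(gam (Fin K × Bool))
        ≤ ∫⁻ g, ENNReal.ofReal (2 / h ^ 2) * (ENNReal.ofReal (g (⟨k, hk⟩, true) ^ 4) +
          ENNReal.ofReal (g (⟨k, hk⟩, false) ^ 4)) ∂(gam (Fin K × Bool)) := lintegral_mono hpt
      _ = ENNReal.ofReal (2 / h ^ 2) * (∫⁻ g, ENNReal.ofReal (g (⟨k, hk⟩, true) ^ 4) ∂(gam (Fin K × Bool)) +
          ∫⁻ g, ENNReal.ofReal (g (⟨k, hk⟩, false) ^ 4) ∂(gam (Fin K × Bool))) := by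
          rw [lintegral_const_mul' _ _ ENNReal.ofReal_ne_top, lintegral_add_right]
          exact ((measurable_pi_apply _).pow_const 4).ennreal_ofReal
      _ ≤ ENNReal.ofReal (2 / h ^ 2) * (ENNReal.ofReal 80 + ENNReal.ofReal 80) := by
          gcongr
          · exact coord_fourth _
          · exact coord_fourth _
      _ ≤ ENNReal.ofReal ((18 / h) ^ 2) := by
          rw [← ENNReal.ofReal_add (by norm_num) (by norm_num), ← ENNReal.ofReal_mul (by positivity)]
          refine ENNReal.ofReal_le_ofReal ?_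
          have : 2 / h ^ 2 * (80 + 80) = 320 / h ^ 2 := by ring
          rw [this, div_pow]
          exact div_le_div_of_nonneg_right (by norm_num) (by positivity)
  · have : ∀ g : Fin K × Bool → ℝ, mm h k g = 0 := by
      intro g
      unfold mm
      rw [cg, dif_neg hk, norm_zero, zero_sub, max_eq_left (by linarith)]
    simp [this]

/-- step 1: for fixed phases the Gaussian supremum is that of the rotated process -/
lemma step1 (hE : S_EMB) (hR : S_GROT) (K : ℕ) (b : ℕ → ℝ) (D : Finset ℝ) (z : ℕ → ℂ) (hz : ∀ k, ‖z k‖ = 1) :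
    ENNReal.ofReal (EM D (gv K b)) ≤ ∫⁻ g, (⨆ t ∈ D, ENNReal.ofReal
      ‖∑ k ∈ Finset.range K, (b k : ℂ) * (cg g k) * z k * ex k t‖) ∂(gam (Fin K × Bool)) := by
  classical
  have hmp := hR K (fun k : Fin K => Complex.arg (z k))
  have hint := (hE (Fin K × Bool) ℝ D (gv K b)).1
  have h1 := integral_map (μ := gam (Fin K × Bool)) hmp.measurable.aemeasurable
    (f := mx D (gv K b)) (by rw [hmp.map_eq]; exact hint.aestronglyMeasurable)
  rw [hmp.map_eq] at h1
  have hint2 : Integrable (fun g => mx D (gv K b) (rot (fun k : Fin K => Complex.arg (z k)) g))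
      (gam (Fin K × Bool)) := hmp.integrable_comp_of_integrable hint
  unfold EM
  rw [h1]
  refine (ofReal_integral_le hint2).trans (lintegral_mono fun g => ?_)
  unfold mx
  by_cases hD : D.Nonempty
  · rw [dif_pos hD]
    obtain ⟨t, ht, he⟩ := Finset.exists_mem_eq_sup' hD
      (fun t => dotp (gv K b t) (rot (fun k : Fin K => Complex.arg (z k)) g))
    rw [he]
    refine le_trans ?_ (le_iSup₂ (f := fun t (_ : t ∈ D) => ENNReal.ofReal
      ‖∑ k ∈ Finset.range K, (b k : ℂ) * (cg g k) * z k * ex k t‖) t ht)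
    refine ENNReal.ofReal_le_ofReal ?_
    rw [dotp_eq]
    refine (Complex.re_le_norm _).trans (le_of_eq ?_)
    congr 1
    refine Finset.sum_congr rfl fun k hk => ?_
    rw [cg_rot _ _ (Finset.mem_range.1 hk)]
    have h2 : Complex.exp ((Complex.arg (z k) : ℝ) * Complex.I) = z k := by
      have := Complex.norm_mul_exp_arg_mul_I (z k)
      rwa [hz k, Complex.ofReal_one, one_mul] at this
    simp only [h2]
    ring
  · rw [dif_neg hD, ENNReal.ofReal_zero]
    exact zero_le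

end GSaux

open GSaux

/-- package GS -/
theorem part_GS (hE : S_EMB) (hSC : S_SC) (hJM : S_JM) (hJF : S_JF) (hCT : S_CT) (hR : S_GROT) : S_GS := by
  classical
  obtain ⟨C₁, hC₁, hSC⟩ := hSC
  obtain ⟨C₂, hC₂, hJM⟩ := hJM
  refine ⟨√C₁ * (18 * C₂ + 18), by positivity, ?_⟩
  intro Ω _ P _ ξ hξ K b D h hh
  have h0 : 0 < h := by linarith
  have hγ := gam_prob (Fin K × Bool)
  set s := Finset.range K with hs
  set G := gam (Fin K × Bool) with hG
  -- joint measurability
  have hξm : ∀ k, Measurable fun p : Ω × (Fin K × Bool → ℝ) => ξ k p.1 := fun k => (hξ.meas k).comp measurable_fst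
  have hcm : ∀ k, Measurable fun p : Ω × (Fin K × Bool → ℝ) => cg p.2 k := fun k => (measurable_cg k).comp measurable_snd
  have hmeas : Measurable (Function.uncurry fun (ω : Ω) (g : Fin K × Bool → ℝ) =>
      (⨆ t ∈ D, ENNReal.ofReal ‖∑ k ∈ s, (b k : ℂ) * (cg g k) * ξ k ω * ex k t‖)) := by
    refine Measurable.biSup (D : Set ℝ) D.countable_toSet fun t _ => ?_
    refine (Measurable.norm ?_).ennreal_ofReal
    exact Finset.measurable_fun_sum s fun k _ => (((hcm k).const_mul _).mul (hξm k)).mul_const _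
  set Q : ℝ≥0∞ := ∫⁻ ω, (⨆ t ∈ D, ENNReal.ofReal ‖∑ k ∈ s, (b k : ℂ) * ξ k ω * ex k t‖) ∂P with hQ
  -- step 3
  have step3 : ∀ g : Fin K × Bool → ℝ,
      ∫⁻ ω, (⨆ t ∈ D, ENNReal.ofReal ‖∑ k ∈ s, (b k : ℂ) * (cg g k) * ξ k ω * ex k t‖) ∂P ≤
        ENNReal.ofReal h * Q + ENNReal.ofReal √C₁ *
          (J s (fun k => b k * mm h k g) + ENNReal.ofReal √(∑ k ∈ s, (b k * mm h k g) ^ 2)) := by
    intro g
    -- phases
    set e : ℕ → ℂ := fun k => if cg g k = 0 then 1 else cg g k / ‖cg g k‖ with he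
    have he1 : ∀ k, ‖e k‖ = 1 := by
      intro k
      simp only [he]
      split_ifs with h1
      · exact norm_one
      · rw [norm_div, Complex.norm_real, norm_norm, div_self (norm_ne_zero_iff.2 h1)]
    have he2 : ∀ k, cg g k = (‖cg g k‖ : ℂ) * e k := by
      intro k
      simp only [he]
      split_ifs with h1
      · rw [h1]; simp
      · have : (‖cg g k‖ : ℂ) ≠ 0 := by
          rw [Complex.ofReal_ne_zero]; exact norm_ne_zero_iff.2 h1
        field_simp
    have hdec : ∀ k, cg g k = ((min ‖cg g k‖ h : ℝ) : ℂ) * e k + ((mm h k g : ℝ) : ℂ) * e k := by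
      intro k
      have h1 : min ‖cg g k‖ h + mm h k g = ‖cg g k‖ := by
        unfold mm
        rcases le_total ‖cg g k‖ h with h2 | h2
        · rw [min_eq_left h2, max_eq_left (by linarith)]; ring
        · rw [min_eq_right h2, max_eq_right (by linarith)]; ring
      rw [← add_mul, ← Complex.ofReal_add, h1]
      exact he2 k
    set F1 : ℝ → Ω → ℂ := fun t ω => ∑ k ∈ s, (((min ‖cg g k‖ h / h : ℝ) : ℂ) * e k) * ((h * b k : ℝ) : ℂ) * ξ k ω * ex k t with hF1
    set F2 : ℝ → Ω → ℂ := fun t ω => ∑ k ∈ s, ((b k * mm h k g : ℝ) : ℂ) * e k * ξ k ω * ex k t with hF2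
    have hsum : ∀ t ω, ∑ k ∈ s, (b k : ℂ) * (cg g k) * ξ k ω * ex k t = F1 t ω + F2 t ω := by
      intro t ω
      simp only [hF1, hF2]
      rw [← Finset.sum_add_distrib]
      refine Finset.sum_congr rfl fun k _ => ?_
      have hne : (h : ℂ) ≠ 0 := by exact_mod_cast h0.ne'
      calc (b k : ℂ) * cg g k * ξ k ω * ex k t
          = (b k : ℂ) * (((min ‖cg g k‖ h : ℝ) : ℂ) * e k + ((mm h k g : ℝ) : ℂ) * e k) * ξ k ω * ex k t := by
            rw [← hdec k]
        _ = _ := by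
            push_cast
            field_simp
    have hm2 : Measurable fun ω => (⨆ t ∈ D, ENNReal.ofReal ‖F2 t ω‖) := by
      refine Measurable.biSup (D : Set ℝ) D.countable_toSet fun t _ => ?_
      refine (Measurable.norm ?_).ennreal_ofReal
      exact Finset.measurable_fun_sum s fun k _ => ((hξ.meas k).const_mul _).mul_const _
    have hA : ∫⁻ ω, (⨆ t ∈ D, ENNReal.ofReal ‖F1 t ω‖) ∂P ≤ ENNReal.ofReal h * Q := by
      have h1 := hCT Ω P ξ hξ K (fun k => ((h * b k : ℝ) : ℂ))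
        (fun k => ((min ‖cg g k‖ h / h : ℝ) : ℂ) * e k) D (by
          intro k
          rw [norm_mul, he1, mul_one, Complex.norm_real, Real.norm_eq_abs,
            abs_of_nonneg (div_nonneg (le_min (norm_nonneg _) h0.le) h0.le), div_le_one h0]
          exact min_le_right _ _)
      refine h1.trans ?_
      rw [hQ, ← lintegral_const_mul' _ _ ENNReal.ofReal_ne_top]
      refine lintegral_mono fun ω => ?_
      refine iSup₂_le fun t ht => ?_
      have h2 : ∑ k ∈ Finset.range K, ((h * b k : ℝ) : ℂ) * ξ k ω * ex k t =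
          (h : ℂ) * ∑ k ∈ s, (b k : ℂ) * ξ k ω * ex k t := by
        rw [Finset.mul_sum]
        refine Finset.sum_congr rfl fun k _ => ?_
        push_cast; ring
      rw [h2, norm_mul, Complex.norm_real, Real.norm_eq_abs, abs_of_pos h0, ENNReal.ofReal_mul h0.le]
      gcongr
      exact le_iSup₂ (f := fun t (_ : t ∈ D) => ENNReal.ofReal ‖∑ k ∈ s, (b k : ℂ) * ξ k ω * ex k t‖) t ht
    have hJfin : J s (fun k => b k * mm h k g) ≠ ⊤ := (hJF s _).ne
    set S : ℝ := (J s (fun k => b k * mm h k g)).toReal + √(∑ k ∈ s, (b k * mm h k g) ^ 2) with hS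
    have hS0 : 0 ≤ S := add_nonneg ENNReal.toReal_nonneg (Real.sqrt_nonneg _)
    have hB : ∫⁻ ω, (⨆ t ∈ D, ENNReal.ofReal ‖F2 t ω‖) ∂P ≤ ENNReal.ofReal √C₁ *
          (J s (fun k => b k * mm h k g) + ENNReal.ofReal √(∑ k ∈ s, (b k * mm h k g) ^ 2)) := by
      have h1 := hSC Ω P ξ hξ K Unit {()} (fun _ k => b k * mm h k g) D e S hS0 (fun k => (he1 k).le)
        (by
          intro _ _
          rw [← ENNReal.ofReal_toReal hJfin]
          exact ENNReal.ofReal_le_ofReal (le_add_of_nonneg_right (Real.sqrt_nonneg _)))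
        (fun _ _ => le_add_of_nonneg_left ENNReal.toReal_nonneg)
        (by rw [(hE (Fin K) Unit {()} _).2.2.1 ()]; exact hS0)
      have h2 : ∫⁻ ω, (⨆ t ∈ D, ENNReal.ofReal (‖F2 t ω‖ ^ 2)) ∂P ≤ ENNReal.ofReal ((√C₁ * S) ^ 2) := by
        rw [mul_pow, Real.sq_sqrt hC₁.le]
        refine le_trans (lintegral_mono fun ω => ?_) h1
        refine iSup₂_le fun t ht => ?_
        refine le_trans ?_ (le_iSup₂ (f := fun (v : Unit) (_ : v ∈ ({()} : Finset Unit)) => ⨆ θ ∈ D, ENNReal.ofReal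
          (‖∑ k ∈ Finset.range K, ((b k * mm h k g : ℝ) : ℂ) * e k * ξ k ω * ex k θ‖ ^ 2)) ()
          (Finset.mem_singleton_self ()))
        exact le_iSup₂ (f := fun θ (_ : θ ∈ D) => ENNReal.ofReal
          (‖∑ k ∈ Finset.range K, ((b k * mm h k g : ℝ) : ℂ) * e k * ξ k ω * ex k θ‖ ^ 2)) t ht
      refine (first_le P D F2 (by positivity) h2).trans (le_of_eq ?_)
      rw [ENNReal.ofReal_mul (Real.sqrt_nonneg _), hS, ENNReal.ofReal_add ENNReal.toReal_nonneg (Real.sqrt_nonneg _),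
        ENNReal.ofReal_toReal hJfin]
    calc ∫⁻ ω, (⨆ t ∈ D, ENNReal.ofReal ‖∑ k ∈ s, (b k : ℂ) * (cg g k) * ξ k ω * ex k t‖) ∂P
        ≤ ∫⁻ ω, ((⨆ t ∈ D, ENNReal.ofReal ‖F1 t ω‖) + (⨆ t ∈ D, ENNReal.ofReal ‖F2 t ω‖)) ∂P := by
          refine lintegral_mono fun ω => ?_
          refine iSup₂_le fun t ht => ?_
          rw [hsum]
          refine (ENNReal.ofReal_le_ofReal (norm_add_le _ _)).trans ?_
          rw [ENNReal.ofReal_add (norm_nonneg _) (norm_nonneg _)]
          exact add_le_add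
            (le_iSup₂ (f := fun t (_ : t ∈ D) => ENNReal.ofReal ‖F1 t ω‖) t ht)
            (le_iSup₂ (f := fun t (_ : t ∈ D) => ENNReal.ofReal ‖F2 t ω‖) t ht)
      _ = ∫⁻ ω, (⨆ t ∈ D, ENNReal.ofReal ‖F1 t ω‖) ∂P + ∫⁻ ω, (⨆ t ∈ D, ENNReal.ofReal ‖F2 t ω‖) ∂P :=
          lintegral_add_right _ hm2
      _ ≤ _ := add_le_add hA hB
  -- the Gaussian integral of the second term
  have hJMb := hJM (Fin K × Bool → ℝ) G (fun k g => mm h k g) (18 / h) (fun k => measurable_mm h k) (by positivity)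
    (fun k => mm_sq hh k) K b
  have hnorm : ∫⁻ g, ENNReal.ofReal √(∑ k ∈ s, (b k * mm h k g) ^ 2) ∂G ≤
      ENNReal.ofReal (18 / h) * ENNReal.ofReal √(∑ k ∈ s, b k ^ 2) := by
    have h1 : ∫⁻ g, (⨆ t ∈ ({0} : Finset ℝ), ENNReal.ofReal
        (‖((√(∑ k ∈ s, (b k * mm h k g) ^ 2) : ℝ) : ℂ)‖ ^ 2)) ∂G ≤
        ENNReal.ofReal ((18 / h * √(∑ k ∈ s, b k ^ 2)) ^ 2) := by
      have h2 : ∀ g : Fin K × Bool → ℝ, (⨆ t ∈ ({0} : Finset ℝ), ENNReal.ofReal
          (‖((√(∑ k ∈ s, (b k * mm h k g) ^ 2) : ℝ) : ℂ)‖ ^ 2)) =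
          ∑ k ∈ s, ENNReal.ofReal (b k ^ 2) * ENNReal.ofReal (mm h k g ^ 2) := by
        intro g
        simp only [Finset.mem_singleton, iSup_iSup_eq_left]
        rw [Complex.norm_real, Real.norm_eq_abs, sq_abs,
          Real.sq_sqrt (Finset.sum_nonneg fun k _ => sq_nonneg _),
          ENNReal.ofReal_sum_of_nonneg fun k _ => sq_nonneg _]
        refine Finset.sum_congr rfl fun k _ => ?_
        rw [mul_pow, ENNReal.ofReal_mul (sq_nonneg _)]
      simp only [h2]
      rw [lintegral_finsetSum _ fun k _ => ((measurable_mm h k).pow_const 2).ennreal_ofReal.const_mul _]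
      calc ∑ k ∈ s, ∫⁻ g, ENNReal.ofReal (b k ^ 2) * ENNReal.ofReal (mm h k g ^ 2) ∂G
          = ∑ k ∈ s, ENNReal.ofReal (b k ^ 2) * ∫⁻ g, ENNReal.ofReal (mm h k g ^ 2) ∂G :=
            Finset.sum_congr rfl fun k _ => lintegral_const_mul' _ _ ENNReal.ofReal_ne_top
        _ ≤ ∑ k ∈ s, ENNReal.ofReal (b k ^ 2) * ENNReal.ofReal ((18 / h) ^ 2) := by
            gcongr with k hk
            exact mm_sq hh k
        _ = ENNReal.ofReal ((18 / h * √(∑ k ∈ s, b k ^ 2)) ^ 2) := by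
            rw [← Finset.sum_mul, ← ENNReal.ofReal_sum_of_nonneg fun k _ => sq_nonneg _,
              ← ENNReal.ofReal_mul (Finset.sum_nonneg fun k _ => sq_nonneg _), mul_pow,
              Real.sq_sqrt (Finset.sum_nonneg fun k _ => sq_nonneg _), mul_comm]
    have h3 := first_le G {0} (fun _ g => ((√(∑ k ∈ s, (b k * mm h k g) ^ 2) : ℝ) : ℂ)) (by positivity) h1
    rw [ENNReal.ofReal_mul (by positivity)] at h3
    refine le_trans (le_of_eq ?_) h3
    refine lintegral_congr fun g => ?_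
    simp only [Finset.mem_singleton, iSup_iSup_eq_left]
    rw [Complex.norm_real, Real.norm_eq_abs, abs_of_nonneg (Real.sqrt_nonneg _)]
  have hmn : Measurable fun g : Fin K × Bool → ℝ => ENNReal.ofReal √(∑ k ∈ s, (b k * mm h k g) ^ 2) := by
    refine (Measurable.sqrt ?_).ennreal_ofReal
    exact Finset.measurable_fun_sum s fun k _ => ((measurable_mm h k).const_mul _).pow_const 2
  calc ENNReal.ofReal (EM D (gv K b))
      = ∫⁻ _, ENNReal.ofReal (EM D (gv K b)) ∂P := by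
        rw [lintegral_const, measure_univ, mul_one]
    _ ≤ ∫⁻ ω, ∫⁻ g, (⨆ t ∈ D, ENNReal.ofReal
          ‖∑ k ∈ s, (b k : ℂ) * (cg g k) * ξ k ω * ex k t‖) ∂G ∂P :=
        lintegral_mono fun ω => step1 hE hR K b D (fun k => ξ k ω) (fun k => hξ.norm_one k ω)
    _ = ∫⁻ g, ∫⁻ ω, (⨆ t ∈ D, ENNReal.ofReal
          ‖∑ k ∈ s, (b k : ℂ) * (cg g k) * ξ k ω * ex k t‖) ∂P ∂G :=
        lintegral_lintegral_swap hmeas.aemeasurable
    _ ≤ ∫⁻ g, (ENNReal.ofReal h * Q + ENNReal.ofReal √C₁ *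
          (J s (fun k => b k * mm h k g) + ENNReal.ofReal √(∑ k ∈ s, (b k * mm h k g) ^ 2))) ∂G :=
        lintegral_mono step3
    _ = ENNReal.ofReal h * Q + ENNReal.ofReal √C₁ *
          (∫⁻ g, J s (fun k => b k * mm h k g) ∂G + ∫⁻ g, ENNReal.ofReal √(∑ k ∈ s, (b k * mm h k g) ^ 2) ∂G) := by
        rw [lintegral_add_left measurable_const, lintegral_const, measure_univ, mul_one,
          lintegral_const_mul' _ _ ENNReal.ofReal_ne_top, lintegral_add_right _ hmn]
    _ ≤ ENNReal.ofReal h * Q + ENNReal.ofReal √C₁ *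
          (ENNReal.ofReal (C₂ * (18 / h)) * (J s b + ENNReal.ofReal √(∑ k ∈ s, b k ^ 2)) +
            ENNReal.ofReal (18 / h) * (J s b + ENNReal.ofReal √(∑ k ∈ s, b k ^ 2))) := by
        gcongr
        exact hnorm.trans (mul_le_mul_right le_add_self _)
    _ = ENNReal.ofReal h * Q + ENNReal.ofReal (√C₁ * (18 * C₂ + 18) / h) *
          (J s b + ENNReal.ofReal √(∑ k ∈ s, b k ^ 2)) := by
        rw [← add_mul, ← ENNReal.ofReal_add (by positivity) (by positivity), ← mul_assoc,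
          ← ENNReal.ofReal_mul (Real.sqrt_nonneg _)]
        congr 3
        ring

end Pool.Agent.P8H68.RB
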