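import Pool.Agent.P8H68.RB.Stm
import Pool.Agent.P8H68.RB.Basic

set_option autoImplicit false

open MeasureTheory ProbabilityTheory Set Filter Topology
open scoped ENNReal NNReal
open Pool.Agent.W823.CT

namespace Pool.Agent.P8H68.RB

namespace JBaux

lemma dd_mono {s s' : Finset ℕ} {b b' : ℕ → ℝ} (hs : s ⊆ s') (h : ∀ k ∈ s, |b k| ≤ |b' k|) (t : ℝ) :
    dd s b t ≤ dd s' b' t := by
  unfold dd
  refine Real.sqrt_le_sqrt ?_
  calc ∑ k ∈ s, b k ^ 2 * ‖ex k t - 1‖ ^ 2 ≤ ∑ k ∈ s, b' k ^ 2 * ‖ex k t - 1‖ ^ 2 :=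
        Finset.sum_le_sum fun k hk => mul_le_mul_of_nonneg_right (sq_le_sq.2 (h k hk)) (sq_nonneg _)
    _ ≤ _ := Finset.sum_le_sum_of_subset_of_nonneg hs fun k _ _ => by positivity

lemma hh_mono {s s' : Finset ℕ} {b b' : ℕ → ℝ} (hd : ∀ t, dd s b t ≤ dd s' b' t) {ε : ℝ} (hε : 0 < ε) :
    hh s b ε ≤ hh s' b' ε := by
  have h1 := mu_pos s' b' hε
  have h2 := mu_pos s b hε
  have h3 : mu s' b' ε ≤ mu s b ε := by
    rw [mu_eq, mu_eq]
    refine div_le_div_of_nonneg_right ?_ (by positivity)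
    exact ENNReal.toReal_mono (volume_ball'_lt_top s b ε).ne
      (measure_mono fun t ht => ⟨ht.1, (hd t).trans ht.2⟩)
  refine Real.sqrt_le_sqrt (Real.log_le_log (by positivity) ?_)
  exact one_div_le_one_div_of_le h1 h3

lemma hh_smul (s : Finset ℕ) (b : ℕ → ℝ) {l : ℝ} (hl : 0 < l) (ε : ℝ) :
    hh s (fun k => l * b k) (l * ε) = hh s b ε := by
  have h1 : ∀ t, dd s (fun k => l * b k) t = l * dd s b t := by
    intro t
    unfold dd
    have : ∑ k ∈ s, (l * b k) ^ 2 * ‖ex k t - 1‖ ^ 2 = l ^ 2 * ∑ k ∈ s, b k ^ 2 * ‖ex k t - 1‖ ^ 2 := by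
      rw [Finset.mul_sum]
      exact Finset.sum_congr rfl fun k _ => by ring
    rw [this, Real.sqrt_mul (by positivity), Real.sqrt_sq hl.le]
  have h2 : mu s (fun k => l * b k) (l * ε) = mu s b ε := by
    unfold mu
    have : {t : ℝ | t ∈ Icc 0 (2 * Real.pi) ∧ dd s (fun k => l * b k) t ≤ l * ε} =
        {t : ℝ | t ∈ Icc 0 (2 * Real.pi) ∧ dd s b t ≤ ε} := by
      ext t
      simp only [mem_setOf_eq, h1, mul_le_mul_iff_right₀ hl]
    rw [this]
  unfold hh
  rw [h2]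

lemma const_le (s : Finset ℕ) (b : ℕ → ℝ) {x y : ℝ} (hx : 0 < x) (hxy : x ≤ y) :
    ENNReal.ofReal ((y - x) * hh s b y) ≤ ∫⁻ ε in Ioc x y, ENNReal.ofReal (hh s b ε) := by
  calc ENNReal.ofReal ((y - x) * hh s b y) = ∫⁻ ε in Ioc x y, ENNReal.ofReal (hh s b y) := by
        rw [setLIntegral_const, Real.volume_Ioc, ← ENNReal.ofReal_mul (hh_nonneg s b y), mul_comm]
    _ ≤ _ := by
        refine setLIntegral_mono' measurableSet_Ioc fun ε hε => ENNReal.ofReal_le_ofReal ?_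
        exact hh_anti s b (hx.trans hε.1) hε.2

end JBaux

open JBaux

theorem part_JB : S_JB := by
  refine ⟨?_, ?_, ?_⟩
  · intro s s' b b' hs h
    rw [J_eq, J_eq]
    exact setLIntegral_mono' measurableSet_Ioi fun ε hε =>
      ENNReal.ofReal_le_ofReal (hh_mono (fun t => dd_mono hs h t) hε)
  · intro s b l hl
    rw [J_eq, J_eq]
    have e := Real.smul_map_volume_mul_left hl.ne'
    rw [← lintegral_indicator measurableSet_Ioi, ← lintegral_indicator measurableSet_Ioi]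
    let g : ℝ ≃ᵐ ℝ := (Homeomorph.mulLeft₀ l hl.ne').toMeasurableEquiv
    have hg : ∀ x, g x = l * x := fun x => rfl
    have e2 : (volume : Measure ℝ) = ENNReal.ofReal l • Measure.map g volume := by
      rw [abs_of_pos hl] at e
      exact e.symm
    conv_lhs => rw [e2]
    rw [lintegral_smul_measure, lintegral_map_equiv]
    simp only [smul_eq_mul]
    congr 1
    refine lintegral_congr fun x => ?_
    rw [hg]
    by_cases hx : x ∈ Ioi (0 : ℝ)
    · have hx2 : l * x ∈ Ioi (0 : ℝ) := mul_pos hl hx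
      rw [indicator_of_mem hx, indicator_of_mem hx2, hh_smul s b hl]
    · have hx2 : l * x ∉ Ioi (0 : ℝ) := by
        intro h
        exact hx (by simpa [hl] using (show 0 < l * x from h))
      rw [indicator_of_notMem hx, indicator_of_notMem hx2]
  · intro s s' b hs h
    have : dd s b = dd s' b := by
      funext t
      unfold dd
      congr 1
      refine Finset.sum_subset hs fun k hk hk' => ?_
      rw [h k hk hk']
      simp
    unfold J mu
    rw [this]

theorem part_JF : S_JF := by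
  intro s b
  set R := 2 * √(∑ k ∈ s, b k ^ 2) with hR
  have hR0 : 0 ≤ R := by positivity
  set A := √(∑ k ∈ s, (b k * k) ^ 2) + 1 + R with hA
  have hA0 : 0 < A := by positivity
  have hpi := Real.pi_gt_three
  have hdd : ∀ t, dd s b t ≤ A * |t| := by
    intro t
    rw [dd_eq]
    have h1 : √(∑ k ∈ s, (b k * ‖ex k t - 1‖) ^ 2) ≤ √(∑ k ∈ s, (b k * k * |t|) ^ 2) := by
      refine sqrt_sum_mono fun k _ => ?_
      rw [mul_assoc, abs_mul, abs_mul (b k)]
      refine mul_le_mul_of_nonneg_left ?_ (abs_nonneg _)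
      rw [abs_of_nonneg (norm_nonneg _), abs_of_nonneg (by positivity)]
      exact norm_ex_sub_one_le k t
    have h2 : √(∑ k ∈ s, (b k * k * |t|) ^ 2) = √(∑ k ∈ s, (b k * k) ^ 2) * |t| := by
      have : ∑ k ∈ s, (b k * k * |t|) ^ 2 = (∑ k ∈ s, (b k * k) ^ 2) * |t| ^ 2 := by
        rw [Finset.sum_mul]
        exact Finset.sum_congr rfl fun k _ => by ring
      rw [this, Real.sqrt_mul (Finset.sum_nonneg fun k _ => by positivity), Real.sqrt_sq (abs_nonneg _)]
    rw [h2] at h1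
    refine h1.trans (mul_le_mul_of_nonneg_right ?_ (abs_nonneg _))
    rw [hA]; linarith
  have hmu : ∀ ε ∈ Ioc 0 R, ε / A / (2 * Real.pi) ≤ mu s b ε := by
    intro ε hε
    rw [mu_eq]
    refine div_le_div_of_nonneg_right ?_ (by positivity)
    have h1 : ε / A ≤ 1 := by
      rw [div_le_one hA0]
      have := Real.sqrt_nonneg (∑ k ∈ s, (b k * k) ^ 2)
      have := hε.2
      rw [hA]; linarith
    have h2 : Icc 0 (ε / A) ⊆ ball' s b ε := by
      intro t ht
      refine ⟨⟨ht.1, ht.2.trans (h1.trans (by linarith))⟩, (hdd t).trans ?_⟩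
      rw [abs_of_nonneg ht.1]
      have := mul_le_mul_of_nonneg_left ht.2 hA0.le
      rwa [mul_div_cancel₀ _ hA0.ne'] at this
    have h3 := ENNReal.toReal_mono (volume_ball'_lt_top s b ε).ne (measure_mono (μ := volume) h2)
    rw [Real.volume_Icc, sub_zero, ENNReal.toReal_ofReal (by have := hε.1; positivity)] at h3
    exact h3
  have hbound : ∀ ε ∈ Ioc 0 R, hh s b ε ≤ √(2 * Real.pi * A) * ε ^ (-(1 / 2) : ℝ) := by
    intro ε hε
    have hε0 : 0 < ε := hε.1
    have h1 := hmu ε hε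
    have h2 := mu_pos s b hε0
    have h3 : 1 / mu s b ε ≤ 2 * Real.pi * A / ε := by
      have h4 : 0 < ε / A / (2 * Real.pi) := by positivity
      have h5 := one_div_le_one_div_of_le h4 h1
      refine h5.trans (le_of_eq ?_)
      field_simp
    have h4 : Real.log (1 / mu s b ε) ≤ 2 * Real.pi * A / ε := by
      have h5 := Real.log_le_sub_one_of_pos (x := 1 / mu s b ε) (by positivity)
      linarith
    have h5 : √(2 * Real.pi * A / ε) = √(2 * Real.pi * A) * ε ^ (-(1 / 2) : ℝ) := by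
      rw [Real.sqrt_div' _ hε0.le, Real.rpow_neg hε0.le, ← Real.sqrt_eq_rpow, div_eq_mul_inv]
    rw [← h5]
    exact Real.sqrt_le_sqrt h4
  rw [J_eq]
  have hsplit : Ioi (0 : ℝ) = Ioc 0 R ∪ Ioi R := (Ioc_union_Ioi_eq_Ioi hR0).symm
  rw [hsplit]
  refine lt_of_le_of_lt (lintegral_union_le _ _ _) ?_
  refine ENNReal.add_lt_top.2 ⟨?_, ?_⟩
  · have hint : IntegrableOn (fun ε : ℝ => √(2 * Real.pi * A) * ε ^ (-(1 / 2) : ℝ)) (Ioc 0 R) := by
      have h1 := (intervalIntegral.intervalIntegrable_rpow' (a := 0) (b := R)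
        (by norm_num : (-1 : ℝ) < -(1 / 2)))
      rw [intervalIntegrable_iff_integrableOn_Ioc_of_le hR0] at h1
      exact h1.const_mul _
    refine lt_of_le_of_lt ?_ hint.lintegral_lt_top
    exact setLIntegral_mono' measurableSet_Ioc fun ε hε => ENNReal.ofReal_le_ofReal (hbound ε hε)
  · refine lt_of_eq_of_lt ?_ ENNReal.zero_lt_top
    have h1 : ∀ ε ∈ Ioi R, ENNReal.ofReal (hh s b ε) = 0 := by
      intro ε hε
      rw [hh_eq_zero s b (le_of_lt hε), ENNReal.ofReal_zero]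
    rw [setLIntegral_congr_fun measurableSet_Ioi h1]
    simp

theorem part_JL : S_JL := by
  intro s b w Δ S m hw0 hw1 hΔ hS hJ
  have hpos : ∀ k : ℕ, 0 < Δ * w ^ k := fun k => by positivity
  have hdec : ∀ k : ℕ, Δ * w ^ (k + 1) ≤ Δ * w ^ k := by
    intro k
    rw [pow_succ]
    have := hpos k
    nlinarith
  have hdec1 : ∀ m : ℕ, Δ * w ^ (m + 1) ≤ Δ * w ^ 1 := by
    intro m
    refine mul_le_mul_of_nonneg_left ?_ hΔ.le
    exact pow_le_pow_of_le_one hw0.le hw1.le (by omega)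
  have key : ∀ m : ℕ, ENNReal.ofReal (∑ k ∈ Finset.range m,
      (Δ * w ^ (k + 1) - Δ * w ^ (k + 2)) * hh s b (Δ * w ^ (k + 1))) ≤
      ∫⁻ ε in Ioc (Δ * w ^ (m + 1)) (Δ * w ^ 1), ENNReal.ofReal (hh s b ε) := by
    intro m
    induction m with
    | zero => simp
    | succ m ih =>
      have h1 : 0 ≤ (Δ * w ^ (m + 1) - Δ * w ^ (m + 2)) * hh s b (Δ * w ^ (m + 1)) :=
        mul_nonneg (by have := hdec (m + 1); linarith) (hh_nonneg _ _ _)
      rw [Finset.sum_range_succ, ENNReal.ofReal_add (Finset.sum_nonneg fun k _ =>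
        mul_nonneg (by have := hdec (k + 1); linarith) (hh_nonneg _ _ _)) h1]
      have h2 : Ioc (Δ * w ^ (m + 1 + 1)) (Δ * w ^ 1) =
          Ioc (Δ * w ^ (m + 1 + 1)) (Δ * w ^ (m + 1)) ∪ Ioc (Δ * w ^ (m + 1)) (Δ * w ^ 1) :=
        (Ioc_union_Ioc_eq_Ioc (hdec (m + 1)) (hdec1 m)).symm
      rw [h2, lintegral_union measurableSet_Ioc (Ioc_disjoint_Ioc_of_le le_rfl), add_comm]
      exact add_le_add (const_le s b (hpos _) (hdec (m + 1))) ih
  have h1 : ENNReal.ofReal (∑ k ∈ Finset.range m,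
      (Δ * w ^ (k + 1) - Δ * w ^ (k + 2)) * hh s b (Δ * w ^ (k + 1))) ≤ ENNReal.ofReal S := by
    refine (key m).trans (le_trans ?_ hJ)
    rw [J_eq]
    exact lintegral_mono_set fun ε hε => (hpos (m + 1)).trans hε.1
  have h2 := (ENNReal.ofReal_le_ofReal_iff hS).1 h1
  have hww : 0 < w * (1 - w) := mul_pos hw0 (by linarith)
  rw [le_div_iff₀ hww, Finset.sum_mul]
  refine le_trans (le_of_eq ?_) h2
  refine Finset.sum_congr rfl fun k _ => ?_
  show Δ * w ^ k * hh s b (Δ * w ^ (k + 1)) * (w * (1 - w)) = _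
  ring

end Pool.Agent.P8H68.RB
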