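import Pool.Agent.P8H68.RB.Stm
import Pool.Agent.P8H68.RB.Basic

/-!
# Package JM: entropy integrals with random multipliers
-/

set_option autoImplicit false

open MeasureTheory ProbabilityTheory Set Filter Topology
open scoped ENNReal NNReal

namespace Pool.Agent.P8H68.RB

namespace JMaux

/-- average of `|e^{ikt} - 1|²` over the ball of radius `ε` -/
noncomputable def qq (s : Finset ℕ) (b : ℕ → ℝ) (ε : ℝ) (k : ℕ) : ℝ :=
  (∫ t in ball' s b ε, ‖ex k t - 1‖ ^ 2) / (volume (ball' s b ε)).toReal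

section
variable (s : Finset ℕ) (b : ℕ → ℝ)

lemma qq_nonneg (ε : ℝ) (k : ℕ) : 0 ≤ qq s b ε k :=
  div_nonneg (integral_nonneg fun _ => by positivity) ENNReal.toReal_nonneg

lemma int_ex (ε : ℝ) (k : ℕ) : IntegrableOn (fun t => ‖ex k t - 1‖ ^ 2) (ball' s b ε) := by
  have h : IntegrableOn (fun t => ‖ex k t - 1‖ ^ 2) (Icc 0 (2 * Real.pi)) :=
    ((((continuous_ex k).sub continuous_const).norm.pow 2).continuousOn).integrableOn_Icc
  exact h.mono_set (ball'_subset s b ε)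

lemma int_dd (b' : ℕ → ℝ) (ε : ℝ) : IntegrableOn (fun t => dd s b' t ^ 2) (ball' s b ε) := by
  have h : IntegrableOn (fun t => dd s b' t ^ 2) (Icc 0 (2 * Real.pi)) :=
    (((continuous_dd s b').pow 2).continuousOn).integrableOn_Icc
  exact h.mono_set (ball'_subset s b ε)

lemma vol_pos {ε : ℝ} (hε : 0 < ε) : 0 < (volume (ball' s b ε)).toReal := by
  have h := mu_pos s b hε
  rw [mu_eq] at h
  by_contra hcon
  push Not at hcon
  have : (volume (ball' s b ε)).toReal / (2 * Real.pi) ≤ 0 :=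
    div_nonpos_of_nonpos_of_nonneg hcon (by positivity)
  linarith

lemma sum_qq (b' : ℕ → ℝ) (ε : ℝ) :
    ∑ k ∈ s, b' k ^ 2 * qq s b ε k =
      (∫ t in ball' s b ε, dd s b' t ^ 2) / (volume (ball' s b ε)).toReal := by
  simp only [dd_sq]
  rw [integral_finsetSum _ fun k _ => (int_ex s b ε k).const_mul _, Finset.sum_div]
  refine Finset.sum_congr rfl fun k _ => ?_
  rw [integral_const_mul, qq, mul_div_assoc]

lemma sum_qq_le {ε : ℝ} (hε : 0 < ε) : ∑ k ∈ s, b k ^ 2 * qq s b ε k ≤ ε ^ 2 := by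
  rw [sum_qq, div_le_iff₀ (vol_pos s b hε)]
  have h1 : ∫ t in ball' s b ε, dd s b t ^ 2 ≤ ∫ _ in ball' s b ε, ε ^ 2 := by
    refine setIntegral_mono_on (int_dd s b b ε) ?_ (ball'_meas s b ε) fun t ht => ?_
    · rw [integrableOn_const_iff]
      exact Or.inr (volume_ball'_lt_top s b ε)
    · exact pow_le_pow_left₀ (dd_nonneg s b t) ht.2 2
  rw [setIntegral_const, smul_eq_mul, measureReal_def] at h1
  linarith

lemma markov (b' : ℕ → ℝ) {ε : ℝ} (hε : 0 < ε) :
    mu s b ε / 2 ≤ mu s b' √(2 * ∑ k ∈ s, b' k ^ 2 * qq s b ε k) := by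
  set A := ∑ k ∈ s, b' k ^ 2 * qq s b ε k with hA
  have hA0 : 0 ≤ A := Finset.sum_nonneg fun k _ => mul_nonneg (sq_nonneg _) (qq_nonneg s b ε k)
  have hV := vol_pos s b hε
  have hAV : ∫ t in ball' s b ε, dd s b' t ^ 2 = A * (volume (ball' s b ε)).toReal := by
    rw [hA, sum_qq, div_mul_cancel₀ _ hV.ne']
  -- the bad set
  set bad : Set ℝ := {t | t ∈ ball' s b ε ∧ 2 * A < dd s b' t ^ 2} with hbad
  have hbadm : MeasurableSet bad :=
    (ball'_meas s b ε).inter (measurableSet_lt measurable_const ((continuous_dd s b').pow 2).measurable)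
  have hbadfin : volume bad < ⊤ :=
    lt_of_le_of_lt (measure_mono fun t ht => ht.1) (volume_ball'_lt_top s b ε)
  have hsub : ball' s b ε \ bad ⊆ ball' s b' √(2 * A) := by
    intro t ht
    refine ⟨ht.1.1, ?_⟩
    have h1 : ¬ (2 * A < dd s b' t ^ 2) := fun h => ht.2 ⟨ht.1, h⟩
    exact Real.le_sqrt_of_sq_le (not_lt.1 h1)
  have hbadle : (volume bad).toReal ≤ (volume (ball' s b ε)).toReal / 2 := by
    by_contra hcon
    push Not at hcon
    have hpos : 0 < (volume bad).toReal := lt_of_le_of_lt (by positivity) hcon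
    have h1 : ∫ t in bad, dd s b' t ^ 2 ≤ A * (volume (ball' s b ε)).toReal := by
      rw [← hAV]
      exact setIntegral_mono_set (int_dd s b b' ε) (Eventually.of_forall fun t => by positivity)
        (Eventually.of_forall fun t ht => ht.1)
    have hint : IntegrableOn (fun t => dd s b' t ^ 2) bad := (int_dd s b b' ε).mono_set fun t ht => ht.1
    have hintc : IntegrableOn (fun _ : ℝ => 2 * A) bad := by
      rw [integrableOn_const_iff]; exact Or.inr hbadfin
    have h2 : 0 < ∫ t in bad, (dd s b' t ^ 2 - 2 * A) := by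
      rw [setIntegral_pos_iff_support_of_nonneg_ae]
      · refine lt_of_lt_of_le (ENNReal.toReal_pos_iff.1 hpos).1 (measure_mono fun t ht => ⟨?_, ht⟩)
        exact (sub_pos.2 ht.2).ne'
      · rw [EventuallyLE, ae_restrict_iff' hbadm]
        exact Eventually.of_forall fun t ht => (sub_pos.2 ht.2).le
      · exact hint.sub hintc
    rw [integral_sub hint hintc, setIntegral_const, smul_eq_mul, measureReal_def] at h2
    nlinarith
  have hsplit : (volume (ball' s b ε)).toReal - (volume bad).toReal ≤ (volume (ball' s b' √(2 * A))).toReal := by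
    have h1 : volume (ball' s b ε) ≤ volume (ball' s b' √(2 * A)) + volume bad := by
      refine (measure_mono (fun t ht => ?_)).trans (measure_union_le _ _)
      by_cases h : t ∈ bad
      · exact Or.inr h
      · exact Or.inl (hsub ⟨ht, h⟩)
    have h2 := ENNReal.toReal_mono (ENNReal.add_lt_top.2 ⟨volume_ball'_lt_top s b' _, hbadfin⟩).ne h1
    rw [ENNReal.toReal_add (volume_ball'_lt_top s b' _).ne hbadfin.ne] at h2
    linarith
  rw [mu_eq, mu_eq, div_right_comm]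
  exact div_le_div_of_nonneg_right (by linarith) (by positivity)

/-- the deterministic estimate -/
lemma J_le (b' : ℕ → ℝ) {Δ : ℝ} (hΔ : 0 < Δ) (hΔ2 : 2 * √(∑ k ∈ s, b k ^ 2) ≤ Δ)
    (hlim : Tendsto (fun j : ℕ => √(2 * ∑ k ∈ s, b' k ^ 2 * qq s b (Δ * (1 / 2) ^ j) k)) atTop (𝓝 0)) :
    J s b' ≤ ∑' j : ℕ, ENNReal.ofReal (√(2 * ∑ k ∈ s, b' k ^ 2 * qq s b (Δ * (1 / 2) ^ j) k)) *
        ENNReal.ofReal (1 + hh s b (Δ * (1 / 2) ^ (j + 1))) +
      ENNReal.ofReal (2 * √(∑ k ∈ s, b' k ^ 2)) := by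
  set x : ℕ → ℝ := fun j => √(2 * ∑ k ∈ s, b' k ^ 2 * qq s b (Δ * (1 / 2) ^ j) k) with hx
  have hpos : ∀ j : ℕ, 0 < Δ * (1 / 2) ^ j := fun j => by positivity
  have hx0 : ∀ j, 0 ≤ x j := fun j => Real.sqrt_nonneg _
  have hmk : ∀ j, mu s b (Δ * (1 / 2) ^ j) / 2 ≤ mu s b' (x j) := fun j => markov s b b' (hpos j)
  have hl2 : Real.log 2 ≤ 1 := by have := Real.log_two_lt_d9; linarith
  have hl20 : 0 ≤ Real.log 2 := Real.log_nonneg (by norm_num)
  -- bound for `hh` above `x j`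
  have hbd : ∀ (j : ℕ) (y : ℝ), x j ≤ y → hh s b' y ≤ 1 + hh s b (Δ * (1 / 2) ^ j) := by
    intro j y hy
    have hm := mu_pos s b (hpos j)
    have h1 : mu s b (Δ * (1 / 2) ^ j) / 2 ≤ mu s b' y := (hmk j).trans (mu_mono s b' hy)
    have h2 : Real.log (1 / mu s b' y) ≤ Real.log 2 + Real.log (1 / mu s b (Δ * (1 / 2) ^ j)) := by
      rw [← Real.log_mul (by norm_num) (by positivity)]
      refine Real.log_le_log (by have : 0 < mu s b' y := by linarith
                                 positivity) ?_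
      rw [mul_one_div]
      calc 1 / mu s b' y ≤ 1 / (mu s b (Δ * (1 / 2) ^ j) / 2) := one_div_le_one_div_of_le (by positivity) h1
        _ = _ := by rw [one_div_div]
    have h3 : 0 ≤ Real.log (1 / mu s b (Δ * (1 / 2) ^ j)) := by
      refine Real.log_nonneg ?_
      rw [le_div_iff₀ hm, one_mul]
      exact mu_le_one s b _
    unfold hh
    rw [Real.sqrt_le_left (by positivity)]
    refine h2.trans ?_
    rw [add_sq, Real.sq_sqrt h3]
    have : 0 ≤ 2 * 1 * √(Real.log (1 / mu s b (Δ * (1 / 2) ^ j))) := by positivity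
    linarith
  have hbd0 : ∀ y : ℝ, x 0 ≤ y → hh s b' y ≤ 1 := by
    intro y hy
    have := hbd 0 y hy
    rw [hh_eq_zero s b (by rw [pow_zero, mul_one]; exact hΔ2)] at this
    linarith
  have hcov : Ioi (0 : ℝ) ⊆ (⋃ j : ℕ, Ico (x (j + 1)) (x j)) ∪ (Ico (x 0) (2 * √(∑ k ∈ s, b' k ^ 2)) ∪
      Ici (2 * √(∑ k ∈ s, b' k ^ 2))) := by
    intro y hy
    rw [Set.mem_Ioi] at hy
    by_cases h0 : x 0 ≤ y
    · right
      rcases lt_or_ge y (2 * √(∑ k ∈ s, b' k ^ 2)) with h1 | h1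
      · exact Or.inl ⟨h0, h1⟩
      · exact Or.inr h1
    · left
      classical
      obtain ⟨n, hn⟩ : ∃ n, x n ≤ y := by
        obtain ⟨n, hn⟩ := (hlim.eventually_lt_const hy).exists
        exact ⟨n, hn.le⟩
      have hex : ∃ n, x n ≤ y := ⟨n, hn⟩
      set N := Nat.find hex with hN
      have hN1 : x N ≤ y := Nat.find_spec hex
      have hN0 : N ≠ 0 := by
        intro h; rw [h] at hN1; exact h0 hN1
      obtain ⟨M, hM⟩ := Nat.exists_eq_succ_of_ne_zero hN0
      refine Set.mem_iUnion.2 ⟨M, ?_, ?_⟩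
      · rw [Nat.succ_eq_add_one] at hM
        rw [← hM]; exact hN1
      · have := Nat.find_min hex (m := M) (by omega)
        exact not_le.1 this
  rw [J_eq]
  calc ∫⁻ ε in Ioi (0 : ℝ), ENNReal.ofReal (hh s b' ε)
      ≤ ∫⁻ ε in (⋃ j : ℕ, Ico (x (j + 1)) (x j)) ∪ (Ico (x 0) (2 * √(∑ k ∈ s, b' k ^ 2)) ∪
          Ici (2 * √(∑ k ∈ s, b' k ^ 2))), ENNReal.ofReal (hh s b' ε) := lintegral_mono_set hcov
    _ ≤ (∫⁻ ε in (⋃ j : ℕ, Ico (x (j + 1)) (x j)), ENNReal.ofReal (hh s b' ε)) +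
        ((∫⁻ ε in Ico (x 0) (2 * √(∑ k ∈ s, b' k ^ 2)), ENNReal.ofReal (hh s b' ε)) +
        ∫⁻ ε in Ici (2 * √(∑ k ∈ s, b' k ^ 2)), ENNReal.ofReal (hh s b' ε)) :=
        (lintegral_union_le _ _ _).trans (add_le_add le_rfl (lintegral_union_le _ _ _))
    _ ≤ ∑' j : ℕ, ENNReal.ofReal (x j) * ENNReal.ofReal (1 + hh s b (Δ * (1 / 2) ^ (j + 1))) +
        (ENNReal.ofReal (2 * √(∑ k ∈ s, b' k ^ 2)) + 0) := by
        refine add_le_add ?_ (add_le_add ?_ ?_)
        · refine (lintegral_iUnion_le _ _).trans (ENNReal.tsum_le_tsum fun j => ?_)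
          calc ∫⁻ ε in Ico (x (j + 1)) (x j), ENNReal.ofReal (hh s b' ε)
              ≤ ∫⁻ _ in Ico (x (j + 1)) (x j), ENNReal.ofReal (1 + hh s b (Δ * (1 / 2) ^ (j + 1))) := by
                refine setLIntegral_mono measurable_const fun y hy => ?_
                exact ENNReal.ofReal_le_ofReal (hbd (j + 1) y hy.1)
            _ ≤ _ := by
                rw [setLIntegral_const, Real.volume_Ico, mul_comm]
                gcongr
                have := hx0 (j + 1)
                linarith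
        · calc ∫⁻ ε in Ico (x 0) (2 * √(∑ k ∈ s, b' k ^ 2)), ENNReal.ofReal (hh s b' ε)
              ≤ ∫⁻ _ in Ico (x 0) (2 * √(∑ k ∈ s, b' k ^ 2)), 1 := by
                refine setLIntegral_mono measurable_const fun y hy => ?_
                rw [← ENNReal.ofReal_one]
                exact ENNReal.ofReal_le_ofReal (hbd0 y hy.1)
            _ ≤ _ := by
                rw [setLIntegral_const, Real.volume_Ico, one_mul]
                refine ENNReal.ofReal_le_ofReal ?_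
                have := hx0 0
                linarith
        · rw [setLIntegral_congr_fun (g := fun _ => 0) measurableSet_Ici, lintegral_zero]
          intro y hy
          simp only
          rw [hh_eq_zero s b' hy, ENNReal.ofReal_zero]
    _ = _ := by rw [add_zero]

/-- the lower sum over dyadic scales -/
lemma lower_sum {Δ : ℝ} (hΔ : 0 < Δ) :
    ∑' j : ℕ, ENNReal.ofReal (Δ * (1 / 2) ^ j * hh s b (Δ * (1 / 2) ^ (j + 1))) ≤ 4 * J s b := by
  have hpos : ∀ j : ℕ, 0 < Δ * (1 / 2) ^ j := fun j => by positivity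
  have hdisj : Pairwise (Function.onFun Disjoint
      (fun j : ℕ => Ioc (Δ * (1 / 2) ^ (j + 2)) (Δ * (1 / 2) ^ (j + 1)))) := by
    have hanti : Antitone (fun j : ℕ => Δ * (1 / 2 : ℝ) ^ (j + 1)) := by
      intro i j hij
      have : (1 / 2 : ℝ) ^ (j + 1) ≤ (1 / 2) ^ (i + 1) :=
        pow_le_pow_of_le_one (by norm_num) (by norm_num) (by omega)
      exact mul_le_mul_of_nonneg_left this hΔ.le
    exact hanti.pairwise_disjoint_on_Ioc_succ
  have h1 : ∑' j : ℕ, ∫⁻ ε in Ioc (Δ * (1 / 2) ^ (j + 2)) (Δ * (1 / 2) ^ (j + 1)), ENNReal.ofReal (hh s b ε)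
      ≤ J s b := by
    rw [← lintegral_iUnion (fun j => measurableSet_Ioc) hdisj, J_eq]
    refine lintegral_mono_set (Set.iUnion_subset fun j y hy => ?_)
    exact (hpos _).trans hy.1
  have h2 : ∀ j : ℕ, ENNReal.ofReal (Δ * (1 / 2) ^ j * hh s b (Δ * (1 / 2) ^ (j + 1))) ≤
      4 * ∫⁻ ε in Ioc (Δ * (1 / 2) ^ (j + 2)) (Δ * (1 / 2) ^ (j + 1)), ENNReal.ofReal (hh s b ε) := by
    intro j
    have h3 : ∫⁻ _ in Ioc (Δ * (1 / 2) ^ (j + 2)) (Δ * (1 / 2) ^ (j + 1)),
        ENNReal.ofReal (hh s b (Δ * (1 / 2) ^ (j + 1))) ≤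
        ∫⁻ ε in Ioc (Δ * (1 / 2) ^ (j + 2)) (Δ * (1 / 2) ^ (j + 1)), ENNReal.ofReal (hh s b ε) := by
      refine setLIntegral_mono' measurableSet_Ioc fun y hy => ?_
      exact ENNReal.ofReal_le_ofReal (hh_anti s b ((hpos _).trans hy.1) hy.2)
    rw [setLIntegral_const, Real.volume_Ioc, ← ENNReal.ofReal_mul (hh_nonneg _ _ _)] at h3
    refine le_trans ?_ (mul_le_mul_right h3 4)
    rw [show (4 : ℝ≥0∞) = ENNReal.ofReal 4 by norm_num, ← ENNReal.ofReal_mul (by norm_num)]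
    refine ENNReal.ofReal_le_ofReal (le_of_eq ?_)
    rw [pow_succ, pow_succ]
    ring
  calc _ ≤ ∑' j : ℕ, 4 * ∫⁻ ε in Ioc (Δ * (1 / 2) ^ (j + 2)) (Δ * (1 / 2) ^ (j + 1)), ENNReal.ofReal (hh s b ε) :=
        ENNReal.tsum_le_tsum h2
    _ = 4 * ∑' j : ℕ, ∫⁻ ε in Ioc (Δ * (1 / 2) ^ (j + 2)) (Δ * (1 / 2) ^ (j + 1)), ENNReal.ofReal (hh s b ε) :=
        ENNReal.tsum_mul_left
    _ ≤ 4 * J s b := mul_le_mul_right h1 4

end

/-- expectation of the norm of a vector with random multipliers -/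
lemma exp_norm {Ω : Type} [MeasurableSpace Ω] (P : Measure Ω) [IsProbabilityMeasure P] (m : ℕ → Ω → ℝ) {σ : ℝ}
    (hm : ∀ k, Measurable (m k)) (hσ : 0 < σ)
    (h : ∀ k, ∫⁻ ω, ENNReal.ofReal (m k ω ^ 2) ∂P ≤ ENNReal.ofReal (σ ^ 2)) (s : Finset ℕ) (q : ℕ → ℝ)
    (hq : ∀ k, 0 ≤ q k) {ρ : ℝ} (hρ : 0 < ρ) (hqs : ∑ k ∈ s, q k ≤ ρ ^ 2) :
    ∫⁻ ω, ENNReal.ofReal √(∑ k ∈ s, q k * m k ω ^ 2) ∂P ≤ ENNReal.ofReal (σ * ρ) := by
  have ht : 0 < σ * ρ := by positivity
  have hpt : ∀ ω, ENNReal.ofReal √(∑ k ∈ s, q k * m k ω ^ 2) ≤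
      ENNReal.ofReal (1 / (2 * (σ * ρ))) * (∑ k ∈ s, ENNReal.ofReal (q k) * ENNReal.ofReal (m k ω ^ 2)) +
        ENNReal.ofReal (σ * ρ / 2) := by
    intro ω
    have h0 : 0 ≤ ∑ k ∈ s, q k * m k ω ^ 2 := Finset.sum_nonneg fun k _ => mul_nonneg (hq k) (sq_nonneg _)
    have h1 : ∑ k ∈ s, ENNReal.ofReal (q k) * ENNReal.ofReal (m k ω ^ 2) =
        ENNReal.ofReal (∑ k ∈ s, q k * m k ω ^ 2) := by
      rw [ENNReal.ofReal_sum_of_nonneg fun k _ => mul_nonneg (hq k) (sq_nonneg _)]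
      exact Finset.sum_congr rfl fun k _ => (ENNReal.ofReal_mul (hq k)).symm
    rw [h1, ← ENNReal.ofReal_mul (by positivity), ← ENNReal.ofReal_add (by positivity) (by positivity)]
    refine ENNReal.ofReal_le_ofReal ?_
    set y := ∑ k ∈ s, q k * m k ω ^ 2 with hy
    have h2 : √y ^ 2 = y := Real.sq_sqrt h0
    have h3 : 1 / (2 * (σ * ρ)) * y + σ * ρ / 2 = (y + (σ * ρ) ^ 2) / (2 * (σ * ρ)) := by
      field_simp
    rw [h3, le_div_iff₀ (by positivity)]
    nlinarith [sq_nonneg (√y - σ * ρ)]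
  have hmeas : Measurable fun ω => ∑ k ∈ s, ENNReal.ofReal (q k) * ENNReal.ofReal (m k ω ^ 2) :=
    Finset.measurable_fun_sum s fun k _ => ((hm k).pow_const 2).ennreal_ofReal.const_mul _
  calc ∫⁻ ω, ENNReal.ofReal √(∑ k ∈ s, q k * m k ω ^ 2) ∂P
      ≤ ∫⁻ ω, (ENNReal.ofReal (1 / (2 * (σ * ρ))) *
          (∑ k ∈ s, ENNReal.ofReal (q k) * ENNReal.ofReal (m k ω ^ 2)) + ENNReal.ofReal (σ * ρ / 2)) ∂P :=
        lintegral_mono hpt
    _ = ENNReal.ofReal (1 / (2 * (σ * ρ))) *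
          (∑ k ∈ s, ENNReal.ofReal (q k) * ∫⁻ ω, ENNReal.ofReal (m k ω ^ 2) ∂P) + ENNReal.ofReal (σ * ρ / 2) := by
        rw [lintegral_add_right _ measurable_const, lintegral_const_mul _ hmeas, lintegral_const,
          measure_univ, mul_one, lintegral_finsetSum _ fun k _ => ((hm k).pow_const 2).ennreal_ofReal.const_mul _]
        congr 2
        refine Finset.sum_congr rfl fun k _ => ?_
        rw [lintegral_const_mul _ ((hm k).pow_const 2).ennreal_ofReal]
    _ ≤ ENNReal.ofReal (1 / (2 * (σ * ρ))) *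
          (∑ k ∈ s, ENNReal.ofReal (q k) * ENNReal.ofReal (σ ^ 2)) + ENNReal.ofReal (σ * ρ / 2) := by
        gcongr with k hk
        exact h k
    _ = ENNReal.ofReal (1 / (2 * (σ * ρ)) * ((∑ k ∈ s, q k) * σ ^ 2) + σ * ρ / 2) := by
        rw [← Finset.sum_mul, ← ENNReal.ofReal_sum_of_nonneg fun k _ => hq k,
          ← ENNReal.ofReal_mul (Finset.sum_nonneg fun k _ => hq k), ← ENNReal.ofReal_mul (by positivity),
          ← ENNReal.ofReal_add _ (by positivity)]
        exact mul_nonneg (by positivity) (mul_nonneg (Finset.sum_nonneg fun k _ => hq k) (sq_nonneg _))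
    _ ≤ ENNReal.ofReal (σ * ρ) := by
        refine ENNReal.ofReal_le_ofReal ?_
        have h1 : (∑ k ∈ s, q k) * σ ^ 2 ≤ ρ ^ 2 * σ ^ 2 := mul_le_mul_of_nonneg_right hqs (sq_nonneg _)
        have h2 : 1 / (2 * (σ * ρ)) * ((∑ k ∈ s, q k) * σ ^ 2) ≤ 1 / (2 * (σ * ρ)) * (ρ ^ 2 * σ ^ 2) :=
          mul_le_mul_of_nonneg_left h1 (by positivity)
        have h3 : 1 / (2 * (σ * ρ)) * (ρ ^ 2 * σ ^ 2) = σ * ρ / 2 := by field_simp
        linarith

end JMaux

open JMaux

/-- package JM -/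
theorem part_JM : S_JM := by
  refine ⟨12, by norm_num, ?_⟩
  intro Ω _ P _ m σ hm hσ0 h K b
  set s := Finset.range K with hs
  rcases hσ0.eq_or_lt with h0 | hσ
  · -- all multipliers vanish
    have h1 : ∀ᵐ ω ∂P, ∀ k, m k ω = 0 := by
      rw [ae_all_iff]
      intro k
      have h2 := h k
      rw [← h0] at h2
      simp only [ne_eq, OfNat.ofNat_ne_zero, not_false_eq_true, zero_pow, ENNReal.ofReal_zero, nonpos_iff_eq_zero] at h2
      rw [lintegral_eq_zero_iff ((hm k).pow_const 2).ennreal_ofReal] at h2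
      filter_upwards [h2] with ω hω
      have h3 : ENNReal.ofReal (m k ω ^ 2) = 0 := hω
      rw [ENNReal.ofReal_eq_zero] at h3
      exact pow_eq_zero_iff (two_ne_zero) |>.1 (le_antisymm h3 (sq_nonneg _))
    have h2 : ∫⁻ ω, J s (fun k => b k * m k ω) ∂P = 0 := by
      rw [lintegral_congr_ae (g := fun _ => 0), lintegral_zero]
      filter_upwards [h1] with ω hω
      rw [J_eq, setLIntegral_congr_fun (g := fun _ => 0) measurableSet_Ioi, lintegral_zero]
      intro ε hε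
      simp only
      rw [hh_eq_zero _ _ (by simp only [hω, mul_zero]; simp; exact le_of_lt hε), ENNReal.ofReal_zero]
    rw [h2]
    exact zero_le
  have hn0 : 0 ≤ √(∑ k ∈ s, b k ^ 2) := Real.sqrt_nonneg _
  rcases hn0.eq_or_lt with hb | hb
  · -- all coefficients vanish
    have hb2 : ∀ k ∈ s, b k = 0 := by
      have h1 : ∑ k ∈ s, b k ^ 2 = 0 := by
        have h2 : √(∑ k ∈ s, b k ^ 2) = 0 := hb.symm
        rwa [Real.sqrt_eq_zero (Finset.sum_nonneg fun k _ => sq_nonneg _)] at h2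
      intro k hk
      have h3 := (Finset.sum_eq_zero_iff_of_nonneg (fun k _ => sq_nonneg (b k))).1 h1 k hk
      exact pow_eq_zero_iff (two_ne_zero) |>.1 h3
    have h2 : ∫⁻ ω, J s (fun k => b k * m k ω) ∂P = 0 := by
      rw [lintegral_congr_ae (g := fun _ => 0), lintegral_zero]
      refine Eventually.of_forall fun ω => ?_
      simp only
      rw [J_eq, setLIntegral_congr_fun (g := fun _ => 0) measurableSet_Ioi, lintegral_zero]
      intro ε hε
      simp only
      have h3 : ∑ k ∈ s, (b k * m k ω) ^ 2 = 0 :=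
        Finset.sum_eq_zero fun k hk => by rw [hb2 k hk]; ring
      rw [hh_eq_zero _ _ (by rw [h3]; simp; exact le_of_lt hε), ENNReal.ofReal_zero]
    rw [h2]
    exact zero_le
  set nb : ℝ := √(∑ k ∈ s, b k ^ 2) with hnb
  set Δ : ℝ := 2 * nb with hΔdef
  have hΔ : 0 < Δ := by positivity
  have hpos : ∀ j : ℕ, 0 < Δ * (1 / 2) ^ j := fun j => by positivity
  set x : ℕ → Ω → ℝ := fun j ω => √(2 * ∑ k ∈ s, (b k * m k ω) ^ 2 * qq s b (Δ * (1 / 2) ^ j) k) with hx
  have hxeq : ∀ j ω, x j ω = √(∑ k ∈ s, (2 * b k ^ 2 * qq s b (Δ * (1 / 2) ^ j) k) * m k ω ^ 2) := by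
    intro j ω
    simp only [hx]
    rw [Finset.mul_sum]
    congr 1
    exact Finset.sum_congr rfl fun k _ => by ring
  have hxm : ∀ j, Measurable (x j) := by
    intro j
    simp only [hx]
    refine (Measurable.const_mul (Finset.measurable_fun_sum s fun k _ => ?_) 2).sqrt
    exact (((hm k).const_mul _).pow_const 2).mul_const _
  have hEx : ∀ j, ∫⁻ ω, ENNReal.ofReal (x j ω) ∂P ≤ ENNReal.ofReal (2 * σ * (Δ * (1 / 2) ^ j)) := by
    intro j
    have h1 := exp_norm P m hm hσ h s (fun k => 2 * b k ^ 2 * qq s b (Δ * (1 / 2) ^ j) k)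
      (fun k => mul_nonneg (by positivity) (qq_nonneg s b _ k)) (ρ := 2 * (Δ * (1 / 2) ^ j))
      (by have := hpos j; positivity) (by
        have h2 := sum_qq_le s b (hpos j)
        have h3 : ∑ k ∈ s, 2 * b k ^ 2 * qq s b (Δ * (1 / 2) ^ j) k =
            2 * ∑ k ∈ s, b k ^ 2 * qq s b (Δ * (1 / 2) ^ j) k := by
          rw [Finset.mul_sum]; exact Finset.sum_congr rfl fun k _ => by ring
        rw [h3]
        nlinarith [sq_nonneg (Δ * (1 / 2) ^ j)])
    simp only [hxeq]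
    refine h1.trans (le_of_eq ?_)
    congr 1
    ring
  have hEn : ∫⁻ ω, ENNReal.ofReal √(∑ k ∈ s, (b k * m k ω) ^ 2) ∂P ≤ ENNReal.ofReal (σ * nb) := by
    have h1 := exp_norm P m hm hσ h s (fun k => b k ^ 2) (fun k => sq_nonneg _) hb
      (by rw [Real.sq_sqrt (Finset.sum_nonneg fun k _ => sq_nonneg _)])
    simpa only [mul_pow] using h1
  have hpt : ∀ ω, J s (fun k => b k * m k ω) ≤
      ∑' j : ℕ, ENNReal.ofReal (x j ω) * ENNReal.ofReal (1 + hh s b (Δ * (1 / 2) ^ (j + 1))) +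
      ENNReal.ofReal (2 * √(∑ k ∈ s, (b k * m k ω) ^ 2)) := by
    intro ω
    refine J_le s b (fun k => b k * m k ω) hΔ le_rfl ?_
    -- the limit
    set M : ℝ := ∑ k ∈ s, m k ω ^ 2 with hM
    have hM0 : 0 ≤ M := Finset.sum_nonneg fun k _ => sq_nonneg _
    have hle : ∀ j : ℕ, √(2 * ∑ k ∈ s, (b k * m k ω) ^ 2 * qq s b (Δ * (1 / 2) ^ j) k) ≤
        √(2 * M) * (Δ * (1 / 2) ^ j) := by
      intro j
      rw [Real.sqrt_le_left (by have := hpos j; positivity), mul_pow,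
        Real.sq_sqrt (by positivity)]
      have h1 : ∑ k ∈ s, (b k * m k ω) ^ 2 * qq s b (Δ * (1 / 2) ^ j) k ≤ M * (Δ * (1 / 2) ^ j) ^ 2 := by
        calc ∑ k ∈ s, (b k * m k ω) ^ 2 * qq s b (Δ * (1 / 2) ^ j) k
            ≤ ∑ k ∈ s, M * (b k ^ 2 * qq s b (Δ * (1 / 2) ^ j) k) := by
              refine Finset.sum_le_sum fun k hk => ?_
              have h2 : m k ω ^ 2 ≤ M :=
                Finset.single_le_sum (f := fun k => m k ω ^ 2) (fun k _ => sq_nonneg _) hk
              have h3 : 0 ≤ b k ^ 2 * qq s b (Δ * (1 / 2) ^ j) k :=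
                mul_nonneg (sq_nonneg _) (qq_nonneg s b _ k)
              calc (b k * m k ω) ^ 2 * qq s b (Δ * (1 / 2) ^ j) k
                  = m k ω ^ 2 * (b k ^ 2 * qq s b (Δ * (1 / 2) ^ j) k) := by ring
                _ ≤ _ := mul_le_mul_of_nonneg_right h2 h3
          _ = M * ∑ k ∈ s, b k ^ 2 * qq s b (Δ * (1 / 2) ^ j) k := by rw [Finset.mul_sum]
          _ ≤ M * (Δ * (1 / 2) ^ j) ^ 2 := mul_le_mul_of_nonneg_left (sum_qq_le s b (hpos j)) hM0
      linarith
    have hlim : Tendsto (fun j : ℕ => √(2 * M) * (Δ * (1 / 2 : ℝ) ^ j)) atTop (𝓝 0) := by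
      have := ((tendsto_pow_atTop_nhds_zero_of_lt_one (by norm_num : (0 : ℝ) ≤ 1 / 2) (by norm_num)).const_mul
        Δ).const_mul √(2 * M)
      rwa [mul_zero, mul_zero] at this
    exact squeeze_zero (fun j => Real.sqrt_nonneg _) hle hlim
  have hlow := lower_sum s b hΔ
  have hgeo : ∑' j : ℕ, ENNReal.ofReal (Δ * (1 / 2) ^ j) ≤ ENNReal.ofReal (2 * Δ) := by
    rw [← ENNReal.ofReal_tsum_of_nonneg (fun j => (hpos j).le)
      ((summable_geometric_of_lt_one (by norm_num) (by norm_num)).mul_left Δ)]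
    refine ENNReal.ofReal_le_ofReal ?_
    rw [tsum_mul_left, tsum_geometric_of_lt_one (by norm_num) (by norm_num)]
    norm_num
    linarith
  have hmeasj : ∀ j, AEMeasurable
      (fun ω => ENNReal.ofReal (x j ω) * ENNReal.ofReal (1 + hh s b (Δ * (1 / 2) ^ (j + 1)))) P :=
    fun j => ((hxm j).ennreal_ofReal.mul_const _).aemeasurable
  calc ∫⁻ ω, J s (fun k => b k * m k ω) ∂P
      ≤ ∫⁻ ω, (∑' j : ℕ, ENNReal.ofReal (x j ω) * ENNReal.ofReal (1 + hh s b (Δ * (1 / 2) ^ (j + 1))) +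
          ENNReal.ofReal (2 * √(∑ k ∈ s, (b k * m k ω) ^ 2))) ∂P := lintegral_mono hpt
    _ = ∑' j : ℕ, ∫⁻ ω, ENNReal.ofReal (x j ω) * ENNReal.ofReal (1 + hh s b (Δ * (1 / 2) ^ (j + 1))) ∂P +
          ∫⁻ ω, ENNReal.ofReal (2 * √(∑ k ∈ s, (b k * m k ω) ^ 2)) ∂P := by
        rw [lintegral_add_right', lintegral_tsum hmeasj]
        refine (Measurable.ennreal_ofReal ?_).aemeasurable
        refine Measurable.const_mul (Measurable.sqrt ?_) 2
        exact Finset.measurable_fun_sum s fun k _ => ((hm k).const_mul _).pow_const 2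
    _ ≤ ∑' j : ℕ, (ENNReal.ofReal (2 * σ) * (ENNReal.ofReal (Δ * (1 / 2) ^ j) +
          ENNReal.ofReal (Δ * (1 / 2) ^ j * hh s b (Δ * (1 / 2) ^ (j + 1))))) +
          ENNReal.ofReal (2 * σ) * ENNReal.ofReal nb := by
        refine add_le_add (ENNReal.tsum_le_tsum fun j => ?_) ?_
        · rw [lintegral_mul_const _ (hxm j).ennreal_ofReal]
          calc (∫⁻ ω, ENNReal.ofReal (x j ω) ∂P) * ENNReal.ofReal (1 + hh s b (Δ * (1 / 2) ^ (j + 1)))
              ≤ ENNReal.ofReal (2 * σ * (Δ * (1 / 2) ^ j)) * ENNReal.ofReal (1 + hh s b (Δ * (1 / 2) ^ (j + 1))) := by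
                gcongr
                exact hEx j
            _ = _ := by
                have h1 := hh_nonneg s b (Δ * (1 / 2) ^ (j + 1))
                have h2 := hpos j
                rw [← ENNReal.ofReal_mul (by positivity), ← ENNReal.ofReal_add (by positivity) (by positivity),
                  ← ENNReal.ofReal_mul (by positivity)]
                congr 1
                ring
        · have h1 : ∀ ω, ENNReal.ofReal (2 * √(∑ k ∈ s, (b k * m k ω) ^ 2)) =
              2 * ENNReal.ofReal √(∑ k ∈ s, (b k * m k ω) ^ 2) := by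
            intro ω
            rw [ENNReal.ofReal_mul (by norm_num)]
            norm_num
          simp only [h1]
          rw [lintegral_const_mul]
          · calc 2 * ∫⁻ ω, ENNReal.ofReal √(∑ k ∈ s, (b k * m k ω) ^ 2) ∂P ≤ 2 * ENNReal.ofReal (σ * nb) := by
                  gcongr
              _ = _ := by
                  rw [ENNReal.ofReal_mul hσ.le, ENNReal.ofReal_mul (by norm_num : (0:ℝ) ≤ 2), ← mul_assoc]
                  norm_num
          · refine Measurable.ennreal_ofReal (Measurable.sqrt ?_)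
            exact Finset.measurable_fun_sum s fun k _ => ((hm k).const_mul _).pow_const 2
    _ = ENNReal.ofReal (2 * σ) * (∑' j : ℕ, ENNReal.ofReal (Δ * (1 / 2) ^ j) +
          ∑' j : ℕ, ENNReal.ofReal (Δ * (1 / 2) ^ j * hh s b (Δ * (1 / 2) ^ (j + 1))) + ENNReal.ofReal nb) := by
        rw [ENNReal.tsum_mul_left, ENNReal.tsum_add, ← mul_add]
    _ ≤ ENNReal.ofReal (2 * σ) * (ENNReal.ofReal (2 * Δ) + 4 * J s b + ENNReal.ofReal nb) := by
        gcongr
    _ ≤ ENNReal.ofReal (2 * σ) * (6 * (J s b + ENNReal.ofReal nb)) := by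
        gcongr
        have h1 : ENNReal.ofReal (2 * Δ) + ENNReal.ofReal nb ≤ 6 * ENNReal.ofReal nb := by
          rw [← ENNReal.ofReal_add (by positivity) hb.le, show (6 : ℝ≥0∞) = ENNReal.ofReal 6 by norm_num,
            ← ENNReal.ofReal_mul (by norm_num)]
          exact ENNReal.ofReal_le_ofReal (by rw [hΔdef]; linarith)
        have h2 : (4 : ℝ≥0∞) * J s b ≤ 6 * J s b := by gcongr; norm_num
        calc ENNReal.ofReal (2 * Δ) + 4 * J s b + ENNReal.ofReal nb
            = 4 * J s b + (ENNReal.ofReal (2 * Δ) + ENNReal.ofReal nb) := by ring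
          _ ≤ 6 * J s b + 6 * ENNReal.ofReal nb := add_le_add h2 h1
          _ = _ := by ring
    _ = ENNReal.ofReal (12 * σ) * (J s b + ENNReal.ofReal nb) := by
        rw [← mul_assoc, show (6 : ℝ≥0∞) = ENNReal.ofReal 6 by norm_num, ← ENNReal.ofReal_mul (by positivity)]
        congr 2
        ring

end Pool.Agent.P8H68.RB
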