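import Pool.Agent.P8H68.RB.Stm
import Pool.Agent.P8H68.RB.Basic

/-!
# Necessity for a sequence of weights (package NEC; helper47)
-/

set_option autoImplicit false

open MeasureTheory ProbabilityTheory Set Filter Topology
open scoped ENNReal
open Pool.Agent.W823.CT

namespace Pool.Agent.P8H68.RB

namespace NECaux

section
variable (v : ℕ → ℕ → ℝ) (a : ℕ → ℂ)

/-- sections of the series -/
noncomputable def SS (j N : ℕ) (θ : ℝ) (z : ℕ → ℂ) : ℂ :=
  ∑ k ∈ Finset.range N, (v j k : ℂ) * a k * z k * ex k θ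

/-- the sum of the series -/
noncomputable def FF (j : ℕ) (θ : ℝ) (z : ℕ → ℂ) : ℂ :=
  ∑' k, (v j k : ℂ) * a k * z k * ex k θ

/-- supremum over all weights and rational angles -/
noncomputable def ZZ (z : ℕ → ℂ) : ℝ≥0∞ :=
  ⨆ j : ℕ, ⨆ θ : ℚ, liminf (fun N : ℕ => ENNReal.ofReal ‖SS v a j N (θ : ℝ) z‖) atTop

lemma measurable_ZZ : Measurable (ZZ v a) := by
  refine Measurable.iSup fun j => Measurable.iSup fun θ => Measurable.liminf fun N => ?_
  refine Measurable.ennreal_ofReal (Measurable.norm ?_)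
  refine Finset.measurable_sum _ fun k _ => ?_
  exact (measurable_const.mul (measurable_pi_apply k)).mul measurable_const

variable {v a} (hv : ∀ j k, 0 ≤ v j k) (hs : ∀ j, Summable fun k => v j k * ‖a k‖)
include hv hs

lemma summable_terms (j : ℕ) (θ : ℝ) {z : ℕ → ℂ} (hz : ∀ k, ‖z k‖ = 1) :
    Summable fun k => (v j k : ℂ) * a k * z k * ex k θ := by
  refine Summable.of_norm ?_
  convert hs j using 2 with k
  rw [norm_mul, norm_mul, norm_mul, norm_ex, hz, Complex.norm_real, Real.norm_of_nonneg (hv j k)]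
  ring

lemma continuous_FF (j : ℕ) {z : ℕ → ℂ} (hz : ∀ k, ‖z k‖ = 1) :
    Continuous fun θ => FF v a j θ z := by
  refine continuous_tsum (u := fun k => v j k * ‖a k‖) (fun k => ?_) (hs j) fun k θ => ?_
  · exact continuous_const.mul (continuous_ex k)
  · rw [norm_mul, norm_mul, norm_mul, norm_ex, hz, Complex.norm_real, Real.norm_of_nonneg (hv j k)]
    linarith

lemma liminf_SS (j : ℕ) (θ : ℝ) {z : ℕ → ℂ} (hz : ∀ k, ‖z k‖ = 1) :
    liminf (fun N : ℕ => ENNReal.ofReal ‖SS v a j N θ z‖) atTop = ENNReal.ofReal ‖FF v a j θ z‖ := by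
  have h1 := (summable_terms hv hs j θ hz).hasSum.tendsto_sum_nat
  have h2 : Tendsto (fun N : ℕ => ENNReal.ofReal ‖SS v a j N θ z‖) atTop
      (𝓝 (ENNReal.ofReal ‖FF v a j θ z‖)) := (ENNReal.continuous_ofReal.tendsto _).comp h1.norm
  exact h2.liminf_eq

/-- a large value at a real angle makes `ZZ` large -/
lemma lt_ZZ {M : ℝ} (j : ℕ) (t : ℝ) {z : ℕ → ℂ} (hz : ∀ k, ‖z k‖ = 1)
    (h : M < ‖FF v a j t z‖) (hM : 0 ≤ M) : ENNReal.ofReal M < ZZ v a z := by
  have h1 : ∀ᶠ θ in 𝓝 t, M < ‖FF v a j θ z‖ :=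
    ((continuous_FF hv hs j hz).norm.tendsto t).eventually (lt_mem_nhds h)
  obtain ⟨U, hU1, hU2, hU3⟩ := eventually_nhds_iff.1 h1
  obtain ⟨q, hq⟩ := Rat.denseRange_cast.exists_mem_open hU2 ⟨t, hU3⟩
  have h2 := hU1 _ hq
  refine lt_of_lt_of_le ?_ (le_iSup₂ (f := fun (j : ℕ) (θ : ℚ) =>
    liminf (fun N : ℕ => ENNReal.ofReal ‖SS v a j N (θ : ℝ) z‖) atTop) j q)
  rw [liminf_SS hv hs j q hz]
  exact (ENNReal.ofReal_lt_ofReal_iff (lt_of_le_of_lt hM h2)).2 h2

/-- changing the signs of the tail -/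
lemma FF_add (j K : ℕ) (t : ℝ) {z : ℕ → ℂ} (hz : ∀ k, ‖z k‖ = 1) :
    FF v a j t z + FF v a j t (fun k => (if k < K then 1 else -1) * z k) = 2 * SS v a j K t z := by
  have hz' : ∀ k, ‖(if k < K then (1 : ℂ) else -1) * z k‖ = 1 := by
    intro k
    rw [norm_mul, hz]
    split_ifs <;> simp
  have s1 := summable_terms hv hs j t hz
  have s2 := summable_terms hv hs j t hz'
  rw [FF, FF, ← s1.tsum_add s2, tsum_eq_sum (s := Finset.range K), SS, Finset.mul_sum]
  · refine Finset.sum_congr rfl fun k hk => ?_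
    rw [if_pos (Finset.mem_range.1 hk)]
    ring
  · intro k hk
    rw [if_neg (by simpa using hk)]
    ring

end

end NECaux

open NECaux

theorem part_NEC (h1 : S_E) (h2 : S_ROT) (_h3 : S_JB) : S_NEC := by
  obtain ⟨C, p, hC, hp, hE⟩ := h1
  intro Ω _ P _ ξ hξ a v C₀ ha hv hs hB
  have hv0 : ∀ j k, 0 ≤ v j k := fun j k => (hv j k).1
  -- the vector of the random variables
  set X : Ω → ℕ → ℂ := fun ω k => ξ k ω with hX
  have hXm : Measurable X := measurable_pi_iff.2 fun k => hξ.meas k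
  have hX1 : ∀ ω k, ‖X ω k‖ = 1 := fun ω k => hξ.norm_one k ω
  -- tightness
  obtain ⟨M, hM0, hM⟩ : ∃ M : ℝ, 0 ≤ M ∧ P {ω | ENNReal.ofReal M < ZZ v a (X ω)} ≤
      ENNReal.ofReal (p / 2) := by
    have hZm : Measurable fun ω => ZZ v a (X ω) := (measurable_ZZ v a).comp hXm
    have hanti : Antitone fun n : ℕ => {ω | ENNReal.ofReal (n : ℝ) < ZZ v a (X ω)} := by
      intro m n hmn ω hω
      exact lt_of_le_of_lt (ENNReal.ofReal_le_ofReal (by exact_mod_cast hmn)) hω
    have hlim := tendsto_measure_iInter_atTop (μ := P)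
      (s := fun n : ℕ => {ω | ENNReal.ofReal (n : ℝ) < ZZ v a (X ω)})
      (fun n => (measurableSet_lt measurable_const hZm).nullMeasurableSet) hanti
      ⟨0, measure_ne_top P _⟩
    have hzero : P (⋂ n : ℕ, {ω | ENNReal.ofReal (n : ℝ) < ZZ v a (X ω)}) = 0 := by
      refine measure_mono_null ?_ hB
      intro ω hω
      simp only [mem_compl_iff, mem_ofPred_eq]
      rintro ⟨B, hBB⟩
      obtain ⟨n, hn⟩ := exists_nat_ge B
      have h4 := mem_iInter.1 hω n
      simp only [mem_ofPred_eq] at h4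
      refine absurd h4 (not_lt.2 (iSup₂_le fun j θ => ?_))
      rw [liminf_SS hv0 hs j θ (hX1 ω)]
      exact ENNReal.ofReal_le_ofReal ((hBB j θ).trans hn)
    rw [hzero] at hlim
    have h5 : ∀ᶠ n : ℕ in atTop, P {ω | ENNReal.ofReal (n : ℝ) < ZZ v a (X ω)} <
        ENNReal.ofReal (p / 2) :=
      hlim.eventually (gt_mem_nhds (ENNReal.ofReal_pos.2 (by positivity)))
    obtain ⟨n, hn⟩ := h5.exists
    exact ⟨n, Nat.cast_nonneg n, hn.le⟩
  have hC₀ : 0 ≤ C₀ := (hv 0 0).1.trans (hv 0 0).2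
  -- the phases
  set ζ : ℕ → ℂ := fun k => if a k = 0 then 1 else a k / ‖a k‖ with hζ
  have hζ1 : ∀ k, ‖ζ k‖ = 1 := by
    intro k
    simp only [hζ]
    split_ifs with h
    · simp
    · rw [norm_div, Complex.norm_real, norm_norm, div_self (norm_ne_zero_iff.2 h)]
  have hζ2 : ∀ k, (‖a k‖ : ℂ) * ζ k = a k := by
    intro k
    simp only [hζ]
    split_ifs with h
    · simp [h]
    · rw [mul_div_cancel₀]
      exact_mod_cast norm_ne_zero_iff.2 h
  have hξ' := (h2 Ω P ξ hξ ζ hζ1).1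
  refine ⟨C * (M + √(C₀ ^ 2 * ∑' k, ‖a k‖ ^ 2)), fun j K => ?_⟩
  have hD : ∀ D : Finset ℝ, P {ω | ∃ t ∈ D, M < ‖∑ k ∈ Finset.range K,
      ((v j k * ‖a k‖ : ℝ) : ℂ) * (ζ k * ξ k ω) * ex k t‖} ≤ ENNReal.ofReal p := by
    intro D
    set s : ℕ → ℂ := fun k => if k < K then 1 else -1 with hsdef
    have hs1 : ∀ k, ‖s k‖ = 1 := by
      intro k
      simp only [hsdef]
      split_ifs <;> simp
    have hlaw := (h2 Ω P ξ hξ s hs1).2
    have hm : Measurable fun ω (k : ℕ) => s k * ξ k ω :=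
      measurable_pi_iff.2 fun k => (hξ.meas k).const_mul _
    have hmM : MeasurableSet {z : ℕ → ℂ | ENNReal.ofReal M < ZZ v a z} :=
      measurableSet_lt measurable_const (measurable_ZZ v a)
    have hneg : P {ω | ENNReal.ofReal M < ZZ v a (fun k => s k * ξ k ω)} =
        P {ω | ENNReal.ofReal M < ZZ v a (X ω)} := by
      have e1 : P.map (fun ω (k : ℕ) => s k * ξ k ω) {z : ℕ → ℂ | ENNReal.ofReal M < ZZ v a z} =
          P.map (fun ω (k : ℕ) => ξ k ω) {z : ℕ → ℂ | ENNReal.ofReal M < ZZ v a z} := by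
        rw [hlaw]
      rw [Measure.map_apply hm hmM, Measure.map_apply hXm hmM] at e1
      exact e1
    have hsub : {ω | ∃ t ∈ D, M < ‖∑ k ∈ Finset.range K,
        ((v j k * ‖a k‖ : ℝ) : ℂ) * (ζ k * ξ k ω) * ex k t‖} ⊆
        {ω | ENNReal.ofReal M < ZZ v a (X ω)} ∪
          {ω | ENNReal.ofReal M < ZZ v a (fun k => s k * ξ k ω)} := by
      rintro ω ⟨t, _, ht⟩
      have e1 : ∑ k ∈ Finset.range K, ((v j k * ‖a k‖ : ℝ) : ℂ) * (ζ k * ξ k ω) * ex k t =
          SS v a j K t (X ω) := by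
        refine Finset.sum_congr rfl fun k _ => ?_
        push_cast
        rw [← hζ2 k]
        simp only [hX]
        rw [hζ2 k]
        have := hζ2 k
        linear_combination ((v j k : ℂ) * ξ k ω * ex k t) * this
      rw [e1] at ht
      have e2 := FF_add hv0 hs j K t (hX1 ω)
      have e3 : 2 * ‖SS v a j K t (X ω)‖ ≤ ‖FF v a j t (X ω)‖ +
          ‖FF v a j t (fun k => s k * ξ k ω)‖ := by
        have := norm_add_le (FF v a j t (X ω)) (FF v a j t (fun k => s k * ξ k ω))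
        rw [show FF v a j t (X ω) + FF v a j t (fun k => s k * ξ k ω) = 2 * SS v a j K t (X ω)
          from e2, norm_mul] at this
        simpa using this
      rcases lt_or_ge M ‖FF v a j t (X ω)‖ with h | h
      · exact Or.inl (lt_ZZ hv0 hs j t (hX1 ω) h hM0)
      · refine Or.inr (lt_ZZ hv0 hs j t (fun k => ?_) ?_ hM0)
        · rw [norm_mul, hs1, hξ.norm_one, mul_one]
        · linarith
    calc _ ≤ P ({ω | ENNReal.ofReal M < ZZ v a (X ω)} ∪
          {ω | ENNReal.ofReal M < ZZ v a (fun k => s k * ξ k ω)}) := measure_mono hsub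
      _ ≤ P {ω | ENNReal.ofReal M < ZZ v a (X ω)} +
          P {ω | ENNReal.ofReal M < ZZ v a (fun k => s k * ξ k ω)} := measure_union_le _ _
      _ ≤ ENNReal.ofReal (p / 2) + ENNReal.ofReal (p / 2) := by
          rw [hneg]
          exact add_le_add hM hM
      _ = ENNReal.ofReal p := by
          rw [← ENNReal.ofReal_add (by positivity) (by positivity), add_halves]
  refine (hE Ω P (fun k ω => ζ k * ξ k ω) hξ' K (fun k => v j k * ‖a k‖) M hM0 hD).trans ?_
  refine ENNReal.ofReal_le_ofReal ?_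
  gcongr
  calc ∑ k ∈ Finset.range K, (v j k * ‖a k‖) ^ 2
      ≤ ∑ k ∈ Finset.range K, C₀ ^ 2 * ‖a k‖ ^ 2 := by
        refine Finset.sum_le_sum fun k _ => ?_
        rw [mul_pow]
        have := hv j k
        gcongr
        · exact this.1
        · exact this.2
    _ = C₀ ^ 2 * ∑ k ∈ Finset.range K, ‖a k‖ ^ 2 := by rw [Finset.mul_sum]
    _ ≤ C₀ ^ 2 * ∑' k, ‖a k‖ ^ 2 := by
        gcongr
        exact ha.sum_le_tsum _ fun k _ => by positivity

end Pool.Agent.P8H68.RB
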