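import Pool.Agent.P8H68.RB.Stm
import Pool.Agent.P8H68.RB.Basic

set_option autoImplicit false

open MeasureTheory ProbabilityTheory Set Filter Topology
open scoped ENNReal NNReal
open Pool.Agent.W823.CT

namespace Pool.Agent.P8H68.RB

namespace NETaux

/-- indicator of the ball -/
noncomputable def fi (s : Finset ℕ) (b : ℕ → ℝ) (ε : ℝ) : ℝ → ℝ :=
  Set.indicator {t : ℝ | dd s b t ≤ ε} (fun _ => (1 : ℝ))

lemma A_meas (s : Finset ℕ) (b : ℕ → ℝ) (ε : ℝ) : MeasurableSet {t : ℝ | dd s b t ≤ ε} :=
  measurableSet_le (continuous_dd s b).measurable measurable_const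

lemma fi_periodic (s : Finset ℕ) (b : ℕ → ℝ) (ε : ℝ) : Function.Periodic (fi s b ε) (2 * Real.pi) := by
  intro t
  unfold fi
  by_cases h : dd s b t ≤ ε
  · rw [indicator_of_mem (show t ∈ {t : ℝ | dd s b t ≤ ε} from h),
      indicator_of_mem (show t + 2 * Real.pi ∈ {t : ℝ | dd s b t ≤ ε} by
        show dd s b (t + 2 * Real.pi) ≤ ε
        rw [dd_periodic s b t]; exact h)]
  · rw [indicator_of_notMem (show t ∉ {t : ℝ | dd s b t ≤ ε} from h),
      indicator_of_notMem (show t + 2 * Real.pi ∉ {t : ℝ | dd s b t ≤ ε} by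
        show ¬ dd s b (t + 2 * Real.pi) ≤ ε
        rw [dd_periodic s b t]; exact h)]

lemma fi_integral (s : Finset ℕ) (b : ℕ → ℝ) (ε : ℝ) :
    ∫ t in (0:ℝ)..(2 * Real.pi), fi s b ε t = 2 * Real.pi * mu s b ε := by
  have hpi := Real.pi_pos
  rw [intervalIntegral.integral_of_le (by positivity)]
  unfold fi
  rw [integral_indicator (A_meas s b ε), Measure.restrict_restrict (A_meas s b ε), setIntegral_const,
    smul_eq_mul, mul_one, mu_eq, mul_div_cancel₀ _ (by positivity : (2 * Real.pi : ℝ) ≠ 0)]
  show (volume ({t : ℝ | dd s b t ≤ ε} ∩ Ioc 0 (2 * Real.pi))).toReal = _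
  congr 1
  refine measure_congr ?_
  have h1 : (Ioc 0 (2 * Real.pi) : Set ℝ) =ᵐ[volume] Icc 0 (2 * Real.pi) := Ioc_ae_eq_Icc
  have h2 : ball' s b ε = {t : ℝ | dd s b t ≤ ε} ∩ Icc 0 (2 * Real.pi) := by
    ext t
    constructor
    · rintro ⟨h1, h2⟩; exact ⟨h2, h1⟩
    · rintro ⟨h1, h2⟩; exact ⟨h2, h1⟩
  rw [h2]
  exact (ae_eq_refl _).inter h1

lemma fi_int (s : Finset ℕ) (b : ℕ → ℝ) (ε x y : ℝ) : IntervalIntegrable (fi s b ε) volume x y := by
  constructor <;>
  · refine Integrable.indicator ?_ (A_meas s b ε)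
    exact integrableOn_const (by simp) (by simp)

lemma fi_shift (s : Finset ℕ) (b : ℕ → ℝ) (ε θ : ℝ) :
    ∫ t in (0:ℝ)..(2 * Real.pi), fi s b ε (t - θ) = 2 * Real.pi * mu s b ε := by
  rw [intervalIntegral.integral_comp_sub_right]
  have := (fi_periodic s b ε).intervalIntegral_add_eq (0 - θ) 0
  rw [zero_add] at this
  rw [← fi_integral, ← this]
  congr 1
  ring

end NETaux

open NETaux

theorem part_NET : S_NET := by
  classical
  intro s b ε Y _ θ hε
  let Sep : Finset Y → Prop := fun N => ∀ y ∈ N, ∀ z ∈ N, y ≠ z → 2 * ε < dd s b (θ y - θ z)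
  have hne : ((Finset.univ : Finset (Finset Y)).filter Sep).Nonempty := by
    refine ⟨∅, Finset.mem_filter.2 ⟨Finset.mem_univ _, ?_⟩⟩
    intro y hy; simp at hy
  obtain ⟨N, hN, hmax⟩ := Finset.exists_max_image _ Finset.card hne
  have hsep : Sep N := (Finset.mem_filter.1 hN).2
  refine ⟨N, ?_, ?_⟩
  · intro y
    by_contra hcon
    push Not at hcon
    have hyN : y ∉ N := by
      intro hy
      have := hcon y hy
      rw [sub_self, dd_zero] at this
      linarith
    have h1 : Sep (insert y N) := by
      intro u hu v hv huv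
      rcases Finset.mem_insert.1 hu with hu' | hu'
      · subst hu'
        rcases Finset.mem_insert.1 hv with hv' | hv'
        · exact absurd hv'.symm huv
        · exact hcon v hv'
      · rcases Finset.mem_insert.1 hv with hv' | hv'
        · subst hv'
          rw [dd_sub_comm]; exact hcon u hu'
        · exact hsep u hu' v hv' huv
    have h2 := hmax _ (Finset.mem_filter.2 ⟨Finset.mem_univ _, h1⟩)
    rw [Finset.card_insert_of_notMem hyN] at h2
    omega
  · have hpi := Real.pi_pos
    have h1 : ∀ t, ∑ y ∈ N, fi s b ε (t - θ y) ≤ 1 := by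
      intro t
      by_cases h : ∃ y ∈ N, dd s b (t - θ y) ≤ ε
      · obtain ⟨y, hy, hty⟩ := h
        rw [Finset.sum_eq_single_of_mem y hy]
        · unfold fi
          exact indicator_le_self' (fun _ _ => zero_le_one) _
        · intro z hz hzy
          unfold fi
          refine indicator_of_notMem ?_ _
          intro hz2
          have hz3 : dd s b (t - θ z) ≤ ε := hz2
          have h3 := hsep z hz y hy hzy
          have h4 := dd_sub_le s b (θ z) t (θ y)
          rw [dd_sub_comm s b (θ z) t] at h4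
          linarith
      · push Not at h
        rw [Finset.sum_eq_zero]
        · exact zero_le_one
        · intro y hy
          unfold fi
          refine indicator_of_notMem ?_ _
          intro hz2
          have hz3 : dd s b (t - θ y) ≤ ε := hz2
          have := h y hy
          linarith
    have hsh : ∀ y : Y, IntervalIntegrable (fun t => fi s b ε (t - θ y)) volume 0 (2 * Real.pi) := by
      intro y
      have := (fi_int s b ε (0 - θ y) (2 * Real.pi - θ y)).comp_sub_right (θ y)
      simpa using this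
    have h2 : ∫ t in (0:ℝ)..(2 * Real.pi), ∑ y ∈ N, fi s b ε (t - θ y) =
        (N.card : ℝ) * (2 * Real.pi * mu s b ε) := by
      rw [intervalIntegral.integral_finsetSum fun y _ => hsh y]
      simp only [fi_shift]
      rw [Finset.sum_const, nsmul_eq_mul]
    have h3 : ∫ t in (0:ℝ)..(2 * Real.pi), ∑ y ∈ N, fi s b ε (t - θ y) ≤
        ∫ t in (0:ℝ)..(2 * Real.pi), (1 : ℝ) := by
      refine intervalIntegral.integral_mono_on (by positivity) ?_ ?_ (fun t _ => h1 t)
      · have := IntervalIntegrable.sum N (f := fun y t => fi s b ε (t - θ y)) fun y _ => hsh y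
        refine this.congr ?_
        intro t _
        simp
      · exact intervalIntegrable_const
    rw [h2, intervalIntegral.integral_const, sub_zero, smul_eq_mul, mul_one] at h3
    have h4 : (2 * Real.pi) * ((N.card : ℝ) * mu s b ε) ≤ (2 * Real.pi) * 1 := by linarith
    exact le_of_mul_le_mul_left h4 (by positivity)

end Pool.Agent.P8H68.RB
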