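import Pool.Agent.W597.CTGREEDY
import Pool.Agent.P8H68.RB.Stm
import Pool.Agent.P8H68.RB.Basic

set_option autoImplicit false

open MeasureTheory ProbabilityTheory Set Filter Topology
open scoped ENNReal NNReal
open Pool.Agent.W823.CT

namespace Pool.Agent.P8H68.RB

namespace PTaux

lemma nn_add (s : Finset ℕ) (f g : ℕ → ℂ) :
    √(∑ k ∈ s, ‖f k + g k‖ ^ 2) ≤ √(∑ k ∈ s, ‖f k‖ ^ 2) + √(∑ k ∈ s, ‖g k‖ ^ 2) := by
  refine le_trans ?_ (sqrt_sum_add_le s (fun k => ‖f k‖) (fun k => ‖g k‖))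
  refine sqrt_sum_mono fun k _ => ?_
  rw [abs_of_nonneg (norm_nonneg _), abs_of_nonneg (by positivity)]
  exact norm_add_le _ _

lemma nn_ex (s : Finset ℕ) (f : ℕ → ℝ) (t : ℝ) :
    √(∑ k ∈ s, ‖(f k : ℂ) * ex k t‖ ^ 2) = √(∑ k ∈ s, f k ^ 2) := by
  congr 1
  refine Finset.sum_congr rfl fun k _ => ?_
  rw [norm_mul, norm_ex, mul_one, Complex.norm_real, Real.norm_eq_abs, sq_abs]

lemma nn_dd (s : Finset ℕ) (f : ℕ → ℝ) (t u : ℝ) :
    √(∑ k ∈ s, ‖(f k : ℂ) * (ex k t - ex k u)‖ ^ 2) = dd s f (t - u) := by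
  unfold dd
  congr 1
  refine Finset.sum_congr rfl fun k _ => ?_
  rw [norm_mul, mul_pow, norm_ex_sub, Complex.norm_real, Real.norm_eq_abs, sq_abs]

/-- the history up to level `k` -/
def hist {T : Type} (lab : ℕ → T → ℕ) (k : ℕ) (v : T) : ℕ → ℕ := fun j => if j < k then lab j v else 0

lemma hist_eq {T : Type} {lab : ℕ → T → ℕ} {k : ℕ} {v v' : T} (h : hist lab k v = hist lab k v') :
    ∀ j < k, lab j v = lab j v' := by
  intro j hj
  have := congrFun h j
  simpa [hist, hj] using this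

lemma hist_of {T : Type} {lab : ℕ → T → ℕ} {k : ℕ} {v v' : T} (h : ∀ j < k, lab j v = lab j v') :
    hist lab k v = hist lab k v' := by
  funext j
  unfold hist
  split_ifs with hj
  · exact h j hj
  · rfl

lemma log_label {a b : ℕ} (ha : 1 ≤ a) (hb : 1 ≤ b) :
    Real.log ((Nat.pair a b + 1 : ℕ) : ℝ) + 1 ≤ 4 * (Real.log a + 1) + 2 * Real.log b := by
  have h1 : Nat.pair a b + 1 ≤ (2 * (a * b)) ^ 2 := by
    have h2 := Nat.pair_lt_max_add_one_sq a b
    have h3 : max a b + 1 ≤ 2 * (a * b) := by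
      have h4 : max a b ≤ a * b := max_le (Nat.le_mul_of_pos_right a hb) (Nat.le_mul_of_pos_left b ha)
      have h5 : 1 ≤ a * b := Nat.mul_pos ha hb
      omega
    calc Nat.pair a b + 1 ≤ (max a b + 1) ^ 2 := h2
      _ ≤ _ := Nat.pow_le_pow_left h3 2
  have ha' : (1 : ℝ) ≤ a := by exact_mod_cast ha
  have hb' : (1 : ℝ) ≤ b := by exact_mod_cast hb
  have h4 : Real.log ((Nat.pair a b + 1 : ℕ) : ℝ) ≤ Real.log ((2 * ((a : ℝ) * b)) ^ 2) := by
    apply Real.log_le_log
    · positivity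
    · exact_mod_cast h1
  rw [Real.log_pow, Real.log_mul (by norm_num) (by positivity), Real.log_mul (by positivity) (by positivity)] at h4
  have h5 := Real.log_two_lt_d9
  have h6 : 0 ≤ Real.log a := Real.log_nonneg ha'
  push_cast at h4 ⊢
  linarith

end PTaux

open PTaux

set_option maxHeartbeats 1000000 in
theorem part_PT (hJL : S_JL) (hNET : S_NET) : S_PT := by
  classical
  intro w hw0 hw2
  have hw1 : w < 1 := by linarith
  have hww : 0 < w * (1 - w) := mul_pos hw0 (by linarith)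
  refine ⟨28 + 56 / (w * (1 - w)), by positivity, ?_⟩
  intro K T Y _ _ _ _ x θ Δ S hΔ hS hn tree hJ
  obtain ⟨lab, l1, l2, l3⟩ := tree
  set D : ℕ → ℝ := fun k => Δ * w ^ k with hD
  have hDpos : ∀ k, 0 < D k := fun k => by simp only [hD]; positivity
  have hD3 : ∀ k, 0 < 3 * D k := fun k => by have := hDpos k; linarith
  set π : ℕ → T → T := fun k v => Function.invFun (hist lab k) (hist lab k v) with hπ
  have hπ1 : ∀ k v, hist lab k (π k v) = hist lab k v := fun k v => Function.invFun_eq ⟨v, rfl⟩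
  have hπ2 : ∀ k v v', hist lab k v = hist lab k v' → π k v = π k v' := fun k v v' h => by
    simp only [hπ, h]
  have hρ : ∀ k v, √(∑ i ∈ Finset.range K, (x v i - x (π k v) i) ^ 2) ≤ D k := fun k v =>
    l2 k v (π k v) (hist_eq (hπ1 k v).symm)
  have hρ' : ∀ k v, √(∑ i ∈ Finset.range K, (x (π k v) i - x v i) ^ 2) ≤ D k := fun k v =>
    l2 k (π k v) v (hist_eq (hπ1 k v))
  -- the nets
  have hnet : ∀ (k : ℕ) (u : T), ∃ N : Finset Y,
      (∀ y, ∃ z ∈ N, dd (Finset.range K) (x u) (θ y - θ z) ≤ 2 * (3 * D (k + 1))) ∧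
      (N.card : ℝ) * mu (Finset.range K) (x u) (3 * D (k + 1)) ≤ 1 := fun k u =>
    hNET (Finset.range K) (x u) (3 * D (k + 1)) Y θ (hD3 _)
  choose N hN1 hN2 using hnet
  have hnear : ∀ (k : ℕ) (u : T) (y : Y), ∃ z : {z // z ∈ N k u},
      dd (Finset.range K) (x u) (θ y - θ z.1) ≤ 2 * (3 * D (k + 1)) := by
    intro k u y
    obtain ⟨z, hz, h⟩ := hN1 k u y
    exact ⟨⟨z, hz⟩, h⟩
  choose near hnear using hnear
  set ix : ℕ → T → Y → ℕ := fun k u y => ((N k u).equivFin (near k u y) : ℕ) + 1 with hix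
  have hix1 : ∀ k u y, 1 ≤ ix k u y := fun k u y => by simp only [hix]; omega
  have hix2 : ∀ k u y, ix k u y ≤ (N k u).card := fun k u y => by
    have := ((N k u).equivFin (near k u y)).2
    simp only [hix]; omega
  have hix3 : ∀ k u y y', ix k u y = ix k u y' → near k u y = near k u y' := by
    intro k u y y' h
    simp only [hix] at h
    exact (N k u).equivFin.injective (Fin.ext (by omega))
  -- log of the index
  have hlogix : ∀ k v y, √(Real.log (ix k (π (k + 1) v) y)) ≤ √(Real.log (1 / mu (Finset.range K) (x v) (D (k + 1)))) := by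
    intro k v y
    refine Real.sqrt_le_sqrt ?_
    have h1 : (1 : ℝ) ≤ ix k (π (k + 1) v) y := by exact_mod_cast hix1 _ _ _
    have h2 : (ix k (π (k + 1) v) y : ℝ) ≤ (N k (π (k + 1) v)).card := by exact_mod_cast hix2 _ _ _
    have hm0 := mu_pos (Finset.range K) (x v) (hDpos (k + 1))
    have h3 : mu (Finset.range K) (x v) (D (k + 1)) ≤
        mu (Finset.range K) (x (π (k + 1) v)) (3 * D (k + 1)) := by
      rw [mu_eq, mu_eq]
      refine div_le_div_of_nonneg_right ?_ (by positivity)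
      refine ENNReal.toReal_mono (volume_ball'_lt_top _ _ _).ne (measure_mono ?_)
      intro t ht
      refine ⟨ht.1, ?_⟩
      have h4 := dd_le_add (Finset.range K) (x (π (k + 1) v)) (x v) t
      have h5 := hρ' (k + 1) v
      have h6 := ht.2
      linarith
    have h4 := hN2 k (π (k + 1) v)
    have h5 : (ix k (π (k + 1) v) y : ℝ) ≤ 1 / mu (Finset.range K) (x v) (D (k + 1)) := by
      rw [le_div_iff₀ hm0]
      have hc0 : (0 : ℝ) ≤ (N k (π (k + 1) v)).card := Nat.cast_nonneg _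
      nlinarith
    exact Real.log_le_log (by linarith) h5
  refine ⟨fun k p => Nat.pair (lab k p.1) (ix k (π (k + 1) p.1) p.2) + 1,
    fun k p => Nat.succ_le_succ (Nat.zero_le _), ?_, ?_⟩
  · -- diameters
    intro k p q h
    show √(∑ k ∈ Finset.range K, ‖(x p.1 k : ℂ) * ex k (θ p.2) - (x q.1 k : ℂ) * ex k (θ q.2)‖ ^ 2) ≤
      14 * Δ * w ^ k
    rcases k with _ | k
    · -- level 0
      have h1 : √(∑ k ∈ Finset.range K, ‖(x p.1 k : ℂ) * ex k (θ p.2) - (x q.1 k : ℂ) * ex k (θ q.2)‖ ^ 2) ≤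
          √(∑ k ∈ Finset.range K, ‖(x p.1 k : ℂ) * ex k (θ p.2)‖ ^ 2) +
          √(∑ k ∈ Finset.range K, ‖-((x q.1 k : ℂ) * ex k (θ q.2))‖ ^ 2) := by
        have := nn_add (Finset.range K) (fun k => (x p.1 k : ℂ) * ex k (θ p.2))
          (fun k => -((x q.1 k : ℂ) * ex k (θ q.2)))
        simpa only [sub_eq_add_neg] using this
      simp only [norm_neg] at h1
      rw [nn_ex, nn_ex] at h1
      have h2 := hn p.1
      have h3 := hn q.1
      rw [pow_zero, mul_one]
      linarith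
    · have hlab : ∀ j < k + 1, lab j p.1 = lab j q.1 := by
        intro j hj
        have := h j hj
        exact (Nat.pair_eq_pair.1 (Nat.succ_injective this)).1
      have hu : π (k + 1) p.1 = π (k + 1) q.1 := hπ2 _ _ _ (hist_of hlab)
      have hi : ix k (π (k + 1) p.1) p.2 = ix k (π (k + 1) q.1) q.2 :=
        (Nat.pair_eq_pair.1 (Nat.succ_injective (h k (by omega)))).2
      rw [← hu] at hi
      have hz := hix3 _ _ _ _ hi
      set u := π (k + 1) p.1 with hudef
      set z := near k u p.2 with hzdef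
      have a1 : √(∑ i ∈ Finset.range K, (x p.1 i - x u i) ^ 2) ≤ D (k + 1) := hρ (k + 1) p.1
      have a2 : dd (Finset.range K) (x u) (θ p.2 - θ z.1) ≤ 6 * D (k + 1) := by
        have := hnear k u p.2
        rw [← hzdef] at this
        linarith
      have a3 : dd (Finset.range K) (x u) (θ z.1 - θ q.2) ≤ 6 * D (k + 1) := by
        have := hnear k u q.2
        rw [← hz] at this
        rw [dd_sub_comm]
        linarith
      have a4 : √(∑ i ∈ Finset.range K, (x u i - x q.1 i) ^ 2) ≤ D (k + 1) := by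
        rw [hu]; exact hρ' (k + 1) q.1
      have b1 := nn_add (Finset.range K) (fun i => ((x p.1 i - x u i : ℝ) : ℂ) * ex i (θ p.2))
        (fun i => (x u i : ℂ) * (ex i (θ p.2) - ex i (θ z.1)))
      have b2 := nn_add (Finset.range K) (fun i => (x u i : ℂ) * (ex i (θ z.1) - ex i (θ q.2)))
        (fun i => ((x u i - x q.1 i : ℝ) : ℂ) * ex i (θ q.2))
      have b3 := nn_add (Finset.range K) (fun i => ((x p.1 i - x u i : ℝ) : ℂ) * ex i (θ p.2) +
        (x u i : ℂ) * (ex i (θ p.2) - ex i (θ z.1)))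
        (fun i => (x u i : ℂ) * (ex i (θ z.1) - ex i (θ q.2)) +
          ((x u i - x q.1 i : ℝ) : ℂ) * ex i (θ q.2))
      rw [nn_ex, nn_dd] at b1
      rw [nn_ex, nn_dd] at b2
      have b4 : √(∑ k ∈ Finset.range K, ‖(x p.1 k : ℂ) * ex k (θ p.2) - (x q.1 k : ℂ) * ex k (θ q.2)‖ ^ 2) =
          √(∑ i ∈ Finset.range K, ‖((x p.1 i - x u i : ℝ) : ℂ) * ex i (θ p.2) +
            (x u i : ℂ) * (ex i (θ p.2) - ex i (θ z.1)) +
            ((x u i : ℂ) * (ex i (θ z.1) - ex i (θ q.2)) +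
              ((x u i - x q.1 i : ℝ) : ℂ) * ex i (θ q.2))‖ ^ 2) := by
        congr 1
        refine Finset.sum_congr rfl fun i _ => ?_
        congr 2
        push_cast
        ring
      rw [b4]
      have e : 14 * Δ * w ^ (k + 1) = 14 * D (k + 1) := by simp only [hD]; ring
      rw [e]
      linarith
  · -- the cost
    intro m p
    set s : ℕ → ℝ := fun j => √(Real.log (1 / mu (Finset.range K) (x p.1) (D (j + 1)))) with hs
    have hs0 : ∀ j, 0 ≤ s j := fun j => Real.sqrt_nonneg _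
    have hil0 : ∀ j, 0 ≤ Real.log (ix j (π (j + 1) p.1) p.2) := fun j => Real.log_natCast_nonneg _
    have hll0 : ∀ j, 0 ≤ Real.log (lab j p.1) := fun j => Real.log_natCast_nonneg _
    have step : ∀ k, √(∑ j ∈ Finset.range (k + 1),
        (Real.log ((Nat.pair (lab j p.1) (ix j (π (j + 1) p.1) p.2) + 1 : ℕ) : ℝ) + 1)) ≤
        2 * √(∑ j ∈ Finset.range (k + 1), (Real.log (lab j p.1) + 1)) +
        2 * ∑ j ∈ Finset.range (k + 1), s j := by
      intro k
      set A := ∑ j ∈ Finset.range (k + 1), (Real.log (lab j p.1) + 1) with hA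
      set B := ∑ j ∈ Finset.range (k + 1), Real.log (ix j (π (j + 1) p.1) p.2) with hB
      have hA0 : 0 ≤ A := Finset.sum_nonneg fun j _ => by have := hll0 j; linarith
      have hB0 : 0 ≤ B := Finset.sum_nonneg fun j _ => hil0 j
      have h1 : ∑ j ∈ Finset.range (k + 1),
          (Real.log ((Nat.pair (lab j p.1) (ix j (π (j + 1) p.1) p.2) + 1 : ℕ) : ℝ) + 1) ≤
          4 * A + 2 * B := by
        rw [hA, hB, Finset.mul_sum, Finset.mul_sum, ← Finset.sum_add_distrib]
        exact Finset.sum_le_sum fun j _ => log_label (l1 j _) (hix1 _ _ _)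
      have h2 : √B ≤ ∑ j ∈ Finset.range (k + 1), s j := by
        refine (Pool.Agent.W597.CTGREEDY.sqrt_sum_le _ hil0 _).trans ?_
        exact Finset.sum_le_sum fun j _ => hlogix j p.1 p.2
      have h3 : √(4 * A + 2 * B) ≤ 2 * √A + 2 * √B := by
        rw [Real.sqrt_le_left (by positivity)]
        have h4 := Real.sq_sqrt hA0
        have h5 := Real.sq_sqrt hB0
        have h6 := Real.sqrt_nonneg A
        have h7 := Real.sqrt_nonneg B
        nlinarith [mul_nonneg h6 h7]
      have h4 := Real.sqrt_le_sqrt h1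
      linarith
    have hJL1 := hJL (Finset.range K) (x p.1) w Δ S m hw0 hw1 hΔ hS (hJ p.1)
    have hab := Pool.Agent.W597.CTGREEDY.sum_abel w Δ hw0 hw2 hΔ s hs0 m
    have htail : 0 ≤ 4 * Δ * w ^ m * ∑ j ∈ Finset.range m, s j :=
      mul_nonneg (by positivity) (Finset.sum_nonneg fun j _ => hs0 j)
    have l3' := l3 m p.1
    have e1 : ∑ k ∈ Finset.range m, 14 * Δ * w ^ k * (2 * √(∑ j ∈ Finset.range (k + 1), (Real.log (lab j p.1) + 1)) +
        2 * ∑ j ∈ Finset.range (k + 1), s j) =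
        28 * ∑ k ∈ Finset.range m, Δ * w ^ k * √(∑ j ∈ Finset.range (k + 1), (Real.log (lab j p.1) + 1)) +
        14 * ∑ k ∈ Finset.range m, 2 * Δ * w ^ k * ∑ j ∈ Finset.range (k + 1), s j := by
      rw [Finset.mul_sum, Finset.mul_sum, ← Finset.sum_add_distrib]
      refine Finset.sum_congr rfl fun k _ => ?_
      ring
    have e2 : ∑ j ∈ Finset.range m, 4 * Δ * w ^ j * s j = 4 * ∑ j ∈ Finset.range m, Δ * w ^ j * s j := by
      rw [Finset.mul_sum]
      refine Finset.sum_congr rfl fun k _ => ?_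
      ring
    calc ∑ k ∈ Finset.range m, 14 * Δ * w ^ k * √(∑ j ∈ Finset.range (k + 1),
          (Real.log ((Nat.pair (lab j p.1) (ix j (π (j + 1) p.1) p.2) + 1 : ℕ) : ℝ) + 1))
        ≤ ∑ k ∈ Finset.range m, 14 * Δ * w ^ k * (2 * √(∑ j ∈ Finset.range (k + 1),
            (Real.log (lab j p.1) + 1)) + 2 * ∑ j ∈ Finset.range (k + 1), s j) :=
          Finset.sum_le_sum fun k _ => mul_le_mul_of_nonneg_left (step k) (by positivity)
      _ ≤ 28 * S + 14 * (4 * (S / (w * (1 - w)))) := by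
          rw [e1]
          rw [e2] at hab
          have h5 : ∑ j ∈ Finset.range m, Δ * w ^ j * s j ≤ S / (w * (1 - w)) := hJL1
          linarith
      _ = (28 + 56 / (w * (1 - w))) * S := by ring

end Pool.Agent.P8H68.RB
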