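import Pool.Agent.P8H68.RB.Stm
import Pool.Agent.P8H68.RB.Basic

/-!
# Rotation invariance of Steinhaus sequences (package ROT)
-/

set_option autoImplicit false

open MeasureTheory ProbabilityTheory Set Filter Topology

namespace Pool.Agent.P8H68.RB

namespace ROTaux

/-- `e^{it}` -/
noncomputable def ee (t : ℝ) : ℂ := Complex.exp ((t : ℂ) * Complex.I)

lemma continuous_ee : Continuous ee := by unfold ee; fun_prop

lemma ee_add_zsmul (t : ℝ) (n : ℤ) : ee (n • (2 * Real.pi) + t) = ee t := by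
  unfold ee
  have h : ((n • (2 * Real.pi) + t : ℝ) : ℂ) * Complex.I = (t : ℂ) * Complex.I + n * (2 * Real.pi * Complex.I) := by
    push_cast
    simp only [zsmul_eq_mul]
    ring
  rw [h, Complex.exp_add, Complex.exp_int_mul_two_pi_mul_I, mul_one]

lemma circ_apply {A : Set ℂ} (hA : MeasurableSet A) :
    circ A = (volume (Icc (0 : ℝ) (2 * Real.pi)))⁻¹ * volume ((ee ⁻¹' A) ∩ Icc (0 : ℝ) (2 * Real.pi)) := by
  unfold circ
  have h1 : (fun t : ℝ => Complex.exp ((t : ℂ) * Complex.I)) = ee := rfl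
  rw [h1, Measure.map_apply continuous_ee.measurable hA,
    ProbabilityTheory.cond_apply measurableSet_Icc, Set.inter_comm]

lemma vol_eq {A : Set ℂ} (hA : MeasurableSet A) (φ : ℝ) :
    volume ((fun t => ee (t + φ)) ⁻¹' A ∩ Icc (0 : ℝ) (2 * Real.pi)) =
      volume ((ee ⁻¹' A) ∩ Icc (0 : ℝ) (2 * Real.pi)) := by
  have hm : MeasurableSet (ee ⁻¹' A) := continuous_ee.measurable hA
  have h1 : (fun t => ee (t + φ)) ⁻¹' A ∩ Icc (0 : ℝ) (2 * Real.pi) =
      (fun t => t + φ) ⁻¹' ((ee ⁻¹' A) ∩ Icc φ (φ + 2 * Real.pi)) := by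
    ext t
    simp only [mem_inter_iff, mem_preimage, mem_Icc]
    constructor
    · rintro ⟨h1, h2, h3⟩
      exact ⟨h1, by linarith, by linarith⟩
    · rintro ⟨h1, h2, h3⟩
      exact ⟨h1, by linarith, by linarith⟩
  rw [h1, measure_preimage_add_right]
  have h2 : ∀ x : ℝ, volume ((ee ⁻¹' A) ∩ Icc x (x + 2 * Real.pi)) =
      volume ((ee ⁻¹' A) ∩ Ioc x (x + 2 * Real.pi)) := fun x =>
    measure_congr ((ae_eq_refl _).inter Ioc_ae_eq_Icc.symm)
  have h3 := h2 0
  rw [zero_add] at h3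
  rw [h2 φ, h3]
  have hinv : ∀ g : AddSubgroup.zmultiples (2 * Real.pi), (fun x => g +ᵥ x) ⁻¹' (ee ⁻¹' A) = ee ⁻¹' A := by
    rintro ⟨g, hg⟩
    obtain ⟨n, hn⟩ := AddSubgroup.mem_zmultiples_iff.1 hg
    ext t
    simp only [mem_preimage]
    have h4 : (⟨g, hg⟩ : AddSubgroup.zmultiples (2 * Real.pi)) +ᵥ t = n • (2 * Real.pi) + t := by
      rw [hn]; rfl
    rw [h4, ee_add_zsmul]
  have h5 := (isAddFundamentalDomain_Ioc Real.two_pi_pos φ).measure_set_eq
    (isAddFundamentalDomain_Ioc Real.two_pi_pos 0) hm hinv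
  rw [zero_add] at h5
  exact h5

lemma circ_rot {ζ : ℂ} (hζ : ‖ζ‖ = 1) : circ.map (fun z => ζ * z) = circ := by
  obtain ⟨φ, hφ⟩ : ∃ φ : ℝ, ee φ = ζ := by
    refine ⟨ζ.arg, ?_⟩
    have := Complex.norm_mul_exp_arg_mul_I ζ
    rw [hζ] at this
    simpa [ee] using this
  ext A hA
  have hm : Measurable fun z : ℂ => ζ * z := measurable_const_mul ζ
  rw [Measure.map_apply hm hA, circ_apply (hm hA), circ_apply hA, ← vol_eq hA φ]
  congr 3
  ext t
  simp only [mem_preimage]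
  rw [← hφ]
  have : ee φ * ee t = ee (t + φ) := by
    unfold ee
    rw [← Complex.exp_add]
    congr 1
    push_cast
    ring
  rw [this]

end ROTaux

theorem part_ROT : S_ROT := by
  intro Ω _ P _ ξ hξ ζ hζ
  have hst : Stein P (fun k ω => ζ k * ξ k ω) := by
    refine ⟨fun k => (hξ.meas k).const_mul (ζ k), ?_, fun k => ?_, fun k ω => ?_⟩
    · exact hξ.indep.comp (fun k z => ζ k * z) fun k => measurable_const_mul (ζ k)
    · have h1 : (fun ω => ζ k * ξ k ω) = (fun z => ζ k * z) ∘ ξ k := rfl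
      rw [h1, ← Measure.map_map (measurable_const_mul (ζ k)) (hξ.meas k), hξ.law k,
        ROTaux.circ_rot (hζ k)]
    · rw [norm_mul, hζ k, hξ.norm_one k ω, one_mul]
  refine ⟨hst, ?_⟩
  have h1 := (iIndepFun_iff_map_fun_eq_infinitePi_map hst.meas).1 hst.indep
  have h2 := (iIndepFun_iff_map_fun_eq_infinitePi_map hξ.meas).1 hξ.indep
  rw [h1, h2]
  congr 1
  funext k
  rw [hst.law k, hξ.law k]

end Pool.Agent.P8H68.RB
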