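import Pool.Agent.W782.CTEMB
import Pool.Agent.W782.CTGROW
import Pool.Agent.W597.CTSUD
import Pool.Agent.P8H68.RB.Stm
import Pool.Agent.P8H68.RB.Basic

set_option autoImplicit false

open MeasureTheory ProbabilityTheory Set Filter Topology
open scoped ENNReal NNReal
open Pool.Agent.W823.CT

namespace Pool.Agent.P8H68.RB

namespace SCaux

lemma subG_mono {Ω : Type} [MeasurableSpace Ω] {P : Measure Ω} {X : Ω → ℝ} {c c' : ℝ≥0}
    (h : HasSubgaussianMGF X c P) (hc : c ≤ c') : HasSubgaussianMGF X c' P where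
  integrable_exp_mul := h.integrable_exp_mul
  mgf_le t := (h.mgf_le t).trans <| by
    apply Real.exp_le_exp.2
    have : (c : ℝ) ≤ c' := by exact_mod_cast hc
    have h2 : 0 ≤ t ^ 2 := sq_nonneg t
    nlinarith

lemma dd_congr {s : Finset ℕ} {b b' : ℕ → ℝ} (h : ∀ k ∈ s, b k = b' k) (t : ℝ) :
    dd s b t = dd s b' t := by
  unfold dd
  congr 1
  exact Finset.sum_congr rfl fun k hk => by rw [h k hk]

lemma J_congr {s : Finset ℕ} {b b' : ℕ → ℝ} (h : ∀ k ∈ s, b k = b' k) : J s b = J s b' := by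
  have : dd s b = dd s b' := funext fun t => dd_congr h t
  unfold J mu
  rw [this]

lemma GTree_mono {T : Type} {d : T → T → ℝ} {Δ w S S' : ℝ} (h : GTree d Δ w S) (hS : S ≤ S') :
    GTree d Δ w S' := by
  obtain ⟨lab, h1, h2, h3⟩ := h
  exact ⟨lab, h1, h2, fun m x => (h3 m x).trans hS⟩

/-- extension of a vector -/
def ext {K : ℕ} (y : Fin K → ℝ) (k : ℕ) : ℝ := if h : k < K then y ⟨k, h⟩ else 0

lemma ext_apply {K : ℕ} (y : Fin K → ℝ) (i : Fin K) : ext y (i : ℕ) = y i := by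
  simp [ext]

lemma ext_restrict {K : ℕ} (x : ℕ → ℝ) {k : ℕ} (hk : k ∈ Finset.range K) :
    ext (fun i : Fin K => x i) k = x k := by
  simp [ext, Finset.mem_range.1 hk]

lemma nrm_ext {K : ℕ} (y : Fin K → ℝ) : √(∑ k ∈ Finset.range K, ext y k ^ 2) = nrm y := by
  rw [Finset.sum_range]
  simp only [ext_apply]
  rfl

lemma nrm_ext_sub {K : ℕ} (y z : Fin K → ℝ) :
    √(∑ k ∈ Finset.range K, (ext y k - ext z k) ^ 2) = nrm (y - z) := by
  rw [Finset.sum_range]
  simp only [ext_apply]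
  rfl

/-- the real part of the process -/
noncomputable def Zr {Ω : Type} (ξ : ℕ → Ω → ℂ) (K : ℕ) (x : ℕ → ℝ) (c : ℕ → ℂ) (θ : ℝ) (ω : Ω) : ℝ :=
  (∑ k ∈ Finset.range K, (x k : ℂ) * c k * ξ k ω * ex k θ).re

lemma Zr_eq {Ω : Type} (ξ : ℕ → Ω → ℂ) (K : ℕ) (x : ℕ → ℝ) (c : ℕ → ℂ) (θ : ℝ) (ω : Ω) :
    Zr ξ K x c θ ω = (∑ k ∈ Finset.range K, ((x k : ℂ) * ex k θ * c k) * ξ k ω).re := by
  unfold Zr
  congr 1
  exact Finset.sum_congr rfl fun k _ => by ring

lemma Zr_sub {Ω : Type} (ξ : ℕ → Ω → ℂ) (K : ℕ) (x y : ℕ → ℝ) (c : ℕ → ℂ) (θ φ : ℝ) (ω : Ω) :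
    Zr ξ K x c θ ω - Zr ξ K y c φ ω =
      (∑ k ∈ Finset.range K, (((x k : ℂ) * ex k θ - (y k : ℂ) * ex k φ) * c k) * ξ k ω).re := by
  rw [Zr_eq, Zr_eq, ← Complex.sub_re, ← Finset.sum_sub_distrib]
  congr 1
  exact Finset.sum_congr rfl fun k _ => by ring

end SCaux

open SCaux

set_option maxHeartbeats 1000000 in
theorem part_SC (hGG : S_GG) (hGROW : S_GROW) (hEMB : S_EMB) (hUB : S_UB) (hPT : S_PT)
    (hSG : S_SG) : S_SC := by
  classical
  obtain ⟨r, c0, hr, hc0, hg⟩ := hGROW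
  obtain ⟨C1, hC1, hgg⟩ := hGG r c0 hr hc0
  have hr0 : 0 < r := by linarith
  have hw0 : 0 < r⁻¹ := inv_pos.2 hr0
  have hw2 : r⁻¹ ≤ 1 / 2 := by
    rw [one_div]; exact inv_anti₀ (by norm_num) hr
  obtain ⟨C2, hC2, hpt⟩ := hPT r⁻¹ hw0 hw2
  obtain ⟨C3, hC3, hub⟩ := hUB
  refine ⟨2 * (C3 * (C2 * (3 * C1 + 1)) ^ 2), by positivity, ?_⟩
  intro Ω _ P _ ξ hξ K τ V x Θ c S hS hc hJ hn hEM
  rcases V.eq_empty_or_nonempty with hV | hV
  · subst hV; simp
  rcases Θ.eq_empty_or_nonempty with hΘ | hΘ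
  · subst hΘ; simp
  rcases hS.eq_or_lt with hS0 | hSpos
  · -- everything vanishes
    have hz : ∀ v ∈ V, ∀ k ∈ Finset.range K, x v k = 0 := by
      intro v hv k hk
      have h1 := hn v hv
      rw [← hS0] at h1
      have h2 : ∑ k ∈ Finset.range K, x v k ^ 2 = 0 := by
        have h3 := Real.sqrt_eq_zero (Finset.sum_nonneg fun k (_ : k ∈ Finset.range K) =>
          sq_nonneg (x v k)) |>.1 (le_antisymm h1 (Real.sqrt_nonneg _))
        exact h3
      have h3 := (Finset.sum_eq_zero_iff_of_nonneg fun k _ => sq_nonneg (x v k)).1 h2 k hk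
      exact pow_eq_zero_iff (n := 2) (by norm_num) |>.1 h3
    refine le_of_eq_of_le ?_ zero_le'
    have hz2 : ∀ ω, (⨆ v ∈ V, ⨆ θ ∈ Θ, ENNReal.ofReal
        (‖∑ k ∈ Finset.range K, (x v k : ℂ) * c k * ξ k ω * ex k θ‖ ^ 2)) = 0 := by
      intro ω
      simp only [ENNReal.iSup_eq_zero]
      intro v hv θ _
      rw [Finset.sum_eq_zero fun k hk => by rw [hz v hv k hk]; simp]
      simp
    simp only [hz2, lintegral_zero]
  -- the index set
  let A : Finset (Fin K → ℝ) := V.image (fun v (i : Fin K) => x v i)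
  let T := {y : Fin K → ℝ // y ∈ A}
  let Y := {θ : ℝ // θ ∈ Θ}
  have hmemA : ∀ v ∈ V, (fun i : Fin K => x v i) ∈ A := fun v hv => Finset.mem_image_of_mem _ hv
  have hAV : ∀ y : T, ∃ v ∈ V, (fun i : Fin K => x v i) = y.1 := fun y => Finset.mem_image.1 y.2
  haveI : Nonempty T := by
    obtain ⟨v, hv⟩ := hV
    exact ⟨⟨_, hmemA v hv⟩⟩
  haveI : Nonempty Y := by
    obtain ⟨θ, hθ⟩ := hΘ
    exact ⟨⟨θ, hθ⟩⟩
  have hnT : ∀ y : T, nrm y.1 ≤ S := by
    intro y
    obtain ⟨v, hv, e⟩ := hAV y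
    rw [← nrm_ext, ← e]
    refine le_trans (le_of_eq ?_) (hn v hv)
    congr 1
    exact Finset.sum_congr rfl fun k hk => by rw [ext_restrict _ hk]
  have hJT : ∀ y : T, J (Finset.range K) (ext y.1) ≤ ENNReal.ofReal S := by
    intro y
    obtain ⟨v, hv, e⟩ := hAV y
    rw [← e]
    exact (J_congr fun k hk => ext_restrict _ hk).trans_le (hJ v hv)
  -- the expected maximum
  have hEMT : EM (Finset.univ : Finset T) (fun y : T => y.1) ≤ S := by
    refine le_trans ?_ hEM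
    unfold EM
    refine integral_mono (Pool.Agent.W782.CTEMB.mx_int _ _) (Pool.Agent.W782.CTEMB.mx_int _ _) ?_
    intro g
    refine Pool.Agent.W782.CTEMB.mx_le_of Finset.univ_nonempty _ _ fun y _ => ?_
    obtain ⟨v, hv, e⟩ := hAV y
    show dotp y.1 g ≤ _
    rw [← e]
    exact Pool.Agent.W782.CTEMB.le_mx (fun v (i : Fin K) => x v i) hv g
  have nsub : ∀ y z : Fin K → ℝ, nrm (y - z) ≤ nrm y + nrm z := by
    intro y z
    rw [sub_eq_add_neg]
    refine (Pool.Agent.W597.CTSUD.nrm_add _ _).trans ?_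
    rw [Pool.Agent.W597.CTSUD.nrm_neg]
  have nsymm : ∀ y z : Fin K → ℝ, nrm (y - z) = nrm (z - y) := by
    intro y z
    rw [← Pool.Agent.W597.CTSUD.nrm_neg, neg_sub]
  have tree1 : GTree (fun y z : T => nrm (y.1 - z.1)) (2 * (2 * S)) r⁻¹
      (C1 * (EM (Finset.univ : Finset T) (fun y : T => y.1) + 2 * S)) := by
    refine hgg T (fun y z => nrm (y.1 - z.1)) (fun B => EM B (fun y : T => y.1)) (2 * S) (by linarith)
      ?_ ?_ ?_ ?_ ?_ ?_ ?_ ?_
    · intro y; rw [sub_self]; simp [nrm]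
    · intro y z hyz
      refine Pool.Agent.W597.CTSUD.nrm_pos _ fun h => hyz ?_
      exact Subtype.ext (sub_eq_zero.1 h)
    · intro y z; exact nsymm _ _
    · intro y z u
      have : (y.1 - u.1 : Fin K → ℝ) = (y.1 - z.1) + (z.1 - u.1) := by abel
      rw [this]
      exact Pool.Agent.W597.CTSUD.nrm_add _ _
    · intro y z
      have := nsub y.1 z.1
      have := hnT y
      have := hnT z
      linarith
    · intro B; exact (hEMB _ _ B _).2.1
    · intro B B' hB hBB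
      exact (hEMB _ _ B (fun y : T => y.1)).2.2.2.1 B' hB hBB
    · intro N x' D δ b hN hδ k1 k2 k3 k4
      exact hg (Fin K) T N x' D (fun y => y.1) δ b hN hδ k1 k2 k3 k4
  have tree2 : GTree (fun v v' : T => √(∑ k ∈ Finset.range K, (ext v.1 k - ext v'.1 k) ^ 2)) (4 * S)
      r⁻¹ ((3 * C1 + 1) * S) := by
    have e1 : (fun v v' : T => √(∑ k ∈ Finset.range K, (ext v.1 k - ext v'.1 k) ^ 2)) =
        (fun y z : T => nrm (y.1 - z.1)) := by
      funext v v'
      exact nrm_ext_sub _ _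
    rw [e1]
    have e2 : (2 : ℝ) * (2 * S) = 4 * S := by ring
    rw [e2] at tree1
    refine GTree_mono tree1 ?_
    nlinarith
  have tree3 := hpt K T Y (fun v => ext v.1) (fun θ => θ.1) (4 * S) ((3 * C1 + 1) * S) (by linarith)
    (by positivity) (fun v => by rw [nrm_ext]; linarith [hnT v]) tree2
    (fun v => (hJT v).trans (ENNReal.ofReal_le_ofReal (by nlinarith)))
  -- measurability
  have hZm : ∀ (c' : ℕ → ℂ) (p : T × Y), Measurable (Zr ξ K (ext p.1.1) c' p.2.1) := by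
    intro c' p
    unfold Zr
    refine Complex.measurable_re.comp (Finset.measurable_sum _ fun k _ => ?_)
    exact (((hξ.meas k).const_mul _).mul_const _)
  -- the bound for real parts
  have key : ∀ c' : ℕ → ℂ, (∀ k, ‖c' k‖ ≤ 1) →
      ∫⁻ ω, (⨆ p : T × Y, ENNReal.ofReal (Zr ξ K (ext p.1.1) c' p.2.1 ω ^ 2)) ∂P ≤
        ENNReal.ofReal (C3 * (C2 * ((3 * C1 + 1) * S)) ^ 2) := by
    intro c' hc'
    refine hub Ω P (T × Y) _ (14 * (4 * S)) r⁻¹ (C2 * ((3 * C1 + 1) * S))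
      (fun p => Zr ξ K (ext p.1.1) c' p.2.1) (by linarith) hw0 hw2
      (fun p q => Real.sqrt_nonneg _) tree3 ?_ ?_
    · intro p q
      have h1 := hSG Ω P ξ hξ (Finset.range K)
        (fun k => ((ext p.1.1 k : ℂ) * ex k p.2.1 - (ext q.1.1 k : ℂ) * ex k q.2.1) * c' k)
      have h2 : (fun ω => Zr ξ K (ext p.1.1) c' p.2.1 ω - Zr ξ K (ext q.1.1) c' q.2.1 ω) =
          fun ω => (∑ k ∈ Finset.range K,
            (((ext p.1.1 k : ℂ) * ex k p.2.1 - (ext q.1.1 k : ℂ) * ex k q.2.1) * c' k) * ξ k ω).re :=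
        funext fun ω => Zr_sub ξ K _ _ c' _ _ ω
      rw [h2]
      refine subG_mono h1 (Real.toNNReal_le_toNNReal ?_)
      rw [Real.sq_sqrt (Finset.sum_nonneg fun k _ => by positivity)]
      refine Finset.sum_le_sum fun k _ => ?_
      rw [norm_mul, mul_pow]
      have := hc' k
      have h3 : ‖c' k‖ ^ 2 ≤ 1 := pow_le_one₀ (norm_nonneg _) this
      nlinarith [sq_nonneg ‖(ext p.1.1 k : ℂ) * ex k p.2.1 - (ext q.1.1 k : ℂ) * ex k q.2.1‖]
    · intro p
      have h1 := hSG Ω P ξ hξ (Finset.range K) (fun k => (ext p.1.1 k : ℂ) * ex k p.2.1 * c' k)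
      have h2 : (Zr ξ K (ext p.1.1) c' p.2.1) =
          fun ω => (∑ k ∈ Finset.range K, ((ext p.1.1 k : ℂ) * ex k p.2.1 * c' k) * ξ k ω).re :=
        funext fun ω => Zr_eq ξ K _ c' _ ω
      rw [h2]
      refine subG_mono h1 (Real.toNNReal_le_toNNReal ?_)
      have h3 : ∑ k ∈ Finset.range K, ‖(ext p.1.1 k : ℂ) * ex k p.2.1 * c' k‖ ^ 2 ≤
          ∑ k ∈ Finset.range K, ext p.1.1 k ^ 2 := by
        refine Finset.sum_le_sum fun k _ => ?_
        rw [norm_mul, norm_mul, norm_ex, mul_one, mul_pow, Complex.norm_real, Real.norm_eq_abs,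
          sq_abs]
        have h3 : ‖c' k‖ ^ 2 ≤ 1 := pow_le_one₀ (norm_nonneg _) (hc' k)
        nlinarith [sq_nonneg (ext p.1.1 k)]
      have h4 : ∑ k ∈ Finset.range K, ext p.1.1 k ^ 2 ≤ S ^ 2 := by
        have h5 := hnT p.1
        rw [← nrm_ext] at h5
        exact (Real.sqrt_le_left hS).1 h5
      nlinarith
  -- combine
  have hI : ∀ k, ‖-Complex.I * c k‖ ≤ 1 := by
    intro k
    rw [norm_mul, norm_neg, Complex.norm_I, one_mul]
    exact hc k
  have k1 := key c hc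
  have k2 := key (fun k => -Complex.I * c k) hI
  have him : ∀ (p : T × Y) (ω : Ω), Zr ξ K (ext p.1.1) (fun k => -Complex.I * c k) p.2.1 ω =
      (∑ k ∈ Finset.range K, (ext p.1.1 k : ℂ) * c k * ξ k ω * ex k p.2.1).im := by
    intro p ω
    unfold Zr
    have : ∑ k ∈ Finset.range K, (ext p.1.1 k : ℂ) * (-Complex.I * c k) * ξ k ω * ex k p.2.1 =
        -Complex.I * ∑ k ∈ Finset.range K, (ext p.1.1 k : ℂ) * c k * ξ k ω * ex k p.2.1 := by
      rw [Finset.mul_sum]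
      exact Finset.sum_congr rfl fun k _ => by ring
    rw [this]
    simp
  calc ∫⁻ ω, (⨆ v ∈ V, ⨆ θ ∈ Θ, ENNReal.ofReal
        (‖∑ k ∈ Finset.range K, (x v k : ℂ) * c k * ξ k ω * ex k θ‖ ^ 2)) ∂P
      ≤ ∫⁻ ω, ((⨆ p : T × Y, ENNReal.ofReal (Zr ξ K (ext p.1.1) c p.2.1 ω ^ 2)) +
          ⨆ p : T × Y, ENNReal.ofReal
            (Zr ξ K (ext p.1.1) (fun k => -Complex.I * c k) p.2.1 ω ^ 2)) ∂P := by
        refine lintegral_mono fun ω => ?_
        refine iSup₂_le fun v hv => iSup₂_le fun θ hθ => ?_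
        let p : T × Y := (⟨_, hmemA v hv⟩, ⟨θ, hθ⟩)
        have e : ∑ k ∈ Finset.range K, (x v k : ℂ) * c k * ξ k ω * ex k θ =
            ∑ k ∈ Finset.range K, (ext p.1.1 k : ℂ) * c k * ξ k ω * ex k p.2.1 :=
          Finset.sum_congr rfl fun k hk => by
            show _ = (ext (fun i : Fin K => x v i) k : ℂ) * c k * ξ k ω * ex k θ
            rw [ext_restrict _ hk]
        rw [e, ← Complex.normSq_eq_norm_sq, Complex.normSq_apply,
          ENNReal.ofReal_add (mul_self_nonneg _) (mul_self_nonneg _)]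
        refine add_le_add ?_ ?_
        · refine le_trans (le_of_eq ?_) (le_iSup (fun p : T × Y =>
            ENNReal.ofReal (Zr ξ K (ext p.1.1) c p.2.1 ω ^ 2)) p)
          rw [← sq]
          rfl
        · refine le_trans (le_of_eq ?_) (le_iSup (fun p : T × Y =>
            ENNReal.ofReal (Zr ξ K (ext p.1.1) (fun k => -Complex.I * c k) p.2.1 ω ^ 2)) p)
          rw [him, ← sq]
    _ = ∫⁻ ω, (⨆ p : T × Y, ENNReal.ofReal (Zr ξ K (ext p.1.1) c p.2.1 ω ^ 2)) ∂P +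
          ∫⁻ ω, (⨆ p : T × Y, ENNReal.ofReal
            (Zr ξ K (ext p.1.1) (fun k => -Complex.I * c k) p.2.1 ω ^ 2)) ∂P := by
        refine lintegral_add_left ?_ _
        exact Measurable.iSup fun p => ((hZm c p).pow_const 2).ennreal_ofReal
    _ ≤ ENNReal.ofReal (C3 * (C2 * ((3 * C1 + 1) * S)) ^ 2) +
          ENNReal.ofReal (C3 * (C2 * ((3 * C1 + 1) * S)) ^ 2) := add_le_add k1 k2
    _ = ENNReal.ofReal (2 * (C3 * (C2 * (3 * C1 + 1)) ^ 2) * S ^ 2) := by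
        rw [← ENNReal.ofReal_add (by positivity) (by positivity)]
        congr 1
        ring

end Pool.Agent.P8H68.RB
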