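import Pool.Agent.P8H68.RB.Stm
import Pool.Agent.P8H68.RB.Basic

/-!
# Package SG: linear combinations of Steinhaus variables are sub-Gaussian
-/

set_option autoImplicit false

open MeasureTheory ProbabilityTheory Set Filter Topology
open scoped ENNReal NNReal

namespace Pool.Agent.P8H68.RB

namespace SGaux

lemma int_circ : ∫ z, z ∂circ = 0 := by
  unfold circ
  have hm : Measurable fun t : ℝ => Complex.exp ((t : ℂ) * Complex.I) := by fun_prop
  rw [integral_map hm.aemeasurable (by fun_prop)]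
  unfold ProbabilityTheory.cond
  rw [integral_smul_measure]
  have h : ∫ t in Icc (0 : ℝ) (2 * Real.pi), Complex.exp ((t : ℂ) * Complex.I) = 0 := by
    rw [integral_Icc_eq_integral_Ioc, ← intervalIntegral.integral_of_le (by positivity)]
    have h1 : ∀ t : ℝ, Complex.exp ((t : ℂ) * Complex.I) = Complex.exp (Complex.I * t) := fun t => by
      rw [mul_comm]
    simp only [h1]
    rw [integral_exp_mul_complex Complex.I_ne_zero]
    have h2 : Complex.exp (Complex.I * ((2 * Real.pi : ℝ) : ℂ)) = 1 := by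
      rw [Complex.exp_eq_one_iff]
      exact ⟨1, by push_cast; ring⟩
    rw [h2]
    simp
  rw [h, smul_zero]

lemma integrable_xi {Ω : Type} [MeasurableSpace Ω] {P : Measure Ω} [IsProbabilityMeasure P] {ξ : ℕ → Ω → ℂ}
    (hξ : Stein P ξ) (k : ℕ) : Integrable (ξ k) P :=
  Integrable.of_bound (hξ.meas k).aestronglyMeasurable 1 (Eventually.of_forall fun ω => (hξ.norm_one k ω).le)

lemma int_xi {Ω : Type} [MeasurableSpace Ω] {P : Measure Ω} {ξ : ℕ → Ω → ℂ}
    (hξ : Stein P ξ) (k : ℕ) : ∫ ω, ξ k ω ∂P = 0 := by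
  have h : ∫ ω, ξ k ω ∂P = ∫ z, z ∂(P.map (ξ k)) := by
    rw [integral_map (hξ.meas k).aemeasurable (by fun_prop)]
  rw [h, hξ.law k, int_circ]

lemma sub_one {Ω : Type} [MeasurableSpace Ω] {P : Measure Ω} [IsProbabilityMeasure P] {ξ : ℕ → Ω → ℂ}
    (hξ : Stein P ξ) (w : ℂ) (k : ℕ) :
    HasSubgaussianMGF (fun ω => (w * ξ k ω).re) (Real.toNNReal (‖w‖ ^ 2)) P := by
  have h1 : AEMeasurable (fun ω => (w * ξ k ω).re) P :=
    (Complex.measurable_re.comp ((hξ.meas k).const_mul w)).aemeasurable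
  have h2 : ∀ᵐ ω ∂P, (w * ξ k ω).re ∈ Set.Icc (-‖w‖) ‖w‖ := by
    refine Eventually.of_forall fun ω => ?_
    have h3 : |(w * ξ k ω).re| ≤ ‖w‖ := by
      refine (Complex.abs_re_le_norm _).trans ?_
      rw [norm_mul, hξ.norm_one, mul_one]
    exact abs_le.1 h3
  have h3 : ∫ ω, (w * ξ k ω).re ∂P = 0 := by
    have h4 : ∫ ω, RCLike.re (w * ξ k ω) ∂P = RCLike.re (∫ ω, w * ξ k ω ∂P) :=
      integral_re ((integrable_xi hξ k).const_mul w)
    have h5 : ∫ ω, w * ξ k ω ∂P = 0 := by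
      rw [integral_const_mul, int_xi hξ k, mul_zero]
    rw [h5] at h4
    simpa using h4
  have h4 := hasSubgaussianMGF_of_mem_Icc_of_integral_eq_zero h1 h2 h3
  convert! h4 using 1
  apply NNReal.eq
  rw [Real.coe_toNNReal _ (by positivity)]
  push_cast
  rw [sub_neg_eq_add, ← two_mul, norm_mul, norm_norm]
  norm_num

end SGaux

open SGaux

/-- package SG -/
theorem part_SG : S_SG := by
  intro Ω _ P _ ξ hξ s w
  have hind : iIndepFun (fun k ω => (w k * ξ k ω).re) P :=
    hξ.indep.comp (fun k z => (w k * z).re) fun k => Complex.measurable_re.comp (measurable_id.const_mul (w k))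
  have h := HasSubgaussianMGF.sum_of_iIndepFun hind (c := fun k => Real.toNNReal (‖w k‖ ^ 2)) (s := s)
    fun k _ => sub_one hξ (w k) k
  have e1 : (fun ω => (∑ k ∈ s, w k * ξ k ω).re) = fun ω => ∑ k ∈ s, (w k * ξ k ω).re := by
    funext ω
    rw [Complex.re_sum]
  have e2 : Real.toNNReal (∑ k ∈ s, ‖w k‖ ^ 2) = ∑ k ∈ s, Real.toNNReal (‖w k‖ ^ 2) :=
    Real.toNNReal_sum_of_nonneg fun k _ => by positivity
  rw [e1, e2]
  exact h

end Pool.Agent.P8H68.RB
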