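import Pool.Agent.P8H68.RB.PSC

set_option autoImplicit false

open MeasureTheory ProbabilityTheory Set Filter Topology
open scoped ENNReal NNReal
open Pool.Agent.W823.CT

namespace Pool.Agent.P8H68.RB

namespace SUFaux

open SCaux

/-- extension by zero -/
def ut (M : ℕ) (r : Fin M → ℝ) (m : ℕ) : ℝ := if h : m < M then r ⟨m, h⟩ else 0

lemma ut_lt {M : ℕ} (r : Fin M → ℝ) {m : ℕ} (h : m < M) : ut M r m = r ⟨m, h⟩ := by simp [ut, h]

lemma ut_ge {M : ℕ} (r : Fin M → ℝ) {m : ℕ} (h : M ≤ m) : ut M r m = 0 := by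
  simp [ut, Nat.not_lt.2 h]

lemma ut_cont (M m : ℕ) : Continuous fun r : Fin M → ℝ => ut M r m := by
  unfold ut
  split_ifs
  · exact continuous_apply _
  · exact continuous_const

lemma div_lt {n M k : ℕ} (h : k < M * 2 ^ n) : k / 2 ^ n < M := Nat.div_lt_of_lt_mul (by rwa [mul_comm])

lemma le_div {n M k : ℕ} (h : M * 2 ^ n ≤ k) : M ≤ k / 2 ^ n := (Nat.le_div_iff_mul_le (by positivity)).2 h

/-- the process -/
noncomputable def Zf {Ω : Type} (ξ : ℕ → Ω → ℂ) (a : ℕ → ℂ) (n M : ℕ) (r : Fin M → ℝ) (θ : ℝ) (ω : Ω) : ℂ :=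
  ∑ k ∈ Finset.range (M * 2 ^ n), (ut M r (k / 2 ^ n) : ℂ) * a k * ξ k ω * ex k θ

lemma Zf_cont {Ω : Type} (ξ : ℕ → Ω → ℂ) (a : ℕ → ℂ) (n M : ℕ) (ω : Ω) :
    Continuous fun p : (Fin M → ℝ) × ℝ => ‖Zf ξ a n M p.1 p.2 ω‖ := by
  unfold Zf
  refine (continuous_finsetSum _ fun k _ => ?_).norm
  refine (((Complex.continuous_ofReal.comp ((ut_cont M _).comp continuous_fst)).mul
    continuous_const).mul continuous_const).mul ((continuous_ex k).comp continuous_snd)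

lemma dense_bound {Ω : Type} (ξ : ℕ → Ω → ℂ) (a : ℕ → ℂ) (n M : ℕ) (ω : Ω) (R : Set (Fin M → ℝ))
    (D : Set (↥R × ℝ)) (hD : Dense D) (B : ℝ) (h : ∀ p ∈ D, ‖Zf ξ a n M p.1.1 p.2 ω‖ ≤ B) (p : ↥R × ℝ) :
    ‖Zf ξ a n M p.1.1 p.2 ω‖ ≤ B := by
  have hcont : Continuous (fun p : ↥R × ℝ => ((p.1.1 : Fin M → ℝ), p.2)) :=
    (continuous_subtype_val.comp continuous_fst).prodMk continuous_snd
  have hc2 := (Zf_cont ξ a n M ω).comp hcont
  have hclosed : IsClosed {p : ↥R × ℝ | ‖Zf ξ a n M p.1.1 p.2 ω‖ ≤ B} :=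
    isClosed_le hc2 continuous_const
  have h1 := closure_minimal (s := D) (t := {p : ↥R × ℝ | ‖Zf ξ a n M p.1.1 p.2 ω‖ ≤ B}) h hclosed
  rw [hD.closure_eq] at h1
  exact h1 (mem_univ p)

lemma Zf_meas {Ω : Type} [MeasurableSpace Ω] {P : Measure Ω} {ξ : ℕ → Ω → ℂ} (hξ : Stein P ξ) (a : ℕ → ℂ)
    (n M : ℕ) (r : Fin M → ℝ) (θ : ℝ) : Measurable (Zf ξ a n M r θ) := by
  unfold Zf
  refine Finset.measurable_sum _ fun k _ => ?_
  exact ((hξ.meas k).const_mul _).mul_const _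

end SUFaux

open SCaux SUFaux

set_option maxHeartbeats 1000000 in
theorem part_SUF (hSC : S_SC) (hD : S_D) (hJB : S_JB) : S_SUF := by
  classical
  obtain ⟨C, hC, hSC⟩ := hSC
  obtain ⟨CD, hCD, hD⟩ := hD
  intro Ω _ P _ ξ hξ a U C₀ ha hU hJ
  -- the restricted index sets
  let R : ℕ × ℕ → Set (ℕ → ℝ) := fun q => {u | (q.1, q.2, u) ∈ U}
  let R' : (q : ℕ × ℕ) → Set (Fin q.2 → ℝ) := fun q => (fun u (i : Fin q.2) => u (i : ℕ)) '' R q
  have hsep : ∀ q : ℕ × ℕ, ∃ s : Set (↥(R' q) × ℝ), s.Countable ∧ Dense s := fun q =>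
    TopologicalSpace.exists_countable_dense _
  choose D hDc hDd using hsep
  let ι := Σ q : ℕ × ℕ, ↥(D q)
  have : ∀ q, Countable ↥(D q) := fun q => (hDc q).to_subtype
  have : Countable ι := inferInstance
  let nn : ι → ℕ := fun i => i.1.1
  let MM : ι → ℕ := fun i => i.1.2
  let rr : (i : ι) → (Fin (MM i) → ℝ) := fun i => i.2.1.1.1
  let th : ι → ℝ := fun i => i.2.1.2
  let uu : ι → ℕ → ℝ := fun i => ut (MM i) (rr i)
  -- facts on the weights
  have horig : ∀ i : ι, ∃ u, (nn i, MM i, u) ∈ U ∧ ∀ m < MM i, uu i m = u m := by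
    intro i
    obtain ⟨u, hu, hr⟩ := i.2.1.1.2
    refine ⟨u, hu, fun m hm => ?_⟩
    show ut (MM i) (rr i) m = u m
    rw [ut_lt _ hm]
    exact (congrFun hr ⟨m, hm⟩).symm
  have huu0 : ∀ i, uu i 0 = 0 := by
    intro i
    obtain ⟨u, hu, h⟩ := horig i
    rcases Nat.eq_zero_or_pos (MM i) with h0 | h0
    · exact ut_ge _ (by omega)
    · rw [h 0 h0]; exact (hU _ hu).1
  have huuge : ∀ i m, MM i ≤ m → uu i m = 0 := fun i m h => ut_ge _ h
  have hsum0 : ∀ i, ∑ m ∈ Finset.range (MM i), uu i m ^ 2 ≤ 1 := by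
    intro i
    obtain ⟨u, hu, h⟩ := horig i
    refine le_trans (le_of_eq ?_) (hU _ hu).2
    exact Finset.sum_congr rfl fun m hm => by rw [h m (Finset.mem_range.1 hm)]
  have hsum : ∀ i M', ∑ m ∈ Finset.range M', uu i m ^ 2 ≤ 1 := by
    intro i M'
    have h1 : ∑ m ∈ Finset.range M', uu i m ^ 2 ≤ ∑ m ∈ Finset.range (MM i + M'), uu i m ^ 2 :=
      Finset.sum_le_sum_of_subset_of_nonneg (Finset.range_mono (by omega)) fun m _ _ => sq_nonneg _
    have h2 : ∑ m ∈ Finset.range (MM i), uu i m ^ 2 = ∑ m ∈ Finset.range (MM i + M'), uu i m ^ 2 := by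
      refine Finset.sum_subset (Finset.range_mono (by omega)) fun m _ hm => ?_
      rw [huuge i m (by simpa using hm)]
      norm_num
    have := hsum0 i
    linarith
  have hle1 : ∀ i m, uu i m ^ 2 ≤ 1 := by
    intro i m
    refine le_trans ?_ (hsum i (m + 1))
    exact Finset.single_le_sum (f := fun m => uu i m ^ 2) (fun m _ => sq_nonneg _)
      (Finset.mem_range.2 (Nat.lt_succ_self m))
  -- the bound
  set A := √(∑' k, ‖a k‖ ^ 2) with hA
  have hA0 : 0 ≤ A := Real.sqrt_nonneg _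
  have hAK : ∀ K, √(∑ k ∈ Finset.range K, ‖a k‖ ^ 2) ≤ A := fun K =>
    Real.sqrt_le_sqrt (ha.sum_le_tsum _ fun k _ => by positivity)
  set S := |C₀| + (CD + 1) * A with hS
  have hS0 : 0 ≤ S := by positivity
  let Z : ι → Ω → ℝ≥0∞ := fun i ω => ENNReal.ofReal (‖Zf ξ a (nn i) (MM i) (rr i) (th i) ω‖ ^ 2)
  have hZm : ∀ i, Measurable (Z i) := fun i =>
    (((Zf_meas hξ a _ _ _ _).norm).pow_const 2).ennreal_ofReal
  have hfin : ∀ F : Finset ι, ∫⁻ ω, (⨆ i ∈ F, Z i ω) ∂P ≤ ENNReal.ofReal (C * S ^ 2) := by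
    intro F
    set K := F.sup (fun i => MM i * 2 ^ nn i) with hK
    have hKi : ∀ i ∈ F, MM i * 2 ^ nn i ≤ K := fun i hi => Finset.le_sup (f := fun i => MM i * 2 ^ nn i) hi
    let x : ι → ℕ → ℝ := fun i k => uu i (k / 2 ^ nn i) * ‖a k‖
    have hx0 : ∀ i k, MM i * 2 ^ nn i ≤ k → x i k = 0 := by
      intro i k h
      show uu i (k / 2 ^ nn i) * ‖a k‖ = 0
      rw [huuge i _ (le_div h), zero_mul]
    have hmain := hSC Ω P ξ hξ K ι F x (F.image th) (fun k => a k / (‖a k‖ : ℂ)) S hS0 ?_ ?_ ?_ ?_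
    · refine le_trans (lintegral_mono fun ω => ?_) hmain
      refine iSup₂_le fun i hi => ?_
      refine le_trans (le_of_eq ?_) (le_iSup₂_of_le i hi (le_iSup₂_of_le (th i)
        (Finset.mem_image_of_mem _ hi) le_rfl))
      show ENNReal.ofReal (‖Zf ξ a (nn i) (MM i) (rr i) (th i) ω‖ ^ 2) = _
      congr 3
      unfold Zf
      have h1 : ∑ k ∈ Finset.range K, (x i k : ℂ) * (a k / (‖a k‖ : ℂ)) * ξ k ω * ex k (th i) =
          ∑ k ∈ Finset.range (MM i * 2 ^ nn i), (x i k : ℂ) * (a k / (‖a k‖ : ℂ)) * ξ k ω * ex k (th i) := by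
        symm
        refine Finset.sum_subset (Finset.range_mono (hKi i hi)) fun k _ hk => ?_
        rw [hx0 i k (by simpa using hk)]
        simp
      rw [h1]
      refine Finset.sum_congr rfl fun k _ => ?_
      show _ = ((uu i (k / 2 ^ nn i) * ‖a k‖ : ℝ) : ℂ) * (a k / (‖a k‖ : ℂ)) * ξ k ω * ex k (th i)
      have h2 : ((uu i (k / 2 ^ nn i) * ‖a k‖ : ℝ) : ℂ) * (a k / (‖a k‖ : ℂ)) =
          (uu i (k / 2 ^ nn i) : ℂ) * a k := by
        rcases eq_or_ne (a k) 0 with h0 | h0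
        · rw [h0]; simp
        · have : (‖a k‖ : ℂ) ≠ 0 := by
            rw [Ne, Complex.ofReal_eq_zero, norm_eq_zero]; exact h0
          push_cast
          field_simp
      rw [h2]
    · intro k
      rw [norm_div, Complex.norm_real, norm_norm]
      rcases eq_or_ne (a k) 0 with h0 | h0
      · rw [h0]; simp
      · rw [div_self (norm_ne_zero_iff.2 h0)]
    · intro i hi
      obtain ⟨u, hu, h⟩ := horig i
      have h1 := hJ _ hu
      have h2 : J (Finset.range (MM i * 2 ^ nn i)) (x i) =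
          J (Finset.range (MM i * 2 ^ nn i)) (fun k => u (k / 2 ^ nn i) * ‖a k‖) :=
        J_congr fun k hk => by
          show uu i (k / 2 ^ nn i) * ‖a k‖ = _
          rw [h _ (div_lt (Finset.mem_range.1 hk))]
      have h3 := hJB.2.2 (Finset.range (MM i * 2 ^ nn i)) (Finset.range K) (x i)
        (Finset.range_mono (hKi i hi)) fun k _ hk => hx0 i k (by simpa using hk)
      rw [← h3, h2]
      refine h1.trans (ENNReal.ofReal_le_ofReal ?_)
      have := le_abs_self C₀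
      have : 0 ≤ (CD + 1) * A := by positivity
      linarith
    · intro i hi
      have h1 : √(∑ k ∈ Finset.range K, x i k ^ 2) ≤ √(∑ k ∈ Finset.range K, ‖a k‖ ^ 2) := by
        refine sqrt_sum_mono fun k _ => ?_
        show |uu i (k / 2 ^ nn i) * ‖a k‖| ≤ |‖a k‖|
        rw [abs_mul]
        have h2 := hle1 i (k / 2 ^ nn i)
        have h3 : |uu i (k / 2 ^ nn i)| ≤ 1 := abs_le_one_iff_mul_self_le_one.2 (by nlinarith)
        have := abs_nonneg ‖a k‖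
        nlinarith
      have h2 := hAK K
      have := abs_nonneg C₀
      have : 0 ≤ CD * A := by positivity
      rw [hS]; nlinarith
    · have h1 := hD K (fun k => ‖a k‖) ι F nn uu (fun i _ => huu0 i) (fun i _ M' => hsum i M')
      refine h1.trans ?_
      have h2 := hAK K
      have h3 : CD * √(∑ k ∈ Finset.range K, ‖a k‖ ^ 2) ≤ CD * A := mul_le_mul_of_nonneg_left h2 hCD.le
      have := abs_nonneg C₀
      rw [hS]; nlinarith
  -- countable supremum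
  have hsup : ∫⁻ ω, (⨆ i, Z i ω) ∂P ≤ ENNReal.ofReal (C * S ^ 2) := by
    have e1 : ∀ ω, (⨆ i, Z i ω) = ⨆ F : Finset ι, ⨆ i ∈ F, Z i ω := fun ω =>
      iSup_eq_iSup_finset _
    simp only [e1]
    rw [lintegral_iSup_directed]
    · exact iSup_le fun F => hfin F
    · intro F
      exact (Measurable.biSup (s := (F : Set ι)) F.countable_toSet fun i _ => hZm i).aemeasurable
    · intro F G
      refine ⟨F ∪ G, ?_, ?_⟩
      · intro ω
        exact biSup_mono fun i hi => Finset.mem_union_left _ hi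
      · intro ω
        exact biSup_mono fun i hi => Finset.mem_union_right _ hi
  have hae : ∀ᵐ ω ∂P, (⨆ i, Z i ω) < ⊤ :=
    ae_lt_top (Measurable.iSup hZm) (ne_of_lt (lt_of_le_of_lt hsup ENNReal.ofReal_lt_top))
  filter_upwards [hae] with ω hω
  set B := √((⨆ i, Z i ω).toReal) with hB
  have hZB : ∀ (q : ℕ × ℕ) (p : ↥(R' q) × ℝ), p ∈ D q → ‖Zf ξ a q.1 q.2 p.1.1 p.2 ω‖ ≤ B := by
    intro q p hp
    have h1 : Z ⟨q, ⟨p, hp⟩⟩ ω ≤ ⨆ i, Z i ω := le_iSup (fun i => Z i ω) ⟨q, ⟨p, hp⟩⟩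
    have h2 : ‖Zf ξ a q.1 q.2 p.1.1 p.2 ω‖ ^ 2 ≤ (⨆ i, Z i ω).toReal :=
      (ENNReal.ofReal_le_iff_le_toReal hω.ne).1 h1
    exact Real.le_sqrt_of_sq_le h2
  clear_value B
  have hall : ∀ (q : ℕ × ℕ) (p : ↥(R' q) × ℝ), ‖Zf ξ a q.1 q.2 p.1.1 p.2 ω‖ ≤ B := fun q =>
    dense_bound ξ a q.1 q.2 ω (R' q) (D q) (hDd q) B (hZB q)
  refine ⟨B, ?_⟩
  rintro ⟨n, M, u⟩ hp θ
  have hmem : (fun i : Fin M => u (i : ℕ)) ∈ R' (n, M) := ⟨u, hp, rfl⟩
  have := hall (n, M) (⟨_, hmem⟩, θ)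
  refine le_trans (le_of_eq ?_) this
  unfold Zf
  congr 1
  refine Finset.sum_congr rfl fun k hk => ?_
  rw [ut_lt _ (div_lt (Finset.mem_range.1 hk))]

end Pool.Agent.P8H68.RB
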