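import Pool.Agent.P8H68.RB.Stm

/-!
# Package UB: upper bound for the supremum of a sub-Gaussian process by the cost of a tree
-/

set_option autoImplicit false

open MeasureTheory ProbabilityTheory Set Filter Topology
open scoped ENNReal NNReal

namespace Pool.Agent.P8H68.RB

namespace UBaux

/-- history of `t` up to level `k` -/
def hist {T : Type} (lab : ℕ → T → ℕ) (k : ℕ) (t : T) : ℕ → ℕ := fun j => if j < k then lab j t else 0

/-- representative of the history class of `t` -/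
noncomputable def rep {T : Type} [Nonempty T] (lab : ℕ → T → ℕ) (k : ℕ) (t : T) : T :=
  Function.invFun (hist lab k) (hist lab k t)

lemma hist_rep {T : Type} [Nonempty T] (lab : ℕ → T → ℕ) (k : ℕ) (t : T) :
    hist lab k (rep lab k t) = hist lab k t :=
  Function.invFun_eq ⟨t, rfl⟩

lemma lab_rep {T : Type} [Nonempty T] (lab : ℕ → T → ℕ) {k j : ℕ} (h : j < k) (t : T) :
    lab j (rep lab k t) = lab j t := by
  have := congrFun (hist_rep lab k t) j
  simpa [hist, h] using this

lemma rep_congr {T : Type} [Nonempty T] (lab : ℕ → T → ℕ) {k : ℕ} {s t : T}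
    (h : ∀ j < k, lab j s = lab j t) : rep lab k s = rep lab k t := by
  have : hist lab k s = hist lab k t := by
    funext j
    unfold hist
    split_ifs with hj
    · exact h j hj
    · rfl
  unfold rep
  rw [this]

lemma rep_rep {T : Type} [Nonempty T] (lab : ℕ → T → ℕ) (k : ℕ) (t : T) :
    rep lab k (rep lab (k + 1) t) = rep lab k t :=
  rep_congr lab fun _ hj => lab_rep lab (Nat.lt_succ_of_lt hj) t

lemma rep_idem {T : Type} [Nonempty T] (lab : ℕ → T → ℕ) (k : ℕ) (t : T) :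
    rep lab k (rep lab k t) = rep lab k t :=
  rep_congr lab fun _ hj => lab_rep lab hj t

lemma rep_zero {T : Type} [Nonempty T] (lab : ℕ → T → ℕ) (s t : T) :
    rep lab 0 s = rep lab 0 t :=
  rep_congr lab fun _ hj => absurd hj (Nat.not_lt_zero _)

/-- weight of the history -/
noncomputable def wt {T : Type} (lab : ℕ → T → ℕ) (k : ℕ) (s : T) : ℝ :=
  ∏ j ∈ Finset.range (k + 1), (1 / (8 * (lab j s : ℝ) ^ 2))

lemma sum_inv_sq (L : ℕ) : ∑ l ∈ Finset.Icc 1 L, (1 / (8 * (l : ℝ) ^ 2)) ≤ 1 / 4 := by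
  have key : ∀ L : ℕ, ∑ l ∈ Finset.Icc 1 (L + 1), (1 / (8 * (l : ℝ) ^ 2)) ≤ 1 / 4 - 1 / (8 * (L + 1 : ℝ)) := by
    intro L
    induction L with
    | zero => norm_num
    | succ n ih =>
      rw [Finset.sum_Icc_succ_top (by omega)]
      have h1 : (0 : ℝ) < n + 1 := by positivity
      have h2 : 1 / (8 * ((n + 1 + 1 : ℕ) : ℝ) ^ 2) ≤ 1 / (8 * (n + 1 : ℝ)) - 1 / (8 * ((n + 1 : ℕ) + 1 : ℝ)) := by
        push_cast
        rw [div_sub_div _ _ (by positivity) (by positivity), div_le_div_iff₀ (by positivity) (by positivity)]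
        nlinarith
      linarith
  rcases L with _ | L
  · norm_num
  · refine (key L).trans ?_
    have : (0 : ℝ) ≤ 1 / (8 * (L + 1 : ℝ)) := by positivity
    linarith

lemma sum_wt {T : Type} [Fintype T] [DecidableEq T] [Nonempty T] (lab : ℕ → T → ℕ) (hlab : ∀ k x, 1 ≤ lab k x)
    (k : ℕ) : ∑ s ∈ Finset.univ.image (rep lab (k + 1)), wt lab k s ≤ (1 / 4) ^ (k + 1) := by
  classical
  obtain ⟨L, hL⟩ : ∃ L : ℕ, ∀ j ∈ Finset.range (k + 1), ∀ x, lab j x ≤ L := by
    refine ⟨∑ j ∈ Finset.range (k + 1), ∑ x, lab j x, ?_⟩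
    intro j hj x
    calc lab j x ≤ ∑ x, lab j x := Finset.single_le_sum (f := fun x => lab j x) (fun _ _ => Nat.zero_le _) (Finset.mem_univ x)
      _ ≤ _ := Finset.single_le_sum (f := fun j => ∑ x, lab j x) (fun _ _ => Nat.zero_le _) hj
  have e1 : ∑ s ∈ Finset.univ.image (rep lab (k + 1)), wt lab k s
      = ∑ p ∈ (Finset.univ.image (rep lab (k + 1))).image (fun s => fun j : Fin (k + 1) => lab j s),
        ∏ j : Fin (k + 1), (1 / (8 * (p j : ℝ) ^ 2)) := by
    rw [Finset.sum_image (f := fun p : Fin (k + 1) → ℕ => ∏ j : Fin (k + 1), (1 / (8 * (p j : ℝ) ^ 2)))]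
    · refine Finset.sum_congr rfl fun s _ => ?_
      rw [wt, Finset.prod_range]
    · intro s hs t ht hst
      obtain ⟨s', -, rfl⟩ := Finset.mem_image.1 hs
      obtain ⟨t', -, rfl⟩ := Finset.mem_image.1 ht
      have : ∀ j < k + 1, lab j (rep lab (k + 1) s') = lab j (rep lab (k + 1) t') :=
        fun j hj => congrFun hst ⟨j, hj⟩
      have h2 := rep_congr lab this
      rwa [rep_idem, rep_idem] at h2
  rw [e1]
  calc ∑ p ∈ (Finset.univ.image (rep lab (k + 1))).image (fun s => fun j : Fin (k + 1) => lab j s),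
        ∏ j : Fin (k + 1), (1 / (8 * (p j : ℝ) ^ 2))
      ≤ ∑ p ∈ Fintype.piFinset (fun _ : Fin (k + 1) => Finset.Icc 1 L),
        ∏ j : Fin (k + 1), (1 / (8 * (p j : ℝ) ^ 2)) := by
        refine Finset.sum_le_sum_of_subset_of_nonneg ?_ fun _ _ _ => Finset.prod_nonneg fun _ _ => by positivity
        intro p hp
        rw [Finset.mem_image] at hp
        obtain ⟨s, -, rfl⟩ := hp
        rw [Fintype.mem_piFinset]
        intro j
        exact Finset.mem_Icc.2 ⟨hlab _ _, hL _ (Finset.mem_range.2 j.2) _⟩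
    _ = ∏ j : Fin (k + 1), ∑ l ∈ Finset.Icc 1 L, (1 / (8 * (l : ℝ) ^ 2)) := by
        rw [Finset.prod_univ_sum]
    _ = (∑ l ∈ Finset.Icc 1 L, (1 / (8 * (l : ℝ) ^ 2))) ^ (k + 1) := by
        rw [Finset.prod_const, Finset.card_univ, Fintype.card_fin]
    _ ≤ (1 / 4) ^ (k + 1) :=
        pow_le_pow_left₀ (Finset.sum_nonneg fun _ _ => by positivity) (sum_inv_sq L) _

lemma wt_pos {T : Type} (lab : ℕ → T → ℕ) (hlab : ∀ k x, 1 ≤ lab k x) (k : ℕ) (s : T) : 0 < wt lab k s := by
  refine Finset.prod_pos fun j _ => ?_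
  have : (0 : ℝ) < lab j s := by exact_mod_cast hlab j s
  positivity

/-- cost of a label sequence -/
noncomputable def cst {T : Type} (lab : ℕ → T → ℕ) (k : ℕ) (s : T) : ℝ :=
  ∑ j ∈ Finset.range (k + 1), (Real.log (lab j s) + 1)

lemma one_le_cst {T : Type} (lab : ℕ → T → ℕ) (hlab : ∀ k x, 1 ≤ lab k x) (k : ℕ) (s : T) : 1 ≤ cst lab k s := by
  have h0 : ∀ j, 0 ≤ Real.log (lab j s) := fun j => Real.log_nonneg (by exact_mod_cast hlab j s)
  calc (1 : ℝ) ≤ Real.log (lab 0 s) + 1 := by linarith [h0 0]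
    _ ≤ _ := Finset.single_le_sum (f := fun j => Real.log (lab j s) + 1) (fun j _ => by linarith [h0 j])
        (Finset.mem_range.2 (Nat.succ_pos k))

lemma log_wt {T : Type} (lab : ℕ → T → ℕ) (hlab : ∀ k x, 1 ≤ lab k x) (k : ℕ) (s : T) :
    1 ≤ -Real.log (wt lab k s) ∧ -Real.log (wt lab k s) ≤ 4 * cst lab k s := by
  have h0 : ∀ j, 0 ≤ Real.log (lab j s) := fun j => Real.log_nonneg (by exact_mod_cast hlab j s)
  have hpos : ∀ j, (0 : ℝ) < lab j s := fun j => by exact_mod_cast hlab j s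
  have e : -Real.log (wt lab k s) = ∑ j ∈ Finset.range (k + 1), (Real.log 8 + 2 * Real.log (lab j s)) := by
    rw [wt, Real.log_prod (fun j _ => by have := hpos j; positivity), ← Finset.sum_neg_distrib]
    refine Finset.sum_congr rfl fun j _ => ?_
    have := hpos j
    rw [one_div, Real.log_inv, neg_neg, Real.log_mul (by norm_num) (by positivity), Real.log_pow]
    push_cast
    ring
  have h8 : Real.log 8 = 3 * Real.log 2 := by
    rw [show (8 : ℝ) = 2 ^ 3 by norm_num, Real.log_pow]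
    push_cast; ring
  have l2 := Real.log_two_gt_d9
  have l2' := Real.log_two_lt_d9
  rw [e]
  constructor
  · calc (1 : ℝ) ≤ Real.log 8 + 2 * Real.log (lab 0 s) := by linarith [h0 0]
      _ ≤ _ := Finset.single_le_sum (f := fun j => Real.log 8 + 2 * Real.log (lab j s))
          (fun j _ => by have := h0 j; linarith) (Finset.mem_range.2 (Nat.succ_pos k))
  · rw [cst, Finset.mul_sum]
    exact Finset.sum_le_sum fun j _ => by have := h0 j; linarith

/-- the exponential bound for one edge -/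
lemma edge_int {Ω : Type} [MeasurableSpace Ω] (P : Measure Ω) [IsProbabilityMeasure P] (X : Ω → ℝ)
    (d D L : ℝ) (hd : 0 ≤ d) (hdD : d ≤ D) (hD : 0 < D) (hL : 0 ≤ L)
    (h : HasSubgaussianMGF X (Real.toNNReal (d ^ 2)) P) :
    Integrable (fun ω => (Real.exp (√L / D * X ω) + Real.exp (-(√L / D) * X ω)) * Real.exp (-(L / 2))) P ∧
    ∫ ω, (Real.exp (√L / D * X ω) + Real.exp (-(√L / D) * X ω)) * Real.exp (-(L / 2)) ∂P ≤ 2 := by
  have i1 := h.integrable_exp_mul (√L / D)
  have i2 := h.integrable_exp_mul (-(√L / D))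
  have m1 := h.mgf_le (√L / D)
  have m2 := h.mgf_le (-(√L / D))
  have hc : ((Real.toNNReal (d ^ 2) : ℝ≥0) : ℝ) = d ^ 2 := Real.coe_toNNReal _ (by positivity)
  have hb : d ^ 2 * (√L / D) ^ 2 / 2 ≤ L / 2 := by
    rw [div_pow, Real.sq_sqrt hL]
    have : d ^ 2 ≤ D ^ 2 := pow_le_pow_left₀ hd hdD 2
    have h3 : d ^ 2 * (L / D ^ 2) ≤ L := by
      rw [mul_div_assoc', div_le_iff₀ (by positivity)]
      nlinarith
    linarith
  rw [hc] at m1 m2
  rw [neg_sq] at m2
  have m1' : mgf X P (√L / D) ≤ Real.exp (L / 2) := m1.trans (Real.exp_le_exp.2 hb)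
  have m2' : mgf X P (-(√L / D)) ≤ Real.exp (L / 2) := m2.trans (Real.exp_le_exp.2 hb)
  refine ⟨(i1.add i2).mul_const _, ?_⟩
  rw [integral_mul_const, integral_add i1 i2]
  have e : Real.exp (L / 2) * Real.exp (-(L / 2)) = 1 := by rw [← Real.exp_add]; simp
  have : (∫ ω, Real.exp (√L / D * X ω) ∂P) + ∫ ω, Real.exp (-(√L / D) * X ω) ∂P ≤ 2 * Real.exp (L / 2) := by
    have a1 : ∫ ω, Real.exp (√L / D * X ω) ∂P = mgf X P (√L / D) := rfl
    have a2 : ∫ ω, Real.exp (-(√L / D) * X ω) ∂P = mgf X P (-(√L / D)) := rfl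
    rw [a1, a2]
    linarith
  calc _ ≤ (2 * Real.exp (L / 2)) * Real.exp (-(L / 2)) := by gcongr
    _ = 2 := by rw [mul_assoc, e, mul_one]

/-- the pointwise bound for one edge -/
lemma edge_pt (x D L W : ℝ) (hD : 0 < D) (hL : 1 ≤ L)
    (h : Real.exp (-L) * ((Real.exp (√L / D * x) + Real.exp (-(√L / D) * x)) * Real.exp (-(L / 2))) ≤ W) :
    |x| ≤ D * (3 / 2 * √L + max 0 (Real.log W)) := by
  have hs : 1 ≤ √L := by rw [Real.one_le_sqrt]; exact hL
  have hs2 : √L * √L = L := Real.mul_self_sqrt (by linarith)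
  have h1 : Real.exp (√L / D * |x|) ≤ Real.exp (√L / D * x) + Real.exp (-(√L / D) * x) := by
    rcases abs_cases x with ⟨h, _⟩ | ⟨h, _⟩
    · rw [h]; have := Real.exp_pos (-(√L / D) * x); linarith
    · rw [h]
      have e : √L / D * -x = -(√L / D) * x := by ring
      rw [e]
      have := Real.exp_pos (√L / D * x); linarith
  have h2 : Real.exp (√L / D * |x| - 3 / 2 * L) ≤ W := by
    refine le_trans ?_ h
    have e : Real.exp (√L / D * |x| - 3 / 2 * L) = Real.exp (-L) * (Real.exp (√L / D * |x|) * Real.exp (-(L / 2))) := by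
      rw [← Real.exp_add, ← Real.exp_add]; congr 1; ring
    rw [e]
    gcongr
  have hW : 0 < W := lt_of_lt_of_le (Real.exp_pos _) h2
  have h3 : √L / D * |x| - 3 / 2 * L ≤ Real.log W := (Real.le_log_iff_exp_le hW).2 h2
  have h4 : Real.log W ≤ max 0 (Real.log W) := le_max_right _ _
  have h5 : 0 ≤ max 0 (Real.log W) := le_max_left _ _
  have h6 : √L / D * |x| ≤ √L * (3 / 2 * √L + max 0 (Real.log W)) := by nlinarith
  have h7 : √L / D * |x| = √L * (|x| / D) := by ring
  rw [h7] at h6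
  have h8 : |x| / D ≤ 3 / 2 * √L + max 0 (Real.log W) := le_of_mul_le_mul_left h6 (by linarith)
  rw [div_le_iff₀ hD] at h8
  linarith

lemma log_sq (W : ℝ) (hW : 0 < W) : (max 0 (Real.log W)) ^ 2 ≤ 4 * W := by
  rcases le_total (Real.log W) 0 with h | h
  · rw [max_eq_left h]; simp; positivity
  · rw [max_eq_right h]
    have hs : 0 < √W := Real.sqrt_pos.2 hW
    have e : Real.log W = 2 * Real.log √W := by
      rw [Real.log_sqrt hW.le]; ring
    have h1 : Real.log √W ≤ √W - 1 := Real.log_le_sub_one_of_pos hs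
    have h2 : Real.log W ≤ 2 * √W := by rw [e]; linarith
    have h3 : √W * √W = W := Real.mul_self_sqrt hW.le
    nlinarith

end UBaux

open UBaux

/-- package UB -/
theorem part_UB : S_UB := by
  classical
  refine ⟨136, by norm_num, ?_⟩
  intro Ω _ P _ T _ δ Δ w S Z hΔ hw hw2 hδ0 hG hZ hZ0
  obtain ⟨lab, hlab, hdist, hcost⟩ := hG
  rcases isEmpty_or_nonempty T with hT | hT
  · simp
  obtain ⟨o⟩ := hT
  have : Nonempty T := ⟨o⟩
  set r : T := rep lab 0 o with hr
  have hroot : ∀ t, rep lab 0 t = r := fun t => rep_zero lab t o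
  -- choice of the depth
  obtain ⟨m, hm⟩ : ∃ m : ℕ, ∀ x y, δ x y ≤ Δ * w ^ m → δ x y = 0 := by
    have hfin : (Set.range fun p : T × T => δ p.1 p.2).Finite := Set.finite_range _
    have key : ∀ p : T × T, ∀ᶠ m : ℕ in atTop, δ p.1 p.2 ≤ Δ * w ^ m → δ p.1 p.2 = 0 := by
      intro p
      have ht : Tendsto (fun m : ℕ => Δ * w ^ m) atTop (𝓝 (Δ * 0)) :=
        (tendsto_pow_atTop_nhds_zero_of_lt_one hw.le (by linarith)).const_mul Δ
      rw [mul_zero] at ht
      rcases (hδ0 p.1 p.2).eq_or_lt with h0 | h0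
      · exact Eventually.of_forall fun _ _ => h0.symm
      · filter_upwards [ht.eventually_lt_const h0] with m hm hle
        exact absurd hle (not_le.2 hm)
    obtain ⟨m, hm⟩ := (eventually_all.2 key).exists
    exact ⟨m, fun x y => hm (x, y)⟩
  -- lower bound for `S`
  have hS : Δ ≤ S := by
    have h1 := hcost 1 o
    simp only [Finset.range_one, Finset.sum_singleton, pow_zero, mul_one, zero_add] at h1
    have h2 : 1 ≤ √(Real.log (lab 0 o) + 1) := by
      rw [Real.one_le_sqrt]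
      have : 0 ≤ Real.log (lab 0 o) := Real.log_nonneg (by exact_mod_cast hlab 0 o)
      linarith
    nlinarith
  -- the random variable `W`
  let E : ℕ → T → Ω → ℝ := fun k s ω =>
    (Real.exp (√(-Real.log (wt lab k s)) / (Δ * w ^ k) * (Z s ω - Z (rep lab k s) ω)) +
      Real.exp (-(√(-Real.log (wt lab k s)) / (Δ * w ^ k)) * (Z s ω - Z (rep lab k s) ω))) *
      Real.exp (-(-Real.log (wt lab k s) / 2))
  let E0 : Ω → ℝ := fun ω => (Real.exp (√1 / Δ * Z r ω) + Real.exp (-(√1 / Δ) * Z r ω)) * Real.exp (-(1 / 2))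
  let R : ℕ → Finset T := fun k => Finset.univ.image (rep lab k)
  let W : Ω → ℝ := fun ω => Real.exp (-1) * E0 ω + ∑ k ∈ Finset.range m, ∑ s ∈ R (k + 1), wt lab k s * E k s ω
  have hDk : ∀ k : ℕ, 0 < Δ * w ^ k := fun k => by positivity
  have hE : ∀ k s, Integrable (E k s) P ∧ ∫ ω, E k s ω ∂P ≤ 2 := by
    intro k s
    have hL := (log_wt lab hlab k s).1
    have hle : δ s (rep lab k s) ≤ Δ * w ^ k := hdist k _ _ fun _ hj => (lab_rep lab hj s).symm
    exact edge_int P (fun ω => Z s ω - Z (rep lab k s) ω) (δ s (rep lab k s)) (Δ * w ^ k) _ (hδ0 _ _)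
      hle (hDk k) (by linarith) (hZ _ _)
  have hE0 : Integrable E0 P ∧ ∫ ω, E0 ω ∂P ≤ 2 :=
    edge_int P (Z r) Δ Δ 1 hΔ.le le_rfl hΔ zero_le_one (hZ0 r)
  have hEpos : ∀ k s ω, 0 < E k s ω := fun k s ω => by positivity
  have hE0pos : ∀ ω, 0 < E0 ω := fun ω => by positivity
  have hWpos : ∀ ω, 0 < W ω := by
    intro ω
    have : 0 ≤ ∑ k ∈ Finset.range m, ∑ s ∈ R (k + 1), wt lab k s * E k s ω :=
      Finset.sum_nonneg fun k _ => Finset.sum_nonneg fun s _ =>
        mul_nonneg (wt_pos lab hlab k s).le (hEpos k s ω).le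
    have h2 := hE0pos ω
    have h3 : 0 < Real.exp (-1) * E0 ω := by positivity
    exact add_pos_of_pos_of_nonneg h3 this
  have hWint : Integrable W P := by
    refine (hE0.1.const_mul _).add ?_
    refine integrable_finsetSum _ fun k _ => integrable_finsetSum _ fun s _ => (hE k s).1.const_mul _
  have hWle : ∫ ω, W ω ∂P ≤ 2 := by
    have e : ∫ ω, W ω ∂P = Real.exp (-1) * ∫ ω, E0 ω ∂P +
        ∑ k ∈ Finset.range m, ∑ s ∈ R (k + 1), wt lab k s * ∫ ω, E k s ω ∂P := by
      rw [integral_add (hE0.1.const_mul _) (integrable_finsetSum _ fun k _ =>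
        integrable_finsetSum _ fun s _ => (hE k s).1.const_mul _), integral_const_mul,
        integral_finsetSum _ (fun k _ => integrable_finsetSum _ fun s _ => (hE k s).1.const_mul _)]
      congr 1
      refine Finset.sum_congr rfl fun k _ => ?_
      rw [integral_finsetSum _ (fun s _ => (hE k s).1.const_mul _)]
      refine Finset.sum_congr rfl fun s _ => ?_
      rw [integral_const_mul]
    rw [e]
    have h1 : Real.exp (-1) * ∫ ω, E0 ω ∂P ≤ 1 / 2 * 2 := by
      have : Real.exp (-1) ≤ 1 / 2 := by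
        have := Real.exp_neg_one_lt_d9
        linarith
      have h0 : 0 ≤ ∫ ω, E0 ω ∂P := integral_nonneg fun ω => (hE0pos ω).le
      exact mul_le_mul this hE0.2 h0 (by norm_num)
    have h2 : ∑ k ∈ Finset.range m, ∑ s ∈ R (k + 1), wt lab k s * ∫ ω, E k s ω ∂P ≤ 2 / 3 := by
      calc ∑ k ∈ Finset.range m, ∑ s ∈ R (k + 1), wt lab k s * ∫ ω, E k s ω ∂P
          ≤ ∑ k ∈ Finset.range m, 2 * (1 / 4 : ℝ) ^ (k + 1) := by
            refine Finset.sum_le_sum fun k _ => ?_
            calc ∑ s ∈ R (k + 1), wt lab k s * ∫ ω, E k s ω ∂P ≤ ∑ s ∈ R (k + 1), wt lab k s * 2 := by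
                  refine Finset.sum_le_sum fun s _ => ?_
                  exact mul_le_mul_of_nonneg_left (hE k s).2 (wt_pos lab hlab k s).le
              _ = 2 * ∑ s ∈ R (k + 1), wt lab k s := by rw [← Finset.sum_mul, mul_comm]
              _ ≤ 2 * (1 / 4 : ℝ) ^ (k + 1) := by
                  have := sum_wt lab hlab k
                  linarith
        _ = 1 / 2 * ∑ k ∈ Finset.range m, (1 / 4 : ℝ) ^ k := by
            rw [Finset.mul_sum]
            refine Finset.sum_congr rfl fun k _ => ?_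
            rw [pow_succ]; ring
        _ ≤ 2 / 3 := by
            rw [geom_sum_eq (by norm_num)]
            have : (0 : ℝ) < (1 / 4) ^ m := by positivity
            have e2 : ((1 / 4 : ℝ) ^ m - 1) / (1 / 4 - 1) = 4 / 3 * (1 - (1 / 4) ^ m) := by ring
            rw [e2]
            linarith
    linarith
  -- pointwise bounds
  have hS0 : 0 < S := lt_of_lt_of_le hΔ hS
  have hpt : ∀ k ∈ Finset.range m, ∀ s ∈ R (k + 1), ∀ ω, |Z s ω - Z (rep lab k s) ω| ≤
      Δ * w ^ k * (3 * √(cst lab k s) + max 0 (Real.log (W ω))) := by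
    intro k hk s hs ω
    obtain ⟨hL1, hL2⟩ := log_wt lab hlab k s
    have hle : Real.exp (-(-Real.log (wt lab k s))) * E k s ω ≤ W ω := by
      rw [neg_neg, Real.exp_log (wt_pos lab hlab k s)]
      have h1 : wt lab k s * E k s ω ≤ ∑ s ∈ R (k + 1), wt lab k s * E k s ω :=
        Finset.single_le_sum (f := fun s => wt lab k s * E k s ω)
          (fun s _ => mul_nonneg (wt_pos lab hlab k s).le (hEpos k s ω).le) hs
      have h2 : ∑ s ∈ R (k + 1), wt lab k s * E k s ω ≤
          ∑ k ∈ Finset.range m, ∑ s ∈ R (k + 1), wt lab k s * E k s ω :=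
        Finset.single_le_sum (f := fun k => ∑ s ∈ R (k + 1), wt lab k s * E k s ω)
          (fun k _ => Finset.sum_nonneg fun s _ => mul_nonneg (wt_pos lab hlab k s).le (hEpos k s ω).le) hk
      have h3 : 0 < Real.exp (-1) * E0 ω := by have := hE0pos ω; positivity
      exact (h1.trans h2).trans (by simp only [W]; linarith)
    have h1 := edge_pt (Z s ω - Z (rep lab k s) ω) (Δ * w ^ k) (-Real.log (wt lab k s)) (W ω) (hDk k) hL1 hle
    refine h1.trans (mul_le_mul_of_nonneg_left ?_ (hDk k).le)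
    have h2 : √(-Real.log (wt lab k s)) ≤ 2 * √(cst lab k s) := by
      rw [show (2 : ℝ) * √(cst lab k s) = √(4 * cst lab k s) by
        rw [Real.sqrt_mul (by norm_num), show (4 : ℝ) = 2 ^ 2 by norm_num, Real.sqrt_sq (by norm_num)]]
      exact Real.sqrt_le_sqrt hL2
    linarith
  have hpt0 : ∀ ω, |Z r ω| ≤ Δ * (3 + max 0 (Real.log (W ω))) := by
    intro ω
    have hle : Real.exp (-1) * E0 ω ≤ W ω := by
      have : 0 ≤ ∑ k ∈ Finset.range m, ∑ s ∈ R (k + 1), wt lab k s * E k s ω :=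
        Finset.sum_nonneg fun k _ => Finset.sum_nonneg fun s _ =>
          mul_nonneg (wt_pos lab hlab k s).le (hEpos k s ω).le
      simp only [W]; linarith
    have h1 := edge_pt (Z r ω) Δ 1 (W ω) hΔ le_rfl hle
    refine h1.trans (mul_le_mul_of_nonneg_left ?_ hΔ.le)
    rw [Real.sqrt_one]
    linarith
  have hlast : ∀ᵐ ω ∂P, ∀ t : T, Z t ω = Z (rep lab m t) ω := by
    rw [ae_all_iff]
    intro t
    have h0 : δ t (rep lab m t) = 0 :=
      hm _ _ (hdist m _ _ fun _ hj => (lab_rep lab hj t).symm)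
    have h1 := hZ t (rep lab m t)
    rw [h0] at h1
    have h2 : HasSubgaussianMGF (fun ω => Z t ω - Z (rep lab m t) ω) 0 P := by simpa using h1
    filter_upwards [h2.ae_eq_zero_of_hasSubgaussianMGF_zero] with ω hω
    have : Z t ω - Z (rep lab m t) ω = 0 := hω
    linarith
  have hsup : ∀ᵐ ω ∂P, ∀ t : T, Z t ω ^ 2 ≤ 4 * S ^ 2 * (18 + 8 * W ω) := by
    filter_upwards [hlast] with ω hω t
    set Lg : ℝ := max 0 (Real.log (W ω)) with hLg
    have hLg0 : 0 ≤ Lg := le_max_left _ _
    have htel : ∀ n : ℕ, n ≤ m → |Z (rep lab n t) ω - Z r ω| ≤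
        ∑ k ∈ Finset.range n, Δ * w ^ k * √(cst lab k t) * (3 + Lg) := by
      intro n
      induction n with
      | zero => intro _; rw [hroot]; simp
      | succ k ih =>
        intro hk
        rw [Finset.sum_range_succ]
        have h1 := ih (by omega)
        have h2 := hpt k (Finset.mem_range.2 (by omega)) (rep lab (k + 1) t)
          (Finset.mem_image_of_mem _ (Finset.mem_univ t)) ω
        rw [rep_rep] at h2
        have hc : cst lab k (rep lab (k + 1) t) = cst lab k t := by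
          unfold cst
          refine Finset.sum_congr rfl fun j hj => ?_
          rw [lab_rep lab (Finset.mem_range.1 hj)]
        rw [hc] at h2
        have h3 : Δ * w ^ k * (3 * √(cst lab k t) + Lg) ≤ Δ * w ^ k * √(cst lab k t) * (3 + Lg) := by
          rw [mul_assoc (Δ * w ^ k)]
          refine mul_le_mul_of_nonneg_left ?_ (hDk k).le
          have : 1 ≤ √(cst lab k t) := by rw [Real.one_le_sqrt]; exact one_le_cst lab hlab k t
          nlinarith
        calc |Z (rep lab (k + 1) t) ω - Z r ω|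
            = |(Z (rep lab k t) ω - Z r ω) + (Z (rep lab (k + 1) t) ω - Z (rep lab k t) ω)| := by
              congr 1; ring
          _ ≤ _ := (abs_add_le _ _).trans (add_le_add h1 (h2.trans h3))
    have h1 := htel m le_rfl
    rw [← hω t, ← Finset.sum_mul] at h1
    have h2 : ∑ k ∈ Finset.range m, Δ * w ^ k * √(cst lab k t) ≤ S := hcost m t
    have h3 : |Z t ω| ≤ 2 * S * (3 + Lg) := by
      have h4 := hpt0 ω
      have h5 : |Z t ω| ≤ |Z t ω - Z r ω| + |Z r ω| := by
        calc |Z t ω| = |(Z t ω - Z r ω) + Z r ω| := by congr 1; ring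
          _ ≤ _ := abs_add_le _ _
      have h6 : (∑ k ∈ Finset.range m, Δ * w ^ k * √(cst lab k t)) * (3 + Lg) ≤ S * (3 + Lg) :=
        mul_le_mul_of_nonneg_right h2 (by linarith)
      have h7 : Δ * (3 + Lg) ≤ S * (3 + Lg) := mul_le_mul_of_nonneg_right hS (by linarith)
      linarith
    have h4 : Lg ^ 2 ≤ 4 * W ω := log_sq _ (hWpos ω)
    calc Z t ω ^ 2 = |Z t ω| ^ 2 := (sq_abs _).symm
      _ ≤ (2 * S * (3 + Lg)) ^ 2 := pow_le_pow_left₀ (abs_nonneg _) h3 2
      _ = 4 * S ^ 2 * (3 + Lg) ^ 2 := by ring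
      _ ≤ 4 * S ^ 2 * (18 + 8 * W ω) := by
          refine mul_le_mul_of_nonneg_left ?_ (by positivity)
          nlinarith [sq_nonneg (3 - Lg)]
  have hint : Integrable (fun ω => 4 * S ^ 2 * (18 + 8 * W ω)) P :=
    ((integrable_const _).add (hWint.const_mul 8)).const_mul _
  calc ∫⁻ ω, (⨆ x, ENNReal.ofReal (Z x ω ^ 2)) ∂P
      ≤ ∫⁻ ω, ENNReal.ofReal (4 * S ^ 2 * (18 + 8 * W ω)) ∂P := by
        refine lintegral_mono_ae ?_
        filter_upwards [hsup] with ω hω
        exact iSup_le fun x => ENNReal.ofReal_le_ofReal (hω x)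
    _ = ENNReal.ofReal (∫ ω, 4 * S ^ 2 * (18 + 8 * W ω) ∂P) := by
        rw [ofReal_integral_eq_lintegral_ofReal hint]
        exact Eventually.of_forall fun ω => by have := hWpos ω; positivity
    _ ≤ ENNReal.ofReal (136 * S ^ 2) := by
        refine ENNReal.ofReal_le_ofReal ?_
        rw [integral_const_mul, integral_add (integrable_const _) (hWint.const_mul 8), integral_const_mul]
        simp only [integral_const, probReal_univ, smul_eq_mul, one_mul]
        nlinarith [sq_nonneg S]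

end Pool.Agent.P8H68.RB
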